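import Mathlib
import Pool.Agent.MP_975ab8_al.Defs

-- part MP_975ab8_al.Chain
section

namespace Pool.Agent.MP_975ab8_al

/-- Data of a finite chain ring: `γ` generates the maximal ideal, has nilpotency index `e`, and the
residue field has `q` elements. -/
structure Chain {R : Type*} [CommRing R] (γ : R) (e q : ℕ) : Prop where
  max : (Ideal.span {γ}).IsMaximal
  pow_eq : γ ^ e = 0
  pow_ne : ∀ t, t < e → γ ^ t ≠ 0
  card : Nat.card (R ⧸ Ideal.span {γ}) = q

variable {R : Type*} [CommRing R] {γ : R} {e q : ℕ}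

namespace Chain

theorem nontrivial (h : Chain γ e q) : Nontrivial R := by
  by_contra hn
  rw [not_nontrivial_iff_subsingleton] at hn
  exact h.max.ne_top (Subsingleton.elim _ _)

theorem e_pos (h : Chain γ e q) : 0 < e := by
  have := h.nontrivial
  rcases Nat.eq_zero_or_pos e with h0 | h0
  · have := h.pow_eq
    rw [h0, pow_zero] at this
    exact absurd this one_ne_zero
  · exact h0

theorem isUnit_of_not_dvd (h : Chain γ e q) {x : R} (hx : ¬ γ ∣ x) : IsUnit x := by
  have h1 : x ∉ Ideal.span {γ} := fun hm => hx (Ideal.mem_span_singleton.1 hm)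
  obtain ⟨y, i, hi, hyi⟩ := h.max.exists_inv h1
  obtain ⟨c, rfl⟩ := Ideal.mem_span_singleton.1 hi
  have hn : IsNilpotent (γ * c) := ⟨e, by rw [mul_pow, h.pow_eq, zero_mul]⟩
  have : IsUnit (y * x) := by
    have h2 : y * x = 1 - γ * c := by rw [← hyi]; ring
    rw [h2]
    exact hn.isUnit_one_sub
  exact isUnit_of_mul_isUnit_right this

theorem not_isUnit (h : Chain γ e q) : ¬ IsUnit γ := fun hu =>
  h.max.ne_top (Ideal.span_singleton_eq_top.2 hu)

theorem isLocalRing (h : Chain γ e q) : IsLocalRing R := by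
  have := h.nontrivial
  refine IsLocalRing.of_nonunits_add ?_
  intro a b ha hb hab
  have ha' : γ ∣ a := by by_contra hc; exact ha (h.isUnit_of_not_dvd hc)
  have hb' : γ ∣ b := by by_contra hc; exact hb (h.isUnit_of_not_dvd hc)
  exact h.not_isUnit (isUnit_of_dvd_unit (dvd_add ha' hb') hab)

theorem exists_eq (h : Chain γ e q) (x : R) : ∃ t u, t ≤ e ∧ IsUnit u ∧ x = γ ^ t * u := by
  classical
  have key : ∀ j, j ≤ e → ∀ x : R, γ ^ (e - j) ∣ x → ∃ t u, t ≤ e ∧ IsUnit u ∧ x = γ ^ t * u := by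
    intro j
    induction j with
    | zero =>
      intro _ x hx
      rw [Nat.sub_zero, h.pow_eq, zero_dvd_iff] at hx
      exact ⟨e, 1, le_rfl, isUnit_one, by rw [hx, h.pow_eq, zero_mul]⟩
    | succ j ih =>
      rintro hj x ⟨y, rfl⟩
      by_cases hy : γ ∣ y
      · obtain ⟨z, rfl⟩ := hy
        refine ih (by omega) _ ⟨z, ?_⟩
        rw [← mul_assoc, ← pow_succ]
        congr 2
        omega
      · exact ⟨e - (j + 1), y, by omega, h.isUnit_of_not_dvd hy, rfl⟩
  exact key e le_rfl x (by simp)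

theorem pow_dvd_iff (h : Chain γ e q) {s t : ℕ} {u : R} (hu : IsUnit u) :
    γ ^ s ∣ γ ^ t * u ↔ s ≤ t ∨ e ≤ t := by
  constructor
  · intro hd
    by_contra hc
    push Not at hc
    rw [hu.dvd_mul_right] at hd
    obtain ⟨c, hc'⟩ := hd
    obtain ⟨j, rfl⟩ : ∃ j, s = t + (j + 1) := ⟨s - t - 1, by omega⟩
    have hn : IsNilpotent (γ ^ (j + 1) * c) :=
      ⟨e, by rw [mul_pow, ← pow_mul, mul_comm (j + 1), pow_mul, h.pow_eq]; simp⟩
    have h1 : γ ^ t * (1 - γ ^ (j + 1) * c) = 0 := by
      rw [mul_sub, mul_one, ← mul_assoc, ← pow_add, ← hc', sub_self]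
    rw [hn.isUnit_one_sub.mul_left_eq_zero] at h1
    exact h.pow_ne t hc.2 h1
  · rintro (hst | het)
    · exact (pow_dvd_pow γ hst).mul_right u
    · rw [pow_eq_zero_of_le het h.pow_eq, zero_mul]
      exact dvd_zero _

theorem pow_eq_zero_iff (h : Chain γ e q) {t : ℕ} : γ ^ t = 0 ↔ e ≤ t :=
  ⟨fun h0 => by by_contra hc; exact h.pow_ne t (not_le.1 hc) h0,
    fun het => pow_eq_zero_of_le het h.pow_eq⟩

open Classical in
/-- The valuation, truncated at `e`. -/
noncomputable def val (γ : R) (e : ℕ) (x : R) : ℕ := Nat.findGreatest (fun t => γ ^ t ∣ x) e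

theorem val_eq (h : Chain γ e q) (t : ℕ) {u : R} (hu : IsUnit u) :
    val γ e (γ ^ t * u) = min t e := by
  classical
  unfold val
  rw [Nat.findGreatest_eq_iff]
  refine ⟨min_le_right _ _, fun _ => (h.pow_dvd_iff hu).2 (by omega), fun n h1 h2 => ?_⟩
  rw [h.pow_dvd_iff hu]
  omega

theorem val_eq_iff (h : Chain γ e q) {s : ℕ} (hs : s < e) {x : R} :
    val γ e x = s ↔ ∃ u, IsUnit u ∧ x = γ ^ s * u := by
  constructor
  · intro hv
    obtain ⟨t, u, ht, hu, rfl⟩ := h.exists_eq x
    rw [h.val_eq t hu] at hv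
    exact ⟨u, hu, by congr 2; omega⟩
  · rintro ⟨u, hu, rfl⟩
    rw [h.val_eq s hu]
    omega

theorem le_val_iff (h : Chain γ e q) {s : ℕ} (hs : s ≤ e) {x : R} :
    s ≤ val γ e x ↔ γ ^ s ∣ x := by
  obtain ⟨t, u, ht, hu, rfl⟩ := h.exists_eq x
  rw [h.val_eq t hu, h.pow_dvd_iff hu]
  omega

theorem val_le (γ : R) (e : ℕ) (x : R) : val γ e x ≤ e := by
  classical
  exact Nat.findGreatest_le e

theorem val_mul (h : Chain γ e q) (x y : R) :
    val γ e (x * y) = min (val γ e x + val γ e y) e := by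
  obtain ⟨t, u, ht, hu, rfl⟩ := h.exists_eq x
  obtain ⟨t', u', ht', hu', rfl⟩ := h.exists_eq y
  have : γ ^ t * u * (γ ^ t' * u') = γ ^ (t + t') * (u * u') := by ring
  rw [this, h.val_eq _ hu, h.val_eq _ hu', h.val_eq _ (hu.mul hu')]
  omega

theorem two_le_q [Finite R] (h : Chain γ e q) : 2 ≤ q := by
  have := h.max
  have : Nontrivial (R ⧸ Ideal.span {γ}) := Ideal.Quotient.nontrivial_iff.2 h.max.ne_top
  have : Finite (R ⧸ Ideal.span {γ}) := Finite.of_surjective _ Ideal.Quotient.mk_surjective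
  rw [← h.card]
  exact Finite.one_lt_card

theorem card_dvd_succ [Finite R] (h : Chain γ e q) {t : ℕ} (ht : t < e) :
    Nat.card {x : R // γ ^ t ∣ x} = q * Nat.card {x : R // γ ^ (t + 1) ∣ x} := by
  let I : Ideal R := Ideal.span {γ ^ t}
  let J : Ideal R := Ideal.span {γ ^ (t + 1)}
  have hI : Nat.card {x : R // γ ^ t ∣ x} = Nat.card I :=
    Nat.card_congr (Equiv.subtypeEquivRight fun x => Ideal.mem_span_singleton.symm)
  let J' : Submodule R I := Submodule.comap I.subtype J
  have hJ : Nat.card {x : R // γ ^ (t + 1) ∣ x} = Nat.card J' := by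
    refine Nat.card_congr ⟨fun x => ⟨⟨x.1, Ideal.mem_span_singleton.2
      ((pow_dvd_pow γ (Nat.le_succ t)).trans x.2)⟩, Ideal.mem_span_singleton.2 x.2⟩,
      fun y => ⟨y.1.1, Ideal.mem_span_singleton.1 y.2⟩, fun _ => rfl, fun _ => rfl⟩
  let f : R →ₗ[R] I ⧸ J' := J'.mkQ.comp
    (LinearMap.codRestrict I (LinearMap.mulLeft R (γ ^ t))
      (fun x => Ideal.mem_span_singleton.2 (dvd_mul_right _ _)))
  have hf : Function.Surjective f := by
    intro y
    obtain ⟨⟨x, hx⟩, rfl⟩ := J'.mkQ_surjective y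
    obtain ⟨c, rfl⟩ := Ideal.mem_span_singleton.1 hx
    exact ⟨c, rfl⟩
  have hker : LinearMap.ker f = Ideal.span {γ} := by
    ext x
    simp only [f, LinearMap.mem_ker, LinearMap.comp_apply, Submodule.mkQ_apply,
      Submodule.Quotient.mk_eq_zero, J', Submodule.mem_comap, J, Ideal.mem_span_singleton]
    change γ ^ (t + 1) ∣ γ ^ t * x ↔ _
    obtain ⟨s, u, hs, hu, rfl⟩ := h.exists_eq x
    have h1 := h.pow_dvd_iff (s := 1) (t := s) hu
    rw [pow_one] at h1
    rw [← mul_assoc, ← pow_add, h.pow_dvd_iff hu, h1]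
    omega
  have h1 : Nat.card (I ⧸ J') = q := by
    rw [← h.card, ← Nat.card_congr (f.quotKerEquivOfSurjective hf).toEquiv, hker]
  rw [hI, hJ, Submodule.card_eq_card_quotient_mul_card J', h1, mul_comm]

theorem card_dvd [Finite R] (h : Chain γ e q) {t : ℕ} (ht : t ≤ e) :
    Nat.card {x : R // γ ^ t ∣ x} = q ^ (e - t) := by
  have key : ∀ j, j ≤ e → Nat.card {x : R // γ ^ (e - j) ∣ x} = q ^ j := by
    intro j
    induction j with
    | zero =>
      intro _
      simp [h.pow_eq]
    | succ j ih =>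
      intro hj
      rw [h.card_dvd_succ (by omega), show e - (j + 1) + 1 = e - j by omega, ih (by omega),
        pow_succ']
  have := key (e - t) (by omega)
  rwa [show e - (e - t) = t by omega] at this

theorem card_eq [Finite R] (h : Chain γ e q) : Nat.card R = q ^ e := by
  have := h.card_dvd (Nat.zero_le e)
  simpa using this

end Chain

end Pool.Agent.MP_975ab8_al

end

-- part MP_975ab8_al.Etale
section

namespace Pool.Agent.MP_975ab8_al

open Finset PowerSeries

variable {R : Type*} [CommRing R] {γ : R} {e q : ℕ}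

/-- In a finite free module of rank `d`, the multiples of `γ ^ t` number `q ^ ((e - t) * d)`. -/
theorem card_smul_free [Finite R] (h : Chain γ e q) (M : Type*) [AddCommGroup M] [Module R M]
    [Module.Free R M] [Module.Finite R M] {t : ℕ} (ht : t ≤ e) :
    Nat.card {y : M // ∃ z, y = γ ^ t • z} = q ^ ((e - t) * Module.finrank R M) := by
  have := h.nontrivial
  let b := Module.finBasis R M
  have e1 : {y : M // ∃ z, y = γ ^ t • z} ≃ (Fin (Module.finrank R M) → {x : R // γ ^ t ∣ x}) := by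
    refine (Equiv.subtypeEquiv b.equivFun.toEquiv (q := fun v => ∀ i, γ ^ t ∣ v i) ?_).trans
      (Equiv.subtypePiEquivPi)
    intro y
    constructor
    · rintro ⟨z, rfl⟩ i
      simp
    · intro hy
      choose c hc using hy
      refine ⟨b.equivFun.symm c, b.equivFun.injective ?_⟩
      funext i
      rw [map_smul, LinearEquiv.apply_symm_apply]
      exact hc i
  rw [Nat.card_congr e1, Nat.card_pi, h.card_dvd ht]
  simp [pow_mul]

section Algebra

variable {Λ : Type*} [CommRing Λ] [Algebra R Λ] [Module.Free R Λ] [Module.Finite R Λ]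

/-- The part of `Λ` cut out by an idempotent. -/
abbrev part (R : Type*) [CommRing R] {Λ : Type*} [CommRing Λ] [Algebra R Λ] (ε : Λ) :
    Submodule R Λ := LinearMap.range (LinearMap.mulLeft R ε)

omit [Module.Free R Λ] [Module.Finite R Λ] in
theorem mem_part {ε : Λ} (hε : IsIdempotentElem ε) {y : Λ} : y ∈ part R ε ↔ ε * y = y := by
  constructor
  · rintro ⟨z, rfl⟩
    simp only [LinearMap.mulLeft_apply]
    rw [← mul_assoc, hε.eq]
  · intro hy
    exact ⟨y, hy⟩

theorem part_free (h : Chain γ e q) {ε : Λ} (hε : IsIdempotentElem ε) :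
    Module.Free R (part R ε) := by
  have := h.isLocalRing
  have : Module.Projective R (part R ε) := by
    refine Module.Projective.of_split (part R ε).subtype (LinearMap.mulLeft R ε).rangeRestrict ?_
    ext ⟨y, hy⟩
    exact (mem_part hε).1 hy
  exact Module.free_of_flat_of_isLocalRing

theorem norm_part (h : Chain γ e q) {ε : Λ} (hε : IsIdempotentElem ε) (c : R) :
    Algebra.norm R (1 - ε + algebraMap R Λ c * ε) = c ^ Module.finrank R (part R ε) := by
  have := h.nontrivial
  have := part_free (R := R) h hε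
  have := part_free (R := R) h hε.one_sub
  have hc : IsCompl (part R ε) (part R (1 - ε)) := by
    refine IsCompl.of_eq ?_ ?_
    · rw [eq_bot_iff]
      rintro y ⟨h1, h2⟩
      have h1' := (mem_part hε).1 h1
      have h2' := (mem_part hε.one_sub).1 h2
      rw [sub_mul, one_mul, h1', sub_self] at h2'
      exact h2'.symm
    · rw [eq_top_iff]
      intro y _
      refine Submodule.mem_sup.2 ⟨ε * y, ⟨y, rfl⟩, (1 - ε) * y, ⟨y, rfl⟩, by ring⟩
  let E := Submodule.prodEquivOfIsCompl _ _ hc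
  have key : Algebra.lmul R Λ (1 - ε + algebraMap R Λ c * ε) =
      E.toLinearMap ∘ₗ (LinearMap.prodMap (c • LinearMap.id) LinearMap.id) ∘ₗ
        E.symm.toLinearMap := by
    refine LinearMap.ext fun y => ?_
    obtain ⟨⟨⟨a, ha⟩, ⟨b, hb⟩⟩, rfl⟩ := E.surjective y
    have h1 := (mem_part hε).1 ha
    have h2 := (mem_part hε.one_sub).1 hb
    have h3 : ε * b = 0 := by linear_combination -h2
    simp only [LinearMap.comp_apply, LinearEquiv.coe_coe, LinearEquiv.symm_apply_apply]
    simp only [E, Submodule.coe_prodEquivOfIsCompl', LinearMap.prodMap_apply,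
      LinearMap.smul_apply, LinearMap.id_apply, Algebra.coe_lmul_eq_mul, LinearMap.mul_apply',
      Submodule.coe_smul]
    rw [Algebra.smul_def]
    linear_combination (algebraMap R Λ c - 1) * h1 + (algebraMap R Λ c - 1) * h3
  rw [Algebra.norm_apply, key, LinearMap.det_conj, LinearMap.det_prodMap, LinearMap.det_smul]
  simp

/-- The truncated power series ring in which the generating functions live. -/
abbrev Tr (e : ℕ) : Type := ℚ⟦X⟧ ⧸ Ideal.span {(X : ℚ⟦X⟧) ^ e}

/-- The weight of an element of `R`. -/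
noncomputable def chi (γ : R) (e q : ℕ) (x : R) : Tr e :=
  Ideal.Quotient.mk _ ((C (q : ℚ) * X) ^ Chain.val γ e x)

theorem mk_pow_eq_zero {t : ℕ} (ht : e ≤ t) (c : ℚ) :
    Ideal.Quotient.mk (Ideal.span {(X : ℚ⟦X⟧) ^ e}) ((C c * X) ^ t) = 0 := by
  rw [Ideal.Quotient.eq_zero_iff_mem, Ideal.mem_span_singleton, mul_pow]
  exact (pow_dvd_pow _ ht).mul_left _

theorem chi_eq (h : Chain γ e q) (t : ℕ) {u : R} (hu : IsUnit u) :
    chi γ e q (γ ^ t * u) = Ideal.Quotient.mk _ ((C (q : ℚ) * X) ^ t) := by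
  unfold chi
  rw [h.val_eq t hu]
  rcases le_total t e with hte | hte
  · rw [min_eq_left hte]
  · rw [min_eq_right hte, mk_pow_eq_zero le_rfl, mk_pow_eq_zero hte]

theorem chi_mul (h : Chain γ e q) (x y : R) : chi γ e q (x * y) = chi γ e q x * chi γ e q y := by
  obtain ⟨t, u, ht, hu, rfl⟩ := h.exists_eq x
  obtain ⟨t', u', ht', hu', rfl⟩ := h.exists_eq y
  have : γ ^ t * u * (γ ^ t' * u') = γ ^ (t + t') * (u * u') := by ring
  rw [this, chi_eq h _ hu, chi_eq h _ hu', chi_eq h _ (hu.mul hu'), pow_add, map_mul]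

theorem chi_one (h : Chain γ e q) : chi γ e q 1 = 1 := by
  have := chi_eq h 0 isUnit_one
  simpa using this

/-- `chi` as a monoid homomorphism. -/
noncomputable def chiHom (h : Chain γ e q) : R →* Tr e where
  toFun := chi γ e q
  map_one' := chi_one h
  map_mul' := chi_mul h

/-- The local factor. -/
theorem local_factor [Finite R] (h : Chain γ e q) {ε : Λ} (hε : IsIdempotentElem ε)
    [Fintype (part R ε)] (d : ℕ) (hd : Module.finrank R (part R ε) = d) (hd0 : 0 < d)
    (hunit : ∀ y : part R ε, (¬ ∃ z : part R ε, y = γ • z) → IsUnit (1 - ε + (y : Λ))) :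
    ∑ y : part R ε, chi γ e q (Algebra.norm R (1 - ε + (y : Λ))) =
      Ideal.Quotient.mk _ (C ((q : ℚ) ^ (d * e) * (1 - ((q : ℚ) ^ d)⁻¹)) *
        (1 - X ^ d : ℚ⟦X⟧)⁻¹) := by
  classical
  have := part_free (R := R) h hε
  have hq : (q : ℚ) ≠ 0 := by have := h.two_le_q; positivity
  let P : ℕ → part R ε → Prop := fun t y => ∃ z, y = γ ^ t • z
  have hP : ∀ t, t ≤ e → (univ.filter (P t)).card = q ^ ((e - t) * d) := by
    intro t ht
    rw [← hd, ← card_smul_free h (part R ε) ht, Nat.card_eq_fintype_card, Fintype.card_subtype]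
  have hPs : ∀ t y, P (t + 1) y → P t y := by
    rintro t y ⟨z, rfl⟩
    exact ⟨γ • z, by rw [smul_smul, pow_succ]⟩
  have hval : ∀ t (y : part R ε), P t y → ¬ P (t + 1) y →
      chi γ e q (Algebra.norm R (1 - ε + (y : Λ))) =
        Ideal.Quotient.mk _ ((C (q : ℚ) * X) ^ (d * t)) := by
    rintro t y ⟨z, rfl⟩ hn
    have hz : ¬ ∃ w : part R ε, z = γ • w := by
      rintro ⟨w, rfl⟩
      exact hn ⟨w, by rw [smul_smul, pow_succ]⟩
    have hu := hunit z hz
    have hz' := (mem_part hε).1 z.2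
    have e1 : 1 - ε + ((γ ^ t • z : part R ε) : Λ) =
        (1 - ε + algebraMap R Λ (γ ^ t) * ε) * (1 - ε + z) := by
      rw [Submodule.coe_smul, Algebra.smul_def]
      have := hε.eq
      linear_combination (-1 + algebraMap R Λ (γ ^ t)) * this +
        (1 - algebraMap R Λ (γ ^ t)) * hz'
    rw [e1, map_mul, norm_part h hε, hd, ← pow_mul, mul_comm t d]
    exact chi_eq h _ (hu.map _)
  have hzero : ∀ y : part R ε, P e y → chi γ e q (Algebra.norm R (1 - ε + (y : Λ))) = 0 := by
    rintro y ⟨z, rfl⟩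
    have e1 := norm_part h hε (γ ^ e)
    rw [h.pow_eq] at e1 ⊢
    simp only [map_zero, zero_mul, zero_smul, ZeroMemClass.coe_zero] at e1 ⊢
    rw [e1, hd, zero_pow hd0.ne']
    have := chi_eq h e isUnit_one
    rw [h.pow_eq, zero_mul] at this
    rw [this, mk_pow_eq_zero le_rfl]
  have key : ∀ j, j ≤ e → ∑ y ∈ univ.filter (fun y => ¬ P j y),
      chi γ e q (Algebra.norm R (1 - ε + (y : Λ))) =
      Ideal.Quotient.mk _ (C ((q : ℚ) ^ (d * e) * (1 - ((q : ℚ) ^ d)⁻¹)) *
        ∑ t ∈ range j, (X ^ d : ℚ⟦X⟧) ^ t) := by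
    intro j
    induction j with
    | zero =>
      intro _
      rw [Finset.filter_false_of_mem (fun y _ hy => hy ⟨y, by simp⟩)]
      simp
    | succ j ih =>
      intro hj
      have hsplit : univ.filter (fun y => ¬ P (j + 1) y) =
          univ.filter (fun y => ¬ P j y) ∪ (univ.filter (P j) \ univ.filter (P (j + 1))) := by
        ext y
        simp only [mem_filter, mem_univ, true_and, mem_union, mem_sdiff]
        have := hPs j y
        tauto
      have hsub : univ.filter (P (j + 1)) ⊆ univ.filter (P j) := by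
        intro y hy
        simp only [mem_filter, mem_univ, true_and] at hy ⊢
        exact hPs j y hy
      rw [hsplit, Finset.sum_union (by
        rw [Finset.disjoint_left]
        intro y hy hy'
        simp only [mem_filter, mem_univ, true_and, mem_sdiff] at hy hy'
        exact hy hy'.1), ih (by omega), Finset.sum_range_succ, mul_add, map_add]
      congr 1
      rw [Finset.sum_congr rfl (g := fun _ => Ideal.Quotient.mk _ ((C (q : ℚ) * X) ^ (d * j)))
        (fun y hy => by
          simp only [mem_filter, mem_univ, true_and, mem_sdiff] at hy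
          exact hval j y hy.1 hy.2)]
      rw [Finset.sum_const, Finset.card_sdiff_of_subset hsub, hP j (by omega), hP (j + 1) hj,
        ← map_nsmul]
      congr 1
      rw [mul_pow, ← map_pow, nsmul_eq_mul, ← mul_assoc, ← pow_mul, ← map_natCast (C : ℚ →+* _),
        ← map_mul]
      congr 2
      have hle : q ^ ((e - (j + 1)) * d) ≤ q ^ ((e - j) * d) :=
        Nat.pow_le_pow_right (by have := h.two_le_q; omega)
          (Nat.mul_le_mul_right _ (by omega))
      rw [Nat.cast_sub hle]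
      obtain ⟨r, rfl⟩ : ∃ r, e = j + 1 + r := ⟨e - (j + 1), by omega⟩
      rw [show j + 1 + r - j = r + 1 by omega, show j + 1 + r - (j + 1) = r by omega]
      push_cast
      field_simp
      ring
  rw [← Finset.sum_filter_add_sum_filter_not univ (P e),
    Finset.sum_eq_zero (fun y hy => hzero y (mem_filter.1 hy).2), zero_add, key e le_rfl]
  rw [Ideal.Quotient.eq, Ideal.mem_span_singleton, ← mul_sub]
  refine Dvd.dvd.mul_left ?_ _
  have hc : constantCoeff (1 - X ^ d : ℚ⟦X⟧) ≠ 0 := by simp [hd0.ne']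
  have h1 := PowerSeries.mul_inv_cancel _ hc
  have h2 := mul_neg_geom_sum (X ^ d : ℚ⟦X⟧) e
  have h3 : ∑ t ∈ range e, (X ^ d : ℚ⟦X⟧) ^ t - (1 - X ^ d)⁻¹ =
      - (X ^ d) ^ e * (1 - X ^ d)⁻¹ := by
    linear_combination (-∑ t ∈ range e, (X ^ d : ℚ⟦X⟧) ^ t) * h1 + (1 - X ^ d : ℚ⟦X⟧)⁻¹ * h2
  rw [h3, ← pow_mul]
  exact (dvd_neg.2 (pow_dvd_pow _ (Nat.le_mul_of_pos_left _ hd0))).mul_right _

/-- The generating function of the valuations of norms in an unramified algebra. -/
theorem count_val [Finite R] (h : Chain γ e q) {ι : Type*} [Fintype ι] (K : ι → Type*)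
    [∀ i, Field (K i)] (π : Λ →+* ∀ i, K i) (hsurj : Function.Surjective π)
    (hker : ∀ x, π x = 0 ↔ algebraMap R Λ γ ∣ x) (d : ι → ℕ)
    (hd : ∀ i, Nat.card (K i) = q ^ d i) (hd0 : ∀ i, 0 < d i) {s : ℕ} (hs : s < e) :
    (q : ℚ) ^ s * (Nat.card {f : Λ // Chain.val γ e (Algebra.norm R f) = s} : ℚ) =
      (∏ i, (q : ℚ) ^ (d i * e) * (1 - ((q : ℚ) ^ d i)⁻¹)) *
        coeff s (∏ i, (1 - X ^ d i : ℚ⟦X⟧)⁻¹) := by
  classical
  have : Finite Λ := Module.finite_of_finite R
  have := Fintype.ofFinite Λ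
  have hnil : ∀ x ∈ RingHom.ker π, IsNilpotent x := by
    intro x hx
    obtain ⟨c, rfl⟩ := (hker x).1 hx
    exact ⟨e, by rw [mul_pow, ← map_pow, h.pow_eq, map_zero, zero_mul]⟩
  obtain ⟨ε, hε, hπε⟩ := CompleteOrthogonalIdempotents.lift_of_isNilpotent_ker π hnil
    (CompleteOrthogonalIdempotents.single K) (fun i => hsurj _)
  have hπε' : ∀ i, π (ε i) = Pi.single i 1 := fun i => congrFun hπε i
  have hu : ∀ x : Λ, IsUnit (π x) → IsUnit x := by
    intro x hx
    obtain ⟨y, hy⟩ := hx.exists_right_inv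
    obtain ⟨z, rfl⟩ := hsurj y
    have h1 : IsNilpotent (1 - x * z) := hnil _ (by simp [RingHom.mem_ker, hy])
    have h2 := h1.isUnit_one_sub
    rw [sub_sub_cancel] at h2
    exact isUnit_of_mul_isUnit_left h2
  have hcomp : ∀ i (y : part R (ε i)), π y i = 0 ↔ ∃ z : part R (ε i), y = γ • z := by
    intro i y
    have hy := (mem_part (hε.idem i)).1 y.2
    constructor
    · intro h0
      have : π y = 0 := by
        rw [← hy, map_mul, hπε']
        funext j
        by_cases hj : j = i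
        · subst hj; simp [h0]
        · simp [hj]
      obtain ⟨c, hc⟩ := (hker _).1 this
      refine ⟨⟨ε i * c, c, rfl⟩, Subtype.ext ?_⟩
      rw [Submodule.coe_smul, Algebra.smul_def, ← hy, hc]
      ring
    · rintro ⟨z, rfl⟩
      have := (hker (algebraMap R Λ γ * z)).2 (dvd_mul_right _ _)
      rw [Submodule.coe_smul, Algebra.smul_def, this]
      rfl
  have hunit : ∀ i (y : part R (ε i)), (¬ ∃ z : part R (ε i), y = γ • z) →
      IsUnit (1 - ε i + (y : Λ)) := by
    intro i y hn
    rw [← hcomp] at hn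
    have hy := (mem_part (hε.idem i)).1 y.2
    apply hu
    rw [Pi.isUnit_iff]
    intro j
    by_cases hj : j = i
    · subst hj
      simpa [hπε'] using hn
    · have : π y j = 0 := by
        rw [← hy, map_mul, hπε']
        simp [hj]
      simp [hπε', hj, this]
  have hrank : ∀ i, Module.finrank R (part R (ε i)) = d i := by
    intro i
    have := part_free (R := R) h (hε.idem i)
    let g : part R (ε i) →+ K i :=
      ((Pi.evalRingHom K i).comp π).toAddMonoidHom.comp (part R (ε i)).subtype.toAddMonoidHom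
    have hg : Function.Surjective g := by
      intro a
      obtain ⟨x, hx⟩ := hsurj (Pi.single i a)
      refine ⟨⟨ε i * x, x, rfl⟩, ?_⟩
      simp [g, hπε', hx]
    have h1 := AddSubgroup.card_eq_card_quotient_mul_card_addSubgroup g.ker
    rw [Nat.card_congr (QuotientAddGroup.quotientKerEquivOfSurjective g hg).toEquiv, hd i] at h1
    have h2 : Nat.card g.ker = q ^ ((e - 1) * Module.finrank R (part R (ε i))) := by
      rw [← card_smul_free h (part R (ε i)) h.e_pos]
      refine Nat.card_congr (Equiv.subtypeEquivRight fun y => ?_)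
      rw [pow_one, ← hcomp]
      rfl
    have h3 := card_smul_free h (part R (ε i)) (Nat.zero_le e)
    simp only [pow_zero, one_smul, exists_eq', Nat.sub_zero] at h3
    rw [Nat.card_congr (Equiv.subtypeUnivEquiv (fun _ => trivial))] at h3
    rw [h2, h3, ← pow_add] at h1
    have h4 := Nat.pow_right_injective h.two_le_q h1
    have := h.e_pos
    obtain ⟨r, rfl⟩ : ∃ r, e = r + 1 := ⟨e - 1, by omega⟩
    simp only [Nat.add_sub_cancel] at h4
    nlinarith
  let E : Λ ≃ ∀ i, part R (ε i) :=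
    { toFun := fun f i => ⟨ε i * f, f, rfl⟩
      invFun := fun y => ∑ i, (y i : Λ)
      left_inv := fun f => by
        simp only
        rw [← Finset.sum_mul, hε.complete, one_mul]
      right_inv := fun y => by
        funext i
        refine Subtype.ext ?_
        simp only
        rw [Finset.mul_sum, Finset.sum_eq_single i]
        · exact (mem_part (hε.idem i)).1 (y i).2
        · intro j _ hj
          rw [← (mem_part (hε.idem j)).1 (y j).2, ← mul_assoc, hε.ortho hj.symm, zero_mul]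
        · simp }
  have hprod : ∀ f : Λ, f = ∏ i, (1 - ε i + ε i * f) := by
    intro f
    have key : ∀ S : Finset ι, ∏ i ∈ S, (1 - ε i + ε i * f) =
        1 - ∑ i ∈ S, ε i + (∑ i ∈ S, ε i) * f := by
      intro S
      induction S using Finset.induction_on with
      | empty => simp
      | insert a S ha ih =>
        rw [Finset.prod_insert ha, Finset.sum_insert ha, ih]
        have : ε a * ∑ i ∈ S, ε i = 0 := by
          rw [Finset.mul_sum]
          exact Finset.sum_eq_zero fun j hj => hε.ortho (fun hh => ha (hh ▸ hj))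
        linear_combination (1 - f) ^ 2 * this
    rw [key, hε.complete]
    ring
  have hsum : ∑ f : Λ, chi γ e q (Algebra.norm R f) =
      Ideal.Quotient.mk _ (∏ i, (C ((q : ℚ) ^ (d i * e) * (1 - ((q : ℚ) ^ d i)⁻¹)) *
        (1 - X ^ d i : ℚ⟦X⟧)⁻¹)) := by
    rw [map_prod, ← Finset.prod_congr rfl (fun i _ =>
      local_factor h (hε.idem i) (d i) (hrank i) (hd0 i) (hunit i)), Finset.prod_univ_sum]
    rw [Fintype.piFinset_univ]
    refine Fintype.sum_equiv E _ _ (fun f => ?_)
    conv_lhs => rw [hprod f]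
    rw [map_prod]
    exact map_prod (chiHom h) _ _
  unfold chi at hsum
  rw [← map_sum, Ideal.Quotient.eq, Ideal.mem_span_singleton, X_pow_dvd_iff] at hsum
  have h1 := hsum s hs
  rw [map_sub, sub_eq_zero, Finset.prod_mul_distrib, ← map_prod, coeff_C_mul, map_sum] at h1
  rw [← h1, Nat.card_eq_fintype_card, Fintype.card_subtype, Finset.card_filter]
  push_cast
  rw [Finset.mul_sum]
  refine Finset.sum_congr rfl (fun f _ => ?_)
  rw [mul_pow, ← map_pow, coeff_C_mul, coeff_X_pow]
  by_cases hf : Chain.val γ e (Algebra.norm R f) = s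
  · simp [hf]
  · simp [hf, Ne.symm hf]

end Algebra

end Pool.Agent.MP_975ab8_al

end

-- part MP_975ab8_al.Cyclo
section

namespace Pool.Agent.MP_975ab8_al

open Finset Polynomial UniqueFactorizationMonoid

/-- Products over the irreducible factors of `X ^ m - 1` over a finite field. -/
theorem prod_factors {F : Type*} [Field F] [Fintype F] [DecidableEq F] {p f m : ℕ}
    [hp : Fact p.Prime] [CharP F p]
    (hF : Fintype.card F = p ^ f) (hm : ¬ p ∣ m) {M : Type*} [CommMonoid M] (g : ℕ → M) :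
    ∏ P ∈ (normalizedFactors (X ^ m - 1 : F[X])).toFinset, g P.natDegree =
      ∏ d ∈ m.divisors, g (ord (p ^ f) d) ^ (Nat.totient d / ord (p ^ f) d) := by
  have hm0 : 0 < m := Nat.pos_of_ne_zero (fun h => hm (h ▸ dvd_zero p))
  have hmF : (m : F) ≠ 0 := by rwa [Ne, CharP.cast_eq_zero_iff F p]
  have hne : (X ^ m - 1 : F[X]) ≠ 0 := X_pow_sub_C_ne_zero hm0 1
  have hnd : (normalizedFactors (X ^ m - 1 : F[X])).Nodup :=
    (squarefree_iff_nodup_normalizedFactors hne).1
      (X_pow_sub_one_separable_iff.2 hmF).squarefree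
  have h1 : ∏ P ∈ (normalizedFactors (X ^ m - 1 : F[X])).toFinset, g P.natDegree =
      ((normalizedFactors (X ^ m - 1 : F[X])).map (fun P => g P.natDegree)).prod := by
    rw [Finset.prod, Multiset.toFinset_val, hnd.dedup]
  have h2 : ∀ S : Finset ℕ, ((normalizedFactors (∏ d ∈ S, cyclotomic d F)).map
      (fun P => g P.natDegree)).prod =
      ∏ d ∈ S, ((normalizedFactors (cyclotomic d F)).map (fun P => g P.natDegree)).prod := by
    intro S
    induction S using Finset.induction_on with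
    | empty => simp
    | insert a S ha ih =>
      rw [Finset.prod_insert ha, Finset.prod_insert ha, normalizedFactors_mul
        (cyclotomic_ne_zero a F) (Finset.prod_ne_zero_iff.2 fun d _ => cyclotomic_ne_zero d F),
        Multiset.map_add, Multiset.prod_add, ih]
  rw [h1, ← prod_cyclotomic_eq_X_pow_sub_one hm0 F, h2]
  refine Finset.prod_congr rfl (fun d hd => ?_)
  have hdm : d ∣ m := Nat.dvd_of_mem_divisors hd
  have hpd : ¬ p ∣ d := fun h => hm (h.trans hdm)
  have hcop : p.Coprime d := hp.out.coprime_iff_not_dvd.2 hpd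
  have hord : orderOf (ZMod.unitOfCoprime _ (hcop.pow_left f)) = ord (p ^ f) d := by
    unfold ord
    rw [← orderOf_units, ZMod.coe_unitOfCoprime]
  have : NeZero (d : F) := ⟨by rwa [Ne, CharP.cast_eq_zero_iff F p]⟩
  have hnd' : (normalizedFactors (cyclotomic d F)).Nodup :=
    (squarefree_iff_nodup_normalizedFactors (cyclotomic_ne_zero d F)).1
      (separable_cyclotomic d F).squarefree
  have hc := normalizedFactors_cyclotomic_card hF hcop
  rw [Multiset.toFinset_card_of_nodup hnd', hord] at hc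
  rw [Multiset.map_congr rfl (g := fun _ => g (ord (p ^ f) d)) (fun P hP => by
    rw [natDegree_of_mem_normalizedFactors_cyclotomic hF hcop hP, hord])]
  simp [hc]

variable {R : Type*} [CommRing R] {γ : R} {e q : ℕ}

theorem monic_cyc {n : ℕ} (hn : 0 < n) : (X ^ n - 1 : R[X]).Monic :=
  monic_X_pow_sub_C 1 hn.ne'

theorem count_val_cyc [Finite R] (h : Chain γ e q) {p m : ℕ} (hp : p.Prime) (hpq : p ∣ q)
    (hm : ¬ p ∣ m) {s : ℕ} (hs : s < e) :
    (q : ℚ) ^ s * (Nat.card {f : AdjoinRoot (X ^ m - 1 : R[X]) //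
        Chain.val γ e (Algebra.norm R f) = s} : ℚ) =
      (q : ℚ) ^ e * (1 - (q : ℚ)⁻¹) * unitCount m q e * coeffA m q s := by
  classical
  have hm0 : 0 < m := Nat.pos_of_ne_zero (fun h => hm (h ▸ dvd_zero p))
  have := h.max
  let F := R ⧸ Ideal.span {γ}
  let _ : Field F := Ideal.Quotient.field _
  have : Finite F := Finite.of_surjective _ Ideal.Quotient.mk_surjective
  let _ : Fintype F := Fintype.ofFinite F
  obtain ⟨p', hp'c, f, hp', hF⟩ := FiniteField.card' F
  have hq : q = p' ^ (f : ℕ) := by rw [← hF, ← h.card, Nat.card_eq_fintype_card]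
  obtain rfl : p = p' := (Nat.prime_dvd_prime_iff_eq hp hp').1 (hp.dvd_of_dvd_pow (hq ▸ hpq))
  have : Fact p.Prime := ⟨hp⟩
  have hmF : (m : F) ≠ 0 := by rwa [Ne, CharP.cast_eq_zero_iff F p]
  have hne : (X ^ m - 1 : F[X]) ≠ 0 := X_pow_sub_C_ne_zero hm0 1
  have hnd : (normalizedFactors (X ^ m - 1 : F[X])).Nodup :=
    (squarefree_iff_nodup_normalizedFactors hne).1
      (X_pow_sub_one_separable_iff.2 hmF).squarefree
  let S := (normalizedFactors (X ^ m - 1 : F[X])).toFinset
  have hirr : ∀ P : S, Irreducible (P : F[X]) := fun P =>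
    irreducible_of_normalized_factor _ (Multiset.mem_toFinset.1 P.2)
  have hfact : ∀ P : S, Fact (Irreducible (P : F[X])) := fun P => ⟨hirr P⟩
  have hdvd : ∀ P : S, (P : F[X]) ∣ (X ^ m - 1 : R[X]).map (Ideal.Quotient.mk _) := fun P => by
    rw [Polynomial.map_sub, Polynomial.map_pow, map_X, Polynomial.map_one]
    exact dvd_of_mem_normalizedFactors (Multiset.mem_toFinset.1 P.2)
  have hcop : ∀ P Q : S, P ≠ Q → IsCoprime (P : F[X]) (Q : F[X]) := by
    intro P Q hPQ
    refine (hirr P).coprime_iff_not_dvd.2 (fun hd => hPQ (Subtype.ext ?_))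
    have h1 := (hirr P).associated_of_dvd (hirr Q) hd
    have h2 := normalize_eq_normalize_iff_associated.2 h1
    rwa [normalize_normalized_factor _ (Multiset.mem_toFinset.1 P.2),
      normalize_normalized_factor _ (Multiset.mem_toFinset.1 Q.2)] at h2
  have hprod : Associated (∏ P : S, (P : F[X])) (X ^ m - 1) := by
    have := prod_normalizedFactors hne
    rw [Finset.prod_coe_sort S (fun P => P), Finset.prod, Multiset.toFinset_val, hnd.dedup,
      Multiset.map_id']
    exact this
  let π : AdjoinRoot (X ^ m - 1 : R[X]) →+* ∀ P : S, AdjoinRoot (P : F[X]) :=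
    RingHom.pi fun P => AdjoinRoot.map (Ideal.Quotient.mk _) _ _ (hdvd P)
  have hπ : ∀ (g : R[X]) (P : S), π (AdjoinRoot.mk _ g) P =
      AdjoinRoot.mk _ (g.map (Ideal.Quotient.mk _)) := by
    intro g P
    have : (AdjoinRoot.map (Ideal.Quotient.mk _) _ _ (hdvd P)).comp (AdjoinRoot.mk _) =
        (AdjoinRoot.mk (P : F[X])).comp (Polynomial.mapRingHom (Ideal.Quotient.mk _)) := by
      ext x
      · simp
      · simp
    exact RingHom.congr_fun this g
  have hsurj : Function.Surjective π := by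
    intro y
    obtain ⟨r, hr⟩ := Ideal.pi_quotient_surjective (I := fun P : S => Ideal.span {(P : F[X])})
      (fun P Q hPQ => (Ideal.isCoprime_span_singleton_iff _ _).2 (hcop P Q hPQ)) y
    obtain ⟨g, rfl⟩ := Polynomial.map_surjective (Ideal.Quotient.mk (Ideal.span {γ}))
      Ideal.Quotient.mk_surjective r
    exact ⟨AdjoinRoot.mk _ g, funext fun P => (hπ g P).trans (hr P)⟩
  have hker : ∀ x, π x = 0 ↔ algebraMap R _ γ ∣ x := by
    intro x
    constructor
    · intro hx
      obtain ⟨g, rfl⟩ := AdjoinRoot.mk_surjective x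
      have h1 : ∀ P : S, (P : F[X]) ∣ g.map (Ideal.Quotient.mk _) := fun P => by
        rw [← AdjoinRoot.mk_eq_zero, ← hπ, hx]
        rfl
      have h2 : (∏ P : S, (P : F[X])) ∣ g.map (Ideal.Quotient.mk _) :=
        Finset.prod_dvd_of_coprime (fun P _ Q _ hPQ => hcop P Q hPQ) (fun P _ => h1 P)
      obtain ⟨c, hc⟩ := hprod.symm.dvd.trans h2
      obtain ⟨c', rfl⟩ := Polynomial.map_surjective (Ideal.Quotient.mk (Ideal.span {γ}))
        Ideal.Quotient.mk_surjective c
      have h3 : g - (X ^ m - 1) * c' ∈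
          RingHom.ker (Polynomial.mapRingHom (Ideal.Quotient.mk (Ideal.span {γ}))) := by
        rw [RingHom.mem_ker, Polynomial.coe_mapRingHom, Polynomial.map_sub, hc]
        simp
      rw [Polynomial.ker_mapRingHom, Ideal.mk_ker, Ideal.map_span, Set.image_singleton,
        Ideal.mem_span_singleton] at h3
      obtain ⟨w, hw⟩ := h3
      refine ⟨AdjoinRoot.mk _ w, ?_⟩
      have : g = (X ^ m - 1) * c' + C γ * w := by rw [← hw]; ring
      rw [this, map_add, map_mul, AdjoinRoot.mk_self, zero_mul, zero_add, map_mul]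
      rfl
    · rintro ⟨c, rfl⟩
      have : π (algebraMap R _ γ) = 0 := by
        funext P
        have := hπ (C γ) P
        rw [Polynomial.map_C, Ideal.Quotient.eq_zero_iff_mem.2 (Ideal.mem_span_singleton_self γ),
          map_zero, map_zero] at this
        exact this
      rw [map_mul, this, zero_mul]
  have hcard : ∀ P : S, Nat.card (AdjoinRoot (P : F[X])) = q ^ (P : F[X]).natDegree := by
    intro P
    have := (AdjoinRoot.powerBasis (hirr P).ne_zero).finite
    rw [Module.natCard_eq_pow_finrank (K := F), (AdjoinRoot.powerBasis (hirr P).ne_zero).finrank,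
      h.card]
    rfl
  have := (monic_cyc (R := R) hm0).free_adjoinRoot
  have := (monic_cyc (R := R) hm0).finite_adjoinRoot
  rw [count_val h (fun P : S => AdjoinRoot (P : F[X])) π hsurj hker
    (fun P => (P : F[X]).natDegree) hcard (fun P => (hirr P).natDegree_pos) hs]
  rw [Finset.prod_coe_sort S (fun P => (1 - PowerSeries.X ^ P.natDegree : PowerSeries ℚ)⁻¹),
    prod_factors hF hm (fun d => (1 - PowerSeries.X ^ d : PowerSeries ℚ)⁻¹), ← hq,
    Finset.prod_mul_distrib, Finset.prod_pow_eq_pow_sum, ← Finset.sum_mul,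
    Finset.prod_coe_sort S (fun P => (1 - ((q : ℚ) ^ P.natDegree)⁻¹)),
    prod_factors hF hm (fun d => (1 - ((q : ℚ) ^ d)⁻¹)), ← hq]
  have hdeg : ∑ P : S, (P : F[X]).natDegree = m := by
    rw [← natDegree_prod _ _ (fun P _ => (hirr P).ne_zero),
      natDegree_eq_of_degree_eq (degree_eq_degree_of_associated hprod)]
    exact natDegree_X_pow_sub_C
  have h1 : 1 ∈ m.divisors := Nat.one_mem_divisors.2 hm0.ne'
  have ho : ord q 1 = 1 := by
    unfold ord
    rw [Subsingleton.elim (q : ZMod 1) 1, orderOf_one]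
  rw [hdeg, ← Finset.mul_prod_erase _ _ h1, ho]
  unfold unitCount coeffA
  obtain ⟨r, rfl⟩ : ∃ r, m = r + 1 := ⟨m - 1, by omega⟩
  simp only [Nat.totient_one, Nat.div_one, pow_one, Nat.add_sub_cancel]
  ring

end Pool.Agent.MP_975ab8_al

end

-- part MP_975ab8_al.Norm
section

namespace Pool.Agent.MP_975ab8_al

open Finset Polynomial

variable {R : Type*} [CommRing R]

/-- Multiplicativity of the determinant in a short exact sequence. -/
theorem det_exact {A B D : Type*} [AddCommGroup A] [AddCommGroup B] [AddCommGroup D]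
    [Module R A] [Module R B] [Module R D] [Module.Free R A] [Module.Finite R A]
    [Module.Free R D] [Module.Finite R B] (i : A →ₗ[R] B) (π : B →ₗ[R] D)
    (hi : Function.Injective i) (hπ : Function.Surjective π)
    (hex : LinearMap.range i = LinearMap.ker π) (fA : A →ₗ[R] A) (fB : B →ₗ[R] B)
    (fD : D →ₗ[R] D) (h1 : ∀ a, fB (i a) = i (fA a)) (h2 : ∀ b, π (fB b) = fD (π b)) :
    fB.det = fA.det * fD.det := by
  let W := LinearMap.ker π
  let E1 : A ≃ₗ[R] W := (LinearEquiv.ofInjective i hi).trans (LinearEquiv.ofEq _ _ hex)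
  let E2 : (B ⧸ W) ≃ₗ[R] D := π.quotKerEquivOfSurjective hπ
  have : Module.Free R W := Module.Free.of_equiv E1
  have : Module.Finite R W := Module.Finite.equiv E1
  have : Module.Free R (B ⧸ W) := Module.Free.of_equiv E2.symm
  have hW : W ≤ W.comap fB := by
    intro b hb
    have hb' : π b = 0 := hb
    change π (fB b) = 0
    rw [h2, hb', map_zero]
  rw [LinearMap.det_eq_det_mul_det W fB hW, ← LinearMap.det_conj fA E1,
    ← LinearMap.det_conj fD E2.symm]
  congr 2
  · refine LinearMap.ext fun w => ?_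
    obtain ⟨a, rfl⟩ := E1.surjective w
    refine Subtype.ext ?_
    simp only [LinearMap.comp_apply, LinearEquiv.coe_coe, LinearEquiv.symm_apply_apply]
    exact h1 a
  · refine LinearMap.ext fun w => ?_
    obtain ⟨b, rfl⟩ := W.mkQ_surjective w
    apply E2.injective
    simp only [LinearMap.comp_apply, LinearEquiv.coe_coe, LinearEquiv.apply_symm_apply,
      LinearEquiv.symm_symm]
    exact h2 b

theorem norm_mk_mul {P Q : R[X]} (hP : P.Monic) (hQ : Q.Monic) (f : R[X]) :
    Algebra.norm R (AdjoinRoot.mk (P * Q) f) =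
      Algebra.norm R (AdjoinRoot.mk Q f) * Algebra.norm R (AdjoinRoot.mk P f) := by
  have := hP.free_adjoinRoot
  have := hQ.free_adjoinRoot
  have := hQ.finite_adjoinRoot
  have := (hP.mul hQ).finite_adjoinRoot
  let μ : AdjoinRoot Q →ₗ[R] AdjoinRoot (P * Q) :=
    (AdjoinRoot.mkₐ (P * Q)).toLinearMap ∘ₗ LinearMap.mulLeft R P ∘ₗ AdjoinRoot.modByMonicHom hQ
  have hμ : ∀ g, μ (AdjoinRoot.mk Q g) = AdjoinRoot.mk (P * Q) (P * g) := by
    intro g
    change AdjoinRoot.mk (P * Q) (P * (g %ₘ Q)) = _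
    rw [AdjoinRoot.mk_eq_mk, modByMonic_eq_sub_mul_div]
    exact ⟨-(g /ₘ Q), by ring⟩
  let ρ := AdjoinRoot.algHomOfDvd R (P * Q) P (dvd_mul_right _ _)
  have hρ : ∀ g, ρ (AdjoinRoot.mk _ g) = AdjoinRoot.mk P g := by
    intro g
    have : ρ.comp (AdjoinRoot.mkₐ (P * Q)) = AdjoinRoot.mkₐ P := by
      ext
      simp [ρ]
    exact AlgHom.congr_fun this g
  simp only [Algebra.norm_apply]
  refine det_exact μ ρ.toLinearMap ?_ ?_ ?_ _ _ _ ?_ ?_
  · rw [injective_iff_map_eq_zero]
    intro x hx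
    obtain ⟨g, rfl⟩ := AdjoinRoot.mk_surjective x
    rw [hμ, AdjoinRoot.mk_eq_zero] at hx
    obtain ⟨c, hc⟩ := hx
    rw [mul_assoc] at hc
    exact AdjoinRoot.mk_eq_zero.2 ⟨c, hP.isRegular.left hc⟩
  · intro x
    obtain ⟨g, rfl⟩ := AdjoinRoot.mk_surjective x
    exact ⟨AdjoinRoot.mk _ g, hρ g⟩
  · ext x
    obtain ⟨g, rfl⟩ := AdjoinRoot.mk_surjective x
    rw [LinearMap.mem_ker, LinearMap.mem_range]
    rw [AlgHom.toLinearMap_apply, hρ, AdjoinRoot.mk_eq_zero]
    constructor
    · rintro ⟨y, hy⟩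
      obtain ⟨w, rfl⟩ := AdjoinRoot.mk_surjective y
      rw [hμ, AdjoinRoot.mk_eq_mk] at hy
      obtain ⟨c, hc⟩ := hy
      exact ⟨w - Q * c, by linear_combination -hc⟩
    · rintro ⟨c, rfl⟩
      exact ⟨AdjoinRoot.mk _ c, hμ c⟩
  · intro x
    obtain ⟨g, rfl⟩ := AdjoinRoot.mk_surjective x
    change AdjoinRoot.mk _ f * μ _ = μ (AdjoinRoot.mk _ f * AdjoinRoot.mk _ g)
    rw [← map_mul, hμ, hμ, ← map_mul, mul_left_comm]
  · intro x
    obtain ⟨g, rfl⟩ := AdjoinRoot.mk_surjective x
    simp only [AlgHom.toLinearMap_apply, Algebra.coe_lmul_eq_mul, LinearMap.mul_apply']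
    rw [map_mul, hρ, hρ]

theorem norm_mk_pow {P : R[X]} (hP : P.Monic) (f : R[X]) (r : ℕ) :
    Algebra.norm R (AdjoinRoot.mk (P ^ (r + 1)) f) = Algebra.norm R (AdjoinRoot.mk P f) ^ (r + 1) := by
  induction r with
  | zero => rw [zero_add, pow_one, pow_one]
  | succ r ih => rw [pow_succ', norm_mk_mul hP (hP.pow _), ih, ← pow_succ]

/-- The basis `1, x, ..., x ^ (n - 1)` of `R[X] / (X ^ n - 1)`. -/
noncomputable def cycBasis (R : Type*) [CommRing R] [Nontrivial R] {n : ℕ} (hn : 0 < n) :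
    Module.Basis (Fin n) R (AdjoinRoot (X ^ n - 1 : R[X])) :=
  (AdjoinRoot.powerBasis' (monic_cyc hn)).basis.reindex
    (finCongr (natDegree_X_pow_sub_C (R := R) (r := 1)))

theorem cycBasis_apply [Nontrivial R] {n : ℕ} (hn : 0 < n) (i : Fin n) :
    cycBasis R hn i = AdjoinRoot.root _ ^ (i : ℕ) := by
  unfold cycBasis
  rw [Module.Basis.reindex_apply, PowerBasis.basis_eq_pow]
  rfl

theorem norm_eq_det_cir [Nontrivial R] {n : ℕ} (hn : 0 < n) (a : Fin n → R) :
    Algebra.norm R ((cycBasis R hn).equivFun.symm a) = (cir a).det := by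
  have : NeZero n := ⟨hn.ne'⟩
  have hroot : AdjoinRoot.root (X ^ n - 1 : R[X]) ^ n = 1 := by
    have := AdjoinRoot.mk_self (f := (X ^ n - 1 : R[X]))
    rw [map_sub, map_pow, AdjoinRoot.mk_X, map_one, sub_eq_zero] at this
    exact this
  have hmul : ∀ i j : Fin n, cycBasis R hn i * cycBasis R hn j = cycBasis R hn (i + j) := by
    intro i j
    rw [cycBasis_apply, cycBasis_apply, cycBasis_apply, ← pow_add, Fin.val_add,
      ← pow_eq_pow_mod _ hroot]
  rw [Algebra.norm_eq_matrix_det (cycBasis R hn), ← Matrix.det_transpose]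
  congr 1
  ext i j
  rw [Matrix.transpose_apply, Algebra.leftMulMatrix_eq_repr_mul, Module.Basis.equivFun_symm_apply,
    Finset.sum_mul]
  simp only [smul_mul_assoc, hmul, map_sum, map_smul, Module.Basis.repr_self, Finsupp.coe_finset_sum,
    Finset.sum_apply, Finsupp.smul_apply, Finsupp.single_apply, smul_eq_mul, mul_ite, mul_one,
    mul_zero, cir, Matrix.of_apply]
  rw [Finset.sum_eq_single (j - i)]
  · simp
  · intro l _ hl
    rw [if_neg]
    intro hh
    exact hl (eq_sub_of_add_eq hh)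
  · simp

theorem cnt_eq [Nontrivial R] {n : ℕ} (hn : 0 < n) (x : R) :
    cnt n x = Nat.card {f : AdjoinRoot (X ^ n - 1 : R[X]) // Algebra.norm R f = x} := by
  have : NeZero n := ⟨hn.ne'⟩
  unfold cnt
  symm
  refine Nat.card_congr (Equiv.ofBijective (fun f => ⟨cir ((cycBasis R hn).equivFun f.1),
    ⟨_, rfl⟩, by rw [← norm_eq_det_cir hn, LinearEquiv.symm_apply_apply]; exact f.2⟩) ⟨?_, ?_⟩)
  · intro f g hfg
    have h1 : cir ((cycBasis R hn).equivFun f.1) = cir ((cycBasis R hn).equivFun g.1) :=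
      congrArg Subtype.val hfg
    refine Subtype.ext ((cycBasis R hn).equivFun.injective (funext fun j => ?_))
    have := congrFun (congrFun h1 0) j
    simpa [cir] using this
  · rintro ⟨A, ⟨a, rfl⟩, hA⟩
    exact ⟨⟨(cycBasis R hn).equivFun.symm a, by rw [norm_eq_det_cir]; exact hA⟩,
      Subtype.ext (by simp only [LinearEquiv.apply_symm_apply])⟩

theorem exists_unit_norm [Nontrivial R] {n : ℕ} (hn : 0 < n) (hu : IsUnit (n : R)) {b : R}
    (hb : IsUnit b) :
    ∃ u : AdjoinRoot (X ^ n - 1 : R[X]), IsUnit u ∧ Algebra.norm R u = b := by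
  have : NeZero n := ⟨hn.ne'⟩
  have := (monic_cyc (R := R) hn).free_adjoinRoot
  have := (monic_cyc (R := R) hn).finite_adjoinRoot
  obtain ⟨v, hv⟩ := hu.exists_right_inv
  let a : Fin n → R := fun i => (if i = 0 then 1 else 0) + v * (b - 1)
  have h1 : Algebra.norm R ((cycBasis R hn).equivFun.symm a) = b := by
    rw [norm_eq_det_cir]
    have : cir a = 1 + Matrix.replicateCol Unit (fun _ => v * (b - 1)) *
        Matrix.replicateRow Unit (fun _ => (1 : R)) := by
      ext i j
      simp [cir, a, Matrix.one_apply, Matrix.mul_apply, sub_eq_zero, eq_comm]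
    rw [this, Matrix.det_one_add_replicateCol_mul_replicateRow]
    simp only [dotProduct, one_mul, Finset.sum_const, Finset.card_univ, Fintype.card_fin,
      nsmul_eq_mul]
    linear_combination (b - 1) * hv
  refine ⟨_, ?_, h1⟩
  rw [← Algebra.lmul_isUnit_iff (R := R), LinearMap.isUnit_iff_isUnit_det, ← Algebra.norm_apply, h1]
  exact hb

theorem cnt_mul_unit [Nontrivial R] {n : ℕ} (hn : 0 < n) (hu : IsUnit (n : R)) {b : R}
    (hb : IsUnit b) (x : R) : cnt n (x * b) = cnt n x := by
  obtain ⟨u, hu1, hu2⟩ := exists_unit_norm hn hu hb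
  rw [cnt_eq hn, cnt_eq hn]
  symm
  refine Nat.card_congr (Equiv.subtypeEquiv (Units.mulRight hu1.unit) (fun f => ?_))
  simp only [Units.mulRight_apply, IsUnit.unit_spec, map_mul, hu2]
  exact hb.mul_left_inj.symm

end Pool.Agent.MP_975ab8_al

end

-- part MP_975ab8_al.Main
section

namespace Pool.Agent.MP_975ab8_al

open Finset Polynomial

theorem card_fiberwise {α β : Type*} [Finite α] [Fintype β] (N : α → β) (P : β → Prop)
    [DecidablePred P] :
    Nat.card {f : α // P (N f)} = ∑ x ∈ univ.filter P, Nat.card {f : α // N f = x} := by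
  classical
  have := Fintype.ofFinite α
  simp only [Nat.card_eq_fintype_card, Fintype.card_subtype]
  rw [Finset.card_eq_sum_card_fiberwise (f := N) (t := univ.filter P)
    (fun f hf => by simpa using hf)]
  refine Finset.sum_congr rfl (fun x hx => ?_)
  congr 1
  ext f
  simp only [mem_filter, mem_univ, true_and] at hx ⊢
  exact ⟨fun h => h.2, fun h => ⟨h ▸ hx, h⟩⟩

theorem card_preimage {A B : Type*} [AddCommGroup A] [AddCommGroup B] [Finite A]
    (ρ : A →+ B) (hρ : Function.Surjective ρ) (Q : B → Prop) :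
    Nat.card {f : A // Q (ρ f)} * Nat.card B = Nat.card A * Nat.card {g : B // Q g} := by
  classical
  have : Finite B := Finite.of_surjective _ hρ
  have := Fintype.ofFinite A
  have := Fintype.ofFinite B
  have hf : ∀ x, Nat.card {f : A // ρ f = x} = Nat.card {f : A // ρ f = 0} := by
    intro x
    simp only [Nat.card_eq_fintype_card, Fintype.card_subtype]
    exact AddMonoidHom.card_fiber_eq_of_mem_range ρ (hρ x) (hρ 0)
  have h1 := card_fiberwise ρ Q
  have h2 := card_fiberwise ρ (fun _ => True)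
  simp only [hf, Finset.sum_const, smul_eq_mul] at h1 h2
  rw [Nat.card_congr (Equiv.subtypeUnivEquiv (fun _ => trivial)), Finset.filter_true,
    Finset.card_univ] at h2
  rw [h1, h2, Nat.card_eq_fintype_card (α := B), Nat.card_eq_fintype_card (α := {g : B // Q g}),
    Fintype.card_subtype]
  ring

variable {R : Type*} [CommRing R] {γ : R} {e q : ℕ}

theorem isUnit_natCast [Finite R] (h : Chain γ e q) {p m : ℕ} (hp : p.Prime) (hpq : p ∣ q)
    (hm : ¬ p ∣ m) : IsUnit (m : R) := by
  have := h.max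
  let F := R ⧸ Ideal.span {γ}
  let _ : Field F := Ideal.Quotient.field _
  have : Finite F := Finite.of_surjective _ Ideal.Quotient.mk_surjective
  let _ : Fintype F := Fintype.ofFinite F
  obtain ⟨p', hp'c, f, hp', hF⟩ := FiniteField.card' F
  have hq : q = p' ^ (f : ℕ) := by rw [← hF, ← h.card, Nat.card_eq_fintype_card]
  obtain rfl : p = p' := (Nat.prime_dvd_prime_iff_eq hp hp').1 (hp.dvd_of_dvd_pow (hq ▸ hpq))
  have hmF : (m : F) ≠ 0 := by rwa [Ne, CharP.cast_eq_zero_iff F p]
  refine h.isUnit_of_not_dvd (fun hd => hmF ?_)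
  rw [← map_natCast (Ideal.Quotient.mk (Ideal.span {γ})), Ideal.Quotient.eq_zero_iff_mem]
  exact Ideal.mem_span_singleton.2 hd

theorem card_val [Fintype R] (h : Chain γ e q) {s : ℕ} (hs : s < e) :
    ((univ.filter (fun x : R => Chain.val γ e x = s)).card : ℚ) =
      ((q : ℚ) - 1) * q ^ (e - s - 1) := by
  classical
  have h1 := h.card_dvd hs.le
  have h2 := h.card_dvd (t := s + 1) hs
  rw [Nat.card_eq_fintype_card, Fintype.card_subtype] at h1 h2
  have h3 : univ.filter (fun x : R => γ ^ s ∣ x) =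
      univ.filter (fun x : R => Chain.val γ e x = s) ∪
        univ.filter (fun x : R => γ ^ (s + 1) ∣ x) := by
    ext x
    simp only [mem_filter, mem_univ, true_and, mem_union, ← h.le_val_iff hs.le,
      ← h.le_val_iff (s := s + 1) hs]
    omega
  rw [h3, Finset.card_union_of_disjoint (by
    rw [Finset.disjoint_left]
    intro x hx hx'
    simp only [mem_filter, mem_univ, true_and, ← h.le_val_iff (s := s + 1) hs] at hx hx'
    omega), h2] at h1
  have h4 := congrArg (Nat.cast : ℕ → ℚ) h1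
  push_cast at h4
  obtain ⟨r, rfl⟩ : ∃ r, e = s + 1 + r := ⟨e - (s + 1), by omega⟩
  rw [show s + 1 + r - s = r + 1 by omega, show s + 1 + r - (s + 1) = r by omega] at h4
  rw [show s + 1 + r - s - 1 = r by omega]
  linear_combination h4

theorem cnt_coprime [Finite R] (h : Chain γ e q) {p m : ℕ} (hp : p.Prime) (hpq : p ∣ q)
    (hm : ¬ p ∣ m) {s : ℕ} (hs : s < e) {x : R} (hx : Chain.val γ e x = s) :
    (cnt m x : ℚ) = unitCount m q e * coeffA m q s := by
  classical
  have := h.nontrivial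
  have := Fintype.ofFinite R
  have hm0 : 0 < m := Nat.pos_of_ne_zero (fun h => hm (h ▸ dvd_zero p))
  have hu := isUnit_natCast h hp hpq hm
  have := (monic_cyc (R := R) hm0).finite_adjoinRoot
  have : Finite (AdjoinRoot (X ^ m - 1 : R[X])) := Module.finite_of_finite R
  have hc : ∀ y, Chain.val γ e y = s → cnt m y = cnt m (γ ^ s) := by
    intro y hy
    obtain ⟨u, hu', rfl⟩ := (h.val_eq_iff hs).1 hy
    exact cnt_mul_unit hm0 hu hu' _
  have h1 := count_val_cyc h hp hpq hm hs
  rw [card_fiberwise (Algebra.norm R) (fun y => Chain.val γ e y = s),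
    Finset.sum_congr rfl (g := fun _ => cnt m (γ ^ s)) (fun y hy => by
      rw [← cnt_eq hm0, hc y (mem_filter.1 hy).2]), Finset.sum_const, smul_eq_mul] at h1
  push_cast at h1
  rw [card_val h hs] at h1
  rw [hc x hx]
  have hq : (2 : ℚ) ≤ q := by exact_mod_cast h.two_le_q
  have hq0 : (q : ℚ) ≠ 0 := by linarith
  have hq1 : (q : ℚ) - 1 ≠ 0 := by linarith
  obtain ⟨r, rfl⟩ : ∃ r, e = s + 1 + r := ⟨e - (s + 1), by omega⟩
  rw [show s + 1 + r - s - 1 = r by omega] at h1
  have h2 : ((q : ℚ) ^ s * (q - 1) * q ^ r) ≠ 0 := by positivity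
  apply mul_left_cancel₀ h2
  have h3 : (q : ℚ) ^ (s + 1 + r) * (1 - (q : ℚ)⁻¹) = (q : ℚ) ^ s * (q - 1) * q ^ r := by
    field_simp
    ring
  rw [h3] at h1
  linear_combination h1

theorem card_cyc [Finite R] (h : Chain γ e q) {n : ℕ} (hn : 0 < n) :
    Nat.card (AdjoinRoot (X ^ n - 1 : R[X])) = q ^ (e * n) := by
  have := h.nontrivial
  rw [Nat.card_congr (cycBasis R hn).equivFun.toEquiv, Nat.card_pi, h.card_eq]
  simp [pow_mul]

theorem cnt_pow [Finite R] (h : Chain γ e q) {r m : ℕ} (hr : 0 < r) (hm : 0 < m)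
    (hX : (X ^ (r * m) - 1 : R[X]) = (X ^ m - 1) ^ r) (a : R) :
    cnt (r * m) a = q ^ (e * (r * m - m)) *
      Nat.card {g : AdjoinRoot (X ^ m - 1 : R[X]) // Algebra.norm R g ^ r = a} := by
  have := h.nontrivial
  have hn : 0 < r * m := Nat.mul_pos hr hm
  have hc := card_cyc h hn
  have hfin := (monic_cyc (R := R) hn).finite_adjoinRoot
  rw [cnt_eq hn]
  rw [hX] at hc hfin ⊢
  have : Finite (AdjoinRoot ((X ^ m - 1 : R[X]) ^ r)) := Module.finite_of_finite R
  obtain ⟨r, rfl⟩ : ∃ r', r = r' + 1 := ⟨r - 1, by omega⟩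
  let ρ := AdjoinRoot.algHomOfDvd R ((X ^ m - 1 : R[X]) ^ (r + 1)) (X ^ m - 1)
    (dvd_pow_self _ (Nat.succ_ne_zero r))
  have hρ : ∀ g, ρ (AdjoinRoot.mk _ g) = AdjoinRoot.mk _ g := by
    intro g
    have : ρ.comp (AdjoinRoot.mkₐ _) = AdjoinRoot.mkₐ _ := by
      ext
      simp [ρ]
    exact AlgHom.congr_fun this g
  have hsurj : Function.Surjective ρ := by
    intro x
    obtain ⟨g, rfl⟩ := AdjoinRoot.mk_surjective x
    exact ⟨AdjoinRoot.mk _ g, hρ g⟩
  have h1 := card_preimage ρ.toLinearMap.toAddMonoidHom hsurj (fun g => Algebra.norm R g ^ (r + 1) = a)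
  rw [hc, card_cyc h hm] at h1
  have h2 : Nat.card {f : AdjoinRoot ((X ^ m - 1 : R[X]) ^ (r + 1)) // Algebra.norm R f = a} =
      Nat.card {f : AdjoinRoot ((X ^ m - 1 : R[X]) ^ (r + 1)) //
        Algebra.norm R (ρ.toLinearMap.toAddMonoidHom f) ^ (r + 1) = a} := by
    refine Nat.card_congr (Equiv.subtypeEquivRight fun f => ?_)
    obtain ⟨g, rfl⟩ := AdjoinRoot.mk_surjective f
    rw [norm_mk_pow (monic_cyc hm), LinearMap.toAddMonoidHom_coe, AlgHom.toLinearMap_apply, hρ]
  rw [h2]
  have hq : 0 < q ^ (e * m) := pow_pos (by have := h.two_le_q; omega) _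
  apply Nat.eq_of_mul_eq_mul_right hq
  rw [h1, mul_right_comm, ← pow_add, ← Nat.mul_add, Nat.sub_add_cancel]
  nlinarith

theorem main [Finite R] (h : Chain γ e q) (p k m : ℕ) (hp : p.Prime) (hpq : p ∣ q)
    (hm : ¬ p ∣ m) (hcase : k = 0 ∨ (p : R) = 0) :
    (∀ (s : ℕ) (b : R), IsUnit b → s * p ^ k < e →
      (cnt (p ^ k * m) ((γ ^ s * b) ^ p ^ k) : ℚ) =
        (q : ℚ) ^ (e * (p ^ k * m - m)) * (q : ℚ) ^ (e - (e + p ^ k - 1) / p ^ k) *
          (unitCount m q e * coeffA m q s)) ∧
    (∀ a : R, (¬ ∃ x : R, x ^ p ^ k = a) → cnt (p ^ k * m) a = 0) ∧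
    ((cnt (p ^ k * m) (0 : R) : ℚ) = (q : ℚ) ^ (e * (p ^ k * m)) -
      (q : ℚ) ^ (e * (p ^ k * m - m)) * ∑ s ∈ range ((e + p ^ k - 1) / p ^ k),
        ((q : ℚ) - 1) * (q : ℚ) ^ (e - s - 1) * (unitCount m q e * coeffA m q s)) := by
  classical
  have := h.nontrivial
  have := Fintype.ofFinite R
  have hm0 : 0 < m := Nat.pos_of_ne_zero (fun h => hm (h ▸ dvd_zero p))
  have hr : 0 < p ^ k := pow_pos hp.pos k
  have hfrob : (∀ x y : R, (x - y) ^ p ^ k = x ^ p ^ k - y ^ p ^ k) ∧
      (X ^ (p ^ k * m) - 1 : R[X]) = (X ^ m - 1) ^ p ^ k := by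
    rcases hcase with rfl | hp0
    · simp
    · have : Fact p.Prime := ⟨hp⟩
      have : CharP R p := (CharP.charP_iff_prime_eq_zero hp).2 hp0
      refine ⟨fun x y => sub_pow_char_pow x y k, ?_⟩
      rw [sub_pow_char_pow, one_pow, ← pow_mul, mul_comm]
  generalize p ^ k = r at hr hfrob ⊢
  obtain ⟨hsub, hX⟩ := hfrob
  have := (monic_cyc (R := R) hm0).finite_adjoinRoot
  have : Finite (AdjoinRoot (X ^ m - 1 : R[X])) := Module.finite_of_finite R
  set c := (e + r - 1) / r with hc
  have hcle : ∀ t, c ≤ t ↔ e ≤ t * r := by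
    intro t
    rw [hc, Nat.div_le_iff_le_mul_add_pred hr, mul_comm r t]
    omega
  have hce : c ≤ e := (hcle e).2 (Nat.le_mul_of_pos_right _ hr)
  have hzero : ∀ z : R, z ^ r = 0 ↔ γ ^ c ∣ z := by
    intro z
    obtain ⟨t, u, ht, hu, rfl⟩ := h.exists_eq z
    rw [mul_pow, (hu.pow r).mul_left_eq_zero, ← pow_mul, h.pow_eq_zero_iff, h.pow_dvd_iff hu,
      ← hcle]
    omega
  refine ⟨?_, ?_, ?_⟩
  · intro s b hb hs
    have hsc : s < c := by
      by_contra hcon
      exact absurd ((hcle s).1 (not_lt.1 hcon)) (not_le.2 hs)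
    have hse : s < e := lt_of_lt_of_le hsc hce
    rw [cnt_pow h hr hm0 hX, card_fiberwise (Algebra.norm R) (fun y => y ^ r = (γ ^ s * b) ^ r)]
    have hmem : ∀ y : R, y ^ r = (γ ^ s * b) ^ r ↔ γ ^ c ∣ y - γ ^ s * b := by
      intro y
      rw [← hzero, hsub, sub_eq_zero]
    have hval : ∀ y : R, y ^ r = (γ ^ s * b) ^ r → Chain.val γ e y = s := by
      intro y hy
      obtain ⟨z, hz⟩ := (hmem y).1 hy
      obtain ⟨j, hj⟩ : ∃ j, c = s + (j + 1) := ⟨c - s - 1, by omega⟩
      refine (h.val_eq_iff hse).2 ⟨b + γ ^ (j + 1) * z, ?_, ?_⟩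
      · refine h.isUnit_of_not_dvd (fun hd => h.not_isUnit (isUnit_of_dvd_unit ?_ hb))
        exact (dvd_add_left ((dvd_pow_self γ (Nat.succ_ne_zero j)).mul_right z)).1 hd
      · rw [hj, pow_add] at hz
        linear_combination hz
    have hcard : (univ.filter (fun y : R => y ^ r = (γ ^ s * b) ^ r)).card = q ^ (e - c) := by
      rw [← h.card_dvd hce, ← Fintype.card_subtype, ← Nat.card_eq_fintype_card]
      exact Nat.card_congr (Equiv.subtypeEquiv (Equiv.subRight (γ ^ s * b)) hmem)
    push_cast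
    rw [Finset.sum_congr rfl (g := fun _ => unitCount m q e * coeffA m q s) (fun y hy => by
      rw [← cnt_eq hm0, cnt_coprime h hp hpq hm hse (hval y (mem_filter.1 hy).2)]),
      Finset.sum_const, hcard, nsmul_eq_mul]
    push_cast
    ring
  · intro a ha
    rw [cnt_pow h hr hm0 hX]
    have : IsEmpty {g : AdjoinRoot (X ^ m - 1 : R[X]) // Algebra.norm R g ^ r = a} :=
      ⟨fun g => ha ⟨_, g.2⟩⟩
    rw [Nat.card_of_isEmpty, mul_zero]
  · rw [cnt_pow h hr hm0 hX]
    have h1 : (Nat.card {g : AdjoinRoot (X ^ m - 1 : R[X]) // Algebra.norm R g ^ r = 0} : ℚ) +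
        ∑ s ∈ range c, ((q : ℚ) - 1) * (q : ℚ) ^ (e - s - 1) * (unitCount m q e * coeffA m q s) =
        (q : ℚ) ^ (e * m) := by
      have h2 := card_fiberwise (Algebra.norm R : AdjoinRoot (X ^ m - 1 : R[X]) → R)
        (fun _ => True)
      rw [Nat.card_congr (Equiv.subtypeUnivEquiv (fun _ => trivial)), Finset.filter_true,
        card_cyc h hm0, ← Finset.sum_filter_add_sum_filter_not univ (fun y : R => y ^ r = 0),
        ← card_fiberwise (Algebra.norm R) (fun y : R => y ^ r = 0)] at h2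
      have h3 := congrArg (Nat.cast : ℕ → ℚ) h2
      push_cast at h3
      rw [h3]
      congr 1
      rw [← Finset.sum_fiberwise_of_maps_to (s := univ.filter (fun y : R => ¬ y ^ r = 0))
        (t := range c) (g := Chain.val γ e) (fun y hy => by
          rw [mem_filter, hzero, ← h.le_val_iff hce] at hy
          exact mem_range.2 (not_le.1 hy.2))]
      refine Finset.sum_congr rfl (fun s hs => ?_)
      have hsc := mem_range.1 hs
      have hse : s < e := lt_of_lt_of_le hsc hce
      have h4 : (univ.filter (fun y : R => ¬ y ^ r = 0)).filter (fun y => Chain.val γ e y = s) =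
          univ.filter (fun y : R => Chain.val γ e y = s) := by
        ext y
        simp only [mem_filter, mem_univ, true_and, hzero, ← h.le_val_iff hce]
        omega
      rw [h4, Finset.sum_congr rfl (g := fun _ => unitCount m q e * coeffA m q s) (fun y hy => by
        rw [← cnt_eq hm0, cnt_coprime h hp hpq hm hse (mem_filter.1 hy).2]),
        Finset.sum_const, nsmul_eq_mul, card_val h hse]
    push_cast
    have h5 : (q : ℚ) ^ (e * (r * m)) = (q : ℚ) ^ (e * (r * m - m)) * (q : ℚ) ^ (e * m) := by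
      rw [← pow_add, ← Nat.mul_add, Nat.sub_add_cancel (Nat.le_mul_of_pos_left _ hr)]
    rw [h5, ← h1]
    ring

end Pool.Agent.MP_975ab8_al

end
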