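import Mathlib
import Pool.Agent.MP_975ab8_al.Mg.Main
import Pool.Agent.MP_975ab8_al.GDefs

-- part MP_975ab8_al.Split
section

namespace Pool.Agent.MP_975ab8_al

open Finset Polynomial UniqueFactorizationMonoid

universe u

variable {R : Type u} [CommRing R] {γ : R} {e q : ℕ}

theorem exists_smul_of_pow_smul_eq_zero (h : Chain γ e q) {M : Type*} [AddCommGroup M]
    [Module R M] [Module.Free R M] [Module.Finite R M] {t : ℕ} (ht : t < e) {x : M}
    (hx : γ ^ t • x = 0) : ∃ y, x = γ • y := by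
  have := h.nontrivial
  let b := Module.finBasis R M
  have h1 : ∀ i, γ ∣ b.equivFun x i := by
    intro i
    have h2 : γ ^ t * b.equivFun x i = 0 := by
      have := congrFun (congrArg b.equivFun hx) i
      rwa [map_smul, map_zero] at this
    by_contra hc
    rw [(h.isUnit_of_not_dvd hc).mul_left_eq_zero] at h2
    exact h.pow_ne t ht h2
  choose c hc using h1
  refine ⟨b.equivFun.symm c, b.equivFun.injective ?_⟩
  funext i
  rw [map_smul, LinearEquiv.apply_symm_apply]
  exact hc i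

theorem etale_split [Finite R] (h : Chain γ e q) {Λ : Type*} [CommRing Λ] [Algebra R Λ]
    [Module.Free R Λ] [Module.Finite R Λ] {ι : Type*} [Fintype ι] (K : ι → Type*)
    [∀ i, Field (K i)] (π : Λ →+* ∀ i, K i) (hsurj : Function.Surjective π)
    (hker : ∀ x, π x = 0 ↔ algebraMap R Λ γ ∣ x) (d : ι → ℕ)
    (hd : ∀ i, Nat.card (K i) = q ^ d i) :
    ∃ I : ι → Ideal Λ,
      Function.Bijective (RingHom.pi fun i => Ideal.Quotient.mk (I i)) ∧
      (∀ i, Chain (Ideal.Quotient.mk (I i) (algebraMap R Λ γ)) e (q ^ d i)) ∧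
      ∀ b : Λ, Chain.val γ e (Algebra.norm R b) =
        min (∑ i, d i * Chain.val (Ideal.Quotient.mk (I i) (algebraMap R Λ γ)) e
          (Ideal.Quotient.mk (I i) b)) e := by
  classical
  have : Finite Λ := Module.finite_of_finite R
  have hnil : ∀ x ∈ RingHom.ker π, IsNilpotent x := by
    intro x hx
    obtain ⟨c, rfl⟩ := (hker x).1 hx
    exact ⟨e, by rw [mul_pow, ← map_pow, h.pow_eq, map_zero, zero_mul]⟩
  obtain ⟨ε, hε, hπε⟩ := CompleteOrthogonalIdempotents.lift_of_isNilpotent_ker π hnil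
    (CompleteOrthogonalIdempotents.single K) (fun i => hsurj _)
  have hπε' : ∀ i, π (ε i) = Pi.single i 1 := fun i => congrFun hπε i
  have hmem : ∀ i x, x ∈ Ideal.span {1 - ε i} ↔ ε i * x = 0 := by
    intro i x
    rw [Ideal.mem_span_singleton]
    constructor
    · rintro ⟨y, rfl⟩
      rw [← mul_assoc, (hε.idem i).mul_one_sub_self, zero_mul]
    · intro hx
      exact ⟨x, by linear_combination hx⟩
  have hchain : ∀ i, Chain (Ideal.Quotient.mk (Ideal.span {1 - ε i}) (algebraMap R Λ γ)) e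
      (q ^ d i) := by
    intro i
    let θ : Λ ⧸ Ideal.span {1 - ε i} →+* K i :=
      Ideal.Quotient.lift _ ((Pi.evalRingHom K i).comp π) (fun x hx => by
        have := congrFun (congrArg π ((hmem i x).1 hx)) i
        simpa [hπε'] using this)
    have hθ : ∀ x, θ (Ideal.Quotient.mk _ x) = π x i := fun x => rfl
    have hθs : Function.Surjective θ := by
      intro y
      obtain ⟨x, hx⟩ := hsurj (Pi.single i y)
      exact ⟨Ideal.Quotient.mk _ x, by rw [hθ, hx, Pi.single_eq_same]⟩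
    have hθk : RingHom.ker θ =
        Ideal.span {Ideal.Quotient.mk (Ideal.span {1 - ε i}) (algebraMap R Λ γ)} := by
      ext y
      obtain ⟨x, rfl⟩ := Ideal.Quotient.mk_surjective y
      rw [RingHom.mem_ker, hθ, Ideal.mem_span_singleton]
      constructor
      · intro h0
        have : π (ε i * x) = 0 := by
          rw [map_mul, hπε']
          funext j
          by_cases hj : j = i
          · subst hj; simp [h0]
          · simp [hj]
        obtain ⟨c, hc⟩ := (hker _).1 this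
        refine ⟨Ideal.Quotient.mk _ c, ?_⟩
        rw [← map_mul, Ideal.Quotient.eq, hmem, ← hc, mul_sub, ← mul_assoc, (hε.idem i).eq,
          sub_self]
      · rintro ⟨y, hy⟩
        obtain ⟨c, rfl⟩ := Ideal.Quotient.mk_surjective y
        rw [← hθ, hy, ← map_mul, hθ, (hker _).2 (dvd_mul_right _ _)]
        rfl
    refine ⟨hθk ▸ RingHom.ker_isMaximal_of_surjective θ hθs, ?_, fun t ht h0 => ?_, ?_⟩
    · rw [← map_pow, ← map_pow, h.pow_eq, map_zero, map_zero]
    · rw [← map_pow, ← map_pow, Ideal.Quotient.eq_zero_iff_mem, hmem, mul_comm,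
        ← Algebra.smul_def] at h0
      obtain ⟨y, hy⟩ := exists_smul_of_pow_smul_eq_zero h ht h0
      have h1 := (hker (ε i)).2 ⟨y, by rw [hy, Algebra.smul_def]⟩
      have h2 := congrFun h1 i
      rw [hπε', Pi.single_eq_same] at h2
      exact one_ne_zero h2
    · rw [← hθk, ← hd]
      exact Nat.card_congr (RingHom.quotientKerEquivOfSurjective hθs).toEquiv
  have hrank : ∀ i, Module.finrank R (part R (ε i)) = d i := by
    intro i
    have := part_free (R := R) h (hε.idem i)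
    have h3 := card_smul_free h (part R (ε i)) (Nat.zero_le e)
    simp only [pow_zero, one_smul, exists_eq', Nat.sub_zero] at h3
    rw [Nat.card_congr (Equiv.subtypeUnivEquiv (fun _ => trivial))] at h3
    have : Finite (Λ ⧸ Ideal.span {1 - ε i}) := Finite.of_surjective _ Ideal.Quotient.mk_surjective
    have h4 := (hchain i).card_eq
    have h5 : Nat.card (part R (ε i)) = Nat.card (Λ ⧸ Ideal.span {1 - ε i}) := by
      refine Nat.card_congr (Equiv.ofBijective (fun y => Ideal.Quotient.mk _ y.1) ⟨?_, ?_⟩)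
      · intro y z hyz
        have h6 := (hmem i _).1 (Ideal.Quotient.eq.1 hyz)
        rw [mul_sub, (mem_part (hε.idem i)).1 y.2, (mem_part (hε.idem i)).1 z.2] at h6
        exact Subtype.ext (sub_eq_zero.1 h6)
      · intro y
        obtain ⟨x, rfl⟩ := Ideal.Quotient.mk_surjective y
        refine ⟨⟨ε i * x, x, rfl⟩, Ideal.Quotient.eq.2 ((hmem i _).2 ?_)⟩
        rw [mul_sub, ← mul_assoc, (hε.idem i).eq, sub_self]
    rw [h5, h4, ← pow_mul, mul_comm] at h3
    exact (Nat.eq_of_mul_eq_mul_left h.e_pos (Nat.pow_right_injective h.two_le_q h3)).symm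
  refine ⟨fun i => Ideal.span {1 - ε i}, hε.bijective_pi, hchain, fun b => ?_⟩
  choose t u ht hu hb using fun i =>
    (hchain i).exists_eq (Ideal.Quotient.mk (Ideal.span {1 - ε i}) b)
  obtain ⟨v, hv⟩ := hε.bijective_pi.2 u
  have hvu : IsUnit v := by
    have h1 : IsUnit (RingEquiv.ofBijective _ hε.bijective_pi v) := by
      rw [RingEquiv.ofBijective_apply, hv]
      exact Pi.isUnit_iff.2 hu
    have h2 := h1.map (RingEquiv.ofBijective _ hε.bijective_pi).symm
    rwa [RingEquiv.symm_apply_apply] at h2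
  have hb' : b = (∏ i, (1 - ε i + algebraMap R Λ (γ ^ t i) * ε i)) * v := by
    apply hε.bijective_pi.1
    funext j
    have h1 : Ideal.Quotient.mk (Ideal.span {1 - ε j}) v = u j := congrFun hv j
    change Ideal.Quotient.mk (Ideal.span {1 - ε j}) b = Ideal.Quotient.mk (Ideal.span {1 - ε j}) _
    rw [hb j, map_mul, h1, map_prod, prod_eq_single j]
    · congr 1
      rw [← map_pow, ← map_pow, Ideal.Quotient.eq, hmem]
      have := (hε.idem j).eq
      linear_combination (1 - algebraMap R Λ (γ ^ t j)) * this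
    · intro i _ hij
      rw [← map_one (Ideal.Quotient.mk (Ideal.span {1 - ε j})), Ideal.Quotient.eq, hmem]
      have : ε j * ε i = 0 := hε.ortho (Ne.symm hij)
      linear_combination (algebraMap R Λ (γ ^ t i) - 1) * this
    · simp
  have hval : ∀ i, Chain.val (Ideal.Quotient.mk (Ideal.span {1 - ε i}) (algebraMap R Λ γ)) e
      (Ideal.Quotient.mk (Ideal.span {1 - ε i}) b) = t i := fun i => by
    rw [hb i, (hchain i).val_eq _ (hu i), min_eq_left (ht i)]
  simp only [hval]
  conv_lhs => rw [hb', map_mul, map_prod]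
  simp only [norm_part h (hε.idem _), hrank, ← pow_mul]
  rw [prod_pow_eq_pow_sum, h.val_eq _ (hvu.map _)]
  simp only [mul_comm]

theorem exists_residue_maps [Finite R] (h : Chain γ e q) {p m : ℕ} (hp : p.Prime) (hpq : p ∣ q)
    (hm : ¬ p ∣ m) :
    ∃ (ι : Type u) (_ : Fintype ι) (K : ι → Type u) (_ : ∀ i, Field (K i))
      (π : AdjoinRoot (X ^ m - 1 : R[X]) →+* ∀ i, K i) (d : ι → ℕ),
      Function.Surjective π ∧ (∀ x, π x = 0 ↔ algebraMap R _ γ ∣ x) ∧
      (∀ i, Nat.card (K i) = q ^ d i) ∧ (∀ i, 0 < d i) ∧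
      ∀ g : ℕ → PowerSeries ℚ, ∏ i, g (d i) =
        ∏ d ∈ m.divisors, g (ord q d) ^ (Nat.totient d / ord q d) := by
  classical
  have hm0 : 0 < m := Nat.pos_of_ne_zero (fun h => hm (h ▸ dvd_zero p))
  have := h.max
  let F := R ⧸ Ideal.span {γ}
  let _ : Field F := Ideal.Quotient.field _
  have : Finite F := Finite.of_surjective _ Ideal.Quotient.mk_surjective
  let _ : Fintype F := Fintype.ofFinite F
  obtain ⟨p', hp'c, f, hp', hF⟩ := FiniteField.card' F
  have hq : q = p' ^ (f : ℕ) := by rw [← hF, ← h.card, Nat.card_eq_fintype_card]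
  obtain rfl : p = p' := (Nat.prime_dvd_prime_iff_eq hp hp').1 (hp.dvd_of_dvd_pow (hq ▸ hpq))
  have : Fact p.Prime := ⟨hp⟩
  have hmF : (m : F) ≠ 0 := by rwa [Ne, CharP.cast_eq_zero_iff F p]
  have hne : (X ^ m - 1 : F[X]) ≠ 0 := X_pow_sub_C_ne_zero hm0 1
  have hnd : (normalizedFactors (X ^ m - 1 : F[X])).Nodup :=
    (squarefree_iff_nodup_normalizedFactors hne).1
      (X_pow_sub_one_separable_iff.2 hmF).squarefree
  let S := (normalizedFactors (X ^ m - 1 : F[X])).toFinset
  have hirr : ∀ P : S, Irreducible (P : F[X]) := fun P =>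
    irreducible_of_normalized_factor _ (Multiset.mem_toFinset.1 P.2)
  have hfact : ∀ P : S, Fact (Irreducible (P : F[X])) := fun P => ⟨hirr P⟩
  have hdvd : ∀ P : S, (P : F[X]) ∣ (X ^ m - 1 : R[X]).map (Ideal.Quotient.mk _) := fun P => by
    rw [Polynomial.map_sub, Polynomial.map_pow, map_X, Polynomial.map_one]
    exact dvd_of_mem_normalizedFactors (Multiset.mem_toFinset.1 P.2)
  have hcop : ∀ P Q : S, P ≠ Q → IsCoprime (P : F[X]) (Q : F[X]) := by
    intro P Q hPQ
    refine (hirr P).coprime_iff_not_dvd.2 (fun hd => hPQ (Subtype.ext ?_))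
    have h1 := (hirr P).associated_of_dvd (hirr Q) hd
    have h2 := normalize_eq_normalize_iff_associated.2 h1
    rwa [normalize_normalized_factor _ (Multiset.mem_toFinset.1 P.2),
      normalize_normalized_factor _ (Multiset.mem_toFinset.1 Q.2)] at h2
  have hprod : Associated (∏ P : S, (P : F[X])) (X ^ m - 1) := by
    have := prod_normalizedFactors hne
    rw [Finset.prod_coe_sort S (fun P => P), Finset.prod, Multiset.toFinset_val, hnd.dedup,
      Multiset.map_id']
    exact this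
  let π : AdjoinRoot (X ^ m - 1 : R[X]) →+* ∀ P : S, AdjoinRoot (P : F[X]) :=
    RingHom.pi fun P => AdjoinRoot.map (Ideal.Quotient.mk _) _ _ (hdvd P)
  have hπ : ∀ (g : R[X]) (P : S), π (AdjoinRoot.mk _ g) P =
      AdjoinRoot.mk _ (g.map (Ideal.Quotient.mk _)) := by
    intro g P
    have : (AdjoinRoot.map (Ideal.Quotient.mk _) _ _ (hdvd P)).comp (AdjoinRoot.mk _) =
        (AdjoinRoot.mk (P : F[X])).comp (Polynomial.mapRingHom (Ideal.Quotient.mk _)) := by
      ext x
      · simp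
      · simp
    exact RingHom.congr_fun this g
  have hsurj : Function.Surjective π := by
    intro y
    obtain ⟨r, hr⟩ := Ideal.pi_quotient_surjective (I := fun P : S => Ideal.span {(P : F[X])})
      (fun P Q hPQ => (Ideal.isCoprime_span_singleton_iff _ _).2 (hcop P Q hPQ)) y
    obtain ⟨g, rfl⟩ := Polynomial.map_surjective (Ideal.Quotient.mk (Ideal.span {γ}))
      Ideal.Quotient.mk_surjective r
    exact ⟨AdjoinRoot.mk _ g, funext fun P => (hπ g P).trans (hr P)⟩
  have hker : ∀ x, π x = 0 ↔ algebraMap R _ γ ∣ x := by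
    intro x
    constructor
    · intro hx
      obtain ⟨g, rfl⟩ := AdjoinRoot.mk_surjective x
      have h1 : ∀ P : S, (P : F[X]) ∣ g.map (Ideal.Quotient.mk _) := fun P => by
        rw [← AdjoinRoot.mk_eq_zero, ← hπ, hx]
        rfl
      have h2 : (∏ P : S, (P : F[X])) ∣ g.map (Ideal.Quotient.mk _) :=
        Finset.prod_dvd_of_coprime (fun P _ Q _ hPQ => hcop P Q hPQ) (fun P _ => h1 P)
      obtain ⟨c, hc⟩ := hprod.symm.dvd.trans h2
      obtain ⟨c', rfl⟩ := Polynomial.map_surjective (Ideal.Quotient.mk (Ideal.span {γ}))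
        Ideal.Quotient.mk_surjective c
      have h3 : g - (X ^ m - 1) * c' ∈
          RingHom.ker (Polynomial.mapRingHom (Ideal.Quotient.mk (Ideal.span {γ}))) := by
        rw [RingHom.mem_ker, Polynomial.coe_mapRingHom, Polynomial.map_sub, hc]
        simp
      rw [Polynomial.ker_mapRingHom, Ideal.mk_ker, Ideal.map_span, Set.image_singleton,
        Ideal.mem_span_singleton] at h3
      obtain ⟨w, hw⟩ := h3
      refine ⟨AdjoinRoot.mk _ w, ?_⟩
      have : g = (X ^ m - 1) * c' + C γ * w := by rw [← hw]; ring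
      rw [this, map_add, map_mul, AdjoinRoot.mk_self, zero_mul, zero_add, map_mul]
      rfl
    · rintro ⟨c, rfl⟩
      have : π (algebraMap R _ γ) = 0 := by
        funext P
        have := hπ (C γ) P
        rw [Polynomial.map_C, Ideal.Quotient.eq_zero_iff_mem.2 (Ideal.mem_span_singleton_self γ),
          map_zero, map_zero] at this
        exact this
      rw [map_mul, this, zero_mul]
  have hcard : ∀ P : S, Nat.card (AdjoinRoot (P : F[X])) = q ^ (P : F[X]).natDegree := by
    intro P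
    have := (AdjoinRoot.powerBasis (hirr P).ne_zero).finite
    rw [Module.natCard_eq_pow_finrank (K := F), (AdjoinRoot.powerBasis (hirr P).ne_zero).finrank,
      h.card]
    rfl
  refine ⟨S, inferInstance, fun P : S => AdjoinRoot (P : F[X]), inferInstance, π,
    fun P => (P : F[X]).natDegree, hsurj, hker, hcard, fun P => (hirr P).natDegree_pos,
    fun g => ?_⟩
  rw [Finset.prod_coe_sort S (fun P => g P.natDegree), prod_factors hF hm g, ← hq]

end Pool.Agent.MP_975ab8_al

end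

-- part MP_975ab8_al.Quot
section

namespace Pool.Agent.MP_975ab8_al

open Finset Polynomial

variable {S : Type*} [CommRing S] {γ : S} {e Q : ℕ}

theorem norm_X_sub_C [Nontrivial S] {g : S[X]} (hg : g.Monic) (c : S) :
    Algebra.norm S (AdjoinRoot.mk g (X - C c)) = (-1) ^ g.natDegree * g.eval c := by
  let pb := AdjoinRoot.powerBasis' hg
  have hmin : minpoly S pb.gen = g := by
    have h1 : g ∣ minpoly S pb.gen := by
      rw [← AdjoinRoot.mk_eq_zero, ← AdjoinRoot.aeval_eq]
      exact minpoly.aeval S _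
    exact (eq_of_monic_of_dvd_of_natDegree_le hg (minpoly.monic pb.isIntegral_gen) h1
      pb.natDegree_minpoly.le)
  have h2 := Matrix.eval_charpoly (Algebra.leftMulMatrix pb.basis pb.gen) c
  rw [charpoly_leftMulMatrix, hmin] at h2
  rw [Algebra.norm_eq_matrix_det pb.basis, h2, map_sub, map_sub, AdjoinRoot.mk_X, AdjoinRoot.mk_C,
    ← AdjoinRoot.algebraMap_eq, AlgHom.commutes, ← neg_sub, Matrix.det_neg, Fintype.card_fin]
  rfl

theorem norm_mk_prod {ι : Type*} (K : Finset ι) (g : ι → S[X]) (hg : ∀ i, (g i).Monic)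
    (f : S[X]) : Algebra.norm S (AdjoinRoot.mk (∏ i ∈ K, g i) f) =
      ∏ i ∈ K, Algebra.norm S (AdjoinRoot.mk (g i) f) := by
  classical
  induction K using Finset.induction_on with
  | empty =>
    rw [prod_empty, prod_empty]
    have : Subsingleton (AdjoinRoot (1 : S[X])) := ⟨fun a b => by
      obtain ⟨x, rfl⟩ := AdjoinRoot.mk_surjective a
      obtain ⟨y, rfl⟩ := AdjoinRoot.mk_surjective b
      exact AdjoinRoot.mk_eq_mk.2 (one_dvd _)⟩
    rw [Subsingleton.elim (AdjoinRoot.mk 1 f) 1, map_one]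
  | insert a K ha ih =>
    rw [prod_insert ha, prod_insert ha, norm_mk_mul (hg a) (monic_prod_of_monic _ _ fun i _ => hg i),
      ih, mul_comm]

theorem card_adjoinRoot [Finite S] (h : Chain γ e Q) {g : S[X]} (hg : g.Monic) :
    Nat.card (AdjoinRoot g) = Q ^ (e * g.natDegree) := by
  have := h.nontrivial
  rw [Nat.card_congr (AdjoinRoot.powerBasis' hg).basis.equivFun.toEquiv, Nat.card_pi, h.card_eq]
  simp [pow_mul]

theorem exists_eq_eval (f : S[X]) : ∃ u, f = C (f.eval 1) + (X - 1) * u := by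
  obtain ⟨u, hu⟩ := X_sub_C_dvd_sub_C_eval (p := f) (a := 1)
  exact ⟨u, by rw [← C_1, ← hu]; ring⟩

theorem dvd_eval_of_dvd {g t f : S[X]} (hg : γ ∣ g.eval 1) (ht : γ ∣ t.eval 1)
    (hd : AdjoinRoot.mk g t ∣ AdjoinRoot.mk g f) : γ ∣ f.eval 1 := by
  obtain ⟨y, hy⟩ := hd
  obtain ⟨z, rfl⟩ := AdjoinRoot.mk_surjective y
  rw [← map_mul, AdjoinRoot.mk_eq_mk] at hy
  obtain ⟨u, hu⟩ := hy
  have : f = t * z + g * u := by rw [← hu]; ring
  rw [this, eval_add, eval_mul, eval_mul]
  exact dvd_add (ht.mul_right _) (hg.mul_right _)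

theorem chain_adjoinRoot [Finite S] (h : Chain γ e Q) {g t : S[X]} (hg : g.Monic)
    (hg1 : γ ∣ g.eval 1) (ht1 : γ ∣ t.eval 1)
    (h1 : AdjoinRoot.mk g t ∣ AdjoinRoot.mk g (C γ))
    (h2 : AdjoinRoot.mk g t ∣ AdjoinRoot.mk g (X - 1))
    (hnil : IsNilpotent (AdjoinRoot.mk g t)) :
    Chain (AdjoinRoot.mk g t) (e * g.natDegree) Q := by
  classical
  have := h.max
  let F := S ⧸ Ideal.span {γ}
  let _ : Field F := Ideal.Quotient.field _
  let θ : AdjoinRoot g →+* F := AdjoinRoot.lift (Ideal.Quotient.mk _) 1 (by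
    rw [eval₂_at_one, Ideal.Quotient.eq_zero_iff_mem, Ideal.mem_span_singleton]
    exact hg1)
  have hθ : ∀ f, θ (AdjoinRoot.mk g f) = Ideal.Quotient.mk _ (f.eval 1) := by
    intro f
    rw [AdjoinRoot.lift_mk, eval₂_at_one]
  have hsurj : Function.Surjective θ := by
    intro y
    obtain ⟨x, rfl⟩ := Ideal.Quotient.mk_surjective y
    exact ⟨AdjoinRoot.mk g (C x), by rw [hθ, eval_C]⟩
  have hker : RingHom.ker θ = Ideal.span {AdjoinRoot.mk g t} := by
    ext x
    obtain ⟨f, rfl⟩ := AdjoinRoot.mk_surjective x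
    rw [RingHom.mem_ker, hθ, Ideal.Quotient.eq_zero_iff_mem, Ideal.mem_span_singleton,
      Ideal.mem_span_singleton]
    refine ⟨fun hf => ?_, dvd_eval_of_dvd hg1 ht1⟩
    obtain ⟨u, hu⟩ := exists_eq_eval f
    obtain ⟨c, hc⟩ := hf
    rw [hu, hc, map_add, C_mul, map_mul, map_mul]
    exact dvd_add (h1.mul_right _) (h2.mul_right _)
  have hc : Chain (AdjoinRoot.mk g t) (Nat.find hnil) Q := by
    refine ⟨hker ▸ RingHom.ker_isMaximal_of_surjective θ hsurj, Nat.find_spec hnil,
      fun s hs => Nat.find_min hnil hs, ?_⟩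
    rw [← hker, ← h.card]
    exact Nat.card_congr (RingHom.quotientKerEquivOfSurjective hsurj).toEquiv
  have := hg.finite_adjoinRoot
  have : Finite (AdjoinRoot g) := Module.finite_of_finite S
  have h3 := hc.card_eq
  rw [card_adjoinRoot h hg] at h3
  rwa [Nat.pow_right_injective h.two_le_q h3]

theorem cyclotomic_eq (S : Type*) [CommRing S] {p : ℕ} (hp : p.Prime) (j : ℕ) :
    ∃ G : S[X], cyclotomic (p ^ (j + 1)) S = (X - 1) ^ Nat.totient (p ^ (j + 1)) + C (p : S) * G ∧
      G.eval 1 = 1 := by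
  have : Fact p.Prime := ⟨hp⟩
  have h1 : cyclotomic (p ^ (j + 1)) ℤ - (X - 1) ^ Nat.totient (p ^ (j + 1)) ∈
      RingHom.ker (Polynomial.mapRingHom (Int.castRingHom (ZMod p))) := by
    have h2 := cyclotomic_mul_prime_pow_eq (ZMod p) (p := p) (m := 1) hp.not_dvd_one
      (Nat.succ_pos j)
    rw [mul_one, cyclotomic_one] at h2
    rw [RingHom.mem_ker, Polynomial.coe_mapRingHom, Polynomial.map_sub, map_cyclotomic, h2,
      Nat.totient_prime_pow_succ hp, Nat.mul_sub_one, ← pow_succ]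
    simp
  rw [Polynomial.ker_mapRingHom, ZMod.ker_intCastRingHom, Ideal.map_span, Set.image_singleton,
    Ideal.mem_span_singleton] at h1
  obtain ⟨G, hG⟩ := h1
  have h3 : G.eval 1 = 1 := by
    have h4 := congrArg (eval 1) hG
    have h5 : 0 < Nat.totient (p ^ (j + 1)) := Nat.totient_pos.2 (pow_pos hp.pos _)
    rw [eval_sub, eval_one_cyclotomic_prime_pow, eval_pow, eval_sub, eval_X, eval_one, sub_self,
      zero_pow h5.ne', sub_zero, eval_mul, eval_C] at h4
    have h6 : (p : ℤ) ≠ 0 := by exact_mod_cast hp.ne_zero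
    exact (mul_eq_left₀ h6).1 h4.symm
  refine ⟨G.map (Int.castRingHom S), ?_, ?_⟩
  · have h4 := congrArg (Polynomial.map (Int.castRingHom S)) hG
    rw [Polynomial.map_sub, map_cyclotomic, Polynomial.map_mul, map_C] at h4
    simp only [Polynomial.map_pow, Polynomial.map_sub, map_X, Polynomial.map_one, map_natCast] at h4
    rw [map_natCast]
    linear_combination h4
  · rw [eval_one_map, h3, map_one]

end Pool.Agent.MP_975ab8_al

end

-- part MP_975ab8_al.Ell
section

namespace Pool.Agent.MP_975ab8_al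

open Finset

variable {ι : Type*} [LinearOrder ι]

/-- The pair sum. -/
def pairSum (c : ι → ℕ) (J : Finset ι) : ℕ := ∑ j ∈ J, ∑ i ∈ J.filter (fun i => i < j), c i

/-- The exponent for a finite index set. -/
def ellK (c : ι → ℕ) (K : Finset ι) (w : ι → ℕ) : ℕ :=
  K.powerset.sup fun J => ∑ j ∈ J, w j - pairSum c J

theorem pairSum_insert (c : ι → ℕ) {J : Finset ι} {a : ι} (ha : a ∉ J) :
    pairSum c (insert a J) = pairSum c J + ∑ j ∈ J, c (min j a) := by
  unfold pairSum
  rw [sum_insert ha]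
  have h1 : ∑ i ∈ (insert a J).filter (fun i => i < a), c i =
      ∑ j ∈ J, if j < a then c j else 0 := by
    rw [filter_insert, if_neg (lt_irrefl a), sum_filter]
  have h2 : ∀ j ∈ J, ∑ i ∈ (insert a J).filter (fun i => i < j), c i =
      (if a < j then c a else 0) + ∑ i ∈ J.filter (fun i => i < j), c i := by
    intro j _
    rw [filter_insert]
    split_ifs with h
    · rw [sum_insert (fun hh => ha (mem_filter.1 hh).1)]
    · rw [zero_add]
  rw [h1, sum_congr rfl h2, sum_add_distrib, ← add_assoc, ← sum_add_distrib, add_comm]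
  congr 1
  refine sum_congr rfl (fun j hj => ?_)
  have hja : j ≠ a := fun h => ha (h ▸ hj)
  rcases lt_or_gt_of_ne hja with h | h
  · rw [if_pos h, if_neg (not_lt.2 h.le), min_eq_left h.le, add_zero]
  · rw [if_neg (not_lt.2 h.le), if_pos h, min_eq_right h.le, zero_add]

theorem pairSum_mono (c : ι → ℕ) {J J' : Finset ι} (h : J ⊆ J') :
    pairSum c J ≤ pairSum c J' := by
  unfold pairSum
  calc ∑ j ∈ J, ∑ i ∈ J.filter (fun i => i < j), c i
      ≤ ∑ j ∈ J, ∑ i ∈ J'.filter (fun i => i < j), c i :=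
        sum_le_sum fun j _ => sum_le_sum_of_subset (filter_subset_filter _ h)
    _ ≤ _ := sum_le_sum_of_subset h

theorem le_ellK (c : ι → ℕ) {K J : Finset ι} (w : ι → ℕ) (h : J ⊆ K) :
    ∑ j ∈ J, w j - pairSum c J ≤ ellK c K w :=
  le_sup (f := fun J => ∑ j ∈ J, w j - pairSum c J) (mem_powerset.2 h)

theorem ellK_empty (c : ι → ℕ) (w : ι → ℕ) : ellK c ∅ w = 0 := by
  simp [ellK]

theorem ellK_step {c : ι → ℕ} (hc : Monotone c) {K : Finset ι} {w : ι → ℕ} {a : ι} (ha : a ∈ K)
    (hw : ∀ j ∈ K, w j ≤ w a) :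
    ellK c K w = w a + ellK c (K.erase a) (fun j => w j - c (min j a)) := by
  have hsum : ∀ J : Finset ι, ∑ j ∈ J, w j ≤
      ∑ j ∈ J, (w j - c (min j a)) + ∑ j ∈ J, c (min j a) := by
    intro J
    rw [← sum_add_distrib]
    exact sum_le_sum fun j _ => by omega
  apply le_antisymm
  · refine Finset.sup_le fun J hJ => ?_
    have hJ := mem_powerset.1 hJ
    by_cases haJ : a ∈ J
    · have h1 := le_ellK c (fun j => w j - c (min j a)) (erase_subset_erase a hJ)
      have h2 := pairSum_insert c (notMem_erase a J)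
      have h3 := add_sum_erase J w haJ
      rw [insert_erase haJ] at h2
      have h4 := hsum (J.erase a)
      omega
    · rcases J.eq_empty_or_nonempty with rfl | hne
      · simp
      have hi := J.max'_mem hne
      set i := J.max' hne with hidef
      have h1 := le_ellK c (K := K.erase a) (J := J.erase i) (fun j => w j - c (min j a))
        (fun j hj => mem_erase.2 ⟨fun h => haJ (h ▸ mem_of_mem_erase hj),
          hJ (mem_of_mem_erase hj)⟩)
      have h2 := pairSum_insert c (notMem_erase i J)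
      have h3 := add_sum_erase J w hi
      rw [insert_erase hi] at h2
      have h4 := hsum (J.erase i)
      have h5 : ∑ j ∈ J.erase i, c (min j a) ≤ ∑ j ∈ J.erase i, c (min j i) :=
        sum_le_sum fun j hj => hc (by
          rw [min_eq_left (J.le_max' j (mem_of_mem_erase hj))]
          exact min_le_left _ _)
      have h6 := hw i (hJ hi)
      omega
  · have h0 : w a ≤ ellK c K w := by
      have := le_ellK c w (singleton_subset_iff.2 ha)
      simpa [pairSum, filter_singleton] using this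
    have key : ellK c (K.erase a) (fun j => w j - c (min j a)) ≤ ellK c K w - w a := by
      refine Finset.sup_le fun J hJ => ?_
      have hJ := mem_powerset.1 hJ
      have haJ : a ∉ J := fun h => notMem_erase a K (hJ h)
      let J' := J.filter (fun j => c (min j a) ≤ w j)
      have hJ' : J' ⊆ J := filter_subset _ _
      have haJ' : a ∉ J' := fun h => haJ (hJ' h)
      have h1 := le_ellK c (K := K) (J := insert a J') w (insert_subset ha
        (hJ'.trans (hJ.trans (erase_subset _ _))))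
      rw [sum_insert haJ', pairSum_insert c haJ'] at h1
      have h2 := pairSum_mono c hJ'
      have h3 : ∑ j ∈ J, (w j - c (min j a)) = ∑ j ∈ J', (w j - c (min j a)) := by
        refine (sum_subset hJ' fun j hj hj' => ?_).symm
        have : ¬ c (min j a) ≤ w j := fun h => hj' (mem_filter.2 ⟨hj, h⟩)
        omega
      have h4 : ∑ j ∈ J', w j = ∑ j ∈ J', (w j - c (min j a)) + ∑ j ∈ J', c (min j a) := by
        rw [← sum_add_distrib]
        refine sum_congr rfl fun j hj => ?_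
        have := (mem_filter.1 hj).2
        omega
      beta_reduce
      omega
    omega

end Pool.Agent.MP_975ab8_al

end

-- part MP_975ab8_al.Index
section

namespace Pool.Agent.MP_975ab8_al

open Finset

theorem Chain.pow_dvd_mul_iff {R : Type*} [CommRing R] {γ : R} {e q : ℕ} (h : Chain γ e q)
    {w c : ℕ} (hw : w ≤ e) {u : R} (hu : IsUnit u) (x : R) :
    γ ^ w ∣ γ ^ c * u * x ↔ γ ^ (w - c) ∣ x := by
  obtain ⟨t, v, ht, hv, rfl⟩ := h.exists_eq x
  have : γ ^ c * u * (γ ^ t * v) = γ ^ (c + t) * (u * v) := by ring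
  rw [this, h.pow_dvd_iff (hu.mul hv), h.pow_dvd_iff hv]
  omega

theorem index_eq_mul {P : Type*} [AddCommGroup P] (D : AddSubgroup P) (f : P →+ P) :
    D.index = (D ⊔ f.range).index * (D.comap f).index := by
  rw [AddSubgroup.index_comap, ← AddSubgroup.relIndex_sup_left, mul_comm,
    AddSubgroup.relIndex_mul_index le_sup_left]

/-- A family of chain quotients of a commutative ring. -/
structure Family {P : Type*} [CommRing P] {ι : Type*} [LinearOrder ι] {C : ι → Type*}
    [∀ j, CommRing (C j)] (ρ : ∀ j, P →+* C j) (τ Ψ : ι → P) (L : ι → ℕ) (Q : ℕ) (c : ι → ℕ) :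
    Prop where
  surj : ∀ j, Function.Surjective (ρ j)
  chain : ∀ j, Chain (ρ j (τ j)) (L j) Q
  ker : ∀ j f, ρ j f = 0 ↔ Ψ j ∣ f
  tau : ∀ i j, ρ j (τ j) ∣ ρ j (τ i)
  psi : ∀ i j, i ≠ j → ∃ u, IsUnit u ∧ ρ j (Ψ i) = ρ j (τ j) ^ c (min j i) * u
  mono : Monotone c

variable {P : Type*} [CommRing P] {ι : Type*} [LinearOrder ι] {C : ι → Type*}
  [∀ j, CommRing (C j)]

/-- The elements with prescribed lower bounds for the valuations. -/
def dSub (ρ : ∀ j, P →+* C j) (τ : ι → P) (K : Finset ι) (w : ι → ℕ) : AddSubgroup P where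
  carrier := {f | ∀ j ∈ K, ρ j (τ j) ^ w j ∣ ρ j f}
  add_mem' := fun {a b} ha hb j hj => by
    rw [map_add]
    exact dvd_add (ha j hj) (hb j hj)
  zero_mem' := fun j _ => by
    rw [map_zero]
    exact dvd_zero _
  neg_mem' := fun {a} ha j hj => by
    rw [map_neg]
    exact dvd_neg.2 (ha j hj)

omit [LinearOrder ι] in
theorem mem_dSub {ρ : ∀ j, P →+* C j} {τ : ι → P} {K : Finset ι} {w : ι → ℕ} {f : P} :
    f ∈ dSub ρ τ K w ↔ ∀ j ∈ K, ρ j (τ j) ^ w j ∣ ρ j f := Iff.rfl

variable {ρ : ∀ j, P →+* C j} {τ Ψ : ι → P} {L : ι → ℕ} {Q : ℕ} {c : ι → ℕ}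

theorem Family.index_single [∀ j, Finite (C j)] (h : Family ρ τ Ψ L Q c) (a : ι) {w : ι → ℕ}
    (hw : w a ≤ L a) : (dSub ρ τ {a} w).index = Q ^ w a := by
  let A : AddSubgroup (C a) := (Ideal.span {ρ a (τ a) ^ w a}).toAddSubgroup
  have h1 : dSub ρ τ {a} w = A.comap (ρ a).toAddMonoidHom := by
    ext f
    rw [mem_dSub, AddSubgroup.mem_comap]
    simp only [mem_singleton, forall_eq]
    exact Ideal.mem_span_singleton.symm
  rw [h1, AddSubgroup.index_comap_of_surjective _ (h.surj a)]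
  have h2 := A.card_mul_index
  have h3 : Nat.card A = Q ^ (L a - w a) := by
    rw [← (h.chain a).card_dvd hw]
    exact Nat.card_congr (Equiv.subtypeEquivRight fun x => Ideal.mem_span_singleton)
  rw [h3, (h.chain a).card_eq] at h2
  have hQ : 0 < Q := by have := (h.chain a).two_le_q; omega
  apply Nat.eq_of_mul_eq_mul_left (pow_pos hQ (L a - w a))
  rw [h2, ← pow_add, Nat.sub_add_cancel hw]

theorem Family.index_dSub [∀ j, Finite (C j)] (h : Family ρ τ Ψ L Q c) (K : Finset ι) :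
    ∀ w : ι → ℕ, (∀ j ∈ K, w j ≤ L j) → (dSub ρ τ K w).index = Q ^ ellK c K w := by
  induction hn : K.card generalizing K with
  | zero =>
    intro w _
    rw [card_eq_zero.1 hn, ellK_empty, pow_zero, AddSubgroup.index_eq_one, eq_top_iff]
    intro f _ j hj
    exact absurd hj (notMem_empty j)
  | succ n ih =>
    intro w hw
    have hne : K.Nonempty := card_pos.1 (by omega)
    obtain ⟨a, ha, hmax⟩ := K.exists_max_image w hne
    rw [ellK_step h.mono ha hmax, pow_add, index_eq_mul _ (AddMonoidHom.mulLeft (Ψ a)),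
      ← h.index_single a (hw a ha), ← ih (K.erase a) (by rw [card_erase_of_mem ha]; omega) _
        (fun j hj => (Nat.sub_le _ _).trans (hw j (mem_of_mem_erase hj)))]
    congr 2
    · apply le_antisymm
      · refine sup_le (fun f hf j hj => ?_) ?_
        · rw [mem_singleton.1 hj]
          exact hf a ha
        · rintro _ ⟨g, rfl⟩ j hj
          rw [mem_singleton.1 hj, AddMonoidHom.coe_mulLeft, map_mul,
            (h.ker a _).2 dvd_rfl, zero_mul]
          exact dvd_zero _
      · intro f hf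
        obtain ⟨y, hy⟩ := hf a (mem_singleton_self a)
        obtain ⟨g, rfl⟩ := h.surj a y
        obtain ⟨z, hz⟩ := (h.ker a (f - τ a ^ w a * g)).1 (by
          rw [map_sub, map_mul, map_pow, hy, sub_self])
        refine AddSubgroup.mem_sup.2 ⟨τ a ^ w a * g, fun j hj => ?_, Ψ a * z, ⟨z, rfl⟩, ?_⟩
        · rw [map_mul, map_pow]
          exact ((pow_dvd_pow _ (hmax j hj)).trans (pow_dvd_pow_of_dvd (h.tau a j) _)).mul_right _
        · rw [← hz]
          ring
    · ext f
      rw [AddSubgroup.mem_comap, mem_dSub, mem_dSub]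
      simp only [AddMonoidHom.coe_mulLeft, map_mul]
      constructor
      · intro hf j hj
        obtain ⟨hja, hjK⟩ := mem_erase.1 hj
        obtain ⟨u, hu, hu'⟩ := h.psi a j hja.symm
        have := hf j hjK
        rwa [hu', (h.chain j).pow_dvd_mul_iff (hw j hjK) hu] at this
      · intro hf j hj
        by_cases hja : j = a
        · subst hja
          rw [(h.ker j _).2 dvd_rfl, zero_mul]
          exact dvd_zero _
        · obtain ⟨u, hu, hu'⟩ := h.psi a j (Ne.symm hja)
          rw [hu', (h.chain j).pow_dvd_mul_iff (hw j hj) hu]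
          exact hf j (mem_erase.2 ⟨hja, hj⟩)

theorem Family.card_dSub [Finite P] (h : Family ρ τ Ψ L Q c) (K : Finset ι) (a : ι)
    (w : ι → ℕ) (hw : ∀ j ∈ K, w j ≤ L j) :
    (Nat.card (dSub ρ τ K w) : ℚ) = Nat.card P / (Q : ℚ) ^ ellK c K w := by
  have : ∀ j, Finite (C j) := fun j => Finite.of_surjective _ (h.surj j)
  have h1 := (dSub ρ τ K w).card_mul_index
  rw [h.index_dSub K w hw] at h1
  have hQ : (Q : ℚ) ≠ 0 := by have := (h.chain a).two_le_q; positivity
  rw [← h1]
  push_cast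
  field_simp

theorem Family.card_val [Finite P] [Fintype ι] (h : Family ρ τ Ψ L Q c) (a : ι)
    (w : ι → ℕ) (hw : ∀ j, w j < L j) :
    (Nat.card {f : P // ∀ j, Chain.val (ρ j (τ j)) (L j) (ρ j f) = w j} : ℚ) =
      Nat.card P * ∑ I : Finset ι,
        (-1) ^ I.card / (Q : ℚ) ^ ellK c univ (fun j => w j + if j ∈ I then 1 else 0) := by
  classical
  have := Fintype.ofFinite P
  have h1 : ∀ f : P, (if ∀ j, Chain.val (ρ j (τ j)) (L j) (ρ j f) = w j then (1 : ℚ) else 0) =
      ∑ I : Finset ι, (-1) ^ I.card *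
        (if f ∈ dSub ρ τ univ (fun j => w j + if j ∈ I then 1 else 0) then (1 : ℚ) else 0) := by
    intro f
    have h2 : (if ∀ j, Chain.val (ρ j (τ j)) (L j) (ρ j f) = w j then (1 : ℚ) else 0) =
        ∏ j, ((if ρ j (τ j) ^ w j ∣ ρ j f then (1 : ℚ) else 0) -
          (if ρ j (τ j) ^ (w j + 1) ∣ ρ j f then (1 : ℚ) else 0)) := by
      rw [← Fintype.prod_boole]
      refine prod_congr rfl fun j _ => ?_
      rw [← (h.chain j).le_val_iff (hw j).le, ← (h.chain j).le_val_iff (hw j)]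
      split_ifs <;> first | omega | norm_num
    rw [h2, prod_sub, powerset_univ]
    refine sum_congr rfl fun I _ => ?_
    rw [mul_assoc]
    congr 1
    rw [prod_boole, prod_boole, ite_zero_mul_ite_zero, mul_one]
    simp only [mem_dSub]
    refine ite_congr (propext ?_) (fun _ => rfl) (fun _ => rfl)
    constructor
    · rintro ⟨h3, h4⟩ j _
      by_cases hj : j ∈ I
      · rw [if_pos hj]
        exact h4 j hj
      · rw [if_neg hj, add_zero]
        exact h3 j (mem_sdiff.2 ⟨mem_univ j, hj⟩)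
    · intro h3
      refine ⟨fun j hj => ?_, fun j hj => ?_⟩
      · have := h3 j (mem_univ j)
        rwa [if_neg (mem_sdiff.1 hj).2, add_zero] at this
      · have := h3 j (mem_univ j)
        rwa [if_pos hj] at this
  rw [Nat.card_eq_fintype_card, Fintype.card_subtype, card_filter]
  push_cast
  rw [sum_congr rfl fun f _ => h1 f, sum_comm, mul_sum]
  refine sum_congr rfl fun I _ => ?_
  have h5 := h.card_dSub univ a (fun j => w j + if j ∈ I then 1 else 0) (fun j _ => by
    have := hw j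
    split_ifs <;> omega)
  rw [← mul_sum, sum_boole, ← Fintype.card_subtype, ← Nat.card_eq_fintype_card]
  erw [h5]
  ring

end Pool.Agent.MP_975ab8_al

end

-- part MP_975ab8_al.Local
section

namespace Pool.Agent.MP_975ab8_al

open Finset Polynomial

variable {S : Type*} [CommRing S] {γ : S} {e Q : ℕ}

/-- The uniformizers of the rings `S[X] / Φ_{p ^ j}`. -/
noncomputable def unif (γ : S) (j : ℕ) : S[X] := if j = 0 then C γ else X - 1

theorem mk_X_sub_one_zero (p : ℕ) : AdjoinRoot.mk (cyclotomic (p ^ 0) S) (X - 1) = 0 := by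
  rw [pow_zero, cyclotomic_one, AdjoinRoot.mk_self]

theorem isNilpotent_mk_C (h : Chain γ e Q) (g : S[X]) : IsNilpotent (AdjoinRoot.mk g (C γ)) :=
  ⟨e, by rw [← map_pow, ← C_pow, h.pow_eq, map_zero, map_zero]⟩

theorem isUnit_mk_of_eval {g f : S[X]} (hnil : IsNilpotent (AdjoinRoot.mk g (X - 1)))
    (hf : IsUnit (f.eval 1)) : IsUnit (AdjoinRoot.mk g f) := by
  obtain ⟨u, hu⟩ := exists_eq_eval f
  rw [hu, map_add, map_mul]
  exact ((Commute.all _ _).isNilpotent_mul_right hnil).isUnit_add_left_of_commute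
    ((hf.map C).map _) (Commute.all _ _)

theorem ramified_facts (h : Chain γ e Q) {p : ℕ} (hp : p.Prime) {v : S}
    (hpv : (p : S) = γ * v) (j : ℕ) :
    IsNilpotent (AdjoinRoot.mk (cyclotomic (p ^ (j + 1)) S) (X - 1)) ∧
    ∃ u, IsUnit u ∧ AdjoinRoot.mk (cyclotomic (p ^ (j + 1)) S) (C (p : S)) =
      AdjoinRoot.mk (cyclotomic (p ^ (j + 1)) S) (X - 1) ^ Nat.totient (p ^ (j + 1)) * u := by
  obtain ⟨G, hG, hG1⟩ := cyclotomic_eq S hp j
  set g := cyclotomic (p ^ (j + 1)) S
  have h1 : AdjoinRoot.mk g (X - 1) ^ Nat.totient (p ^ (j + 1)) +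
      AdjoinRoot.mk g (C (p : S)) * AdjoinRoot.mk g G = 0 := by
    rw [← map_pow, ← map_mul, ← map_add, ← hG, AdjoinRoot.mk_self]
  have hnil : IsNilpotent (AdjoinRoot.mk g (X - 1)) := by
    refine IsNilpotent.of_pow (m := Nat.totient (p ^ (j + 1))) ?_
    rw [eq_neg_of_add_eq_zero_left h1, hpv, C_mul, map_mul, mul_assoc]
    exact ((Commute.all _ _).isNilpotent_mul_right (isNilpotent_mk_C h g)).neg
  refine ⟨hnil, ?_⟩
  obtain ⟨y, hy⟩ := (isUnit_mk_of_eval hnil (f := G) (by rw [hG1]; exact isUnit_one)).exists_right_inv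
  refine ⟨-y, (IsUnit.of_mul_eq_one_right _ hy).neg, ?_⟩
  linear_combination y * h1 - AdjoinRoot.mk g (C (p : S)) * hy

theorem totient_lt {p : ℕ} (hp : p.Prime) {i j : ℕ} (hij : i < j) :
    Nat.totient (p ^ (i + 1)) < Nat.totient (p ^ (j + 1)) := by
  rw [Nat.totient_prime_pow_succ hp, Nat.totient_prime_pow_succ hp]
  exact Nat.mul_lt_mul_of_pos_right (Nat.pow_lt_pow_right hp.one_lt hij)
    (by have := hp.two_le; omega)

theorem totient_mono {p : ℕ} (hp : p.Prime) : Monotone fun j : ℕ => Nat.totient (p ^ j) :=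
  fun _ _ hij => Nat.le_of_dvd (Nat.totient_pos.2 (pow_pos hp.pos _))
    (Nat.totient_dvd_of_dvd (pow_dvd_pow p hij))

theorem unif_dvd (h : Chain γ e Q) {p : ℕ} (hp : p.Prime) {j : ℕ}
    (hram : j ≠ 0 → ∃ v, IsUnit v ∧ (p : S) = γ * v) :
    AdjoinRoot.mk (cyclotomic (p ^ j) S) (unif γ j) ∣ AdjoinRoot.mk _ (C γ) ∧
    AdjoinRoot.mk (cyclotomic (p ^ j) S) (unif γ j) ∣ AdjoinRoot.mk _ (X - 1) := by
  rcases j with _ | j
  · rw [unif, if_pos rfl, mk_X_sub_one_zero]
    exact ⟨dvd_rfl, dvd_zero _⟩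
  · obtain ⟨v, hv, hpv⟩ := hram (Nat.succ_ne_zero j)
    obtain ⟨-, u, -, hu⟩ := ramified_facts h hp hpv j
    rw [unif, if_neg (Nat.succ_ne_zero j)]
    refine ⟨?_, dvd_rfl⟩
    rw [hpv, C_mul, map_mul] at hu
    rw [← ((hv.map C).map (AdjoinRoot.mk (cyclotomic (p ^ (j + 1)) S))).dvd_mul_right, hu]
    exact (dvd_pow_self _ (Nat.totient_pos.2 (pow_pos hp.pos _)).ne').mul_right _

theorem chain_cyclotomic [Finite S] (h : Chain γ e Q) {p : ℕ} (hp : p.Prime) {j : ℕ}
    (hram : j ≠ 0 → ∃ v, IsUnit v ∧ (p : S) = γ * v) :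
    Chain (AdjoinRoot.mk (cyclotomic (p ^ j) S) (unif γ j)) (e * Nat.totient (p ^ j)) Q := by
  have := h.nontrivial
  have : Fact p.Prime := ⟨hp⟩
  rw [← natDegree_cyclotomic (p ^ j) S]
  refine chain_adjoinRoot h (cyclotomic.monic _ _) ?_ ?_ (unif_dvd h hp hram).1
    (unif_dvd h hp hram).2 ?_
  · rcases j with _ | j
    · simp
    · obtain ⟨v, hv, hpv⟩ := hram (Nat.succ_ne_zero j)
      rw [eval_one_cyclotomic_prime_pow, hpv]
      exact dvd_mul_right _ _
  · unfold unif
    split_ifs <;> simp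
  · rcases j with _ | j
    · rw [unif, if_pos rfl]
      exact isNilpotent_mk_C h _
    · obtain ⟨v, hv, hpv⟩ := hram (Nat.succ_ne_zero j)
      rw [unif, if_neg (Nat.succ_ne_zero j)]
      exact (ramified_facts h hp hpv j).1

theorem psi_cyclotomic (h : Chain γ e Q) {p : ℕ} (hp : p.Prime) {v : S} (hv : IsUnit v)
    (hpv : (p : S) = γ * v) {i j : ℕ} (hij : i ≠ j) :
    ∃ u, IsUnit u ∧ AdjoinRoot.mk (cyclotomic (p ^ j) S) (cyclotomic (p ^ i) S) =
      AdjoinRoot.mk (cyclotomic (p ^ j) S) (unif γ j) ^ Nat.totient (p ^ min j i) * u := by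
  have : Fact p.Prime := ⟨hp⟩
  rcases j with _ | j
  · obtain ⟨i, rfl⟩ := Nat.exists_eq_succ_of_ne_zero hij
    obtain ⟨u, hu⟩ := exists_eq_eval (cyclotomic (p ^ (i + 1)) S)
    refine ⟨AdjoinRoot.mk _ (C v), (hv.map C).map _, ?_⟩
    rw [hu, map_add, map_mul, mk_X_sub_one_zero, zero_mul, add_zero,
      eval_one_cyclotomic_prime_pow, hpv, C_mul, map_mul, unif, if_pos rfl, Nat.zero_min, pow_zero,
      Nat.totient_one, pow_one]
  rw [unif, if_neg (Nat.succ_ne_zero j)]
  rcases i with _ | i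
  · exact ⟨1, isUnit_one, by simp⟩
  obtain ⟨hnil, u, hu, hu'⟩ := ramified_facts h hp hpv j
  obtain ⟨G, hG, hG1⟩ := cyclotomic_eq S hp i
  have hGu := isUnit_mk_of_eval hnil (f := G) (by rw [hG1]; exact isUnit_one)
  rw [hG, map_add, map_pow, map_mul, hu']
  set τ := AdjoinRoot.mk (cyclotomic (p ^ (j + 1)) S) (X - 1)
  rcases lt_or_gt_of_ne (fun hh : i = j => hij (by rw [hh])) with hlt | hlt
  · obtain ⟨d, hd⟩ := Nat.exists_eq_add_of_lt (totient_lt hp hlt)
    rw [min_eq_right (by omega), hd]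
    refine ⟨1 + τ * (τ ^ d * u * AdjoinRoot.mk _ G),
      ((Commute.all _ _).isNilpotent_mul_right hnil).isUnit_one_add, by ring⟩
  · obtain ⟨d, hd⟩ := Nat.exists_eq_add_of_lt (totient_lt hp hlt)
    rw [min_eq_left (by omega), hd]
    refine ⟨u * AdjoinRoot.mk _ G + τ * τ ^ d,
      ((Commute.all _ _).isNilpotent_mul_right hnil).isUnit_add_left_of_commute (hu.mul hGu)
        (Commute.all _ _), by ring⟩

theorem norm_unif (h : Chain γ e Q) {p : ℕ} (hp : p.Prime) {j : ℕ}
    (hram : j ≠ 0 → ∃ v, IsUnit v ∧ (p : S) = γ * v) :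
    ∃ u, IsUnit u ∧ Algebra.norm S (AdjoinRoot.mk (cyclotomic (p ^ j) S) (unif γ j)) = γ * u := by
  have := h.nontrivial
  have : Fact p.Prime := ⟨hp⟩
  rcases j with _ | j
  · refine ⟨1, isUnit_one, ?_⟩
    have hm := cyclotomic.monic (p ^ 0) S
    have := hm.free_adjoinRoot
    have := hm.finite_adjoinRoot
    rw [unif, if_pos rfl, AdjoinRoot.mk_C, ← AdjoinRoot.algebraMap_eq, Algebra.norm_algebraMap,
      (AdjoinRoot.powerBasis' hm).finrank, AdjoinRoot.powerBasis'_dim, natDegree_cyclotomic]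
    simp
  · obtain ⟨v, hv, hpv⟩ := hram (Nat.succ_ne_zero j)
    rw [unif, if_neg (Nat.succ_ne_zero j), ← C_1, norm_X_sub_C (cyclotomic.monic _ _),
      eval_one_cyclotomic_prime_pow, hpv]
    exact ⟨_, (isUnit_one.neg.pow _).mul hv, mul_left_comm _ _ _⟩

theorem prod_cyclotomic_pow (S : Type*) [CommRing S] {p : ℕ} (hp : p.Prime) (k : ℕ) :
    (X ^ p ^ k - 1 : S[X]) = ∏ j : Fin (k + 1), cyclotomic (p ^ (j : ℕ)) S := by
  rw [← prod_cyclotomic_eq_X_pow_sub_one (pow_pos hp.pos k), Nat.prod_divisors_prime_pow hp,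
    Fin.prod_univ_eq_prod_range (fun j => cyclotomic (p ^ j) S)]

theorem local_count_unram [Finite S] (h : Chain γ e Q) {p : ℕ} (hp : p.Prime) {k : ℕ}
    (hram : k ≠ 0 → ∃ v, IsUnit v ∧ (p : S) = γ * v) {s : ℕ} (hs : s < e) :
    (Nat.card {f : AdjoinRoot (X ^ p ^ k - 1 : S[X]) //
      Chain.val γ e (Algebra.norm S f) = s} : ℚ) =
      (Q : ℚ) ^ (e * p ^ k) * zCoeff p k Q s := by
  classical
  have := h.nontrivial
  have hr : 0 < p ^ k := pow_pos hp.pos k
  have hram' : ∀ j : Fin (k + 1), (j : ℕ) ≠ 0 → ∃ v, IsUnit v ∧ (p : S) = γ * v :=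
    fun j hj => hram (by have := j.2; omega)
  have hdvd : ∀ j : Fin (k + 1), cyclotomic (p ^ (j : ℕ)) S ∣ X ^ p ^ k - 1 := fun j => by
    rw [prod_cyclotomic_pow S hp]
    exact dvd_prod_of_mem (fun j : Fin (k + 1) => cyclotomic (p ^ (j : ℕ)) S) (mem_univ j)
  let ρ : ∀ j : Fin (k + 1), AdjoinRoot (X ^ p ^ k - 1 : S[X]) →+*
      AdjoinRoot (cyclotomic (p ^ (j : ℕ)) S) := fun j =>
    (AdjoinRoot.algHomOfDvd S _ _ (hdvd j)).toRingHom
  have hρ : ∀ j g, ρ j (AdjoinRoot.mk _ g) = AdjoinRoot.mk _ g := by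
    intro j g
    have : (AdjoinRoot.algHomOfDvd S _ _ (hdvd j)).comp (AdjoinRoot.mkₐ _) = AdjoinRoot.mkₐ _ := by
      ext
      simp
    exact AlgHom.congr_fun this g
  have hfam : Family ρ (fun j => AdjoinRoot.mk _ (unif γ j))
      (fun j => AdjoinRoot.mk _ (cyclotomic (p ^ (j : ℕ)) S)) (fun j => e * Nat.totient (p ^ (j : ℕ)))
      Q (fun j => Nat.totient (p ^ (j : ℕ))) := by
    refine ⟨fun j x => ?_, fun j => ?_, fun j f => ?_, fun i j => ?_, fun i j hij => ?_,
      fun i j hij => totient_mono hp hij⟩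
    · obtain ⟨g, rfl⟩ := AdjoinRoot.mk_surjective x
      exact ⟨_, hρ j g⟩
    · rw [hρ]
      exact chain_cyclotomic h hp (hram' j)
    · obtain ⟨g, rfl⟩ := AdjoinRoot.mk_surjective f
      rw [hρ, AdjoinRoot.mk_eq_zero]
      refine ⟨fun hd => map_dvd _ hd, fun hd => ?_⟩
      have := map_dvd (ρ j) hd
      rwa [hρ, hρ, AdjoinRoot.mk_self, zero_dvd_iff, AdjoinRoot.mk_eq_zero] at this
    · rw [hρ, hρ]
      rw [unif.eq_1 γ i]
      split_ifs
      · exact (unif_dvd h hp (hram' j)).1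
      · exact (unif_dvd h hp (hram' j)).2
    · obtain ⟨v, hv, hpv⟩ := hram (by
        have h1 := i.2
        have h2 := j.2
        have h3 : (i : ℕ) ≠ j := fun hh => hij (Fin.ext hh)
        omega)
      rw [hρ, hρ, Fin.coe_min]
      exact psi_cyclotomic h hp hv hpv (fun hh => hij (Fin.ext hh))
  have := (monic_cyc (R := S) hr).finite_adjoinRoot
  have : Finite (AdjoinRoot (X ^ p ^ k - 1 : S[X])) := Module.finite_of_finite S
  have := Fintype.ofFinite (AdjoinRoot (X ^ p ^ k - 1 : S[X]))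
  let V : AdjoinRoot (X ^ p ^ k - 1 : S[X]) → Fin (k + 1) → ℕ := fun f j =>
    Chain.val (ρ j (AdjoinRoot.mk _ (unif γ j))) (e * Nat.totient (p ^ (j : ℕ))) (ρ j f)
  have hval : ∀ f, Chain.val γ e (Algebra.norm S f) = min (∑ j, V f j) e := by
    intro f
    obtain ⟨g, rfl⟩ := AdjoinRoot.mk_surjective f
    have h1 : Algebra.norm S (AdjoinRoot.mk (X ^ p ^ k - 1 : S[X]) g) =
        ∏ j : Fin (k + 1), Algebra.norm S (AdjoinRoot.mk (cyclotomic (p ^ (j : ℕ)) S) g) := by
      rw [prod_cyclotomic_pow S hp, norm_mk_prod _ _ (fun j => cyclotomic.monic _ _)]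
    have h2 : ∀ j : Fin (k + 1), ∃ u, IsUnit u ∧
        Algebra.norm S (AdjoinRoot.mk (cyclotomic (p ^ (j : ℕ)) S) g) =
          γ ^ V (AdjoinRoot.mk _ g) j * u := by
      intro j
      obtain ⟨t, u, ht, hu, hg⟩ := (hfam.chain j).exists_eq (ρ j (AdjoinRoot.mk _ g))
      obtain ⟨u', hu', hn⟩ := norm_unif h hp (hram' j)
      have h3 : V (AdjoinRoot.mk _ g) j = t := by
        simp only [V]
        rw [hg, (hfam.chain j).val_eq t hu, min_eq_left ht]
      rw [hρ, hρ] at hg
      refine ⟨u' ^ t * Algebra.norm S u, (hu'.pow t).mul (hu.map _), ?_⟩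
      rw [h3, hg, map_mul, map_pow, hn]
      ring
    choose u hu hu' using h2
    rw [h1, prod_congr rfl fun j _ => hu' j, prod_mul_distrib, prod_pow_eq_pow_sum,
      h.val_eq _ (IsUnit.prod_univ_iff.2 hu)]
  have hcard : Nat.card {f : AdjoinRoot (X ^ p ^ k - 1 : S[X]) //
      Chain.val γ e (Algebra.norm S f) = s} =
      ∑ w ∈ Finset.Nat.antidiagonalTuple (k + 1) s,
        Nat.card {f : AdjoinRoot (X ^ p ^ k - 1 : S[X]) // ∀ j, V f j = w j} := by
    simp only [Nat.card_eq_fintype_card, Fintype.card_subtype]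
    rw [card_eq_sum_card_fiberwise (f := V) (t := Finset.Nat.antidiagonalTuple (k + 1) s)
      (fun f hf => by
        have h1 := (mem_filter.1 hf).2
        rw [hval] at h1
        exact Finset.Nat.mem_antidiagonalTuple.2 (by omega))]
    refine sum_congr rfl fun w hw => ?_
    have hw' := Finset.Nat.mem_antidiagonalTuple.1 hw
    congr 1
    ext f
    simp only [mem_filter, mem_univ, true_and, hval, ← funext_iff]
    refine ⟨fun hh => hh.2, fun hh => ⟨?_, hh⟩⟩
    rw [hh, hw']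
    omega
  rw [hcard, zCoeff, mul_sum]
  push_cast
  refine sum_congr rfl fun w hw => ?_
  have hw' := Finset.Nat.mem_antidiagonalTuple.1 hw
  rw [hfam.card_val 0 w (fun j => by
    have h1 : w j ≤ s := hw' ▸ single_le_sum (f := w) (fun _ _ => Nat.zero_le _) (mem_univ j)
    have h2 : e ≤ e * Nat.totient (p ^ (j : ℕ)) :=
      Nat.le_mul_of_pos_right _ (Nat.totient_pos.2 (pow_pos hp.pos _))
    omega), card_cyc h hr]
  push_cast
  rfl

end Pool.Agent.MP_975ab8_al

end

-- part MP_975ab8_al.Small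
section

namespace Pool.Agent.MP_975ab8_al

open Finset Polynomial

theorem ellK_bump {ι : Type*} [LinearOrder ι] {c : ι → ℕ} (hc : ∀ i, 1 ≤ c i) {K : Finset ι}
    {w w' : ι → ℕ} {a b : ι} (hb : b ∈ K) (h1 : 1 ≤ w b) (ha : w a = 0)
    (ha' : w' a = 1) (hw : ∀ j, j ≠ a → w' j = w j) : ellK c K w' = ellK c K w := by
  apply le_antisymm
  · refine Finset.sup_le fun J hJ => ?_
    have hJ := mem_powerset.1 hJ
    have hs : ∑ j ∈ J.erase a, w' j = ∑ j ∈ J.erase a, w j :=
      sum_congr rfl fun j hj => hw j (ne_of_mem_erase hj)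
    by_cases haJ : a ∈ J
    · have h2 := pairSum_insert c (notMem_erase a J)
      have h3 := add_sum_erase J w' haJ
      rw [insert_erase haJ] at h2
      rcases (J.erase a).eq_empty_or_nonempty with he | ⟨i, hi⟩
      · have h4 := le_ellK c w (singleton_subset_iff.2 hb)
        simp only [pairSum, filter_singleton, lt_self_iff_false, sum_singleton, if_false,
          sum_empty] at h4
        rw [he, sum_empty] at h3
        omega
      · have h4 := le_ellK c w ((erase_subset a J).trans hJ)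
        have h5 : c (min i a) ≤ ∑ j ∈ J.erase a, c (min j a) :=
          single_le_sum (f := fun j => c (min j a)) (fun _ _ => Nat.zero_le _) hi
        have h6 := hc (min i a)
        omega
    · rw [erase_eq_of_notMem haJ] at hs
      rw [hs]
      exact le_ellK c w hJ
  · refine Finset.sup_le fun J hJ => ?_
    refine le_trans (Nat.sub_le_sub_right (sum_le_sum fun j _ => ?_) _)
      (le_ellK c w' (mem_powerset.1 hJ))
    by_cases hj : j = a
    · rw [hj, ha]
      exact Nat.zero_le _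
    · exact (hw j hj).ge

theorem ell_eq (p k : ℕ) (w : Fin (k + 1) → ℕ) :
    ell p k w = ellK (fun j : Fin (k + 1) => Nat.totient (p ^ (j : ℕ))) univ w := rfl

theorem ell_pair {p : ℕ} (hp : p.Prime) {k : ℕ} (Q : ℚ) {w : Fin (k + 1) → ℕ} {a : Fin (k + 1)}
    (ha : w a = 0) {t : Finset (Fin (k + 1))} (hat : a ∉ t) (hb : ∃ b, 1 ≤ w b ∨ b ∈ t) :
    (-1 : ℚ) ^ t.card / Q ^ ell p k (fun j => w j + if j ∈ t then 1 else 0) +
      (-1) ^ (insert a t).card / Q ^ ell p k (fun j => w j + if j ∈ insert a t then 1 else 0) =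
      0 := by
  obtain ⟨b, hb⟩ := hb
  rw [card_insert_of_notMem hat, ell_eq p k (fun j => w j + if j ∈ insert a t then 1 else 0),
    ellK_bump (w := fun j => w j + if j ∈ t then 1 else 0) (a := a) (b := b)
      (fun i => Nat.totient_pos.2 (pow_pos hp.pos _)) (mem_univ b), ← ell_eq]
  · ring
  · rcases hb with hb | hb
    · omega
    · simp [hb]
  · simp [ha, hat]
  · simp [ha]
  · intro j hj
    simp [hj]

theorem zCoeff_small {p : ℕ} (hp : p.Prime) {k : ℕ} (Q : ℚ) {s : ℕ} (h1 : 1 ≤ s) (h2 : s ≤ k) :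
    zCoeff p k Q s = 0 := by
  refine sum_eq_zero fun w hw => ?_
  have hw' := Finset.Nat.mem_antidiagonalTuple.1 hw
  obtain ⟨a, ha⟩ : ∃ a, w a = 0 := by
    by_contra hc
    push Not at hc
    have : ∑ _j : Fin (k + 1), 1 ≤ ∑ j, w j :=
      sum_le_sum fun j _ => Nat.one_le_iff_ne_zero.2 (hc j)
    simp only [sum_const, card_univ, Fintype.card_fin, smul_eq_mul, mul_one] at this
    omega
  obtain ⟨b, hb⟩ : ∃ b, 1 ≤ w b := by
    by_contra hc
    push Not at hc
    have : ∑ j, w j = 0 := sum_eq_zero fun j _ => by have := hc j; omega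
    omega
  rw [← powerset_univ, ← insert_erase (mem_univ a), sum_powerset_insert (notMem_erase a _),
    ← sum_add_distrib]
  exact sum_eq_zero fun t ht => ell_pair hp Q ha
    (fun hh => notMem_erase a _ (mem_powerset.1 ht hh)) ⟨b, Or.inl hb⟩

theorem zCoeff_zero {p : ℕ} (hp : p.Prime) (k : ℕ) (Q : ℚ) : zCoeff p k Q 0 = 1 - Q⁻¹ := by
  rw [zCoeff, Finset.Nat.antidiagonalTuple_zero_right, sum_singleton, ← powerset_univ,
    ← insert_erase (mem_univ (0 : Fin (k + 1))), sum_powerset_insert (notMem_erase _ _),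
    ← sum_add_distrib, sum_eq_single ∅]
  · have h0 : ∀ K : Finset (Fin (k + 1)),
        ellK (fun j : Fin (k + 1) => Nat.totient (p ^ (j : ℕ))) K (fun _ => 0) = 0 := by
      intro K
      simp [ellK]
    have h1 : ell p k (fun j => (0 : Fin (k + 1) → ℕ) j +
        if j ∈ (∅ : Finset (Fin (k + 1))) then 1 else 0) = 0 := by
      simpa [ell_eq] using h0 univ
    have h2 : ell p k (fun j => (0 : Fin (k + 1) → ℕ) j +
        if j ∈ insert (0 : Fin (k + 1)) (∅ : Finset (Fin (k + 1))) then 1 else 0) = 1 := by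
      rw [ell_eq, ellK_step (c := fun j : Fin (k + 1) => Nat.totient (p ^ (j : ℕ)))
        (fun i j hij => totient_mono hp hij) (mem_univ (0 : Fin (k + 1)))
        (fun j _ => by by_cases hj : j = 0 <;> simp [hj])]
      have h3 : (fun j : Fin (k + 1) => ((0 : Fin (k + 1) → ℕ) j +
          if j ∈ insert (0 : Fin (k + 1)) (∅ : Finset (Fin (k + 1))) then 1 else 0) -
          Nat.totient (p ^ ((min j 0 : Fin (k + 1)) : ℕ))) = fun _ => 0 := by
        funext j
        by_cases hj : j = 0 <;> simp [hj]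
      rw [h3, h0]
      simp
    rw [h1, h2]
    simp [sub_eq_add_neg, neg_div]
  · intro t ht hne
    obtain ⟨b, hb⟩ := nonempty_iff_ne_empty.2 hne
    exact ell_pair hp Q rfl (fun hh => notMem_erase _ _ (mem_powerset.1 ht hh)) ⟨b, Or.inr hb⟩
  · intro hh
    exact absurd (empty_mem_powerset _) hh

variable {S : Type*} [CommRing S] {γ : S} {e Q : ℕ}

theorem isNilpotent_root_sub_one (h : Chain γ e Q) {p : ℕ} (hp : p.Prime) (hγ : γ ∣ (p : S))
    (k : ℕ) : IsNilpotent (AdjoinRoot.mk (X ^ p ^ k - 1 : S[X]) (X - 1)) := by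
  obtain ⟨v, hv⟩ := hγ
  obtain ⟨r, hr⟩ := exists_add_pow_prime_pow_eq hp (X - 1 : S[X]) 1 k
  refine IsNilpotent.of_pow (m := p ^ k) ?_
  have h1 : (X - 1 : S[X]) ^ p ^ k = (X ^ p ^ k - 1) - C γ * (C v * (X - 1) * r) := by
    rw [sub_add_cancel, one_pow, ← C_eq_natCast, hv, C_mul] at hr
    linear_combination -hr
  rw [← map_pow, h1, map_sub, AdjoinRoot.mk_self, zero_sub, map_mul]
  exact ((Commute.all _ _).isNilpotent_mul_right (isNilpotent_mk_C h _)).neg

theorem dvd_norm_of_dvd_eval (h : Chain γ e Q) {g f : S[X]} (hg : g.Monic)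
    (hg1 : γ ∣ g.eval 1) (hf : γ ∣ f.eval 1) : γ ∣ Algebra.norm S (AdjoinRoot.mk g f) := by
  have := hg.free_adjoinRoot
  have := hg.finite_adjoinRoot
  by_contra hc
  have h1 := h.isUnit_of_not_dvd hc
  rw [Algebra.norm_apply, ← LinearMap.isUnit_iff_isUnit_det, Algebra.lmul_isUnit_iff] at h1
  have h2 := dvd_eval_of_dvd (f := 1) hg1 hf (by rw [map_one]; exact h1.dvd)
  rw [eval_one] at h2
  exact h.not_isUnit (isUnit_of_dvd_one h2)

theorem local_count_small [Finite S] (h : Chain γ e Q) {p : ℕ} (hp : p.Prime) {k : ℕ}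
    (hγ : γ ∣ (p : S)) (hek : e ≤ k) {s : ℕ} (hs : s < e) :
    (Nat.card {f : AdjoinRoot (X ^ p ^ k - 1 : S[X]) //
      Chain.val γ e (Algebra.norm S f) = s} : ℚ) =
      (Q : ℚ) ^ (e * p ^ k) * zCoeff p k Q s := by
  classical
  have := h.nontrivial
  have : Fact p.Prime := ⟨hp⟩
  have hr : 0 < p ^ k := pow_pos hp.pos k
  have := h.max
  let F := S ⧸ Ideal.span {γ}
  let θ : AdjoinRoot (X ^ p ^ k - 1 : S[X]) →+* F := AdjoinRoot.lift (Ideal.Quotient.mk _) 1 (by
    rw [eval₂_at_one]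
    simp)
  have hθ : ∀ f, θ (AdjoinRoot.mk _ f) = 0 ↔ γ ∣ f.eval 1 := by
    intro f
    rw [AdjoinRoot.lift_mk, eval₂_at_one, Ideal.Quotient.eq_zero_iff_mem, Ideal.mem_span_singleton]
  have hsurj : Function.Surjective θ := by
    intro y
    obtain ⟨x, rfl⟩ := Ideal.Quotient.mk_surjective y
    exact ⟨AdjoinRoot.mk _ (C x), by rw [AdjoinRoot.lift_mk, eval₂_at_one, eval_C]⟩
  have hval : ∀ f : AdjoinRoot (X ^ p ^ k - 1 : S[X]),
      Chain.val γ e (Algebra.norm S f) = if θ f = 0 then e else 0 := by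
    intro f
    obtain ⟨g, rfl⟩ := AdjoinRoot.mk_surjective f
    by_cases hg : γ ∣ g.eval 1
    · rw [if_pos ((hθ g).2 hg)]
      refine le_antisymm (Chain.val_le _ _ _) ((h.le_val_iff le_rfl).2 ?_)
      have h1 : Algebra.norm S (AdjoinRoot.mk (X ^ p ^ k - 1 : S[X]) g) =
          ∏ j : Fin (k + 1), Algebra.norm S (AdjoinRoot.mk (cyclotomic (p ^ (j : ℕ)) S) g) := by
        rw [prod_cyclotomic_pow S hp, norm_mk_prod _ _ (fun j => cyclotomic.monic _ _)]
      have h2 : ∏ _j : Fin (k + 1), γ ∣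
          ∏ j : Fin (k + 1), Algebra.norm S (AdjoinRoot.mk (cyclotomic (p ^ (j : ℕ)) S) g) := by
        refine prod_dvd_prod_of_dvd _ _ fun j _ =>
          dvd_norm_of_dvd_eval h (cyclotomic.monic _ _) ?_ hg
        rcases (j : ℕ) with _ | i
        · simp
        · rwa [eval_one_cyclotomic_prime_pow]
      rw [prod_const, card_univ, Fintype.card_fin] at h2
      rw [h1]
      exact (pow_dvd_pow γ (by omega)).trans h2
    · rw [if_neg (fun hh => hg ((hθ g).1 hh))]
      have h1 := (isUnit_mk_of_eval (isNilpotent_root_sub_one h hp hγ k)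
        (h.isUnit_of_not_dvd hg)).map (Algebra.norm S)
      have h2 := h.val_eq 0 h1
      rwa [pow_zero, one_mul, Nat.zero_min] at h2
  simp only [hval]
  rcases Nat.eq_zero_or_pos s with rfl | hs0
  · have := (monic_cyc (R := S) hr).finite_adjoinRoot
    have : Finite (AdjoinRoot (X ^ p ^ k - 1 : S[X])) := Module.finite_of_finite S
    have : Finite F := Finite.of_surjective _ hsurj
    have h1 := card_preimage θ.toAddMonoidHom hsurj (fun y => ¬ y = 0)
    have h2 : Nat.card {y : F // ¬ y = 0} = Q - 1 := by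
      have := Fintype.ofFinite F
      rw [← h.card, Nat.card_eq_fintype_card, Nat.card_eq_fintype_card,
        Fintype.card_subtype_compl, Fintype.card_subtype_eq]
    have h3 : Nat.card F = Q := h.card
    rw [h2, h3, card_cyc h hr] at h1
    have h4 : Nat.card {f : AdjoinRoot (X ^ p ^ k - 1 : S[X]) // (if θ f = 0 then e else 0) = 0} =
        Nat.card {f : AdjoinRoot (X ^ p ^ k - 1 : S[X]) // ¬ θ.toAddMonoidHom f = 0} := by
      refine Nat.card_congr (Equiv.subtypeEquivRight fun f => ?_)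
      change _ ↔ ¬ θ f = 0
      split_ifs with hf
      · simp [hf, hs.ne']
      · simp [hf]
    have h5 := congrArg (Nat.cast : ℕ → ℚ) h1
    have hQ := h.two_le_q
    rw [Nat.cast_mul, Nat.cast_mul, Nat.cast_sub (by omega)] at h5
    have hQ0 : (Q : ℚ) ≠ 0 := by positivity
    rw [h4, zCoeff_zero hp]
    push_cast at h5
    field_simp
    linear_combination h5
  · rw [zCoeff_small hp _ hs0 (by omega), mul_zero, Nat.cast_eq_zero]
    have : IsEmpty {f : AdjoinRoot (X ^ p ^ k - 1 : S[X]) // (if θ f = 0 then e else 0) = s} :=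
      ⟨fun f => by
        have := f.2
        split_ifs at this <;> omega⟩
    exact Nat.card_of_isEmpty

end Pool.Agent.MP_975ab8_al

end

-- part MP_975ab8_al.Tower
section

namespace Pool.Agent.MP_975ab8_al

open Finset Polynomial

universe u

variable {R : Type u} [CommRing R] {γ : R} {e q : ℕ}

theorem root_pow_eq_one (R : Type*) [CommRing R] (n : ℕ) :
    AdjoinRoot.root (X ^ n - 1 : R[X]) ^ n = 1 := by
  have := AdjoinRoot.mk_self (f := (X ^ n - 1 : R[X]))
  rwa [map_sub, map_pow, AdjoinRoot.mk_X, map_one, sub_eq_zero] at this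

theorem card_cyc' (B : Type*) [CommRing B] [Nontrivial B] {n : ℕ} (hn : 0 < n) :
    Nat.card (AdjoinRoot (X ^ n - 1 : B[X])) = Nat.card B ^ n := by
  rw [Nat.card_congr (cycBasis B hn).equivFun.toEquiv, Nat.card_pi]
  simp

theorem nontrivial_cyc [Nontrivial R] {m : ℕ} (hm : 0 < m) :
    Nontrivial (AdjoinRoot (X ^ m - 1 : R[X])) := by
  have : NeZero m := ⟨hm.ne'⟩
  exact (cycBasis R hm).equivFun.toEquiv.nontrivial

theorem exists_tower [Finite R] [Nontrivial R] {r m : ℕ} (hr : 0 < r) (hm : 0 < m)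
    (hcop : r.Coprime m) :
    Nonempty (AdjoinRoot (X ^ (r * m) - 1 : R[X]) ≃ₐ[R]
      AdjoinRoot (X ^ r - 1 : (AdjoinRoot (X ^ m - 1 : R[X]))[X])) := by
  let B := AdjoinRoot (X ^ m - 1 : R[X])
  let A := AdjoinRoot (X ^ r - 1 : B[X])
  have := nontrivial_cyc (R := R) hm
  let z : A := algebraMap B A (AdjoinRoot.root _)
  let y : A := AdjoinRoot.root _
  have hz : z ^ m = 1 := by
    simp only [z]
    rw [← map_pow, root_pow_eq_one, map_one]
  have hy : y ^ r = 1 := root_pow_eq_one B r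
  let Φ : AdjoinRoot (X ^ (r * m) - 1 : R[X]) →ₐ[R] A :=
    AdjoinRoot.liftAlgHom _ (Algebra.ofId R A) (z * y) (by
      rw [eval₂_sub, eval₂_X_pow, eval₂_one, mul_pow, pow_mul y, hy, one_pow, mul_comm r m,
        pow_mul, hz, one_pow, mul_one, sub_self])
  have hΦ : Φ (AdjoinRoot.root _) = z * y := AdjoinRoot.liftAlgHom_root _ _ _ _
  have hzy : z * y ∈ Φ.range := ⟨_, hΦ⟩
  have hz' : z ∈ Φ.range := by
    obtain ⟨a, ha⟩ := exists_pow_eq_self_of_coprime (x := z)
      (hcop.coprime_dvd_right (orderOf_dvd_of_pow_eq_one hz))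
    have := pow_mem (pow_mem hzy r) a
    rwa [mul_pow, hy, mul_one, ha] at this
  have hy' : y ∈ Φ.range := by
    obtain ⟨a, ha⟩ := exists_pow_eq_self_of_coprime (x := y)
      (hcop.symm.coprime_dvd_right (orderOf_dvd_of_pow_eq_one hy))
    have := pow_mem (pow_mem hzy m) a
    rwa [mul_pow, hz, one_mul, ha] at this
  have hB : ∀ b : B, algebraMap B A b ∈ Φ.range := by
    intro b
    obtain ⟨g, rfl⟩ := AdjoinRoot.mk_surjective b
    rw [← AdjoinRoot.aeval_eq, ← aeval_algebraMap_apply]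
    exact Algebra.adjoin_le (Set.singleton_subset_iff.2 hz') (aeval_mem_adjoin_singleton R z)
  have hsurj : Function.Surjective Φ := by
    intro f
    obtain ⟨g, rfl⟩ := AdjoinRoot.mk_surjective f
    change _ ∈ Φ.range
    rw [← AdjoinRoot.aeval_eq, aeval_eq_sum_range]
    refine Subalgebra.sum_mem _ fun i _ => ?_
    rw [Algebra.smul_def]
    exact mul_mem (hB _) (pow_mem hy' i)
  have := (monic_cyc (R := R) (Nat.mul_pos hr hm)).finite_adjoinRoot
  have : Finite (AdjoinRoot (X ^ (r * m) - 1 : R[X])) := Module.finite_of_finite R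
  refine ⟨AlgEquiv.ofBijective Φ ((Nat.bijective_iff_surjective_and_card Φ).2 ⟨hsurj, ?_⟩)⟩
  rw [card_cyc' R (Nat.mul_pos hr hm), card_cyc' B hr, card_cyc' R hm, ← pow_mul, mul_comm]

theorem det_cir_map {B T : Type*} [CommRing B] [CommRing T] (φ : B →+* T) {n : ℕ}
    (a : Fin n → B) : φ (cir a).det = (cir fun i => φ (a i)).det := by
  rw [RingHom.map_det]
  rfl

/-- Reduction of the determinant to a norm from the etale part. -/
theorem exists_coords [Finite R] [Nontrivial R] {r m : ℕ} (hr : 0 < r) (hm : 0 < m)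
    (hcop : r.Coprime m) :
    ∃ E : (Fin r → AdjoinRoot (X ^ m - 1 : R[X])) ≃ AdjoinRoot (X ^ (r * m) - 1 : R[X]),
      ∀ a, Algebra.norm R (E a) = Algebra.norm R (cir a).det := by
  obtain ⟨Φ⟩ := exists_tower (R := R) hr hm hcop
  have := nontrivial_cyc (R := R) hm
  have := (monic_cyc (R := R) hm).free_adjoinRoot
  have := (monic_cyc (R := AdjoinRoot (X ^ m - 1 : R[X])) hr).free_adjoinRoot
  refine ⟨(cycBasis _ hr).equivFun.symm.toEquiv.trans Φ.symm.toEquiv, fun a => ?_⟩
  rw [← norm_eq_det_cir hr, Algebra.norm_norm]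
  exact Algebra.norm_eq_of_algEquiv Φ.symm _

theorem mk_X_pow_min (e N : ℕ) :
    Ideal.Quotient.mk (Ideal.span {(PowerSeries.X : PowerSeries ℚ) ^ e}) (PowerSeries.X ^ min N e) =
      Ideal.Quotient.mk _ (PowerSeries.X ^ N) := by
  rcases le_total N e with hN | hN
  · rw [min_eq_left hN]
  · rw [min_eq_right hN, Ideal.Quotient.eq_zero_iff_mem.2 (Ideal.mem_span_singleton_self _),
      Ideal.Quotient.eq_zero_iff_mem.2 (Ideal.mem_span_singleton.2 (pow_dvd_pow _ hN))]

theorem coeff_sum_X_pow {α : Type*} [Fintype α] (v : α → ℕ) (t : ℕ) :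
    PowerSeries.coeff t (∑ a, (PowerSeries.X : PowerSeries ℚ) ^ v a) =
      Nat.card {a : α // v a = t} := by
  classical
  rw [map_sum, Nat.card_eq_fintype_card, Fintype.card_subtype, card_filter]
  push_cast
  refine sum_congr rfl fun a _ => ?_
  rw [PowerSeries.coeff_X_pow]
  simp only [eq_comm]

theorem local_series {T : Type*} [CommRing T] [Finite T] {δ : T} {Q : ℕ} (h : Chain δ e Q)
    {p k : ℕ} (hp : p.Prime) {d : ℕ} (hd : 0 < d) [Fintype (Fin (p ^ k) → T)]
    (hloc : ∀ s, s < e → (Nat.card {f : AdjoinRoot (X ^ p ^ k - 1 : T[X]) //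
      Chain.val δ e (Algebra.norm T f) = s} : ℚ) = (Q : ℚ) ^ (e * p ^ k) * zCoeff p k Q s) :
    ∑ a : Fin (p ^ k) → T, Ideal.Quotient.mk (Ideal.span {(PowerSeries.X : PowerSeries ℚ) ^ e})
      (PowerSeries.X ^ (d * Chain.val δ e (cir a).det)) =
      Ideal.Quotient.mk _ (PowerSeries.C ((Q : ℚ) ^ (e * p ^ k)) * localZ p k Q d) := by
  have := h.nontrivial
  have hr : 0 < p ^ k := pow_pos hp.pos k
  rw [← map_sum, Ideal.Quotient.eq, Ideal.mem_span_singleton, PowerSeries.X_pow_dvd_iff]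
  intro t ht
  rw [map_sub, sub_eq_zero, coeff_sum_X_pow, PowerSeries.coeff_C_mul, localZ, PowerSeries.coeff_mk]
  split_ifs with hdt
  · obtain ⟨s, rfl⟩ := hdt
    rw [Nat.mul_div_cancel_left _ hd, ← hloc s (lt_of_le_of_lt (Nat.le_mul_of_pos_left _ hd) ht)]
    congr 1
    refine Nat.card_congr (Equiv.subtypeEquiv (cycBasis T hr).equivFun.symm.toEquiv fun a => ?_)
    rw [Nat.mul_right_inj hd.ne', ← norm_eq_det_cir hr]
    rfl
  · have : IsEmpty {a : Fin (p ^ k) → T // d * Chain.val δ e (cir a).det = t} :=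
      ⟨fun a => hdt ⟨_, a.2.symm⟩⟩
    rw [Nat.card_of_isEmpty, mul_zero, Nat.cast_zero]

theorem global_count [Finite R] (h : Chain γ e q) {p k m : ℕ} (hp : p.Prime) (hpq : p ∣ q)
    (hm : ¬ p ∣ m)
    (hcase : (k ≠ 0 → ∃ v, IsUnit v ∧ (p : R) = γ * v) ∨ (γ ∣ (p : R) ∧ e ≤ k))
    {s : ℕ} (hs : s < e) :
    (Nat.card {f : AdjoinRoot (X ^ (p ^ k * m) - 1 : R[X]) //
      Chain.val γ e (Algebra.norm R f) = s} : ℚ) =
      (q : ℚ) ^ (e * (p ^ k * m)) * coeffG p k m q s := by
  classical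
  have := h.nontrivial
  have hr : 0 < p ^ k := pow_pos hp.pos k
  have hm0 : 0 < m := Nat.pos_of_ne_zero (fun h => hm (h ▸ dvd_zero p))
  obtain ⟨E, hE⟩ := exists_coords (R := R) hr hm0
    (Nat.Coprime.pow_left k (hp.coprime_iff_not_dvd.2 hm))
  obtain ⟨ι, _, K, _, π, d, hsurj, hker, hcard, hd0, hprod⟩ := exists_residue_maps h hp hpq hm
  have := (monic_cyc (R := R) hm0).free_adjoinRoot
  have := (monic_cyc (R := R) hm0).finite_adjoinRoot
  obtain ⟨I, hbij, hchain, hval⟩ := etale_split h K π hsurj hker d hcard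
  let B := AdjoinRoot (X ^ m - 1 : R[X])
  have : Finite B := Module.finite_of_finite R
  have := Fintype.ofFinite B
  have hfin : ∀ i, Finite (B ⧸ I i) := fun i =>
    Finite.of_surjective _ Ideal.Quotient.mk_surjective
  have : ∀ i, Fintype (B ⧸ I i) := fun i => Fintype.ofFinite _
  have hloc : ∀ i, ∑ a : Fin (p ^ k) → B ⧸ I i,
      Ideal.Quotient.mk (Ideal.span {(PowerSeries.X : PowerSeries ℚ) ^ e})
      (PowerSeries.X ^ (d i * Chain.val (Ideal.Quotient.mk (I i) (algebraMap R B γ)) e (cir a).det)) =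
      Ideal.Quotient.mk _ (PowerSeries.C (((q ^ d i : ℕ) : ℚ) ^ (e * p ^ k)) *
        localZ p k ((q ^ d i : ℕ) : ℚ) (d i)) := by
    intro i
    refine local_series (hchain i) hp (hd0 i) fun s hs => ?_
    let φ : R →+* B ⧸ I i := (Ideal.Quotient.mk (I i)).comp (algebraMap R B)
    rcases hcase with hc | ⟨hc, hek⟩
    · refine local_count_unram (hchain i) hp (fun hk => ?_) hs
      obtain ⟨v, hv, hpv⟩ := hc hk
      exact ⟨φ v, hv.map φ, by rw [← map_natCast φ, hpv, map_mul]; rfl⟩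
    · refine local_count_small (hchain i) hp ?_ hek hs
      rw [← map_natCast φ]
      exact map_dvd φ hc
  let E' : (Fin (p ^ k) → B) ≃ ∀ i, Fin (p ^ k) → B ⧸ I i :=
    (Equiv.piCongrRight fun _ => Equiv.ofBijective _ hbij).trans (Equiv.piComm _)
  have hsum : ∑ a : Fin (p ^ k) → B,
      Ideal.Quotient.mk (Ideal.span {(PowerSeries.X : PowerSeries ℚ) ^ e})
        (PowerSeries.X ^ Chain.val γ e (Algebra.norm R (E a))) =
      Ideal.Quotient.mk _ (∏ i, (PowerSeries.C (((q ^ d i : ℕ) : ℚ) ^ (e * p ^ k)) *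
        localZ p k ((q ^ d i : ℕ) : ℚ) (d i))) := by
    rw [map_prod, ← prod_congr rfl (fun i _ => hloc i), prod_univ_sum, Fintype.piFinset_univ]
    refine Fintype.sum_equiv E' _ _ fun a => ?_
    rw [hE, hval, mk_X_pow_min, ← prod_pow_eq_pow_sum, map_prod]
    refine prod_congr rfl fun i _ => ?_
    rw [det_cir_map]
    rfl
  rw [← map_sum, Ideal.Quotient.eq, Ideal.mem_span_singleton, PowerSeries.X_pow_dvd_iff] at hsum
  have h1 := hsum s hs
  rw [map_sub, sub_eq_zero, coeff_sum_X_pow, prod_mul_distrib, ← map_prod,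
    PowerSeries.coeff_C_mul, hprod (fun t => localZ p k ((q ^ t : ℕ) : ℚ) t)] at h1
  have h2 : ∏ i, (q ^ d i) ^ e = q ^ (e * m) := by
    rw [← card_cyc h hm0, Nat.card_congr (Equiv.ofBijective _ hbij), Nat.card_pi]
    exact prod_congr rfl fun i _ => (hchain i).card_eq.symm
  have h3 : ∏ i, ((q ^ d i : ℕ) : ℚ) ^ (e * p ^ k) = (q : ℚ) ^ (e * (p ^ k * m)) := by
    simp only [pow_mul]
    rw [prod_pow, ← pow_mul, ← pow_mul, mul_comm (p ^ k) m, ← mul_assoc, pow_mul]
    congr 1
    exact_mod_cast h2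
  rw [h3] at h1
  rw [coeffG, ← Nat.card_congr (Equiv.subtypeEquiv E (fun a => Iff.rfl)), h1]
  push_cast
  rfl

end Pool.Agent.MP_975ab8_al

end

-- part MP_975ab8_al.Units
section

namespace Pool.Agent.MP_975ab8_al

open Finset Polynomial

universe u

/-- The determinants of circulant matrices of size `n`. -/
def InH (R : Type*) [CommRing R] (n : ℕ) (b : R) : Prop :=
  ∃ u : AdjoinRoot (X ^ n - 1 : R[X]), Algebra.norm R u = b

variable {R : Type u} [CommRing R] {e q : ℕ}

theorem InH.one (n : ℕ) : InH R n 1 := ⟨1, map_one _⟩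

theorem InH.mul {n : ℕ} {a b : R} (ha : InH R n a) (hb : InH R n b) : InH R n (a * b) := by
  obtain ⟨u, rfl⟩ := ha
  obtain ⟨v, rfl⟩ := hb
  exact ⟨u * v, map_mul _ _ _⟩

theorem InH.pow {n : ℕ} {a : R} (ha : InH R n a) (t : ℕ) : InH R n (a ^ t) := by
  obtain ⟨u, rfl⟩ := ha
  exact ⟨u ^ t, map_pow _ _ _⟩

theorem inH_pow_self [Nontrivial R] {n : ℕ} (hn : 0 < n) (c : R) : InH R n (c ^ n) := by
  have hm := monic_cyc (R := R) hn
  have := hm.free_adjoinRoot
  have := hm.finite_adjoinRoot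
  refine ⟨algebraMap R _ c, ?_⟩
  rw [Algebra.norm_algebraMap, (AdjoinRoot.powerBasis' hm).finrank, AdjoinRoot.powerBasis'_dim,
    ← C_1, natDegree_X_pow_sub_C]

theorem norm_cyc_X_sub_C [Nontrivial R] {n : ℕ} (hn : 0 < n) (c : R) :
    Algebra.norm R (AdjoinRoot.mk (X ^ n - 1 : R[X]) (X - C c)) = (-1) ^ n * (c ^ n - 1) := by
  rw [norm_X_sub_C (monic_cyc hn), ← C_1, natDegree_X_pow_sub_C]
  simp

theorem inH_pow_sub_one [Nontrivial R] {n : ℕ} (hn : 0 < n) (c : R) : InH R n (c ^ n - 1) := by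
  have := (inH_pow_self hn (-1 : R)).mul ⟨_, norm_cyc_X_sub_C hn c⟩
  rwa [← mul_assoc, ← mul_pow, neg_mul_neg, one_mul, one_pow, one_mul] at this

theorem inH_iff [Nontrivial R] {n : ℕ} (hn : 0 < n) {b : R} :
    InH R n b ↔ ∃ a : Fin n → R, (cir a).det = b := by
  constructor
  · rintro ⟨u, rfl⟩
    exact ⟨(cycBasis R hn).equivFun u, by
      rw [← norm_eq_det_cir hn, LinearEquiv.symm_apply_apply]⟩
  · rintro ⟨a, rfl⟩
    exact ⟨_, norm_eq_det_cir hn a⟩

theorem norm_cyc_map [Nontrivial R] {T : Type*} [CommRing T] [Nontrivial T] (φ : R →+* T) {n : ℕ}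
    (hn : 0 < n) (f : R[X]) :
    φ (Algebra.norm R (AdjoinRoot.mk (X ^ n - 1 : R[X]) f)) =
      Algebra.norm T (AdjoinRoot.mk (X ^ n - 1 : T[X]) (f.map φ)) := by
  have hdvd : (X ^ n - 1 : T[X]) ∣ (X ^ n - 1 : R[X]).map φ := by
    rw [Polynomial.map_sub, Polynomial.map_pow, map_X, Polynomial.map_one]
  let ψ := AdjoinRoot.map φ _ _ hdvd
  have h1 : AdjoinRoot.mk (X ^ n - 1 : T[X]) (f.map φ) = ψ (AdjoinRoot.mk _ f) := by
    have : ψ.comp (AdjoinRoot.mk _) = (AdjoinRoot.mk _).comp (Polynomial.mapRingHom φ) := by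
      ext x
      · simp [ψ]
      · simp [ψ]
    exact (RingHom.congr_fun this f).symm
  obtain ⟨a, ha⟩ := (cycBasis R hn).equivFun.symm.surjective (AdjoinRoot.mk _ f)
  rw [h1, ← ha, norm_eq_det_cir, det_cir_map, ← norm_eq_det_cir hn]
  congr 1
  rw [Module.Basis.equivFun_symm_apply, Module.Basis.equivFun_symm_apply, map_sum]
  refine sum_congr rfl fun i _ => ?_
  rw [cycBasis_apply, cycBasis_apply, Algebra.smul_def, Algebra.smul_def, map_mul, map_pow]
  simp [ψ, AdjoinRoot.algebraMap_eq]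

theorem exists_trinomial [Nontrivial R] (d : R) (j : ℕ) :
    ∃ D : R, (2 : R) ∣ D - d ^ 2 ^ j ∧ InH R (2 ^ (j + 1)) (D * (4 - D)) := by
  let g : R[X] := X ^ 2 + C (d - 2) * X + 1
  have hg : g.Monic := by
    simp only [g]
    monicity!
  have hdeg : g.degree = 2 := by
    simp only [g]
    compute_degree!
  let T := AdjoinRoot g
  have hinj : Function.Injective (AdjoinRoot.of g) := by
    rw [injective_iff_map_eq_zero]
    intro a ha
    by_contra h0
    exact AdjoinRoot.mk_ne_zero_of_degree_lt hg (C_ne_zero.2 h0)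
      (degree_C_le.trans_lt (by rw [hdeg]; norm_num)) ha
  have : Nontrivial T := hinj.nontrivial
  let α : T := AdjoinRoot.root g
  let β : T := 2 - AdjoinRoot.of g d - α
  have hαβ : α * β = 1 := by
    have h1 := AdjoinRoot.mk_self (f := g)
    simp only [g, map_add, map_mul, map_pow, map_one, AdjoinRoot.mk_X, AdjoinRoot.mk_C, map_sub,
      map_ofNat] at h1
    simp only [α, β, g]
    linear_combination -h1
  have hfac : g.map (AdjoinRoot.of g) = (X - C α) * (X - C β) := by
    have h1 : C α * C β = 1 := by rw [← C_mul, hαβ, C_1]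
    have h2 : C β = 2 - C (AdjoinRoot.of g d) - C α := by
      simp only [β, map_sub, map_ofNat]
    have h3 : ∀ φ : R →+* T, g.map φ = X ^ 2 + (C (φ d) - 2) * X + 1 := by
      intro φ
      simp only [g, Polynomial.map_add, Polynomial.map_mul, Polynomial.map_pow, map_X, map_C,
        Polynomial.map_one]
      simp only [map_sub, map_ofNat]
    rw [h3]
    linear_combination X * h2 - h1
  let N : ℕ → R := fun i => Algebra.norm R (AdjoinRoot.mk (X ^ 2 ^ i - 1 : R[X]) g)
  have hN : ∀ i, AdjoinRoot.of g (N i) = (α ^ 2 ^ i - 1) * (β ^ 2 ^ i - 1) := by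
    intro i
    have hn : 0 < 2 ^ i := pow_pos two_pos i
    simp only [N]
    rw [norm_cyc_map _ hn, hfac, map_mul, map_mul, norm_cyc_X_sub_C hn, norm_cyc_X_sub_C hn,
      mul_mul_mul_comm, ← mul_pow, neg_mul_neg, one_mul, one_pow, one_mul]
  have hrec : ∀ i, N (i + 1) = N i * (4 - N i) := by
    intro i
    apply hinj
    have h1 : α ^ 2 ^ i * β ^ 2 ^ i = 1 := by rw [← mul_pow, hαβ, one_pow]
    rw [map_mul, map_sub, hN, hN, map_ofNat, pow_succ, pow_mul, pow_mul]
    linear_combination (2 * (α ^ 2 ^ i - 1) * (β ^ 2 ^ i - 1)) * h1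
  refine ⟨N j, ?_, ⟨_, hrec j⟩⟩
  induction j with
  | zero =>
    have : N 0 = d := by
      apply hinj
      rw [hN]
      simp only [pow_zero, pow_one, β] at hαβ ⊢
      linear_combination hαβ
    simp [this]
  | succ j ih =>
    obtain ⟨c, hc⟩ := ih
    rw [hrec, pow_succ, pow_mul]
    exact ⟨2 * N j - (d ^ 2 ^ j) ^ 2 - c * (N j + d ^ 2 ^ j), by
      linear_combination (-(N j + d ^ 2 ^ j)) * hc⟩

theorem Chain.exists_root [Finite R] {p : ℕ} (h : Chain (p : R) e q) (hp : p.Prime) (j : ℕ)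
    (x : R) : ∃ y : R, (p : R) ∣ y ^ p ^ j - x := by
  have := h.max
  have : Fact p.Prime := ⟨hp⟩
  let F := R ⧸ Ideal.span {(p : R)}
  let _ : Field F := Ideal.Quotient.field _
  have : Finite F := Finite.of_surjective _ Ideal.Quotient.mk_surjective
  have : CharP F p := (CharP.charP_iff_prime_eq_zero hp).2 (by
    rw [← map_natCast (Ideal.Quotient.mk (Ideal.span {(p : R)})), Ideal.Quotient.eq_zero_iff_mem]
    exact Ideal.mem_span_singleton_self _)
  obtain ⟨z, hz⟩ := (bijective_iterateFrobenius F p j).2 (Ideal.Quotient.mk _ x)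
  obtain ⟨y, rfl⟩ := Ideal.Quotient.mk_surjective z
  rw [iterateFrobenius_def, ← map_pow, Ideal.Quotient.eq, Ideal.mem_span_singleton] at hz
  exact ⟨y, hz⟩

theorem Chain.isUnit_one_add {γ : R} (h : Chain γ e q) (x : R) : IsUnit (1 + γ * x) :=
  ((Commute.all _ _).isNilpotent_mul_right ⟨e, h.pow_eq⟩).isUnit_one_add

/-- The statement that the layer `t` of the unit filtration is covered. -/
def Layer (R : Type*) [CommRing R] (p n t : ℕ) : Prop :=
  ∀ x : R, ∃ y : R, InH R n (1 + p ^ t * x + p ^ (t + 1) * y)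

theorem layer_step {p n t : ℕ} (h : Chain (p : R) e q) (hL : Layer R p n (t + 1)) (x : R) :
    ∃ g y : R, InH R n g ∧ 1 + p ^ (t + 1) * x = g * (1 + p ^ (t + 2) * y) := by
  obtain ⟨y, hy⟩ := hL x
  obtain ⟨w, hw⟩ := (h.isUnit_one_add (p ^ t * x + p ^ (t + 1) * y)).exists_right_inv
  exact ⟨_, -y * w, hy, by linear_combination (p : R) ^ (t + 2) * y * hw⟩

theorem layer_zero [Finite R] {p : ℕ} (h : Chain (p : R) e q) (hp : p.Prime) (k : ℕ) {b : R}
    (hb : IsUnit b) : ∃ g y : R, InH R (p ^ k) g ∧ b = g * (1 + p ^ 1 * y) := by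
  have := h.nontrivial
  obtain ⟨c, y, hy⟩ := h.exists_root hp k b
  have hu : IsUnit (c ^ p ^ k) := by
    refine h.isUnit_of_not_dvd fun hd => h.not_isUnit (isUnit_of_dvd_unit ?_ hb)
    have : b = c ^ p ^ k - p * y := by linear_combination -hy
    rw [this]
    exact dvd_sub hd (dvd_mul_right _ _)
  obtain ⟨w, hw⟩ := hu.exists_right_inv
  exact ⟨_, -y * w, inH_pow_self (pow_pos hp.pos k) c, by
    linear_combination -hy + (p : R) * y * hw⟩

theorem layer_succ {p n t : ℕ} (hp : p.Prime) (ht : t + 2 ≤ t * p) (hL : Layer R p n t) :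
    Layer R p n (t + 1) := by
  intro x
  obtain ⟨y, hy⟩ := hL x
  have ht0 : t ≠ 0 := by
    rintro rfl
    omega
  obtain ⟨z, hz⟩ := ZMod.exists_one_add_mul_pow_prime_eq (R := R) (u := (p : R) ^ t) (v := p) hp
    (dvd_pow_self _ ht0) (by
      rw [← pow_mul, ← pow_succ', ← pow_succ]
      exact pow_dvd_pow _ ht) (x + p * y)
  have h1 := hy.pow p
  rw [show (1 : R) + p ^ t * x + p ^ (t + 1) * y = 1 + p ^ t * (x + p * y) by ring, hz] at h1
  exact ⟨y + z, by
    rw [show (1 : R) + p ^ (t + 1) * x + p ^ (t + 1 + 1) * (y + z) =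
      1 + p * p ^ t * (x + p * y + p * z) by ring]
    exact h1⟩

theorem layer_one [Finite R] {p : ℕ} (h : Chain (p : R) e q) (hp : p.Prime) (k : ℕ) :
    Layer R p (p ^ (k + 1)) 1 := by
  classical
  have := h.nontrivial
  have := h.max
  have : Fact p.Prime := ⟨hp⟩
  have hr : 0 < p ^ (k + 1) := pow_pos hp.pos _
  let F := R ⧸ Ideal.span {(p : R)}
  let _ : Field F := Ideal.Quotient.field _
  have : Finite F := Finite.of_surjective _ Ideal.Quotient.mk_surjective
  have := Fintype.ofFinite F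
  have hp0 : (p : F) = 0 := by
    rw [← map_natCast (Ideal.Quotient.mk (Ideal.span {(p : R)})), Ideal.Quotient.eq_zero_iff_mem]
    exact Ideal.mem_span_singleton_self _
  have : CharP F p := (CharP.charP_iff_prime_eq_zero hp).2 hp0
  let M : AddSubmonoid F :=
    { carrier := {z | ∃ x y : R, Ideal.Quotient.mk _ x = z ∧
        InH R (p ^ (k + 1)) (1 + p * x + p ^ 2 * y)}
      add_mem' := by
        rintro _ _ ⟨x, y, rfl, hxy⟩ ⟨x', y', rfl, hxy'⟩
        refine ⟨x + x', y + y' + (x + p * y) * (x' + p * y'), map_add _ _ _, ?_⟩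
        have := hxy.mul hxy'
        rwa [show (1 + p * x + p ^ 2 * y) * (1 + p * x' + p ^ 2 * y') =
          1 + p * (x + x') + (p : R) ^ 2 * (y + y' + (x + p * y) * (x' + p * y')) by ring] at this
      zero_mem' := ⟨0, 0, map_zero _, by simpa using InH.one _⟩ }
  let L : AddSubgroup F :=
    { M with
      neg_mem' := fun {z} hz => by
        have h1 : -z = (p - 1) • z := by
          rw [nsmul_eq_mul, Nat.cast_sub hp.one_le, hp0]
          ring
        rw [h1]
        exact M.nsmul_mem hz _ }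
  let P : F[X] := ∑ i ∈ Ioo 0 p, C ((p.choose i / p : ℕ) : F) * X ^ i
  have hP1 : P.coeff 1 = 1 := by
    simp only [P, finsetSum_coeff, coeff_C_mul, coeff_X_pow]
    rw [sum_eq_single 1]
    · simp [hp.pos]
    · intro i _ hi
      rw [if_neg (Ne.symm hi), mul_zero]
    · intro hh
      exact absurd (mem_Ioo.2 ⟨one_pos, hp.one_lt⟩) hh
  have hPdeg : 0 < P.degree :=
    lt_of_lt_of_le (by norm_num) (le_degree_of_ne_zero (n := 1) (by rw [hP1]; exact one_ne_zero))
  have hPle : P.natDegree ≤ p - 1 := by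
    refine natDegree_sum_le_of_forall_le _ _ fun i hi => (natDegree_C_mul_X_pow_le _ _).trans ?_
    have := (mem_Ioo.1 hi).2
    omega
  have hPL : ∀ z, P.eval z ∈ L := by
    intro z
    obtain ⟨x, rfl⟩ := Ideal.Quotient.mk_surjective z
    by_cases hx : (p : R) ∣ x
    · rw [Ideal.Quotient.eq_zero_iff_mem.2 (Ideal.mem_span_singleton.2 hx)]
      have : P.eval 0 = 0 := by
        simp only [P, eval_finsetSum, eval_mul, eval_C, eval_pow, eval_X]
        exact sum_eq_zero fun i hi => by rw [zero_pow (mem_Ioo.1 hi).1.ne', mul_zero]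
      rw [this]
      exact L.zero_mem
    obtain ⟨β, hβ⟩ := h.exists_root hp k x
    obtain ⟨α, hα⟩ := h.exists_root hp k (x + 1)
    have hβu : IsUnit β := by
      refine h.isUnit_of_not_dvd fun hd => hx ?_
      have h1 : (p : R) ∣ β ^ p ^ k := hd.trans (dvd_pow_self _ (pow_pos hp.pos k).ne')
      simpa using dvd_sub h1 hβ
    obtain ⟨w, hw⟩ := hβu.exists_right_inv
    have h1 := (inH_pow_self hr β).mul (inH_pow_sub_one hr (w * α))
    rw [mul_sub, ← mul_pow, ← mul_assoc, hw, one_mul, mul_one] at h1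
    obtain ⟨a, ha⟩ := dvd_sub_pow_of_dvd_sub hα 1
    obtain ⟨b, hb⟩ := dvd_sub_pow_of_dvd_sub hβ 1
    rw [← pow_mul, pow_one, ← pow_succ] at ha hb
    have h2 := add_pow_prime_eq' hp x 1
    refine ⟨∑ i ∈ Ioo 0 p, x ^ i * 1 ^ (p - i) * ((p.choose i / p : ℕ) : R), a - b, ?_, ?_⟩
    · simp only [P, eval_finsetSum, eval_mul, eval_natCast, eval_pow, eval_X, map_sum, map_mul,
        map_pow, map_natCast, one_pow, mul_one]
      exact sum_congr rfl fun i _ => mul_comm _ _
    · rw [one_pow] at h2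
      rwa [show α ^ p ^ (k + 1) - β ^ p ^ (k + 1) = 1 + p * (∑ i ∈ Ioo 0 p,
        x ^ i * 1 ^ (p - i) * ((p.choose i / p : ℕ) : R)) + p ^ 2 * (a - b) by
        linear_combination ha - hb + h2] at h1
  have hL : L = ⊤ := by
    by_contra hne
    have h1 := L.card_mul_index
    obtain ⟨f, -, hf⟩ := FiniteField.card F p
    rw [Nat.card_eq_fintype_card (α := F)] at h1
    obtain ⟨i, -, hi⟩ := (Nat.dvd_prime_pow hp).1 (hf ▸ Dvd.intro_left _ h1)
    have h2 : p ≤ L.index := by
      rw [hi]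
      refine Nat.le_self_pow (fun h0 => hne ?_) p
      rwa [h0, pow_zero, AddSubgroup.index_eq_one] at hi
    have h3 := FiniteField.card_image_polynomial_eval hPdeg
    have h4 : (univ.image fun x => P.eval x).card ≤ Nat.card L := by
      rw [Nat.card_eq_fintype_card, Fintype.card_subtype]
      refine card_le_card fun z hz => ?_
      obtain ⟨x, -, rfl⟩ := mem_image.1 hz
      exact mem_filter.2 ⟨mem_univ _, hPL x⟩
    have h5 : 0 < Nat.card L := Nat.card_pos
    have h6 := Nat.mul_le_mul hPle h4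
    have h7 := Nat.mul_le_mul_left (Nat.card L) h2
    obtain ⟨p', rfl⟩ : ∃ p', p = p' + 1 := ⟨p - 1, by have := hp.pos; omega⟩
    simp only [Nat.add_sub_cancel] at h6
    nlinarith
  intro x
  obtain ⟨x', y, hx', hy⟩ : Ideal.Quotient.mk _ x ∈ L := hL ▸ AddSubgroup.mem_top _
  obtain ⟨c, hc⟩ := Ideal.mem_span_singleton.1 (Ideal.Quotient.eq.1 hx')
  refine ⟨y + c, ?_⟩
  rwa [show (1 : R) + p ^ 1 * x + p ^ (1 + 1) * (y + c) = 1 + p * x' + p ^ 2 * y by
    linear_combination (-(p : R)) * hc]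

theorem layer_two [Finite R] (h : Chain ((2 : ℕ) : R) e q) (k : ℕ) :
    Layer R 2 (2 ^ (k + 1)) 2 := by
  have := h.nontrivial
  have hr : 0 < 2 ^ (k + 1) := pow_pos two_pos _
  intro x
  by_cases hx : ((2 : ℕ) : R) ∣ x
  · obtain ⟨c, rfl⟩ := hx
    refine ⟨-c, ?_⟩
    rw [show (1 : R) + ((2 : ℕ) : R) ^ 2 * (((2 : ℕ) : R) * c) + ((2 : ℕ) : R) ^ (2 + 1) * -c = 1 by
      ring]
    exact InH.one _
  obtain ⟨w, hw⟩ := (h.isUnit_of_not_dvd hx).exists_right_inv
  obtain ⟨d, c, hc⟩ := h.exists_root Nat.prime_two k w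
  obtain ⟨D, ⟨c', hc'⟩, hD⟩ := exists_trinomial d k
  push_cast at hc hx ⊢
  have hDu : IsUnit D := by
    have h1 := h.isUnit_one_add (x * (c + c'))
    push_cast at h1
    refine isUnit_of_mul_isUnit_right (x := x) ?_
    rwa [show x * D = 1 + 2 * (x * (c + c')) by linear_combination x * hc' + x * hc + hw]
  obtain ⟨D', hD'⟩ := hDu.exists_right_inv
  obtain ⟨g₀, y₀, hg₀, hy₀⟩ := layer_zero h Nat.prime_two (k + 1)
    (IsUnit.of_mul_eq_one_right _ hD')
  obtain ⟨g₁, y₁, hg₁, hy₁⟩ := layer_step h (layer_one h Nat.prime_two k) y₀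
  obtain ⟨v, hv⟩ := (h.isUnit_one_add (2 * y₁)).exists_right_inv
  push_cast at hy₀ hy₁ hv
  have hg : g₀ * g₁ = D' * (1 - 4 * y₁ * v) := by
    rw [hy₀, hy₁]
    linear_combination (g₀ * g₁ * 4 * y₁) * hv
  have hneg := inH_pow_sub_one hr (0 : R)
  rw [zero_pow hr.ne', zero_sub] at hneg
  have h1 := (hneg.mul hD).mul ((hg₀.mul hg₁).pow 2)
  have hD'' : D' = x - 2 * (D' * x * (c + c')) := by
    linear_combination (-D') * hw + x * hD' - D' * x * hc - D' * x * hc'
  refine ⟨D' * x * (c + c') - x + (1 - 4 * D') * (2 * (y₁ * v) ^ 2 - y₁ * v), ?_⟩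
  rwa [hg, show -1 * (D * (4 - D)) * (D' * (1 - 4 * y₁ * v)) ^ 2 =
    1 + 2 ^ 2 * x + 2 ^ 3 * (D' * x * (c + c') - x + (1 - 4 * D') * (2 * (y₁ * v) ^ 2 - y₁ * v)) by
      linear_combination (1 - 4 * y₁ * v) ^ 2 * (D * D' + 1 - 4 * D') * hD' - 4 * hD''] at h1

theorem inH_of_isUnit [Finite R] {p : ℕ} (h : Chain (p : R) e q) (hp : p.Prime) (k : ℕ) {b : R}
    (hb : IsUnit b) : InH R (p ^ (k + 1)) b := by
  have hL : ∀ t, Layer R p (p ^ (k + 1)) (t + 1) := by
    intro t
    induction t with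
    | zero => exact layer_one h hp k
    | succ t ih =>
      by_cases hc : t + 1 + 2 ≤ (t + 1) * p
      · exact layer_succ hp hc ih
      · have h2 := hp.two_le
        have h3 : t = 0 := by
          by_contra h0
          exact hc (by nlinarith [Nat.pos_of_ne_zero h0])
        obtain rfl : p = 2 := by
          subst h3
          omega
        subst h3
        exact layer_two h k
  have key : ∀ j t, e ≤ t + 1 + j → ∀ x : R, InH R (p ^ (k + 1)) (1 + p ^ (t + 1) * x) := by
    intro j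
    induction j with
    | zero =>
      intro t ht x
      rw [h.pow_eq_zero_iff.2 ht, zero_mul, add_zero]
      exact InH.one _
    | succ j ih =>
      intro t ht x
      obtain ⟨g, y, hg, hy⟩ := layer_step h (hL t) x
      rw [hy]
      exact hg.mul (ih (t + 1) (by omega) y)
  obtain ⟨g, y, hg, hy⟩ := layer_zero h hp (k + 1) hb
  rw [hy]
  exact hg.mul (key e 0 (by omega) y)

end Pool.Agent.MP_975ab8_al

end

-- part MP_975ab8_al.GMain
section

namespace Pool.Agent.MP_975ab8_al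

open Finset Polynomial

universe u

variable {R : Type u} [CommRing R] {γ : R} {e q : ℕ}

theorem Chain.mul_unit (h : Chain γ e q) {v : R} (hv : IsUnit v) : Chain (γ * v) e q := by
  have h1 : Ideal.span {γ * v} = Ideal.span {γ} := Ideal.span_singleton_mul_right_unit hv γ
  refine ⟨h1 ▸ h.max, by rw [mul_pow, h.pow_eq, zero_mul], fun t ht h0 => ?_, h1 ▸ h.card⟩
  rw [mul_pow, (hv.pow t).mul_left_eq_zero] at h0
  exact h.pow_ne t ht h0

theorem inH_global [Finite R] (h : Chain γ e q) {p k m : ℕ} (hp : p.Prime) (hpq : p ∣ q)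
    (hm : ¬ p ∣ m) (hram : k ≠ 0 → ∃ v, IsUnit v ∧ (p : R) = γ * v) {b : R} (hb : IsUnit b) :
    InH R (p ^ k * m) b := by
  have := h.nontrivial
  have hr : 0 < p ^ k := pow_pos hp.pos k
  have hm0 : 0 < m := Nat.pos_of_ne_zero (fun h => hm (h ▸ dvd_zero p))
  have hcop : (p ^ k).Coprime m := Nat.Coprime.pow_left k (hp.coprime_iff_not_dvd.2 hm)
  obtain ⟨E, hE⟩ := exists_coords (R := R) hr hm0 hcop
  have := nontrivial_cyc (R := R) hm0
  have hmon := monic_cyc (R := R) hm0
  have := hmon.free_adjoinRoot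
  have := hmon.finite_adjoinRoot
  have h1 : ∀ c : R, IsUnit c → InH R (p ^ k * m) (c ^ p ^ k) := by
    intro c hc
    obtain ⟨u, -, hu⟩ := exists_unit_norm hm0 (isUnit_natCast h hp hpq hm) hc
    obtain ⟨a, ha⟩ := (inH_iff hr).1 (inH_pow_self hr u)
    exact ⟨E a, by rw [hE, ha, map_pow, hu]⟩
  rcases k with _ | k
  · simpa using h1 b hb
  have h2 : ∀ c : R, IsUnit c → InH R (p ^ (k + 1) * m) (c ^ m) := by
    intro c hc
    obtain ⟨v, hv, hpv⟩ := hram (Nat.succ_ne_zero k)
    obtain ⟨a, ha⟩ := (inH_iff hr).1 (inH_of_isUnit (hpv ▸ h.mul_unit hv) hp k hc)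
    refine ⟨E fun i => algebraMap R _ (a i), ?_⟩
    rw [hE, ← det_cir_map, ha, Algebra.norm_algebraMap, (AdjoinRoot.powerBasis' hmon).finrank,
      AdjoinRoot.powerBasis'_dim, ← C_1, natDegree_X_pow_sub_C]
  obtain ⟨b, rfl⟩ := hb
  have h3 := zpow_one b
  rw [← Nat.cast_one, ← hcop.gcd_eq_one, Nat.gcd_eq_gcd_ab, zpow_add, mul_comm ((p ^ (k + 1) : ℕ) : ℤ),
    mul_comm (m : ℤ), zpow_mul, zpow_mul, zpow_natCast, zpow_natCast] at h3
  rw [← h3, Units.val_mul, Units.val_pow_eq_pow_val, Units.val_pow_eq_pow_val]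
  exact (h1 _ (Units.isUnit _)).mul (h2 _ (Units.isUnit _))

theorem cnt_mul_of_inH [Nontrivial R] {n : ℕ} (hn : 0 < n) {b : R} (hb : IsUnit b)
    (hH : InH R n b) (x : R) : cnt n (x * b) = cnt n x := by
  obtain ⟨u, hu2⟩ := hH
  have := (monic_cyc (R := R) hn).free_adjoinRoot
  have := (monic_cyc (R := R) hn).finite_adjoinRoot
  have hu1 : IsUnit u := by
    rw [← Algebra.lmul_isUnit_iff (R := R), LinearMap.isUnit_iff_isUnit_det, ← Algebra.norm_apply,
      hu2]
    exact hb
  rw [cnt_eq hn, cnt_eq hn]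
  symm
  refine Nat.card_congr (Equiv.subtypeEquiv (Units.mulRight hu1.unit) (fun f => ?_))
  simp only [Units.mulRight_apply, IsUnit.unit_spec, map_mul, hu2]
  exact hb.mul_left_inj.symm

theorem coeffG_small {p : ℕ} (hp : p.Prime) (k m q : ℕ) {s : ℕ} (h1 : 1 ≤ s) (h2 : s ≤ k) :
    coeffG p k m q s = 0 := by
  let P : PowerSeries ℚ → Prop := fun F => ∀ t, 1 ≤ t → t ≤ k → PowerSeries.coeff t F = 0
  have hone : P 1 := fun t ht _ => by
    rw [PowerSeries.coeff_one, if_neg (by omega)]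
  have hmul : ∀ F G, P F → P G → P (F * G) := by
    intro F G hF hG t ht htk
    rw [PowerSeries.coeff_mul]
    refine sum_eq_zero fun ij hij => ?_
    have := mem_antidiagonal.1 hij
    rcases Nat.eq_zero_or_pos ij.1 with h0 | h0
    · rw [hG ij.2 (by omega) (by omega), mul_zero]
    · rw [hF ij.1 h0 (by omega), zero_mul]
  refine prod_induction _ P hmul hone (fun d _ => ?_) s h1 h2
  have hZ : P (localZ p k ((q : ℚ) ^ ord q d) (ord q d)) := by
    intro t ht htk
    rw [localZ, PowerSeries.coeff_mk]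
    split_ifs with hd
    · refine zCoeff_small hp _ ?_ ((Nat.div_le_self _ _).trans htk)
      exact Nat.div_pos (Nat.le_of_dvd ht hd) (Nat.pos_of_dvd_of_pos hd ht)
    · rfl
  generalize Nat.totient d / ord q d = N
  induction N with
  | zero => rw [pow_zero]; exact hone
  | succ N ih => rw [pow_succ]; exact hmul _ _ ih hZ

theorem dvd_natCast [Finite R] (h : Chain γ e q) {p : ℕ} (hp : p.Prime) (hpq : p ∣ q) :
    γ ∣ (p : R) := by
  have := h.max
  have : Finite (R ⧸ Ideal.span {γ}) := Finite.of_surjective _ Ideal.Quotient.mk_surjective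
  have := Fintype.ofFinite (R ⧸ Ideal.span {γ})
  let _ : Field (R ⧸ Ideal.span {γ}) := Ideal.Quotient.field _
  obtain ⟨r, hr⟩ := CharP.exists (R ⧸ Ideal.span {γ})
  obtain ⟨n, hr', hc⟩ := FiniteField.card (R ⧸ Ideal.span {γ}) r
  rw [← h.card, Nat.card_eq_fintype_card, hc] at hpq
  have : p = r := (Nat.prime_dvd_prime_iff_eq hp hr').1 (hp.dvd_of_dvd_pow hpq)
  rw [← Ideal.mem_span_singleton, ← Ideal.Quotient.eq_zero_iff_mem, map_natCast, this]
  exact CharP.cast_eq_zero _ r

theorem cases_of_dvd [Finite R] (h : Chain γ e q) {p k m : ℕ} (hp : p.Prime) (hpq : p ∣ q)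
    (hn : ((p ^ k * m : ℕ) : R) ∣ γ ^ k) :
    (k ≠ 0 → ∃ v, IsUnit v ∧ (p : R) = γ * v) ∨ (γ ∣ (p : R) ∧ e ≤ k) := by
  by_cases hek : e ≤ k
  · exact Or.inr ⟨dvd_natCast h hp hpq, hek⟩
  refine Or.inl fun hk => ?_
  obtain ⟨t, u, ht, hu, hpu⟩ := h.exists_eq (p : R)
  have h1 : γ ^ 1 ∣ γ ^ t * u := by
    rw [pow_one, ← hpu]
    exact dvd_natCast h hp hpq
  have h2 : γ ^ (t * k) ∣ γ ^ k * 1 := by
    rw [mul_one]
    refine dvd_trans ?_ hn
    push_cast
    rw [hpu, mul_pow, ← pow_mul, mul_assoc]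
    exact dvd_mul_right _ _
  rw [h.pow_dvd_iff hu] at h1
  rw [h.pow_dvd_iff isUnit_one] at h2
  have he := h.e_pos
  have h3 : t = 1 := by
    have h4 : t * k ≤ 1 * k := by omega
    have h5 := Nat.le_of_mul_le_mul_right h4 (Nat.pos_of_ne_zero hk)
    omega
  exact ⟨u, hu, by rw [hpu, h3, pow_one]⟩

theorem gmain [Finite R] (h : Chain γ e q) {p k m : ℕ} (hp : p.Prime) (hpq : p ∣ q)
    (hm : ¬ p ∣ m) (hn : ((p ^ k * m : ℕ) : R) ∣ γ ^ k) :
    (∀ (s : ℕ) (b : R), IsUnit b → 1 ≤ s → s < e →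
      (cnt (p ^ k * m) (γ ^ s * b) : ℚ) =
        (q : ℚ) ^ (e * (p ^ k * m)) * coeffG p k m q s / (((q : ℚ) - 1) * q ^ (e - s - 1))) ∧
    (cnt (p ^ k * m) (0 : R) : ℚ) =
      (q : ℚ) ^ (e * (p ^ k * m)) * (1 - ∑ s ∈ range e, coeffG p k m q s) := by
  classical
  have := h.nontrivial
  have := Fintype.ofFinite R
  have hcase := cases_of_dvd h hp hpq hn
  have hm0 : 0 < m := Nat.pos_of_ne_zero (fun h => hm (h ▸ dvd_zero p))
  have hn0 : 0 < p ^ k * m := Nat.mul_pos (pow_pos hp.pos k) hm0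
  have := (monic_cyc (R := R) hn0).finite_adjoinRoot
  have : Finite (AdjoinRoot (X ^ (p ^ k * m) - 1 : R[X])) := Module.finite_of_finite R
  have hq : (2 : ℚ) ≤ q := by exact_mod_cast h.two_le_q
  refine ⟨fun s b hb hs1 hs => ?_, ?_⟩
  · have h1 := global_count h hp hpq hm hcase hs
    have h2 : (((q : ℚ) - 1) * q ^ (e - s - 1)) ≠ 0 := by
      have : (q : ℚ) - 1 ≠ 0 := by linarith
      positivity
    rw [card_fiberwise (Algebra.norm R) (fun y => Chain.val γ e y = s)] at h1
    rcases hcase with hc | ⟨-, hek⟩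
    · rw [sum_congr rfl (g := fun _ => cnt (p ^ k * m) (γ ^ s)) (fun y hy => by
        obtain ⟨u, hu, rfl⟩ := (h.val_eq_iff hs).1 (mem_filter.1 hy).2
        rw [← cnt_eq hn0, cnt_mul_of_inH hn0 hu (inH_global h hp hpq hm hc hu)]),
        sum_const, smul_eq_mul] at h1
      push_cast at h1
      rw [card_val h hs] at h1
      rw [cnt_mul_of_inH hn0 hb (inH_global h hp hpq hm hc hb), ← h1,
        mul_div_cancel_left₀ _ h2]
    · rw [coeffG_small hp k m q hs1 (by omega), mul_zero] at h1 ⊢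
      rw [zero_div, Nat.cast_eq_zero, cnt_eq hn0]
      rw [Nat.cast_eq_zero, sum_eq_zero_iff] at h1
      exact h1 _ (mem_filter.2 ⟨mem_univ _, (h.val_eq_iff hs).2 ⟨b, hb, rfl⟩⟩)
  · have := Fintype.ofFinite (AdjoinRoot (X ^ (p ^ k * m) - 1 : R[X]))
    have h1 := card_eq_sum_card_fiberwise (s := univ) (t := range (e + 1))
      (f := fun f : AdjoinRoot (X ^ (p ^ k * m) - 1 : R[X]) => Chain.val γ e (Algebra.norm R f))
      (fun f _ => mem_range.2 (Nat.lt_succ_of_le (Chain.val_le _ _ _)))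
    rw [card_univ, ← Nat.card_eq_fintype_card, card_cyc h hn0, sum_range_succ] at h1
    have h2 : (univ.filter fun f : AdjoinRoot (X ^ (p ^ k * m) - 1 : R[X]) =>
        Chain.val γ e (Algebra.norm R f) = e).card = cnt (p ^ k * m) (0 : R) := by
      rw [cnt_eq hn0, Nat.card_eq_fintype_card, Fintype.card_subtype]
      congr 1
      ext f
      simp only [mem_filter, mem_univ, true_and]
      rw [← zero_dvd_iff, ← h.pow_eq, ← h.le_val_iff le_rfl]
      exact ⟨fun hh => hh.ge, fun hh => le_antisymm (Chain.val_le _ _ _) hh⟩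
    have h3 := congrArg (Nat.cast : ℕ → ℚ) h1
    rw [h2] at h3
    push_cast at h3
    rw [sum_congr rfl (g := fun s => (q : ℚ) ^ (e * (p ^ k * m)) * coeffG p k m q s)
      (fun s hs => by
        rw [← global_count h hp hpq hm hcase (mem_range.1 hs), Nat.card_eq_fintype_card,
          Fintype.card_subtype]), ← mul_sum] at h3
    linear_combination -h3

end Pool.Agent.MP_975ab8_al

end
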