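import Mathlib
import Pool.Agent.MP_975ab8_al.Mg.GMain
import Pool.Agent.MP_975ab8_al.H19.PDefs

attribute [-instance] MonTypeEquivalenceMon.monMonoid littleWedderburn instCharZeroOfIsSemireal
  ContinuousSemilinearMapClass.toSemilinearMapClass RKHS.instFunLike IdemSemiring.toSemiring
  FloorSemiring.instCharZero NonUnitalAlgHomClass.toNonUnitalRingHomClass NormedField.toField
  CoalgHomClass.toSemilinearMapClass RingHomClass.toLinearMapClassNNRat
  BialgEquivClass.toBialgHomClass instNonUnitalAlgHomClassOfNonUnitalAlgEquivClass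
  RingHomClass.toLinearMapClassRat CommMonTypeEquivalenceCommMon.commMonCommMonoid
  SemilinearIsometryClass.toSemilinearMapClass
  NonUnitalAlgHomClass.instSemilinearMapClassOfNonUnitalAlgSemiHomClassToMonoidHomRingHom
  IsAffineAddMonoid.toIsCancelAdd RCLike.charZero_rclike NumberField.to_charZero
  instIsRightCancelAddOfAddRightReflectLE IdemCommSemiring.toCommSemiring
  LieAdmissibleAlgebra.toModule Module.free_of_finite_type_torsion_free' BialgHomClass.toAlgHomClass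
  DivisionRing.toDivisionSemiring RightPreLieAlgebra.toModule LeftPreLieAlgebra.toModule
  Unique.instSubsingleton AlgHomClass.linearMapClass LieAlgebra.toModule
  NormedDivisionRing.toDivisionRing ValuationClass.toMonoidWithZeroHomClass
  BialgHomClass.toMonoidHomClass NormedSpace.toModule MulCharClass.toMonoidHomClass
  MulDistribMulActionSemiHomClass.toMonoidHomClass BooleanRing.toRing
  LinearOrderedAddCommMonoidWithTop.toAddCommMonoid Group.IsPerfect.subsingleton_of_isMulCommutative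
  TestFunctionClass.toDFunLike ContDiffMapSupportedInClass.toDFunLike
  instIsPrincipalIdealRingOfIsSemisimpleRing
  MulSemiringActionSemiHomClass.toDistribMulActionSemiHomClass RingEquivClass.toNonUnitalRingHomClass
  AddQuantale.instAddLeftMono MulRingSeminormClass.toMonoidWithZeroHomClass instCoeTCOfCoe
  NonUnitalNonAssocSemiring.toDistrib LinearOrder.toDecidableEq LieRing.toAddCommGroup
  CentroidHomClass.toAddMonoidHomClass NormedRing.toRing forall_prop_decidable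

-- part MP_975ab8_al.H19.Basic
section

namespace Pool.Agent.MP_975ab8_al.H19

open Finset Polynomial

universe u

/-- A residue map with kernel generated by `γ`. -/
structure Res {S K : Type*} [CommRing S] [Field K] (π : S →+* K) (γ : S) : Prop where
  surj : Function.Surjective π
  ker : ∀ x, π x = 0 ↔ γ ∣ x

section ResSec

variable {S K : Type*} [CommRing S] [Field K] {π : S →+* K} {γ : S} {e Q : ℕ}

theorem Res.ker_eq (r : Res π γ) : RingHom.ker π = Ideal.span {γ} := by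
  ext x
  rw [RingHom.mem_ker, r.ker, Ideal.mem_span_singleton]

theorem Res.map_self (r : Res π γ) : π γ = 0 := (r.ker γ).2 dvd_rfl

theorem Res.card (r : Res π γ) (h : Chain γ e Q) : Nat.card K = Q := by
  rw [← h.card, ← r.ker_eq]
  exact (Nat.card_congr (RingHom.quotientKerEquivOfSurjective r.surj).toEquiv).symm

theorem Res.chain (r : Res π γ) (h1 : γ ^ e = 0) (h2 : ∀ t, t < e → γ ^ t ≠ 0) :
    Chain γ e (Nat.card K) := by
  refine ⟨r.ker_eq ▸ RingHom.ker_isMaximal_of_surjective π r.surj, h1, h2, ?_⟩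
  rw [← r.ker_eq]
  exact Nat.card_congr (RingHom.quotientKerEquivOfSurjective r.surj).toEquiv

theorem Res.isUnit_iff (r : Res π γ) (h : Chain γ e Q) {x : S} : IsUnit x ↔ π x ≠ 0 :=
  ⟨fun hx => (hx.map π).ne_zero, fun hx => h.isUnit_of_not_dvd fun hd => hx ((r.ker x).2 hd)⟩

theorem Res.eq_iff (r : Res π γ) {x y : S} : π x = π y ↔ γ ∣ x - y := by
  rw [← r.ker, map_sub, sub_eq_zero]

theorem Res.map_eq_zero (r : Res π γ) {f : S[X]} (hf : f.map π = 0) : C γ ∣ f := by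
  rw [C_dvd_iff_dvd_coeff]
  intro i
  rw [← r.ker, ← coeff_map, hf, coeff_zero]

theorem exists_res {S : Type u} [CommRing S] {γ : S} (h : Chain γ e Q) :
    ∃ (F : Type u) (_ : Field F) (ρ : S →+* F), Res ρ γ := by
  have := h.max
  let _ : Field (S ⧸ Ideal.span {γ}) := Ideal.Quotient.field _
  exact ⟨S ⧸ Ideal.span {γ}, inferInstance, Ideal.Quotient.mk _,
    Ideal.Quotient.mk_surjective, fun x => by
      rw [Ideal.Quotient.eq_zero_iff_mem, Ideal.mem_span_singleton]⟩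

theorem isNilpotent_of_dvd (h : Chain γ e Q) {x : S} (hx : γ ∣ x) : IsNilpotent x := by
  obtain ⟨c, rfl⟩ := hx
  exact ⟨e, by rw [mul_pow, h.pow_eq, zero_mul]⟩

theorem val_spec (h : Chain γ e Q) (x : S) : ∃ u, IsUnit u ∧ x = γ ^ Chain.val γ e x * u := by
  obtain ⟨t, u, ht, hu, hx⟩ := h.exists_eq x
  refine ⟨u, hu, ?_⟩
  conv_rhs => rw [hx, h.val_eq t hu, min_eq_left ht]
  exact hx

theorem dvd_of_pow_mul_eq (h : Chain γ e Q) {n : ℕ} (hn : n < e) {x y : S}
    (hxy : γ ^ n * x = γ ^ n * y) : γ ∣ x - y := by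
  by_contra hc
  have h1 : γ ^ n * (x - y) = 0 := by linear_combination hxy
  rw [(h.isUnit_of_not_dvd hc).mul_left_eq_zero] at h1
  exact h.pow_ne n hn h1

end ResSec

section Norm

variable {S T : Type*} [CommRing S] [CommRing T]

/-- The power basis indexed by `Fin n`. -/
noncomputable def bs {g : S[X]} (hg : g.Monic) {n : ℕ} (hn : g.natDegree = n) :
    Module.Basis (Fin n) S (AdjoinRoot g) :=
  (AdjoinRoot.powerBasis' hg).basis.reindex (finCongr hn)

theorem bs_apply {g : S[X]} (hg : g.Monic) {n : ℕ} (hn : g.natDegree = n) (i : Fin n) :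
    bs hg hn i = AdjoinRoot.root g ^ (i : ℕ) := by
  unfold bs
  rw [Module.Basis.reindex_apply, PowerBasis.basis_eq_pow]
  rfl

theorem bs_repr {g : S[X]} (hg : g.Monic) {n : ℕ} (hn : g.natDegree = n) (f : S[X]) (i : Fin n) :
    (bs hg hn).repr (AdjoinRoot.mk g f) i = (f %ₘ g).coeff i := by
  unfold bs
  rw [Module.Basis.repr_reindex_apply]
  rfl

theorem leftMul_map [Nontrivial T] {g : S[X]} (hg : g.Monic) (φ : S →+* T) (f : S[X]) :
    (Algebra.leftMulMatrix (bs hg rfl) (AdjoinRoot.mk g f)).map φ =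
      Algebra.leftMulMatrix (bs (hg.map φ) (hg.natDegree_map φ))
        (AdjoinRoot.mk (g.map φ) (f.map φ)) := by
  ext i j
  rw [Matrix.map_apply, Algebra.leftMulMatrix_eq_repr_mul, Algebra.leftMulMatrix_eq_repr_mul,
    bs_apply, bs_apply, ← AdjoinRoot.mk_X, ← AdjoinRoot.mk_X, ← map_pow, ← map_pow, ← map_mul,
    ← map_mul, bs_repr, bs_repr, ← coeff_map, map_modByMonic _ hg]
  simp

theorem norm_map [Nontrivial T] {g : S[X]} (hg : g.Monic) (φ : S →+* T) (f : S[X]) :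
    φ (Algebra.norm S (AdjoinRoot.mk g f)) =
      Algebra.norm T (AdjoinRoot.mk (g.map φ) (f.map φ)) := by
  rw [Algebra.norm_eq_matrix_det (bs hg rfl),
    Algebra.norm_eq_matrix_det (bs (hg.map φ) (hg.natDegree_map φ)), ← leftMul_map hg,
    RingHom.map_det]
  rfl

theorem trace_map [Nontrivial T] {g : S[X]} (hg : g.Monic) (φ : S →+* T) (f : S[X]) :
    φ (Algebra.trace S _ (AdjoinRoot.mk g f)) =
      Algebra.trace T _ (AdjoinRoot.mk (g.map φ) (f.map φ)) := by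
  rw [Algebra.trace_eq_matrix_trace (bs hg rfl),
    Algebra.trace_eq_matrix_trace (bs (hg.map φ) (hg.natDegree_map φ)), ← leftMul_map hg]
  simp only [Matrix.trace, Matrix.diag_apply, map_sum, Matrix.map_apply]

theorem norm_linear [Nontrivial T] (c : T) (f : T[X]) :
    Algebra.norm T (AdjoinRoot.mk (X - C c) f) = f.eval c := by
  have hm := monic_X_sub_C c
  have := hm.free_adjoinRoot
  have := hm.finite_adjoinRoot
  have h1 : AdjoinRoot.mk (X - C c) f = algebraMap T _ (f.eval c) := by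
    rw [AdjoinRoot.algebraMap_eq, ← AdjoinRoot.mk_C, AdjoinRoot.mk_eq_mk]
    exact X_sub_C_dvd_sub_C_eval
  rw [h1, Algebra.norm_algebraMap, (AdjoinRoot.powerBasis' hm).finrank, AdjoinRoot.powerBasis'_dim,
    natDegree_X_sub_C, pow_one]

theorem norm_eq_prod [Nontrivial T] {g : S[X]} (hg : g.Monic) (φ : S →+* T) {ι : Type*}
    (s : Finset ι) (r : ι → T) (hr : g.map φ = ∏ j ∈ s, (X - C (r j))) (f : S[X]) :
    φ (Algebra.norm S (AdjoinRoot.mk g f)) = ∏ j ∈ s, f.eval₂ φ (r j) := by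
  rw [norm_map hg, hr, norm_mk_prod _ _ (fun j => monic_X_sub_C (r j))]
  refine prod_congr rfl fun j _ => ?_
  rw [norm_linear, eval_map]

theorem mk_map {g : S[X]} {g' : T[X]} (φ : S →+* T) (hd : g' ∣ g.map φ) (f : S[X]) :
    AdjoinRoot.map φ g g' hd (AdjoinRoot.mk g f) = AdjoinRoot.mk g' (f.map φ) := by
  have : (AdjoinRoot.map φ g g' hd).comp (AdjoinRoot.mk _) =
      (AdjoinRoot.mk _).comp (Polynomial.mapRingHom φ) := by
    ext x
    · simp
    · simp
  exact RingHom.congr_fun this f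

theorem eq_prod_of_roots [Nontrivial T] {ι : Type*} (s : Finset ι) (r : ι → T) {g : T[X]}
    (hg : g.Monic) (hd : g.natDegree = s.card) (h0 : ∀ j ∈ s, g.eval (r j) = 0)
    (hu : ∀ i ∈ s, ∀ j ∈ s, i ≠ j → IsUnit (r i - r j)) : g = ∏ j ∈ s, (X - C (r j)) := by
  have hm : (∏ j ∈ s, (X - C (r j))).Monic := monic_prod_of_monic _ _ fun j _ => monic_X_sub_C _
  refine eq_of_monic_of_dvd_of_natDegree_le hm hg ?_ ?_
  · exact Finset.prod_dvd_of_coprime
      (fun i hi j hj hij => isCoprime_X_sub_C_of_isUnit_sub (hu i hi j hj hij))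
      (fun j hj => dvd_iff_isRoot.2 (h0 j hj))
  · rw [hd, natDegree_prod_of_monic _ _ fun j _ => monic_X_sub_C _]
    simp

end Norm

section Unram

variable {S K : Type*} [CommRing S] [Field K] {π : S →+* K} {γ : S} {e Q : ℕ}

theorem chain_unram (h : Chain γ e Q) (r : Res π γ) {g : S[X]} (hg : g.Monic)
    [hi : Fact (Irreducible (g.map π))] :
    Res (AdjoinRoot.map π g (g.map π) dvd_rfl) (AdjoinRoot.of g γ) ∧
      Chain (AdjoinRoot.of g γ) e (Q ^ g.natDegree) := by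
  have := h.nontrivial
  have r' : Res (AdjoinRoot.map π g (g.map π) dvd_rfl) (AdjoinRoot.of g γ) := by
    refine ⟨fun y => ?_, fun x => ?_⟩
    · obtain ⟨f, rfl⟩ := AdjoinRoot.mk_surjective y
      obtain ⟨f, rfl⟩ := Polynomial.map_surjective π r.surj f
      exact ⟨_, mk_map π _ f⟩
    · constructor
      · intro hx
        obtain ⟨f, rfl⟩ := AdjoinRoot.mk_surjective x
        rw [mk_map, AdjoinRoot.mk_eq_zero] at hx
        obtain ⟨c, hc⟩ := hx
        obtain ⟨c, rfl⟩ := Polynomial.map_surjective π r.surj c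
        obtain ⟨w, hw⟩ := r.map_eq_zero (f := f - g * c) (by
          rw [Polynomial.map_sub, Polynomial.map_mul, hc, sub_self])
        refine ⟨AdjoinRoot.mk g w, ?_⟩
        rw [← AdjoinRoot.mk_C, ← map_mul, ← hw, map_sub, map_mul, AdjoinRoot.mk_self, zero_mul,
          sub_zero]
      · rintro ⟨c, rfl⟩
        rw [map_mul, AdjoinRoot.map_of, r.map_self, map_zero, zero_mul]
  refine ⟨r', ?_⟩
  have h1 : Nat.card (AdjoinRoot (g.map π)) = Q ^ g.natDegree := by
    have := (AdjoinRoot.powerBasis hi.out.ne_zero).finite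
    rw [Module.natCard_eq_pow_finrank (K := K), (AdjoinRoot.powerBasis hi.out.ne_zero).finrank,
      r.card h, ← hg.natDegree_map π]
    rfl
  rw [← h1]
  refine r'.chain (by rw [← map_pow, h.pow_eq, map_zero]) fun t ht h0 => ?_
  have hd : 0 < g.natDegree := by
    rw [← hg.natDegree_map π]
    exact hi.out.natDegree_pos
  rw [← map_pow, ← AdjoinRoot.mk_C] at h0
  exact AdjoinRoot.mk_ne_zero_of_degree_lt hg (C_ne_zero.2 (h.pow_ne t ht))
    (degree_C_le.trans_lt (natDegree_pos_iff_degree_pos.1 hd)) h0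

theorem hensel_two (h : Chain γ e Q) (r : Res π γ) {F : S[X]} (hF : F.Monic) {f g : K[X]}
    (hf : f.Monic) (hg : g.Monic) (hfg : F.map π = f * g) (hc : IsCoprime f g) :
    ∃ f' g' : S[X], f'.Monic ∧ g'.Monic ∧ F = f' * g' ∧ f'.map π = f ∧ g'.map π = g := by
  have := h.nontrivial
  let _ : Algebra S K := π.toAlgebra
  have hn : F.natDegree = f.natDegree + g.natDegree := by
    rw [← hF.natDegree_map π, hfg, hf.natDegree_mul hg]
  let P : MonicDegreeEq S F.natDegree := .mk F hF rfl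
  let φ := (UniversalCoprimeFactorizationRing.homEquiv K f.natDegree g.natDegree hn P).symm
    ⟨(.mk f hf rfl, .mk g hg rfl), hfg.symm, hc⟩
  have hnil : IsNilpotent (RingHom.ker ((Algebra.ofId S K : S →ₐ[S] K) : S →+* K)) := by
    refine ⟨e, ?_⟩
    change RingHom.ker π ^ e = 0
    rw [r.ker_eq, Ideal.span_singleton_pow, h.pow_eq]
    simp
  let ψ := Algebra.FormallySmooth.liftOfSurjective φ (Algebra.ofId S K) r.surj hnil
  have hψ : (Algebra.ofId S K).comp ψ = φ :=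
    Algebra.FormallySmooth.comp_liftOfSurjective φ (Algebra.ofId S K) r.surj hnil
  let q := UniversalCoprimeFactorizationRing.homEquiv S f.natDegree g.natDegree hn P ψ
  have h1 := UniversalCoprimeFactorizationRing.homEquiv_comp_fst S f.natDegree g.natDegree hn P ψ
    (Algebra.ofId S K)
  have h2 := UniversalCoprimeFactorizationRing.homEquiv_comp_snd S f.natDegree g.natDegree hn P ψ
    (Algebra.ofId S K)
  rw [hψ] at h1 h2
  simp only [φ, Equiv.apply_symm_apply] at h1 h2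
  refine ⟨q.1.1.1, q.1.2.1, q.1.1.monic, q.1.2.monic, ?_, (congrArg Subtype.val h1).symm,
    (congrArg Subtype.val h2).symm⟩
  have h3 := q.2.1
  rw [h3]
  simp [P]

theorem hensel (h : Chain γ e Q) (r : Res π γ) {ι : Type*} (s : Finset ι) (f : ι → K[X])
    (hf : ∀ i, (f i).Monic) (hc : ∀ i ∈ s, ∀ j ∈ s, i ≠ j → IsCoprime (f i) (f j)) :
    ∀ F : S[X], F.Monic → F.map π = ∏ i ∈ s, f i →
      ∃ f' : ι → S[X], (∀ i, (f' i).Monic) ∧ (∀ i, (f' i).map π = f i) ∧ F = ∏ i ∈ s, f' i := by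
  classical
  have := h.nontrivial
  induction s using Finset.induction_on with
  | empty =>
    intro F hF h1
    have h2 : ∀ i, ∃ g : S[X], g.Monic ∧ g.map π = f i := fun i => by
      obtain ⟨g, hg1, -, hg2⟩ := lifts_and_natDegree_eq_and_monic
        ((mem_lifts _).2 (Polynomial.map_surjective π r.surj (f i))) (hf i)
      exact ⟨g, hg2, hg1⟩
    choose f' h3 h4 using h2
    refine ⟨f', h3, h4, ?_⟩
    rw [prod_empty] at h1 ⊢
    rw [← hF.natDegree_eq_zero, ← hF.natDegree_map π, h1, natDegree_one]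
  | insert a s ha ih =>
    intro F hF h1
    rw [prod_insert ha] at h1
    obtain ⟨f1, g1, hf1, hg1, hF1, hm1, hm2⟩ := hensel_two h r hF (hf a)
      (monic_prod_of_monic _ _ fun i _ => hf i) h1
      (IsCoprime.prod_right fun i hi => hc a (mem_insert_self _ _) i (mem_insert_of_mem hi)
        (fun hh => ha (hh ▸ hi)))
    obtain ⟨f', h3, h4, h5⟩ := ih (fun i hi j hj => hc i (mem_insert_of_mem hi) j
      (mem_insert_of_mem hj)) g1 hg1 hm2
    refine ⟨Function.update f' a f1, fun i => ?_, fun i => ?_, ?_⟩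
    · by_cases hi : i = a
      · rw [hi, Function.update_self]; exact hf1
      · rw [Function.update_of_ne hi]; exact h3 i
    · by_cases hi : i = a
      · rw [hi, Function.update_self]; exact hm1
      · rw [Function.update_of_ne hi]; exact h4 i
    · rw [prod_insert ha, Function.update_self, hF1, h5]
      congr 1
      exact prod_congr rfl fun i hi => (Function.update_of_ne (fun hh : i = a => ha (hh ▸ hi)) _ _).symm

theorem exists_root_pow {A : Type*} [CommRing A] {n : ℕ} (hn : IsUnit (n : A)) {x c : A}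
    (hx : IsUnit x) (hc : IsNilpotent (x ^ n - c)) : ∃ y, IsNilpotent (x - y) ∧ y ^ n = c := by
  obtain ⟨y, ⟨h1, h2⟩, -⟩ := existsUnique_nilpotent_sub_and_aeval_eq_zero
    (P := (X ^ n - C c : A[X])) (x := x) (by simpa only [aeval_sub, coe_aeval_eq_eval, eval_pow, eval_X, aeval_C, Algebra.algebraMap_self, RingHom.id_apply] using hc)
    (by simpa only [derivative_sub, derivative_X_pow, map_natCast, derivative_C, sub_zero, coe_aeval_eq_eval, eval_mul, eval_natCast, eval_pow, eval_X, IsUnit.mul_iff] using ⟨hn, hx.pow _⟩)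
  exact ⟨y, h1, by simpa [sub_eq_zero] using h2⟩

end Unram

end Pool.Agent.MP_975ab8_al.H19

end

-- part MP_975ab8_al.H19.Setup
section

namespace Pool.Agent.MP_975ab8_al.H19

open Finset Polynomial

universe u

/-- The polynomial `X ^ p + p X`. -/
noncomputable def LT (S : Type*) [CommRing S] (p : ℕ) : S[X] := X ^ p + C (p : S) * X

theorem degree_lt_of_one_lt {S : Type*} [CommRing S] {p : ℕ} (hp : 1 < p) (c : S) :
    (C c * X : S[X]).degree < p :=
  (degree_C_mul_X_le c).trans_lt (by exact_mod_cast hp)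

theorem monic_LT (S : Type*) [CommRing S] {p : ℕ} (hp : p.Prime) : (LT S p).Monic :=
  monic_X_pow_add (degree_lt_of_one_lt hp.one_lt _)

theorem natDegree_LT (S : Type*) [CommRing S] [Nontrivial S] {p : ℕ} (hp : p.Prime) :
    (LT S p).natDegree = p := by
  rw [LT, natDegree_add_eq_left_of_degree_lt, natDegree_X_pow]
  rw [degree_X_pow]
  exact degree_lt_of_one_lt hp.one_lt _

theorem exists_eps {p : ℕ} (hp : p.Prime) :
    ∃ G : ℤ[X], (X + 1 : ℤ[X]) ^ p - 1 = X ^ p + (p : ℤ[X]) * X * (1 + X * G) := by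
  obtain ⟨r, hr⟩ := exists_add_pow_prime_eq hp (X : ℤ[X]) 1
  have h1 : r.coeff 0 = 1 := by
    have h2 := congrArg (fun f : ℤ[X] => f.coeff 1) hr
    simp only [coeff_X_add_one_pow, Nat.choose_one_right, one_pow, mul_one, coeff_add,
      coeff_X_pow, coeff_one] at h2
    rw [if_neg hp.one_lt.ne, if_neg one_ne_zero, mul_assoc, ← C_eq_natCast, coeff_C_mul,
      coeff_X_mul] at h2
    have h3 : (p : ℤ) ≠ 0 := by exact_mod_cast hp.ne_zero
    apply mul_left_cancel₀ h3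
    linarith only [h2]
  refine ⟨r.divX, ?_⟩
  have h2 := X_mul_divX_add r
  rw [h1, C_1] at h2
  rw [hr, add_comm 1, h2]
  ring

theorem exists_coord {S : Type*} [CommRing S] [Finite S] {γ : S} {e Q : ℕ} (h : Chain γ e Q)
    {p : ℕ} (hp : p.Prime) (hγ : γ ∣ (p : S)) :
    Nonempty (AdjoinRoot (LT S p) ≃ₐ[S] AdjoinRoot (X ^ p - 1 : S[X])) := by
  have := h.nontrivial
  let L := AdjoinRoot (X ^ p - 1 : S[X])
  let y : L := AdjoinRoot.root _ - 1
  obtain ⟨G, hG⟩ := exists_eps hp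
  have hpn : IsNilpotent (p : L) := by
    have := (isNilpotent_of_dvd h hγ).map (algebraMap S L)
    rwa [map_natCast] at this
  let ε : L := 1 + y * aeval y G
  have h1 : y ^ p + p * y * ε = 0 := by
    have h2 := congrArg (aeval (R := ℤ) y) hG
    simp only [map_sub, map_add, map_pow, map_mul, aeval_X, map_one, map_natCast] at h2
    rw [← h2]
    simp only [y, sub_add_cancel]
    rw [root_pow_eq_one, sub_self]
  have hy : IsNilpotent y := by
    refine IsNilpotent.of_pow (m := p) ?_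
    rw [eq_neg_of_add_eq_zero_left h1, mul_assoc]
    exact ((Commute.all _ _).isNilpotent_mul_right hpn).neg
  have hε : IsUnit ε := ((Commute.all _ _).isNilpotent_mul_right hy).isUnit_one_add
  obtain ⟨ε', hε'⟩ := hε.exists_right_inv
  have hp1 : IsUnit ((p - 1 : ℕ) : L) := by
    rw [Nat.cast_sub hp.one_le, Nat.cast_one]
    exact hpn.isUnit_sub_one
  obtain ⟨c, hc1, hc2⟩ := exists_root_pow (x := 1) (c := ε') hp1 isUnit_one (by
    have : (1 : L) ^ (p - 1) - ε' = y * (aeval y G * ε') := by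
      simp only [ε] at hε'
      linear_combination -hε'
    rw [this]
    exact (Commute.all _ _).isNilpotent_mul_right hy)
  have hroot : (y * c) ^ p + p * (y * c) = 0 := by
    obtain ⟨n, hn⟩ : ∃ n, p = n + 1 := ⟨p - 1, by have := hp.pos; omega⟩
    have h3 : c ^ p = ε' * c := by rw [← hc2, ← pow_succ, Nat.sub_add_cancel hp.one_le]
    rw [mul_pow, h3]
    linear_combination (ε' * c) * h1 - (p * y * c) * hε'
  let Ψ : AdjoinRoot (LT S p) →ₐ[S] L := AdjoinRoot.liftAlgHom _ (Algebra.ofId S L) (y * c) (by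
    simpa only [Algebra.toRingHom_ofId, LT, map_natCast, eval₂_add, eval₂_X_pow, eval₂_mul, eval₂_natCast, eval₂_X] using hroot)
  have hΨ : Ψ (AdjoinRoot.root _) = y * c := AdjoinRoot.liftAlgHom_root _ _ _ _
  have hdec : ∀ x : L, ∃ a : S, ∃ t, x = algebraMap S L a + y * t := by
    intro x
    obtain ⟨f, rfl⟩ := AdjoinRoot.mk_surjective x
    obtain ⟨v, hv⟩ := exists_eq_eval f
    refine ⟨f.eval 1, AdjoinRoot.mk _ v, ?_⟩
    conv_lhs => rw [hv]
    rw [map_add, map_mul, map_sub, map_one]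
    rfl
  have hcu : IsUnit c := by
    have := hc1.isUnit_one_sub
    rwa [sub_sub_cancel] at this
  obtain ⟨c', hc'⟩ := hcu.exists_right_inv
  have hind : ∀ n : ℕ, ∀ x : L, ∃ z t, x = Ψ z + (y * c) ^ n * t := by
    intro n
    induction n with
    | zero => exact fun x => ⟨0, x, by simp⟩
    | succ n ih =>
      intro x
      obtain ⟨z, t, rfl⟩ := ih x
      obtain ⟨a, t', rfl⟩ := hdec t
      refine ⟨z + AdjoinRoot.root _ ^ n * algebraMap S _ a, c' * t', ?_⟩
      rw [map_add, map_mul, map_pow, hΨ, AlgHom.commutes]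
      linear_combination (-(y * c) ^ n * y * t') * hc'
  have hsurj : Function.Surjective Ψ := by
    intro x
    obtain ⟨n, hn⟩ := (Commute.all y c).isNilpotent_mul_right hy
    obtain ⟨z, t, hz⟩ := hind n x
    exact ⟨z, by rw [hz, hn, zero_mul, add_zero]⟩
  have := (monic_LT S hp).finite_adjoinRoot
  have : Finite (AdjoinRoot (LT S p)) := Module.finite_of_finite S
  refine ⟨AlgEquiv.ofBijective Ψ ((Nat.bijective_iff_surjective_and_card Ψ).2 ⟨hsurj, ?_⟩)⟩
  rw [card_adjoinRoot h (monic_LT S hp), natDegree_LT S hp, card_cyc h hp.pos]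

/-- A splitting extension. -/
structure Ext {S T : Type*} [CommRing S] [CommRing T] (φ : S →+* T) (γ α : S) (e p : ℕ)
    (ϖ ζ ω : T) : Prop where
  chain : ∃ Q', Chain ϖ ((p - 1) * e) Q'
  pow : ϖ ^ (p - 1) = φ γ
  zeta : ζ ^ (p - 1) = φ α
  om : ω ^ (p - 1) = 1
  omu : ∀ n, 0 < n → n < p - 1 → IsUnit (ω ^ n - 1)

theorem exists_omega {T : Type u} [CommRing T] [Finite T] {ϖ : T} {e Q : ℕ} (h : Chain ϖ e Q)
    {p : ℕ} (hp : p.Prime) (hγ : ϖ ∣ (p : T)) :
    ∃ ω : T, ω ^ (p - 1) = 1 ∧ ∀ n, 0 < n → n < p - 1 → IsUnit (ω ^ n - 1) := by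
  obtain ⟨F, _, ρ, r⟩ := exists_res h
  have : Fact p.Prime := ⟨hp⟩
  have hpF : (p : F) = 0 := by rw [← map_natCast ρ, r.ker]; exact hγ
  have : CharP F p := (CharP.charP_iff_prime_eq_zero hp).2 hpF
  obtain ⟨g, hg⟩ := IsCyclic.exists_generator (α := (ZMod p)ˣ)
  have hord : orderOf g = p - 1 := by
    rw [orderOf_eq_card_of_forall_mem_zpowers hg, Nat.card_eq_fintype_card, ZMod.card_units]
  let ι : ZMod p →+* F := ZMod.castHom dvd_rfl F
  have hord' : orderOf (ι g) = p - 1 := by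
    rw [← hord, ← orderOf_units]
    exact orderOf_injective ι.toMonoidHom ι.injective _
  obtain ⟨x, hx⟩ := r.surj (ι g)
  have hp1 : IsUnit ((p - 1 : ℕ) : T) := by
    rw [Nat.cast_sub hp.one_le, Nat.cast_one]
    exact (isNilpotent_of_dvd h hγ).isUnit_sub_one
  obtain ⟨y, hy1, hy2⟩ := exists_root_pow (x := x) (c := 1) hp1
    ((r.isUnit_iff h).2 (by rw [hx]; exact (g.isUnit.map ι).ne_zero))
    (isNilpotent_of_dvd h ((r.ker _).1 (by
      rw [map_sub, map_pow, hx, ← hord', pow_orderOf_eq_one, map_one, sub_self])))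
  have hy : ρ y = ι g := by
    have := (hy1.map ρ).eq_zero
    rw [map_sub, hx, sub_eq_zero] at this
    exact this.symm
  refine ⟨y, hy2, fun n h0 hn => (r.isUnit_iff h).2 ?_⟩
  rw [map_sub, map_pow, hy, map_one, sub_ne_zero]
  exact pow_ne_one_of_lt_orderOf h0.ne' (hord' ▸ hn)

theorem exists_ext {S : Type u} [CommRing S] [Finite S] {γ : S} {e Q : ℕ} (h : Chain γ e Q)
    {p : ℕ} (hp : p.Prime) (hγ : γ ∣ (p : S)) {α : S} (hα : IsUnit α) :
    ∃ (T : Type u) (_ : CommRing T) (_ : Finite T) (φ : S →+* T) (ϖ ζ ω : T),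
      Ext φ γ α e p ϖ ζ ω := by
  have := h.nontrivial
  have hp1 : 0 < p - 1 := by have := hp.two_le; omega
  let g : S[X] := (X - 1) ^ (p - 1) - C γ
  have hm1 : ((X - 1 : S[X]) ^ (p - 1)).Monic := (monic_X_sub_C 1).pow _
  have hd1 : ((X - 1 : S[X]) ^ (p - 1)).natDegree = p - 1 := by
    rw [← C_1, (monic_X_sub_C 1).natDegree_pow, natDegree_X_sub_C, mul_one]
  have hlt : (C γ).degree < ((X - 1 : S[X]) ^ (p - 1)).degree := by
    rw [degree_eq_natDegree hm1.ne_zero, hd1]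
    exact degree_C_le.trans_lt (by exact_mod_cast hp1)
  have hg : g.Monic := hm1.sub_of_left hlt
  have hgd : g.natDegree = p - 1 := by
    rw [← hd1]
    exact natDegree_eq_of_degree_eq (degree_sub_eq_left_of_degree_lt hlt)
  have hpow : AdjoinRoot.mk g (X - 1) ^ (p - 1) = AdjoinRoot.of g γ := by
    rw [← map_pow, ← AdjoinRoot.mk_C, AdjoinRoot.mk_eq_mk]
  have h1 := chain_adjoinRoot h (g := g) (t := X - 1) hg (by simp only [g, eval_sub, eval_pow, eval_X, eval_one, sub_self, ne_eq, hp1.ne', not_false_eq_true, zero_pow, eval_C, zero_sub, dvd_neg, dvd_refl]) (by simp)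
    (by rw [AdjoinRoot.mk_C, ← hpow]; exact dvd_pow_self _ hp1.ne') dvd_rfl
    (IsNilpotent.of_pow (m := p - 1) (by rw [hpow]; exact isNilpotent_mk_C h g))
  rw [hgd, mul_comm] at h1
  have := hg.finite_adjoinRoot
  have : Finite (AdjoinRoot g) := Module.finite_of_finite S
  obtain ⟨F, _, ρ, r⟩ := exists_res h1
  have hdeg : (X ^ (p - 1) - C (ρ (AdjoinRoot.of g α)) : F[X]).natDegree ≠ 0 := by
    rw [natDegree_X_pow_sub_C]
    exact hp1.ne'
  obtain ⟨P, hPm, hPi, hPd⟩ := exists_monic_irreducible_factor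
    (X ^ (p - 1) - C (ρ (AdjoinRoot.of g α)) : F[X])
    (not_isUnit_of_natDegree_pos _ (Nat.pos_of_ne_zero hdeg))
  obtain ⟨P', rfl, -, hP'⟩ := lifts_and_natDegree_eq_and_monic
    ((mem_lifts _).2 (Polynomial.map_surjective ρ r.surj P)) hPm
  have : Fact (Irreducible (P'.map ρ)) := ⟨hPi⟩
  obtain ⟨r', h2⟩ := chain_unram h1 r hP'
  have := hP'.finite_adjoinRoot
  have : Finite (AdjoinRoot P') := Module.finite_of_finite (AdjoinRoot g)
  let φ : S →+* AdjoinRoot P' := (AdjoinRoot.of P').comp (AdjoinRoot.of g)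
  have hϖ : AdjoinRoot.of P' (AdjoinRoot.mk g (X - 1)) ^ (p - 1) = φ γ := by
    rw [← map_pow, hpow]
    rfl
  have hdv : AdjoinRoot.of P' (AdjoinRoot.mk g (X - 1)) ∣ (p : AdjoinRoot P') := by
    rw [← map_natCast φ]
    exact (hϖ ▸ dvd_pow_self _ hp1.ne').trans (map_dvd φ hγ)
  have hz : AdjoinRoot.map ρ P' (P'.map ρ) dvd_rfl (AdjoinRoot.root P' ^ (p - 1) - φ α) = 0 := by
    have h3 := AdjoinRoot.mk_eq_zero.2 hPd
    rw [map_sub, map_pow, AdjoinRoot.mk_X, AdjoinRoot.mk_C] at h3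
    rw [map_sub, map_pow, AdjoinRoot.map_root]
    simp only [φ, RingHom.comp_apply, AdjoinRoot.map_of]
    exact h3
  have hnil := isNilpotent_of_dvd h2 ((r'.ker _).1 hz)
  obtain ⟨ζ, -, hζ⟩ := exists_root_pow (n := p - 1) (x := AdjoinRoot.root P') (c := φ α) (by
    rw [Nat.cast_sub hp.one_le, Nat.cast_one]
    exact (isNilpotent_of_dvd h2 hdv).isUnit_sub_one) (by
    rw [← isUnit_pow_iff hp1.ne']
    have := hnil.isUnit_add_right_of_commute (hα.map φ) (Commute.all _ _)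
    rwa [sub_add_cancel] at this) hnil
  obtain ⟨ω, hω1, hω2⟩ := exists_omega h2 hp hdv
  exact ⟨AdjoinRoot P', inferInstance, inferInstance, φ, _, ζ, ω, ⟨_, h2⟩, hϖ, hζ, hω1, hω2⟩

theorem chain_zmod {p N : ℕ} [hp : Fact p.Prime] (hN : N ≠ 0) :
    Res (ZMod.castHom (dvd_pow_self p hN) (ZMod p)) (p : ZMod (p ^ N)) ∧
      Chain (p : ZMod (p ^ N)) N p := by
  have r : Res (ZMod.castHom (dvd_pow_self p hN) (ZMod p)) (p : ZMod (p ^ N)) := by
    refine ⟨ZMod.castHom_surjective _, fun x => ?_⟩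
    have : NeZero (p ^ N) := ⟨pow_ne_zero _ hp.out.ne_zero⟩
    obtain ⟨n, rfl⟩ := ZMod.natCast_zmod_surjective x
    constructor
    · intro hx
      rw [map_natCast, ZMod.natCast_eq_zero_iff] at hx
      exact Nat.cast_dvd_cast hx
    · rintro ⟨c, hc⟩
      rw [hc, map_mul, map_natCast, ZMod.natCast_self, zero_mul]
  refine ⟨r, ?_⟩
  have := r.chain (e := N) (by rw [← Nat.cast_pow, ZMod.natCast_self]) (fun t ht h0 => by
    rw [← Nat.cast_pow, ZMod.natCast_eq_zero_iff, Nat.pow_dvd_pow_iff_le_right hp.out.one_lt] at h0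
    omega)
  rwa [Nat.card_zmod] at this

theorem exists_witt {R : Type u} [CommRing R] [Finite R] {γ : R} {e q : ℕ} (h : Chain γ e q)
    {p : ℕ} (hp : p.Prime) (hγ : γ ∣ (p : R)) {N : ℕ} (hN : e ≤ N) :
    ∃ (W : Type) (_ : CommRing W) (_ : Finite W) (θ : W →+* R), Chain (p : W) N q ∧
      ∀ x : R, ∃ w y, x = θ w + γ * y := by
  obtain ⟨k, _, π, r⟩ := exists_res h
  have : Fact p.Prime := ⟨hp⟩
  have hpk : (p : k) = 0 := by rw [← map_natCast π, r.ker]; exact hγ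
  have : CharP k p := (CharP.charP_iff_prime_eq_zero hp).2 hpk
  have : Finite k := Finite.of_surjective _ r.surj
  let _ : Algebra (ZMod p) k := ZMod.algebra k p
  obtain ⟨g, hg⟩ := IsCyclic.exists_monoid_generator (α := kˣ)
  have hint : IsIntegral (ZMod p) (g : k) := IsIntegral.of_finite _ _
  have hN0 : N ≠ 0 := by have := h.e_pos; omega
  obtain ⟨r0, h0⟩ := chain_zmod (p := p) hN0
  obtain ⟨M, hM, -, hMm⟩ := lifts_and_natDegree_eq_and_monic
    ((mem_lifts _).2 (Polynomial.map_surjective _ r0.surj (minpoly (ZMod p) (g : k))))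
    (minpoly.monic hint)
  have : Fact (Irreducible (M.map (ZMod.castHom (dvd_pow_self p hN0) (ZMod p)))) :=
    ⟨hM ▸ minpoly.irreducible hint⟩
  obtain ⟨-, h1⟩ := chain_unram h0 r0 hMm
  rw [map_natCast] at h1
  have hpN : ((p ^ N : ℕ) : R) = 0 := by
    obtain ⟨c, hc⟩ := hγ
    rw [Nat.cast_pow, hc, mul_pow, h.pow_eq_zero_iff.2 hN, zero_mul]
  let ι : ZMod (p ^ N) →+* R := ZMod.castHom ((ringChar.spec R _).1 hpN) R
  have hι : π.comp ι = (algebraMap (ZMod p) k).comp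
      (ZMod.castHom (dvd_pow_self p hN0) (ZMod p)) := RingHom.ext_zmod _ _
  obtain ⟨y0, hy0⟩ := r.surj g
  have hev : ∀ f : (ZMod (p ^ N))[X], π (aeval y0 (f.map ι)) =
      aeval (g : k) (f.map (ZMod.castHom (dvd_pow_self p hN0) (ZMod p))) := by
    intro f
    rw [coe_aeval_eq_eval, eval_map, hom_eval₂, hy0, hι, aeval_def, eval₂_map]
  obtain ⟨y, ⟨hy1, hy2⟩, -⟩ := existsUnique_nilpotent_sub_and_aeval_eq_zero
    (P := M.map ι) (x := y0)
    (isNilpotent_of_dvd h ((r.ker _).1 (by rw [hev, hM, minpoly.aeval])))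
    ((r.isUnit_iff h).2 (by
      rw [derivative_map, hev, ← derivative_map, hM]
      exact (PerfectField.separable_of_irreducible
        (minpoly.irreducible hint)).aeval_derivative_ne_zero (minpoly.aeval _ _)))
  have hy : π y = g := by
    have := (hy1.map π).eq_zero
    rw [map_sub, hy0, sub_eq_zero] at this
    exact this.symm
  let θ : AdjoinRoot M →+* R := AdjoinRoot.lift ι y (by
    rwa [coe_aeval_eq_eval, eval_map] at hy2)
  have hs : Function.Surjective (π.comp θ) := by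
    intro x
    by_cases hx : x = 0
    · exact ⟨0, by rw [hx, map_zero]⟩
    · obtain ⟨n, hn⟩ := hg (Units.mk0 x hx)
      refine ⟨AdjoinRoot.root M ^ n, ?_⟩
      rw [map_pow, RingHom.comp_apply, AdjoinRoot.lift_root, hy]
      exact congrArg Units.val hn
  have r1 : Res (π.comp θ) (p : AdjoinRoot M) := by
    refine ⟨hs, fun x => ⟨fun hx => ?_, ?_⟩⟩
    · by_contra hc
      exact ((h1.isUnit_of_not_dvd hc).map (π.comp θ)).ne_zero hx
    · rintro ⟨c, rfl⟩
      rw [map_mul, map_natCast, hpk, zero_mul]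
  have : NeZero (p ^ N) := ⟨pow_ne_zero _ hp.ne_zero⟩
  have := hMm.finite_adjoinRoot
  refine ⟨AdjoinRoot M, inferInstance, Module.finite_of_finite (ZMod (p ^ N)), θ, ?_, fun x => ?_⟩
  · rwa [← r.card h, r1.card h1]
  · obtain ⟨w, hw⟩ := hs (π x)
    obtain ⟨c, hc⟩ := r.eq_iff.1 hw.symm
    exact ⟨w, c, by rw [← hc]; ring⟩

theorem exists_lift {R : Type u} [CommRing R] [Finite R] {γ : R} {e q : ℕ} (h : Chain γ e q)
    {p : ℕ} (hp : p.Prime) {E : ℕ} {u : R} (hu : IsUnit u) (hpu : (p : R) = γ ^ E * u)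
    (hE1 : 0 < E) (hE : E < e) (N : ℕ) :
    ∃ (B : Type) (_ : CommRing B) (_ : Finite B) (θ : B →+* R) (δ v : B) (e' : ℕ),
      N ≤ e' ∧ Chain δ e' q ∧ Function.Surjective θ ∧ θ δ = γ ∧ IsUnit v ∧
      (p : B) = δ ^ E * v ∧ γ ∣ θ v - u := by
  have hγ : γ ∣ (p : R) := hpu ▸ (dvd_pow_self γ hE1.ne').mul_right u
  obtain ⟨W, _, _, θ, h1, hθ⟩ := exists_witt h hp hγ (le_max_right N e)
  have := h1.nontrivial
  obtain ⟨u', hu'⟩ := hu.exists_right_inv
  have ha : ∀ j : ℕ, ∀ x : R, ∃ V ∈ degreeLT W j, ∃ y, x = V.eval₂ θ γ + γ ^ j * y := by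
    intro j
    induction j with
    | zero => exact fun x => ⟨0, zero_mem _, x, by simp⟩
    | succ j ih =>
      intro x
      obtain ⟨V, hV, y, rfl⟩ := ih x
      obtain ⟨w, z, rfl⟩ := hθ y
      refine ⟨V + monomial j w, add_mem (degreeLT_mono (Nat.le_succ j) hV) ?_, z, ?_⟩
      · exact mem_degreeLT.2 ((degree_monomial_le j w).trans_lt (by exact_mod_cast j.lt_succ_self))
      · rw [eval₂_add, eval₂_monomial]
        ring
  have hb : ∀ n : ℕ, ∀ x : R, ∃ V ∈ degreeLT W E, ∃ y, x = V.eval₂ θ γ + (p : R) ^ n * y := by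
    intro n
    induction n with
    | zero => exact fun x => ⟨0, zero_mem _, x, by simp only [eval₂_zero, pow_zero, one_mul, zero_add]⟩
    | succ n ih =>
      intro x
      obtain ⟨V, hV, y, rfl⟩ := ih x
      obtain ⟨V', hV', z, rfl⟩ := ha E y
      refine ⟨V + ((p : W) ^ n) • V', add_mem hV (Submodule.smul_mem _ _ hV'), u' * z, ?_⟩
      rw [eval₂_add, smul_eq_C_mul, eval₂_mul, eval₂_C, map_pow, map_natCast, pow_succ, mul_assoc,
        hpu]
      linear_combination (-(γ ^ E * u) ^ n * γ ^ E * z) * hu'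
  have hc : ∀ x : R, ∃ V ∈ degreeLT W E, x = V.eval₂ θ γ := by
    intro x
    obtain ⟨V, hV, y, rfl⟩ := hb e x
    obtain ⟨c, hc⟩ := hγ
    exact ⟨V, hV, by rw [hc, mul_pow, h.pow_eq, zero_mul, zero_mul, add_zero]⟩
  obtain ⟨V, hV, hVu⟩ := hc u'
  have hV0 : IsUnit (V.eval 0) := by
    refine h1.isUnit_of_not_dvd fun hd => h.not_isUnit ?_
    refine isUnit_of_dvd_unit ?_ (IsUnit.of_mul_eq_one_right _ hu')
    rw [hVu, ← X_mul_divX_add V, eval₂_add, eval₂_mul, eval₂_X, eval₂_C, coeff_zero_eq_eval_zero]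
    refine dvd_add (dvd_mul_right _ _) (hγ.trans ?_)
    rw [← map_natCast θ]
    exact map_dvd θ hd
  let G : W[X] := (X - 1) ^ E - C (p : W) * taylor (-1) V
  have hm1 : ((X - 1 : W[X]) ^ E).Monic := (monic_X_sub_C 1).pow _
  have hd1 : ((X - 1 : W[X]) ^ E).natDegree = E := by
    rw [← C_1, (monic_X_sub_C 1).natDegree_pow, natDegree_X_sub_C, mul_one]
  have hlt : (C (p : W) * taylor (-1) V).degree < ((X - 1 : W[X]) ^ E).degree := by
    rw [degree_eq_natDegree hm1.ne_zero, hd1, ← smul_eq_C_mul]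
    refine (degree_smul_le _ _).trans_lt ?_
    rw [degree_taylor]
    exact mem_degreeLT.1 hV
  have hG : G.Monic := hm1.sub_of_left hlt
  have hGd : G.natDegree = E := by
    rw [← hd1]
    exact natDegree_eq_of_degree_eq (degree_sub_eq_left_of_degree_lt hlt)
  have hpow : AdjoinRoot.mk G (X - 1) ^ E =
      AdjoinRoot.mk G (C (p : W)) * AdjoinRoot.mk G (taylor (-1) V) := by
    rw [← map_pow, ← map_mul, AdjoinRoot.mk_eq_mk]
  have hnil : IsNilpotent (AdjoinRoot.mk G (X - 1)) := IsNilpotent.of_pow (m := E) (by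
    rw [hpow]
    exact (Commute.all _ _).isNilpotent_mul_right (isNilpotent_mk_C h1 G))
  obtain ⟨v, hv⟩ := (isUnit_mk_of_eval hnil (f := taylor (-1) V) (by
    rwa [taylor_eval, add_neg_cancel])).exists_right_inv
  have hpv : AdjoinRoot.mk G (C (p : W)) = AdjoinRoot.mk G (X - 1) ^ E * v := by
    rw [hpow, mul_assoc, hv, mul_one]
  have h2 := chain_adjoinRoot h1 (g := G) (t := X - 1) hG (by simp only [G, map_natCast, eval_sub, eval_pow, eval_X, eval_one, sub_self, ne_eq, hE1.ne', not_false_eq_true, zero_pow, eval_mul, eval_natCast, zero_sub, dvd_neg, dvd_mul_right]) (by simp only [eval_sub, eval_X, eval_one, sub_self, dvd_zero])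
    (by rw [hpv]; exact (dvd_pow_self _ hE1.ne').mul_right _) dvd_rfl hnil
  have htay : ∀ f : W[X], (taylor (-1) f).eval₂ θ (1 + γ) = f.eval₂ θ γ := by
    intro f
    rw [taylor_apply, eval₂_comp]
    simp only [map_neg, map_one, eval₂_add, eval₂_X, eval₂_neg, eval₂_one, add_neg_cancel_comm]
  let Θ : AdjoinRoot G →+* R := AdjoinRoot.lift θ (1 + γ) (by
    simp only [G, eval₂_sub, eval₂_mul, eval₂_pow, eval₂_X, eval₂_one, eval₂_C, htay, map_natCast θ,
      ← hVu, hpu]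
    rw [add_sub_cancel_left]
    linear_combination (-γ ^ E) * hu')
  have hΘ : Θ (AdjoinRoot.mk G (X - 1)) = γ := by
    rw [AdjoinRoot.lift_mk]
    simp
  rw [map_natCast, map_natCast] at hpv
  have := hG.finite_adjoinRoot
  refine ⟨AdjoinRoot G, inferInstance, Module.finite_of_finite W, Θ, _, v, _, ?_, h2, fun x => ?_,
    hΘ, IsUnit.of_mul_eq_one_right _ hv, hpv, dvd_of_pow_mul_eq h hE ?_⟩
  · rw [hGd]
    exact (le_max_left N e).trans (Nat.le_mul_of_pos_right _ hE1)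
  · obtain ⟨f, -, rfl⟩ := hc x
    exact ⟨AdjoinRoot.mk G (taylor (-1) f), by rw [AdjoinRoot.lift_mk, htay]⟩
  · rw [← hpu, ← map_natCast Θ, hpv, map_mul, map_pow, hΘ]

end Pool.Agent.MP_975ab8_al.H19

end

-- part MP_975ab8_al.H19.Comp
section

namespace Pool.Agent.MP_975ab8_al.H19

open Finset Polynomial UniqueFactorizationMonoid

universe u

variable {R : Type u} {k : Type*} [CommRing R] [Field k] {π : R →+* k} {γ : R} {e p q m : ℕ}

theorem cop_lift (h : Chain γ e q) (r : Res π γ) {f g : R[X]}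
    (hc : IsCoprime (f.map π) (g.map π)) : IsCoprime f g := by
  obtain ⟨a, b, hab⟩ := hc
  obtain ⟨a, rfl⟩ := Polynomial.map_surjective π r.surj a
  obtain ⟨b, rfl⟩ := Polynomial.map_surjective π r.surj b
  obtain ⟨w, hw⟩ := r.map_eq_zero (f := a * f + b * g - 1) (by
    simp only [Polynomial.map_sub, Polynomial.map_add, Polynomial.map_mul, hab, Polynomial.map_one,
      sub_self])
  obtain ⟨v, hv⟩ := ((Commute.all _ w).isNilpotent_mul_right
    ((isNilpotent_of_dvd h dvd_rfl).map (C : R →+* R[X]))).isUnit_one_add.exists_right_inv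
  exact ⟨a * v, b * v, by linear_combination v * hw + hv⟩

theorem prod_equivFin {α M : Type*} [CommMonoid M] (s : Finset α) (g : α → M) :
    ∏ j, g (s.equivFin.symm j) = ∏ P ∈ s, g P := by
  rw [← prod_coe_sort s]
  exact Fintype.prod_equiv s.equivFin.symm _ _ fun _ => rfl

theorem exists_comp [Finite R] (h : Chain γ e q) (r : Res π γ) (hp : p.Prime) (hγ : γ ∣ (p : R))
    (hm : ¬ p ∣ m) (K : ℕ → Type*) [∀ n, Field (K n)] [∀ n, Algebra k (K n)]
    (hK : ∀ n, 0 < n → Module.finrank k (K n) = n) :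
    ∃ (N : ℕ) (P : Fin N → R[X]) (d : Fin N → ℕ) (ρ : ∀ j, AdjoinRoot (P j) →+* K (d j))
      (ε : (∀ j, AdjoinRoot (LT (AdjoinRoot (P j)) p)) ≃ AdjoinRoot (X ^ (p * m) - 1 : R[X])),
      (∀ j, (P j).Monic) ∧ (∀ j, (P j).natDegree = d j) ∧ (∀ j, 0 < d j) ∧
      (∀ j, Chain (AdjoinRoot.of (P j) γ) e (q ^ d j)) ∧
      (∀ j, Res (ρ j) (AdjoinRoot.of (P j) γ)) ∧
      (∀ j a, ρ j (AdjoinRoot.of (P j) a) = algebraMap k _ (π a)) ∧
      (∀ j y, π (Algebra.trace R _ y) = Algebra.trace k _ (ρ j y)) ∧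
      (∀ f, Algebra.norm R (ε f) =
        ∏ j, Algebra.norm R (Algebra.norm (AdjoinRoot (P j)) (f j))) ∧
      ∑ j, d j = m ∧
      ∀ (M : Type) [CommMonoid M] (g : ℕ → M),
        ∏ j, g (d j) = ∏ c ∈ m.divisors, g (ord q c) ^ (Nat.totient c / ord q c) := by
  classical
  have := h.nontrivial
  have hm0 : 0 < m := Nat.pos_of_ne_zero (fun h => hm (h ▸ dvd_zero p))
  have : Finite k := Finite.of_surjective _ r.surj
  have : Fact p.Prime := ⟨hp⟩
  have hpk : (p : k) = 0 := by rw [← map_natCast π, r.ker]; exact hγ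
  have : CharP k p := (CharP.charP_iff_prime_eq_zero hp).2 hpk
  have := Fintype.ofFinite k
  obtain ⟨n, -, hn⟩ := FiniteField.card k p
  have hq : q = p ^ (n : ℕ) := by rw [← hn, ← r.card h, Nat.card_eq_fintype_card]
  have hmk : (m : k) ≠ 0 := by rwa [Ne, CharP.cast_eq_zero_iff k p]
  have hmon : (X ^ m - 1 : k[X]).Monic := monic_cyc hm0
  have hnd : (normalizedFactors (X ^ m - 1 : k[X])).Nodup :=
    (squarefree_iff_nodup_normalizedFactors hmon.ne_zero).1
      (X_pow_sub_one_separable_iff.2 hmk).squarefree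
  let s := (normalizedFactors (X ^ m - 1 : k[X])).toFinset
  have hs : ∀ P ∈ s, Irreducible P ∧ P.Monic ∧ P ∣ X ^ m - 1 := fun P hP =>
    (Polynomial.mem_normalizedFactors_iff hmon.ne_zero).1 (Multiset.mem_toFinset.1 hP)
  have hprod : ∏ P ∈ s, P = X ^ m - 1 := by
    refine eq_of_monic_of_associated (monic_prod_of_monic _ _ fun P hP => (hs P hP).2.1) hmon ?_
    rw [Finset.prod, Multiset.toFinset_val, hnd.dedup, Multiset.map_id']
    exact prod_normalizedFactors hmon.ne_zero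
  let η := s.equivFin.symm
  have hcop : ∀ i j, i ≠ j → IsCoprime (η i : k[X]) (η j) := fun i j hij =>
    (hs _ (η i).2).1.coprime_iff_not_dvd.2 fun hd => hij (η.injective (Subtype.ext
      (eq_of_monic_of_associated (hs _ (η i).2).2.1 (hs _ (η j).2).2.1
        ((hs _ (η i).2).1.associated_of_dvd (hs _ (η j).2).1 hd))))
  obtain ⟨P, hPm, hPπ, hP⟩ := hensel h r univ (fun j => (η j : k[X])) (fun j => (hs _ (η j).2).2.1)
    (fun i _ j _ => hcop i j) (X ^ m - 1) (monic_cyc hm0) (by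
      rw [prod_equivFin s (fun P => P), hprod]
      simp)
  have hirr : ∀ j, Fact (Irreducible ((P j).map π)) := fun j => ⟨hPπ j ▸ (hs _ (η j).2).1⟩
  have hd0 : ∀ j, 0 < (P j).natDegree := fun j => by
    rw [← (hPm j).natDegree_map π]
    exact (hirr j).out.natDegree_pos
  have hiso : ∀ j, Nonempty (AdjoinRoot ((P j).map π) ≃ₐ[k] K (P j).natDegree) := by
    intro j
    have h1 : Module.finrank k (AdjoinRoot ((P j).map π)) = Module.finrank k (K (P j).natDegree) := by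
      rw [hK _ (hd0 j), (AdjoinRoot.powerBasis (hirr j).out.ne_zero).finrank,
        ← (hPm j).natDegree_map π]
      rfl
    have := Module.finite_of_finrank_pos ((hK _ (hd0 j)).symm ▸ hd0 j)
    have : Finite (K (P j).natDegree) := Module.finite_of_finite k
    have := (AdjoinRoot.powerBasis (hirr j).out.ne_zero).finite
    obtain ⟨f⟩ := FiniteField.nonempty_algHom_of_finrank_dvd h1.dvd
    exact ⟨AlgEquiv.ofBijective f ⟨f.injective,
      (LinearMap.injective_iff_surjective_of_finrank_eq_finrank (f := f.toLinearMap) h1).1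
        f.injective⟩⟩
  let τ := fun j => (hiso j).some
  have hch := fun j => chain_unram h r (hPm j) (hi := hirr j)
  have hfin : ∀ j, Finite (AdjoinRoot (P j)) := fun j => by
    have := (hPm j).finite_adjoinRoot
    exact Module.finite_of_finite R
  have hnt := fun j => (hch j).2.nontrivial
  have hco := fun j => exists_coord (hch j).2 hp (by
    rw [← map_natCast (AdjoinRoot.of (P j))]
    exact map_dvd _ hγ)
  have hsum : ∑ j, (P j).natDegree = m := by
    rw [← natDegree_prod_of_monic _ _ fun j _ => hPm j, ← hP, ← C_1, natDegree_X_pow_sub_C]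
  have hdvd : ∀ j, P j ∣ (X ^ m - 1 : R[X]).map (RingHom.id R) := fun j => by
    rw [Polynomial.map_id, hP]
    exact dvd_prod_of_mem _ (mem_univ j)
  let β : ∀ j, AdjoinRoot (X ^ m - 1 : R[X]) →+* AdjoinRoot (P j) := fun j =>
    AdjoinRoot.map (RingHom.id R) _ _ (hdvd j)
  have hβ : ∀ j f, β j (AdjoinRoot.mk _ f) = AdjoinRoot.mk _ f := fun j f => by
    rw [mk_map, Polynomial.map_id]
  have := (monic_cyc (R := R) hm0).finite_adjoinRoot
  have : Finite (AdjoinRoot (X ^ m - 1 : R[X])) := Module.finite_of_finite R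
  have hbij : Function.Bijective (RingHom.pi β) := by
    rw [Nat.bijective_iff_injective_and_card, injective_iff_map_eq_zero, card_cyc h hm0,
      Nat.card_pi, prod_congr rfl fun j _ => card_adjoinRoot h (hPm j), prod_pow_eq_pow_sum,
      ← mul_sum, hsum]
    refine ⟨fun y hy => ?_, rfl⟩
    obtain ⟨f, rfl⟩ := AdjoinRoot.mk_surjective y
    rw [AdjoinRoot.mk_eq_zero, hP]
    refine Finset.prod_dvd_of_coprime (fun i _ j _ hij => cop_lift h r ?_) fun j _ => ?_
    · rw [hPπ, hPπ]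
      exact hcop i j hij
    · rw [← AdjoinRoot.mk_eq_zero, ← hβ]
      exact congrFun hy j
  have hnorm : ∀ y, Algebra.norm R y = ∏ j, Algebra.norm R (β j y) := by
    intro y
    obtain ⟨f, rfl⟩ := AdjoinRoot.mk_surjective y
    simp only [hβ]
    rw [← norm_mk_prod _ _ hPm, ← hP]
  obtain ⟨E, hE⟩ := exists_coords (R := R) hp.pos hm0 (hp.coprime_iff_not_dvd.2 hm)
  let E' : (Fin p → AdjoinRoot (X ^ m - 1 : R[X])) ≃ ∀ j, AdjoinRoot (LT (AdjoinRoot (P j)) p) :=
    ((Equiv.piCongrRight fun _ => Equiv.ofBijective _ hbij).trans (Equiv.piComm _)).trans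
      (Equiv.piCongrRight fun j =>
        (cycBasis _ hp.pos).equivFun.symm.toEquiv.trans (hco j).some.symm.toEquiv)
  refine ⟨_, P, fun j => (P j).natDegree,
    fun j => (τ j : _ →+* _).comp (AdjoinRoot.map π (P j) _ dvd_rfl), E'.symm.trans E, hPm,
    fun j => rfl, hd0, fun j => (hch j).2,
    fun j => ⟨(τ j).surjective.comp (hch j).1.surj, fun y => ?_⟩, fun j a => ?_, fun j y => ?_,
    fun f => ?_, hsum, fun M _ g => ?_⟩
  · rw [← (hch j).1.ker]
    exact map_eq_zero_iff _ (τ j).injective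
  · rw [RingHom.comp_apply, AdjoinRoot.map_of]
    exact (τ j).commutes _
  · obtain ⟨f, rfl⟩ := AdjoinRoot.mk_surjective y
    rw [trace_map (hPm j), RingHom.comp_apply, mk_map]
    exact (Algebra.trace_eq_of_algEquiv (τ j) _).symm
  · obtain ⟨a, rfl⟩ := E'.surjective f
    rw [Equiv.trans_apply, Equiv.symm_apply_apply, hE, hnorm]
    refine prod_congr rfl fun j _ => ?_
    rw [det_cir_map, ← norm_eq_det_cir hp.pos, ← Algebra.norm_eq_of_algEquiv (hco j).some.symm]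
    rfl
  · rw [hq, ← prod_factors hn hm g, ← prod_equivFin s fun P => g P.natDegree]
    refine prod_congr rfl fun j _ => ?_
    beta_reduce
    rw [← (hPm j).natDegree_map π, hPπ]

theorem euler {A : Type*} [CommRing A] {ι : Type*} [Fintype ι] [DecidableEq ι] {X : ι → Type*}
    [∀ j, Fintype (X j)] (w : ∀ j, X j → A) (v : ∀ j, X j → ℕ) (c : ι → ℕ) (hc : ∀ j, 0 < c j)
    (B : ι → A) (z : ι → ℕ → A) {s : ℕ}
    (h : ∀ j, ∀ t ≤ s, ∑ x, (if v j x = t then w j x else 0) = B j * z j t) :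
    ∑ f : ∀ j, X j, (if ∑ j, c j * v j (f j) = s then ∏ j, w j (f j) else 0) =
      (∏ j, B j) * PowerSeries.coeff s
        (∏ j, PowerSeries.mk fun t => if c j ∣ t then z j (t / c j) else 0) := by
  have h1 : ∀ f : ∀ j, X j, (if ∑ j, c j * v j (f j) = s then ∏ j, w j (f j) else 0) =
      PowerSeries.coeff s (∏ j, PowerSeries.C (w j (f j)) * PowerSeries.X ^ (c j * v j (f j))) := by
    intro f
    rw [prod_mul_distrib, prod_pow_eq_pow_sum, ← map_prod, PowerSeries.coeff_C_mul,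
      PowerSeries.coeff_X_pow]
    simp only [eq_comm, mul_ite, mul_one, mul_zero]
  rw [sum_congr rfl fun f _ => h1 f, ← map_sum, ← Fintype.piFinset_univ,
    ← prod_univ_sum (fun _ => univ) fun j x => PowerSeries.C (w j x) * PowerSeries.X ^ (c j * v j x),
    PowerSeries.coeff_prod, PowerSeries.coeff_prod, mul_sum]
  refine sum_congr rfl fun l hl => ?_
  rw [← prod_mul_distrib]
  refine prod_congr rfl fun j _ => ?_
  have hj : l j ≤ s := (mem_finsuppAntidiag.1 hl).1 ▸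
    single_le_sum (f := fun j => l j) (fun _ _ => Nat.zero_le _) (mem_univ j)
  rw [map_sum, PowerSeries.coeff_mk]
  simp only [PowerSeries.coeff_C_mul, PowerSeries.coeff_X_pow]
  split_ifs with hd
  · obtain ⟨t, ht⟩ := hd
    rw [ht, Nat.mul_div_cancel_left _ (hc j),
      ← h j t ((Nat.le_mul_of_pos_left _ (hc j)).trans (ht ▸ hj))]
    refine sum_congr rfl fun x _ => ?_
    simp [(hc j).ne', eq_comm]
  · rw [mul_zero]
    exact sum_eq_zero fun x _ => by rw [if_neg fun hh => hd ⟨_, hh⟩, mul_zero]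

theorem sum_update_zero {ι : Type*} [Fintype ι] [DecidableEq ι] {X : ι → Type*}
    [∀ j, Fintype (X j)] (j : ι) (F : (∀ j, X j) → ℂ)
    (h : ∀ f, ∑ x, F (Function.update f j x) = 0) : ∑ f, F f = 0 := by
  let σ : ((∀ j, X j) × X j) → ((∀ j, X j) × X j) := fun y => (Function.update y.1 j y.2, y.1 j)
  have hσ : Function.Involutive σ := fun y => by simp [σ]
  have h1 := Fintype.sum_equiv hσ.toPerm (fun y => F (σ y).1) (fun y => F y.1) fun _ => rfl
  rw [Fintype.sum_prod_type, Fintype.sum_prod_type, sum_eq_zero fun f _ => h f] at h1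
  simp only [sum_const, card_univ, nsmul_eq_mul, ← mul_sum] at h1
  rcases isEmpty_or_nonempty (X j) with hX | hX
  · exact sum_eq_zero fun f _ => hX.elim (f j)
  · exact (mul_eq_zero.1 h1.symm).resolve_left (Nat.cast_ne_zero.2 Fintype.card_ne_zero)

open Classical in
theorem sum_not_all {N : ℕ} {X : Fin N → Type*} [∀ j, Fintype (X j)] (A : ∀ j, X j → Prop)
    (D : (∀ j, X j) → ℂ)
    (h : ∀ j f, ∑ x, (if ¬ A j x then (1 : ℂ) else 0) * D (Function.update f j x) = 0) :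
    ∑ f : ∀ j, X j, (if ¬ ∀ j, A j (f j) then (1 : ℂ) else 0) * D f = 0 := by
  have h1 : ∀ f : ∀ j, X j, (if ¬ ∀ j, A j (f j) then (1 : ℂ) else 0) =
      ∑ j, (if ¬ A j (f j) then (1 : ℂ) else 0) *
        ∏ i ∈ univ.filter (· < j), (1 - if ¬ A i (f i) then (1 : ℂ) else 0) := by
    intro f
    rw [← sub_right_inj (a := 1), ← prod_one_sub_ordered]
    by_cases hf : ∀ j, A j (f j)
    · simp only [hf, implies_true, not_true_eq_false, ↓ reduceIte, sub_zero, prod_const_one]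
    · obtain ⟨j, hj⟩ := not_forall.1 hf
      rw [if_pos hf, sub_self, prod_eq_zero (mem_univ j) (by simp [hj])]
  simp only [h1, sum_mul]
  rw [sum_comm]
  refine sum_eq_zero fun j _ => sum_update_zero j _ fun f => ?_
  rw [sum_congr rfl (g := fun x => (∏ i ∈ univ.filter (· < j),
    (1 - if ¬ A i (f i) then (1 : ℂ) else 0)) * ((if ¬ A j x then (1 : ℂ) else 0) *
      D (Function.update f j x))) fun x _ => ?_, ← mul_sum, h, mul_zero]
  rw [Function.update_self, prod_congr rfl fun i hi => by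
    rw [Function.update_of_ne (mem_filter.1 hi).2.ne]]
  ring

theorem prod_one_add (r : Res π γ) {i : ℕ} (hi : 0 < i) {ι : Type*} (s : Finset ι) (y : ι → R) :
    ∃ z, π z = ∑ j ∈ s, π (y j) ∧ ∏ j ∈ s, (1 + γ ^ i * y j) = 1 + γ ^ i * z := by
  classical
  induction s using Finset.induction_on with
  | empty => exact ⟨0, by simp, by simp⟩
  | insert a s ha ih =>
    obtain ⟨z, h1, h2⟩ := ih
    refine ⟨y a + z + γ ^ i * (y a * z), ?_, by rw [prod_insert ha, h2]; ring⟩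
    rw [sum_insert ha, map_add, map_add, h1, map_mul, map_pow, r.map_self, zero_pow hi.ne', zero_mul,
      add_zero]

theorem norm_one_add {P : R[X]} (hP : P.Monic) (a : R) (y : AdjoinRoot P) :
    ∃ z, Algebra.norm R (1 + AdjoinRoot.of P a * y) = 1 + a * (Algebra.trace R _ y + a * z) := by
  have := hP.free_adjoinRoot
  have := hP.finite_adjoinRoot
  obtain ⟨z, hz⟩ := Algebra.norm_one_add_smul a y
  exact ⟨z, by rw [← AdjoinRoot.algebraMap_eq, ← Algebra.smul_def, hz]; ring⟩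

theorem norm_of [Nontrivial R] {P : R[X]} (hP : P.Monic) (a : R) :
    Algebra.norm R (AdjoinRoot.of P a) = a ^ P.natDegree := by
  have := hP.free_adjoinRoot
  have := hP.finite_adjoinRoot
  rw [← AdjoinRoot.algebraMap_eq, Algebra.norm_algebraMap, (AdjoinRoot.powerBasis' hP).finrank,
    AdjoinRoot.powerBasis'_dim]

end Pool.Agent.MP_975ab8_al.H19

end

-- part MP_975ab8_al.H19.Roots
section

namespace Pool.Agent.MP_975ab8_al.H19

open Finset Polynomial

universe u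

section Poly

variable {A : Type*} [CommRing A]

theorem prod_scaleRoots [Nontrivial A] {ι : Type*} (s : Finset ι) (r : ι → A) (c : A) :
    (∏ j ∈ s, (X - C (r j))).scaleRoots c = ∏ j ∈ s, (X - C (r j * c)) := by
  classical
  induction s using Finset.induction_on with
  | empty => simp
  | insert a s ha ih =>
    rw [prod_insert ha, prod_insert ha, mul_scaleRoots', ih, X_sub_C_scaleRoots]
    rw [(monic_X_sub_C _).leadingCoeff,
      (monic_prod_of_monic _ _ fun j _ => monic_X_sub_C (r j)).leadingCoeff, mul_one]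
    exact one_ne_zero

theorem X_pow_sub_eq [Nontrivial A] {n : ℕ} (hn : 0 < n) {ω : A} (h1 : ω ^ n = 1)
    (hu : ∀ k, 0 < k → k < n → IsUnit (ω ^ k - 1)) (c : A) :
    (X ^ n - C (c ^ n) : A[X]) = ∏ j ∈ range n, (X - C (ω ^ j * c)) := by
  have hω : IsUnit ω := IsUnit.of_pow_eq_one h1 hn.ne'
  have key : ∀ i j, i < j → j < n → IsUnit (ω ^ j - ω ^ i) := by
    intro i j hij hj
    obtain ⟨d, rfl⟩ := Nat.exists_eq_add_of_lt hij
    have := (hω.pow i).mul (hu (d + 1) (by omega) (by omega))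
    convert this using 1
    ring
  have h2 : (X ^ n - C 1 : A[X]) = ∏ j ∈ range n, (X - C (ω ^ j)) := by
    refine eq_prod_of_roots _ _ (monic_X_pow_sub_C 1 hn.ne') (by
      rw [natDegree_X_pow_sub_C, card_range]) (fun j _ => ?_) (fun i hi j hj hij => ?_)
    · rw [eval_sub, eval_pow, eval_X, eval_C, ← pow_mul, mul_comm, pow_mul, h1, one_pow, sub_self]
    · rcases lt_or_gt_of_ne hij with hlt | hlt
      · rw [← IsUnit.neg_iff, neg_sub]
        exact key i j hlt (mem_range.1 hj)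
      · exact key j i hlt (mem_range.1 hi)
  rw [← prod_scaleRoots, ← h2]
  ext k
  rw [coeff_scaleRoots, natDegree_X_pow_sub_C, coeff_sub, coeff_sub, coeff_X_pow, coeff_C, coeff_C]
  by_cases hk : k = n
  · simp [hk, hn.ne']
  · by_cases hk0 : k = 0
    · simp [hk0, hn.ne]
    · simp [hk, hk0]

theorem dvd_derivative_prod {ι : Type*} (s : Finset ι) (P D : ι → A[X]) (M : A[X])
    (h : ∀ j ∈ s, M ∣ derivative (P j) - D j * P j) :
    M ∣ derivative (∏ j ∈ s, P j) - (∑ j ∈ s, D j) * ∏ j ∈ s, P j := by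
  classical
  induction s using Finset.induction_on with
  | empty => simp only [prod_empty, derivative_one, sum_empty, mul_one, sub_self, dvd_zero]
  | insert a s ha ih =>
    rw [prod_insert ha, sum_insert ha, derivative_mul]
    obtain ⟨x, hx⟩ := h a (mem_insert_self _ _)
    obtain ⟨y, hy⟩ := ih fun j hj => h j (mem_insert_of_mem hj)
    exact ⟨x * ∏ j ∈ s, P j + P a * y, by linear_combination (∏ j ∈ s, P j) * hx + P a * hy⟩

theorem coeff_prod_comp_top {n : ℕ} {ω : A} (h1 : ω ^ (n + 1) = 1)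
    (hu : ∀ k, 0 < k → k < n + 1 → IsUnit (ω ^ k - 1)) {P D : A[X]}
    (h : X ^ (n + 1) ∣ derivative P - D * P) :
    (∏ j ∈ range (n + 1), P.comp (C (ω ^ j) * X)).coeff (n + 1) * (n + 1) =
      P.coeff 0 ^ (n + 1) * D.coeff n * (n + 1) := by
  have h2 := dvd_derivative_prod (range (n + 1)) (fun j => P.comp (C (ω ^ j) * X))
    (fun j => C (ω ^ j) * D.comp (C (ω ^ j) * X)) (X ^ (n + 1)) (fun j _ => by
      obtain ⟨y, hy⟩ := h
      have h3 := congrArg (fun f : A[X] => f.comp (C (ω ^ j) * X)) hy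
      simp only [sub_comp, mul_comp, X_pow_comp] at h3
      refine ⟨C (ω ^ j) * C (ω ^ j) ^ (n + 1) * y.comp (C (ω ^ j) * X), ?_⟩
      rw [derivative_comp, derivative_C_mul_X]
      rw [mul_pow] at h3
      linear_combination C (ω ^ j) * h3)
  have h3 := X_pow_dvd_iff.1 h2 n (Nat.lt_succ_self n)
  have h4 : ∀ a, (∑ j ∈ range (n + 1), C (ω ^ j) * D.comp (C (ω ^ j) * X)).coeff a =
      D.coeff a * ∑ j ∈ range (n + 1), (ω ^ (a + 1)) ^ j := by
    intro a
    rw [finsetSum_coeff, mul_sum]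
    refine sum_congr rfl fun j _ => ?_
    rw [coeff_C_mul, comp_C_mul_X_coeff]
    ring
  rw [coeff_sub, coeff_derivative, sub_eq_zero, coeff_mul, sum_eq_single (n, 0)] at h3
  · rw [h3, h4, h1, coeff_zero_prod]
    simp only [one_pow, sum_const, card_range, nsmul_eq_mul, mul_one, comp_C_mul_X_coeff, pow_zero,
      prod_const]
    push_cast
    ring
  · intro ab hab hne
    have h5 := mem_antidiagonal.1 hab
    have h6 : ab.1 < n := by
      by_contra hc
      exact hne (Prod.ext (by dsimp only; omega) (by dsimp only; omega))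
    have h7 := mul_geom_sum (ω ^ (ab.1 + 1)) (n + 1)
    rw [← pow_mul, mul_comm (ab.1 + 1), pow_mul, h1, one_pow, sub_self,
      (hu _ (by omega) (by omega)).mul_right_eq_zero] at h7
    rw [h4, h7, mul_zero, zero_mul]
  · intro hh
    exact absurd (by simp) hh

theorem coeff_prod_comp_mid {n : ℕ} {ω : A} (h1 : ω ^ (n + 1) = 1) {k : ℕ}
    (hu : IsUnit (ω ^ k - 1)) (P : A[X]) :
    (∏ j ∈ range (n + 1), P.comp (C (ω ^ j) * X)).coeff k = 0 := by
  have h2 : (∏ j ∈ range (n + 1), P.comp (C (ω ^ j) * X)).comp (C ω * X) =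
      ∏ j ∈ range (n + 1), P.comp (C (ω ^ j) * X) := by
    rw [Polynomial.prod_comp, prod_congr rfl (g := fun j => P.comp (C (ω ^ (j + 1)) * X))
      (fun j _ => by
        rw [comp_assoc, mul_comp, C_comp, X_comp, ← mul_assoc, ← C_mul, ← pow_succ]),
      prod_range_succ, prod_range_succ', h1, pow_zero]
  have h3 := congrArg (fun f : A[X] => f.coeff k) h2
  simp only [comp_C_mul_X_coeff] at h3
  rw [← hu.mul_left_eq_zero]
  linear_combination h3

theorem prod_eval_eq {n : ℕ} {ω : A} (h1 : ω ^ (n + 1) = 1)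
    (hu : ∀ k, 0 < k → k < n + 1 → IsUnit (ω ^ k - 1)) (P : A[X]) (x : A) :
    ∃ z, ∏ j ∈ range (n + 1), P.eval (ω ^ j * x) = P.coeff 0 ^ (n + 1) +
      (∏ j ∈ range (n + 1), P.comp (C (ω ^ j) * X)).coeff (n + 1) * x ^ (n + 1) +
        x ^ (n + 2) * z := by
  set G := ∏ j ∈ range (n + 1), P.comp (C (ω ^ j) * X) with hG
  have h2 : X ^ (n + 2) ∣ G - C (P.coeff 0 ^ (n + 1)) - C (G.coeff (n + 1)) * X ^ (n + 1) := by
    rw [X_pow_dvd_iff]
    intro k hk
    rw [coeff_sub, coeff_sub, coeff_C_mul_X_pow, coeff_C]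
    by_cases hk0 : k = 0
    · rw [hk0, if_pos rfl, if_neg (by omega), hG, coeff_zero_prod]
      simp only [comp_C_mul_X_coeff, pow_zero, mul_one, prod_const, card_range]
      ring
    · rw [if_neg hk0]
      by_cases hk1 : k = n + 1
      · rw [if_pos hk1, hk1]
        ring
      · rw [if_neg hk1, hG, coeff_prod_comp_mid h1 (hu k (by omega) (by omega))]
        ring
  obtain ⟨y, hy⟩ := h2
  refine ⟨y.eval x, ?_⟩
  have h3 := congrArg (eval x) hy
  simp only [eval_sub, eval_mul, eval_C, eval_pow, eval_X] at h3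
  have h4 : G.eval x = ∏ j ∈ range (n + 1), P.eval (ω ^ j * x) := by
    rw [hG, eval_prod]
    simp [eval_comp]
  rw [← h4]
  linear_combination h3

end Poly

section ExtSec

variable {S T : Type*} [CommRing S] [CommRing T] {φ : S →+* T} {γ α : S} {e p Q : ℕ} {ϖ ζ ω : T}

theorem Ext.nontrivial (x : Ext φ γ α e p ϖ ζ ω) : Nontrivial T := x.chain.choose_spec.nontrivial

theorem Ext.val (x : Ext φ γ α e p ϖ ζ ω) (h : Chain γ e Q) (a : S) :
    Chain.val ϖ ((p - 1) * e) (φ a) = (p - 1) * Chain.val γ e a := by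
  obtain ⟨u, hu, ha⟩ := val_spec h a
  conv_lhs => rw [ha, map_mul, map_pow, ← x.pow, ← pow_mul,
    x.chain.choose_spec.val_eq _ (hu.map φ)]
  exact min_eq_left (Nat.mul_le_mul_left _ (Chain.val_le _ _ _))

theorem Ext.dvd (x : Ext φ γ α e p ϖ ζ ω) (h : Chain γ e Q) (hp : p.Prime) {n : ℕ} {a : S}
    (ha : ϖ ^ ((p - 1) * n + 1) ∣ φ a) : γ ^ (n + 1) ∣ a := by
  obtain ⟨t, u, -, hu, rfl⟩ := h.exists_eq a
  have hp1 : 0 < p - 1 := by have := hp.two_le; omega
  rw [map_mul, map_pow, ← x.pow, ← pow_mul, x.chain.choose_spec.pow_dvd_iff (hu.map φ)] at ha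
  rw [h.pow_dvd_iff hu]
  rcases ha with ha | ha
  · exact Or.inl (Nat.lt_of_mul_lt_mul_left (a := p - 1) ha)
  · exact Or.inr (Nat.le_of_mul_le_mul_left ha hp1)

theorem Ext.isUnit_zeta (x : Ext φ γ α e p ϖ ζ ω) (hp : p.Prime) (hα : IsUnit α) : IsUnit ζ := by
  have hp1 : p - 1 ≠ 0 := by have := hp.two_le; omega
  rw [← isUnit_pow_iff hp1, x.zeta]
  exact hα.map φ

theorem Ext.isUnit_om (x : Ext φ γ α e p ϖ ζ ω) (hp : p.Prime) : IsUnit ω :=
  IsUnit.of_pow_eq_one x.om (by have := hp.two_le; omega)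

theorem Ext.norm (x : Ext φ γ α e p ϖ ζ ω) (hp : p.Prime) {E : ℕ} (hA : (p : S) = -(γ ^ E * α))
    (f : S[X]) : φ (Algebra.norm S (AdjoinRoot.mk (LT S p) f)) =
      φ (f.coeff 0) * ∏ j ∈ range (p - 1), f.eval₂ φ (ω ^ j * (ϖ ^ E * ζ)) := by
  have := x.nontrivial
  have hp1 : 0 < p - 1 := by have := hp.two_le; omega
  have h1 := X_pow_sub_eq hp1 x.om x.omu (ϖ ^ E * ζ)
  have h2 : (LT S p).map φ = ∏ j ∈ insertNone (range (p - 1)),
      (X - C (Option.elim j 0 fun j => ω ^ j * (ϖ ^ E * ζ))) := by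
    rw [prod_insertNone]
    simp only [Option.elim_none, Option.elim_some]
    rw [← h1, mul_pow, ← pow_mul, mul_comm E, pow_mul, x.pow, x.zeta, LT, hA]
    obtain ⟨n, rfl⟩ : ∃ n, p = n + 1 := ⟨p - 1, by omega⟩
    simp only [Polynomial.map_add, Polynomial.map_pow, map_X, Polynomial.map_mul, map_C, map_neg,
      map_mul, map_pow, map_zero, Nat.add_sub_cancel, Polynomial.map_neg]
    ring
  rw [norm_eq_prod (monic_LT S hp) φ _ _ h2, prod_insertNone]
  simp

end ExtSec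

end Pool.Agent.MP_975ab8_al.H19

end

-- part MP_975ab8_al.H19.Val1
section

namespace Pool.Agent.MP_975ab8_al.H19

open Finset Polynomial UniqueFactorizationMonoid

universe u

theorem natDegree_kummer {K : Type*} [Field K] [Finite K] {g : ℕ} (hg : g ∣ Nat.card K - 1)
    {a : K} (ha : a ≠ 0) (hξ : 0 < g) {P : K[X]} (hP : Irreducible P) (hd : P ∣ X ^ g - C a) :
    P.natDegree = orderOf (a ^ ((Nat.card K - 1) / g)) := by
  have := Fintype.ofFinite K
  have : Fact (Irreducible P) := ⟨hP⟩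
  set ξ := a ^ ((Nat.card K - 1) / g)
  have hz : AdjoinRoot.root P ^ g = AdjoinRoot.of P a := by
    have h3 := AdjoinRoot.mk_eq_zero.2 hd
    rwa [map_sub, map_pow, AdjoinRoot.mk_X, AdjoinRoot.mk_C, sub_eq_zero] at h3
  have hz0 : AdjoinRoot.root P ≠ 0 := fun h0 => by
    rw [h0, zero_pow hξ.ne'] at hz
    exact ha ((AdjoinRoot.of P).injective (by rw [← hz, map_zero]))
  have h1 : AdjoinRoot.root P ^ Nat.card K = AdjoinRoot.of P ξ * AdjoinRoot.root P := by
    rw [map_pow, ← hz, ← pow_mul, Nat.mul_div_cancel' hg, ← pow_succ,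
      Nat.sub_add_cancel Nat.card_pos]
  have h2 : ∀ j : ℕ, AdjoinRoot.root P ^ Nat.card K ^ j =
      AdjoinRoot.of P (ξ ^ j) * AdjoinRoot.root P := by
    intro j
    induction j with
    | zero => simp
    | succ j ih =>
      rw [pow_succ, pow_mul, ih, mul_pow, h1, ← map_pow, Nat.card_eq_fintype_card,
        FiniteField.pow_card, pow_succ, map_mul, mul_assoc]
  have h3 : ∀ j : ℕ, P.natDegree ∣ j ↔ orderOf ξ ∣ j := by
    intro j
    rw [hP.natDegree_dvd_iff_dvd_X_pow_card_pow_sub_X, ← AdjoinRoot.mk_eq_zero, map_sub, map_pow,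
      AdjoinRoot.mk_X, h2, sub_eq_zero, mul_eq_right₀ hz0, orderOf_dvd_iff_pow_eq_one,
      map_eq_one_iff _ (AdjoinRoot.of P).injective]
  exact Nat.dvd_antisymm ((h3 _).2 dvd_rfl) ((h3 _).1 dvd_rfl)

theorem exists_kummer {K : Type*} [Field K] [Finite K] {g : ℕ} (hg : g ∣ Nat.card K - 1)
    {a : K} (ha : a ≠ 0) (hg0 : (g : K) ≠ 0) {o : ℕ}
    (ho : o = orderOf (a ^ ((Nat.card K - 1) / g))) :
    0 < o ∧ o * (g / o) = g ∧ ∃ H : Fin (g / o) → K[X], (∀ j, (H j).Monic) ∧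
      (∀ j, Irreducible (H j)) ∧ (∀ j, (H j).natDegree = o) ∧
      (∀ i j, i ≠ j → IsCoprime (H i) (H j)) ∧ ∏ j, H j = X ^ g - C a := by
  classical
  have hξ : 0 < g := Nat.pos_of_ne_zero fun h => hg0 (by rw [h, Nat.cast_zero])
  have hm : (X ^ g - C a : K[X]).Monic := monic_X_pow_sub_C a hξ.ne'
  have hnd : (normalizedFactors (X ^ g - C a : K[X])).Nodup :=
    (squarefree_iff_nodup_normalizedFactors hm.ne_zero).1
      (separable_X_pow_sub_C a hg0 ha).squarefree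
  let s := (normalizedFactors (X ^ g - C a : K[X])).toFinset
  have hs : ∀ P ∈ s, Irreducible P ∧ P.Monic ∧ P ∣ X ^ g - C a := fun P hP =>
    (Polynomial.mem_normalizedFactors_iff hm.ne_zero).1 (Multiset.mem_toFinset.1 hP)
  have hdeg : ∀ P ∈ s, P.natDegree = o := fun P hP =>
    ho ▸ natDegree_kummer hg ha hξ (hs P hP).1 (hs P hP).2.2
  have hprod : ∏ P ∈ s, P = X ^ g - C a := by
    refine eq_of_monic_of_associated (monic_prod_of_monic _ _ fun P hP => (hs P hP).2.1) hm ?_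
    rw [Finset.prod, Multiset.toFinset_val, hnd.dedup, Multiset.map_id']
    exact prod_normalizedFactors hm.ne_zero
  have hcard : s.card * o = g := by
    have := congrArg natDegree hprod
    rwa [natDegree_prod_of_monic _ _ fun P hP => (hs P hP).2.1, sum_congr rfl hdeg, sum_const,
      smul_eq_mul, natDegree_X_pow_sub_C] at this
  have ho0 : 0 < o := Nat.pos_of_ne_zero fun h => by rw [h] at hcard; omega
  have hc : s.card = g / o := by rw [← hcard, Nat.mul_div_cancel _ ho0]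
  let ε := (Finset.equivFinOfCardEq hc).symm
  refine ⟨ho0, by rw [← hc, mul_comm, hcard], fun j => ε j, fun j => (hs _ (ε j).2).2.1,
    fun j => (hs _ (ε j).2).1, fun j => hdeg _ (ε j).2, fun i j hij => ?_, ?_⟩
  · refine (hs _ (ε i).2).1.coprime_iff_not_dvd.2 fun hd => hij (ε.injective (Subtype.ext ?_))
    exact eq_of_monic_of_associated (hs _ (ε i).2).2.1 (hs _ (ε j).2).2.1
      ((hs _ (ε i).2).1.associated_of_dvd (hs _ (ε j).2).1 hd)
  · rw [← hprod, ← prod_coe_sort s]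
    exact Fintype.prod_equiv ε _ _ fun _ => rfl

theorem card_degreeLT (K : Type*) [CommRing K] (N : ℕ) :
    Nat.card (degreeLT K N) = Nat.card K ^ N := by
  rw [Nat.card_congr (degreeLTEquiv K N).toEquiv, Nat.card_pi]
  simp only [prod_const, card_univ, Fintype.card_fin]

theorem mul_mem_degreeLT {K : Type*} [CommRing K] {P : K[X]} (hP : P.Monic) (N : ℕ) (σ : K[X]) :
    P * σ ∈ degreeLT K N ↔ σ ∈ degreeLT K (N - P.natDegree) := by
  by_cases h0 : σ = 0
  · simp [h0]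
  have h1 : P * σ ≠ 0 := fun h => h0 (hP.mul_right_eq_zero_iff.1 h)
  rw [mem_degreeLT, mem_degreeLT, ← natDegree_lt_iff_degree_lt h0, ← natDegree_lt_iff_degree_lt h1,
    hP.natDegree_mul' h0]
  omega

theorem card_multiples {K : Type*} [Field K] {P : K[X]} (hP : P.Monic) (N : ℕ) :
    Nat.card {ρ : K[X] // ρ ∈ degreeLT K N ∧ P ∣ ρ} = Nat.card K ^ (N - P.natDegree) := by
  rw [← card_degreeLT]
  symm
  refine Nat.card_congr (Equiv.ofBijective
    (fun σ => ⟨P * σ.1, (mul_mem_degreeLT hP N _).2 σ.2, dvd_mul_right _ _⟩) ⟨?_, ?_⟩)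
  · intro σ τ h
    exact Subtype.ext (mul_left_cancel₀ hP.ne_zero (congrArg Subtype.val h))
  · rintro ⟨_, h, σ, rfl⟩
    exact ⟨⟨σ, (mul_mem_degreeLT hP N _).1 h⟩, rfl⟩

theorem mk_bijective {S : Type*} [CommRing S] [Nontrivial S] {g : S[X]} (hg : g.Monic) {n : ℕ}
    (hn : g.natDegree = n) :
    Function.Bijective (fun f : degreeLT S n => AdjoinRoot.mk g f.1) := by
  have hd : g.degree = n := by rw [degree_eq_natDegree hg.ne_zero, hn]
  constructor
  · intro f f' h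
    by_contra hne
    have h1 : f.1 - f'.1 ≠ 0 := fun hh => hne (Subtype.ext (sub_eq_zero.1 hh))
    exact hg.not_dvd_of_degree_lt h1 (hd ▸ mem_degreeLT.1 (sub_mem f.2 f'.2))
      (AdjoinRoot.mk_eq_mk.1 h)
  · intro y
    obtain ⟨f, rfl⟩ := AdjoinRoot.mk_surjective y
    exact ⟨⟨f %ₘ g, mem_degreeLT.2 (hd ▸ degree_modByMonic_lt f hg)⟩,
      AdjoinRoot.mk_leftInverse hg (AdjoinRoot.mk g f)⟩

theorem incl_excl {X ι : Type*} [Finite X] [Fintype ι] [DecidableEq ι] (v : X → ι → ℕ)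
    (w : ι → ℕ) :
    (Nat.card {f : X // v f = w} : ℚ) = ∑ I : Finset ι, (-1) ^ I.card *
      (Nat.card {f : X // ∀ j, w j + (if j ∈ I then 1 else 0) ≤ v f j} : ℚ) := by
  classical
  have := Fintype.ofFinite X
  have h1 : ∀ f : X, (if v f = w then (1 : ℚ) else 0) = ∑ I : Finset ι, (-1) ^ I.card *
      (if ∀ j, w j + (if j ∈ I then 1 else 0) ≤ v f j then (1 : ℚ) else 0) := by
    intro f
    have h2 : (if v f = w then (1 : ℚ) else 0) =
        ∏ j, ((if w j ≤ v f j then (1 : ℚ) else 0) - (if w j + 1 ≤ v f j then (1 : ℚ) else 0)) := by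
      simp only [funext_iff]
      rw [← Fintype.prod_boole]
      refine prod_congr rfl fun j _ => ?_
      split_ifs <;> first | omega | norm_num
    rw [h2, prod_sub, powerset_univ]
    refine sum_congr rfl fun I _ => ?_
    rw [mul_assoc]
    congr 1
    rw [prod_boole, prod_boole, ite_zero_mul_ite_zero, mul_one]
    refine ite_congr (propext ?_) (fun _ => rfl) (fun _ => rfl)
    constructor
    · rintro ⟨h3, h4⟩ j
      by_cases hj : j ∈ I
      · rw [if_pos hj]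
        exact h4 j hj
      · rw [if_neg hj, add_zero]
        exact h3 j (mem_sdiff.2 ⟨mem_univ j, hj⟩)
    · intro h3
      refine ⟨fun j hj => ?_, fun j hj => ?_⟩
      · have := h3 j
        rwa [if_neg (mem_sdiff.1 hj).2, add_zero] at this
      · have := h3 j
        rwa [if_pos hj] at this
  simp only [Nat.card_eq_fintype_card, Fintype.card_subtype, card_filter]
  push_cast
  rw [sum_congr rfl fun f _ => h1 f, sum_comm]
  refine sum_congr rfl fun I _ => ?_
  rw [mul_sum]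

theorem dvd_mul_iff_div {n E : ℕ} (hn : 0 < n) (x : ℕ) : n ∣ x * E ↔ n / Nat.gcd E n ∣ x := by
  have hg : 0 < Nat.gcd E n := Nat.gcd_pos_of_pos_right _ hn
  have h1 := Nat.coprime_div_gcd_div_gcd (m := E) (n := n) hg
  rw [← h1.symm.dvd_mul_right, ← Nat.mul_dvd_mul_iff_right (b := x * (E / Nat.gcd E n)) hg,
    mul_assoc, Nat.div_mul_cancel (Nat.gcd_dvd_left _ _),
    Nat.div_mul_cancel (Nat.gcd_dvd_right _ _)]

theorem level_struct {p : ℕ} (hp : p.Prime) (E t : ℕ) :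
    ∃ l0, (∀ l, (l < p ∧ l * E ≤ t ∧ (p - 1) ∣ t - l * E) ↔
      ∃ j < levelDim p E t, l = l0 + (p - 1) / Nat.gcd E (p - 1) * j) ∧ ((p - 1) ∣ t → l0 = 0) := by
  classical
  have hp1 : 0 < p - 1 := by have := hp.two_le; omega
  set b := (p - 1) / Nat.gcd E (p - 1) with hb
  have hb0 : 0 < b := Nat.div_pos (Nat.gcd_le_right _ hp1) (Nat.gcd_pos_of_pos_right _ hp1)
  by_cases hex : ∃ l, l < p ∧ l * E ≤ t ∧ (p - 1) ∣ t - l * E
  swap
  · have h0 : levelDim p E t = 0 := by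
      rw [levelDim, card_eq_zero, filter_eq_empty_iff]
      exact fun l hl hh => hex ⟨l, mem_range.1 hl, hh⟩
    refine ⟨0, fun l => ⟨fun hl => absurd ⟨l, hl⟩ hex, ?_⟩, fun _ => rfl⟩
    rintro ⟨j, hj, -⟩
    omega
  obtain ⟨l0, hl0, hmin⟩ : ∃ l0, (l0 < p ∧ l0 * E ≤ t ∧ (p - 1) ∣ t - l0 * E) ∧
      ∀ l, (l < p ∧ l * E ≤ t ∧ (p - 1) ∣ t - l * E) → l0 ≤ l :=
    ⟨Nat.find hex, Nat.find_spec hex, fun l hl => Nat.find_min' hex hl⟩
  have hex2 : ∃ j, ¬ (l0 + b * j < p ∧ (l0 + b * j) * E ≤ t) :=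
    ⟨p, fun hh => by have := Nat.le_mul_of_pos_left p hb0; omega⟩
  have key : ∀ l, (l < p ∧ l * E ≤ t ∧ (p - 1) ∣ t - l * E) ↔
      ∃ j < Nat.find hex2, l = l0 + b * j := by
    intro l
    constructor
    · intro hl
      obtain ⟨d, rfl⟩ := Nat.exists_eq_add_of_le (hmin l hl)
      have h1 : (p - 1) ∣ d * E := by
        have := Nat.dvd_sub hl0.2.2 hl.2.2
        have h2 := hl.2.1
        rw [add_mul] at this h2
        rwa [show t - l0 * E - (t - (l0 * E + d * E)) = d * E by omega] at this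
      obtain ⟨j, rfl⟩ := (dvd_mul_iff_div hp1 d).1 h1
      refine ⟨j, ?_, rfl⟩
      rw [Nat.lt_find_iff]
      intro j' hj'
      have h2 : l0 + b * j' ≤ l0 + b * j := Nat.add_le_add_left (Nat.mul_le_mul_left _ hj') _
      exact not_not.2 ⟨h2.trans_lt hl.1, (Nat.mul_le_mul_right _ h2).trans hl.2.1⟩
    · rintro ⟨j, hj, rfl⟩
      have h1 := not_not.1 (Nat.find_min hex2 hj)
      refine ⟨h1.1, h1.2, ?_⟩
      rw [add_mul, ← Nat.sub_sub]
      exact Nat.dvd_sub hl0.2.2 ((dvd_mul_iff_div hp1 _).2 (dvd_mul_right _ _))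
  have hN : levelDim p E t = Nat.find hex2 := by
    have : (range p).filter (fun l => l * E ≤ t ∧ (p - 1) ∣ t - l * E) =
        (range (Nat.find hex2)).image fun j => l0 + b * j := by
      ext l
      rw [mem_filter, mem_range, key, mem_image]
      simp only [mem_range, eq_comm]
    rw [levelDim, this, card_image_of_injective _ fun i j hij =>
      Nat.eq_of_mul_eq_mul_left hb0 (Nat.add_left_cancel hij), card_range]
  refine ⟨l0, hN ▸ key, fun ht => ?_⟩
  exact Nat.le_zero.1 (hmin 0 ⟨hp.pos, by simp, by simpa only [zero_mul, tsub_zero] using ht⟩)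

end Pool.Agent.MP_975ab8_al.H19

end

-- part MP_975ab8_al.H19.Val2
section

namespace Pool.Agent.MP_975ab8_al.H19

open Finset Polynomial

universe u

variable {S T K : Type*} [CommRing S] [CommRing T] [Field K] {φ : S →+* T} {π : S →+* K}
  {γ α : S} {e p Q E : ℕ} {ϖ ζ ω : T}

theorem map_mem_degreeLT (π : S →+* K) {N : ℕ} {c : S[X]} (hc : c ∈ degreeLT S N) :
    c.map π ∈ degreeLT K N :=
  mem_degreeLT.2 (degree_map_le.trans_lt (mem_degreeLT.1 hc))

theorem card_step (hs : Function.Surjective π) {M : Type*} [AddCommGroup M]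
    {A B D : AddSubgroup M} (Θ : S[X] →+ M) {N : ℕ} (hBA : B ≤ A) (T1 : ∀ c, Θ c ∈ A)
    (T2 : ∀ f ∈ A, ∃ c ∈ degreeLT S N, f - Θ c ∈ B)
    (T3 : ∀ c ∈ degreeLT S N, Θ c ∈ B ↔ c.map π = 0) {P : S[X]} (hP : P.Monic)
    (D1 : ∀ c ∈ degreeLT S N, ∀ f ∈ B, Θ c + f ∈ D → P.map π ∣ c.map π)
    (D2 : ∀ σ, P * σ ∈ degreeLT S N → Θ (P * σ) ∈ D) :
    Nat.card (A ⊓ D :) = Nat.card (B ⊓ D :) * Nat.card K ^ (N - P.natDegree) := by
  have uniq : ∀ f, ∀ c ∈ degreeLT S N, ∀ c' ∈ degreeLT S N, f - Θ c ∈ B → f - Θ c' ∈ B →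
      c.map π = c'.map π := by
    intro f c hc c' hc' h1 h2
    rw [← sub_eq_zero, ← Polynomial.map_sub, ← T3 _ (sub_mem hc hc'), map_sub]
    have := sub_mem h2 h1
    rwa [sub_sub_sub_cancel_left] at this
  choose c hc hc' using T2
  let L : (A ⊓ D :) →+ K[X] := AddMonoidHom.mk' (fun f => (c f.1 f.2.1).map π) (fun f f' => by
    rw [← Polynomial.map_add]
    refine uniq _ _ (hc _ _) _ (add_mem (hc _ _) (hc _ _)) (hc' _ _) ?_
    have := add_mem (hc' _ f.2.1) (hc' _ f'.2.1)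
    rw [map_add]
    convert this using 1
    simp only [AddSubgroup.coe_add]
    abel)
  have hL : ∀ f, L f = (c f.1 f.2.1).map π := fun f => rfl
  have h1 : Nat.card L.ker = Nat.card (B ⊓ D :) := by
    refine Nat.card_congr ⟨fun f => ⟨f.1.1, ?_, f.1.2.2⟩,
      fun f => ⟨⟨f.1, hBA f.2.1, f.2.2⟩, ?_⟩, fun f => rfl, fun f => rfl⟩
    · have h2 := (T3 _ (hc _ _)).2 ((hL f.1).symm.trans f.2)
      have := add_mem (hc' _ f.1.2.1) h2
      rwa [sub_add_cancel] at this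
    · rw [AddMonoidHom.mem_ker, hL, uniq _ _ (hc _ _) 0 (zero_mem _) (hc' _ _) (by
        rw [map_zero, sub_zero]; exact f.2.1), Polynomial.map_zero]
  have h2 : Nat.card L.range = Nat.card K ^ (N - P.natDegree) := by
    rw [← hP.natDegree_map π, ← card_multiples (hP.map π)]
    refine Nat.card_congr (Equiv.subtypeEquivRight fun ρ => ⟨?_, ?_⟩)
    · rintro ⟨f, rfl⟩
      refine ⟨map_mem_degreeLT π (hc _ _), D1 _ (hc _ _) _ (hc' _ f.2.1) ?_⟩
      rw [add_sub_cancel]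
      exact f.2.2
    · rintro ⟨h3, σ, rfl⟩
      obtain ⟨σ', rfl, hd⟩ := exists_degree_eq_of_mem_lifts
        ((mem_lifts σ).2 (Polynomial.map_surjective π hs σ))
      have h4 : P * σ' ∈ degreeLT S N := by
        rw [mul_mem_degreeLT (hP.map π), hP.natDegree_map, mem_degreeLT, ← hd] at h3
        exact (mul_mem_degreeLT hP N _).2 (mem_degreeLT.2 h3)
      refine ⟨⟨Θ (P * σ'), T1 _, D2 _ h4⟩, ?_⟩
      rw [hL, ← Polynomial.map_mul]
      exact uniq _ _ (hc _ _) _ h4 (hc' _ _) (by rw [sub_self]; exact zero_mem _)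
  rw [← h1, ← h2, ← AddSubgroup.index_ker, AddSubgroup.card_mul_index]

/-- The weight filtration. -/
def FF (φ : S →+* T) (ϖ : T) (E t : ℕ) : AddSubgroup S[X] where
  carrier := {f | ∀ l, ϖ ^ t ∣ φ (f.coeff l) * ϖ ^ (l * E)}
  add_mem' := fun {a b} ha hb l => by
    rw [coeff_add, map_add, add_mul]
    exact dvd_add (ha l) (hb l)
  zero_mem' := fun l => by simp
  neg_mem' := fun {a} ha l => by
    rw [coeff_neg, map_neg, neg_mul]
    exact dvd_neg.2 (ha l)

theorem mem_FF {t : ℕ} {f : S[X]} :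
    f ∈ FF φ ϖ E t ↔ ∀ l, ϖ ^ t ∣ φ (f.coeff l) * ϖ ^ (l * E) := Iff.rfl

theorem FF_eval {t : ℕ} {f : S[X]} (hf : f ∈ FF φ ϖ E t) (y : T) :
    ϖ ^ t ∣ f.eval₂ φ (ϖ ^ E * y) := by
  rw [eval₂_eq_sum_range]
  refine dvd_sum fun l _ => ?_
  rw [mul_pow, ← pow_mul, mul_comm E, ← mul_assoc]
  exact (hf l).mul_right _

theorem FF_succ_le (t : ℕ) : FF φ ϖ E (t + 1) ≤ FF φ ϖ E t :=
  fun _ hf l => (pow_dvd_pow ϖ (Nat.le_succ t)).trans (hf l)

theorem Ext.dvd_iff (x : Ext φ γ α e p ϖ ζ ω) (h : Chain γ e Q) {t : ℕ} (ht : t ≤ (p - 1) * e)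
    (a : S) (m : ℕ) : ϖ ^ t ∣ φ a * ϖ ^ m ↔ t ≤ (p - 1) * Chain.val γ e a + m := by
  obtain ⟨u, hu, ha⟩ := val_spec h a
  have : φ a * ϖ ^ m = ϖ ^ ((p - 1) * Chain.val γ e a + m) * φ u := by
    conv_lhs => rw [ha, map_mul, map_pow, ← x.pow, ← pow_mul]
    ring
  rw [this, x.chain.choose_spec.pow_dvd_iff (hu.map φ)]
  omega

theorem exists_theta (x : Ext φ γ α e p ϖ ζ ω) (h : Chain γ e Q) (r : Res π γ) (hp : p.Prime)
    (E : ℕ) {t : ℕ} (ht : t < (p - 1) * e) :
    ∃ (Θ : S[X] →+ S[X]) (l0 : ℕ),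
      (∀ c, Θ c ∈ (degreeLT S p).toAddSubgroup ⊓ FF φ ϖ E t) ∧
      (∀ f ∈ (degreeLT S p).toAddSubgroup ⊓ FF φ ϖ E t, ∃ c ∈ degreeLT S (levelDim p E t),
        f - Θ c ∈ (degreeLT S p).toAddSubgroup ⊓ FF φ ϖ E (t + 1)) ∧
      (∀ c ∈ degreeLT S (levelDim p E t),
        Θ c ∈ (degreeLT S p).toAddSubgroup ⊓ FF φ ϖ E (t + 1) ↔ c.map π = 0) ∧
      (∀ c ∈ degreeLT S (levelDim p E t), ∀ y, (Θ c).eval₂ φ (ϖ ^ E * y) =
        ϖ ^ t * y ^ l0 * c.eval₂ φ (y ^ ((p - 1) / Nat.gcd E (p - 1)))) ∧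
      (∀ c, (Θ c).coeff 0 = if (p - 1) ∣ t then γ ^ (t / (p - 1)) * c.coeff 0 else 0) := by
  classical
  obtain ⟨l0, hl0, hz⟩ := level_struct hp E t
  have hp1 : 0 < p - 1 := by have := hp.two_le; omega
  set b := (p - 1) / Nat.gcd E (p - 1) with hb
  have hb0 : 0 < b := Nat.div_pos (Nat.gcd_le_right _ hp1) (Nat.gcd_pos_of_pos_right _ hp1)
  set N := levelDim p E t
  let n : ℕ → ℕ := fun j => (t - (l0 + b * j) * E) / (p - 1)
  have hn : ∀ j < N, l0 + b * j < p ∧ (p - 1) * n j + (l0 + b * j) * E = t := by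
    intro j hj
    obtain ⟨h1, h2, h3⟩ := (hl0 _).2 ⟨j, hj, rfl⟩
    refine ⟨h1, ?_⟩
    simp only [n]
    rw [Nat.mul_div_cancel' h3]
    omega
  have hϖ : ∀ j < N, φ (γ ^ n j) * ϖ ^ ((l0 + b * j) * E) = ϖ ^ t := by
    intro j hj
    rw [map_pow, ← x.pow, ← pow_mul, ← pow_add, (hn j hj).2]
  have hne : ∀ j < N, n j < e := fun j hj =>
    Nat.lt_of_mul_lt_mul_left (a := p - 1) (by have := (hn j hj).2; omega)
  let Θ : S[X] →+ S[X] := AddMonoidHom.mk'
    (fun c => ∑ j ∈ range N, monomial (l0 + b * j) (γ ^ n j * c.coeff j)) (fun c c' => by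
      simp only [coeff_add, mul_add, map_add, sum_add_distrib])
  have hΘ : ∀ c, Θ c = ∑ j ∈ range N, monomial (l0 + b * j) (γ ^ n j * c.coeff j) := fun c => rfl
  have hc1 : ∀ c, ∀ j < N, (Θ c).coeff (l0 + b * j) = γ ^ n j * c.coeff j := by
    intro c j hj
    rw [hΘ, finsetSum_coeff, sum_eq_single j, coeff_monomial, if_pos rfl]
    · intro i _ hij
      rw [coeff_monomial, if_neg fun hh =>
        hij (Nat.eq_of_mul_eq_mul_left hb0 (Nat.add_left_cancel hh))]
    · exact fun hh => absurd (mem_range.2 hj) hh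
  have hc2 : ∀ c l, (¬ ∃ j < N, l = l0 + b * j) → (Θ c).coeff l = 0 := by
    intro c l hl
    rw [hΘ, finsetSum_coeff]
    refine sum_eq_zero fun j hj => ?_
    rw [coeff_monomial, if_neg fun hh => hl ⟨j, mem_range.1 hj, hh.symm⟩]
  have hV : ∀ c, Θ c ∈ degreeLT S p := fun c => by
    rw [hΘ]
    refine Submodule.sum_mem _ fun j hj => mem_degreeLT.2 ((degree_monomial_le _ _).trans_lt ?_)
    exact_mod_cast (hn j (mem_range.1 hj)).1
  refine ⟨Θ, l0, fun c => ⟨hV c, fun l => ?_⟩, fun f hf => ?_, fun c hc => ⟨fun hF => ?_,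
    fun h0 => ⟨hV c, fun l => ?_⟩⟩, fun c hc y => ?_, fun c => ?_⟩
  · by_cases hl : ∃ j < N, l = l0 + b * j
    · obtain ⟨j, hj, rfl⟩ := hl
      rw [hc1 c j hj, map_mul, mul_right_comm, hϖ j hj]
      exact dvd_mul_right _ _
    · simp [hc2 c l hl]
  · have h1 : ∀ j, ∃ y, j < N → f.coeff (l0 + b * j) = γ ^ n j * y := by
      intro j
      by_cases hj : j < N
      · have h2 := (x.dvd_iff h ht.le _ _).1 (hf.2 (l0 + b * j))
        obtain ⟨y, hy⟩ := (h.le_val_iff (hne j hj).le).1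
          (Nat.le_of_mul_le_mul_left (by have := (hn j hj).2; omega) hp1 :
            n j ≤ Chain.val γ e (f.coeff (l0 + b * j)))
        exact ⟨y, fun _ => hy⟩
      · exact ⟨0, fun hh => absurd hh hj⟩
    choose y hy using h1
    refine ⟨∑ j ∈ range N, monomial j (y j), Submodule.sum_mem _ fun j hj =>
      mem_degreeLT.2 ((degree_monomial_le _ _).trans_lt (by exact_mod_cast mem_range.1 hj)),
      (degreeLT S p).sub_mem hf.1 (hV _), fun l => ?_⟩
    by_cases hl : ∃ j < N, l = l0 + b * j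
    · obtain ⟨j, hj, rfl⟩ := hl
      rw [coeff_sub, hc1 _ j hj, hy j hj]
      simp only [finsetSum_coeff, coeff_monomial, sum_ite_eq', mem_range, hj, ↓ reduceIte, sub_self, map_zero, zero_mul, dvd_zero]
    · rw [coeff_sub, hc2 _ l hl, sub_zero]
      by_cases hlp : l < p
      · rw [x.dvd_iff h ht]
        have h2 := (x.dvd_iff h ht.le _ _).1 (hf.2 l)
        by_contra hc
        refine hl ((hl0 l).1 ⟨hlp, by omega, Chain.val γ e (f.coeff l), by omega⟩)
      · rw [coeff_eq_zero_of_degree_lt ((mem_degreeLT.1 hf.1).trans_le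
          (by exact_mod_cast not_lt.1 hlp))]
        simp
  · ext j
    rw [coeff_map, coeff_zero, r.ker]
    by_cases hj : j < N
    · have h2 := (x.dvd_iff h ht _ _).1 (hF.2 (l0 + b * j))
      rw [hc1 c j hj] at h2
      obtain ⟨y, hy⟩ := (h.le_val_iff (hne j hj)).1
        (Nat.lt_of_mul_lt_mul_left (a := p - 1) (by have := (hn j hj).2; omega) :
          n j < Chain.val γ e (γ ^ n j * c.coeff j))
      have := dvd_of_pow_mul_eq h (hne j hj) (x := c.coeff j) (y := γ * y) (by rw [hy, pow_succ, mul_assoc])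
      exact (dvd_sub_left (dvd_mul_right γ y)).1 this
    · rw [coeff_eq_zero_of_degree_lt ((mem_degreeLT.1 hc).trans_le
        (by exact_mod_cast not_lt.1 hj))]
      exact dvd_zero _
  · by_cases hl : ∃ j < N, l = l0 + b * j
    · obtain ⟨j, hj, rfl⟩ := hl
      obtain ⟨y, hy⟩ := (r.ker (c.coeff j)).1 (by rw [← coeff_map, h0, coeff_zero])
      rw [hc1 c j hj, map_mul, mul_right_comm, hϖ j hj, hy, map_mul, ← x.pow, pow_succ]
      exact mul_dvd_mul_left _ ((dvd_pow_self _ hp1.ne').mul_right _)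
    · simp [hc2 c l hl]
  · by_cases h0 : c = 0
    · simp [h0]
    rw [hΘ, eval₂_finsetSum, eval₂_eq_sum_range' φ
      ((natDegree_lt_iff_degree_lt h0).2 (mem_degreeLT.1 hc)), mul_sum]
    refine sum_congr rfl fun j hj => ?_
    rw [eval₂_monomial, ← hϖ j (mem_range.1 hj), map_mul]
    ring
  · split_ifs with hd
    · have h0 := hz hd
      obtain ⟨j, hj, hj0⟩ := (hl0 0).1 ⟨hp.pos, by simp, by simpa only [zero_mul, tsub_zero] using hd⟩
      have h1 := hc1 c 0 (by omega)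
      simpa only [h0, mul_zero, add_zero, n, zero_add, zero_mul, tsub_zero] using h1
    · exact hc2 c 0 fun hh => hd (by simpa only [zero_mul, tsub_zero] using ((hl0 0).2 hh).2.2)

end Pool.Agent.MP_975ab8_al.H19

end

-- part MP_975ab8_al.H19.Tw1
section

namespace Pool.Agent.MP_975ab8_al.H19

open Finset Polynomial

universe u

theorem exists_adj {S A : Type*} [CommRing S] [CommRing A] [Algebra S A] {n : ℕ}
    (b : Module.Basis (Fin n) S A) (f : A) : ∃ g, f * g = algebraMap S A (Algebra.norm S f) := by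
  refine ⟨b.equivFun.symm ((Algebra.leftMulMatrix b f).adjugate.mulVec (b.repr 1)),
    b.equivFun.injective ?_⟩
  rw [Module.Basis.equivFun_apply, ← Algebra.leftMulMatrix_mulVec_repr, ← Module.Basis.equivFun_apply,
    LinearEquiv.apply_symm_apply, Matrix.mulVec_mulVec, Matrix.mul_adjugate,
    ← Algebra.norm_eq_matrix_det, Algebra.algebraMap_eq_smul_one, map_smul, Matrix.smul_mulVec,
    Matrix.one_mulVec, Module.Basis.equivFun_apply]

/-- The rescaled ring. -/
structure Sc {S T L : Type*} [CommRing S] [CommRing T] [CommRing L] (φ : S →+* T) (α : S)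
    (e p θ i : ℕ) (ϖ : T) (ι : T →+* L) (Φ : AdjoinRoot (LT S p) →+* L) (Y : L) (ev : L →+* T)
    (N : L →* T) : Prop where
  phi : ∀ f, Φ (AdjoinRoot.mk _ f) = f.eval₂ (ι.comp φ) (ι ϖ ^ θ * Y)
  ev_iota : ∀ c, ev (ι c) = c
  ev_Y : ev Y = 0
  norm : ∀ f, φ (Algebra.norm S f) = N (Φ f)
  N_iota : ∀ c, N (ι c) = c ^ p
  cancel : ∀ t y, ι ϖ ^ t * y = 0 → ι ϖ ^ ((p - 1) * e - t) ∣ y
  notdvd : ¬ ι ϖ ∣ Y ^ (p - 1)
  ypow : ι ϖ ∣ Y ^ p
  surj : ∀ y, ∃ P : T[X], y = P.eval₂ ι Y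
  formula : ∀ P D A B : T[X], derivative P - D * P = X ^ (p - 1) * A + C ϖ * B →
    ∃ z, N (P.eval₂ ι Y) = P.coeff 0 ^ p * (1 + ϖ ^ ((p - 1) * i) * φ α * D.coeff (p - 2)) +
      ϖ ^ ((p - 1) * i + 1) * z

variable {S K : Type*} {T : Type u} [CommRing S] [CommRing T] [Field K] {φ : S →+* T}
  {π : S →+* K} {γ α : S} {e p Q θ i : ℕ} {ϖ ζ ω : T}

theorem exists_sc (x : Ext φ γ α e p ϖ ζ ω) (hp : p.Prime) (hγ : γ ∣ (p : S)) (hi : 0 < i)
    (hA : (p : S) = -(γ ^ (θ + i) * α)) :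
    ∃ (L : Type u) (_ : CommRing L) (ι : T →+* L) (Φ : AdjoinRoot (LT S p) →+* L) (Y : L)
      (ev : L →+* T) (N : L →* T), Sc φ α e p θ i ϖ ι Φ Y ev N := by
  classical
  have := x.nontrivial
  have hc := x.chain.choose_spec
  obtain ⟨n, rfl⟩ : ∃ n, p = n + 2 := ⟨p - 2, by have := hp.two_le; omega⟩
  have hpow : ϖ ^ (n + 1) = φ γ := x.pow
  have hzeta : ζ ^ (n + 1) = φ α := x.zeta
  have hom : ω ^ (n + 1) = 1 := x.om
  let G : T[X] := X ^ (n + 2) - C (ϖ ^ ((n + 1) * i) * φ α) * X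
  have hlt := degree_lt_of_one_lt hp.one_lt (ϖ ^ ((n + 1) * i) * φ α)
  have hG : G.Monic := monic_X_pow_sub hlt
  have hGd : G.natDegree = n + 2 := natDegree_eq_of_degree_eq_some (by
    rw [degree_sub_eq_left_of_degree_lt (by rwa [degree_X_pow]), degree_X_pow])
  have hY : AdjoinRoot.root G ^ (n + 2) =
      AdjoinRoot.of G (ϖ ^ ((n + 1) * i) * φ α) * AdjoinRoot.root G := by
    have := AdjoinRoot.mk_self (f := G)
    rwa [map_sub, map_pow, map_mul, AdjoinRoot.mk_X, AdjoinRoot.mk_C, sub_eq_zero] at this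
  let Φ : AdjoinRoot (LT S (n + 2)) →+* AdjoinRoot G :=
    AdjoinRoot.lift ((AdjoinRoot.of G).comp φ) (AdjoinRoot.of G ϖ ^ θ * AdjoinRoot.root G) (by
      rw [LT, eval₂_add, eval₂_X_pow, eval₂_mul, eval₂_C, eval₂_X, hA, mul_pow, hY]
      simp only [RingHom.comp_apply, map_neg, map_mul, map_pow, ← hpow]
      ring)
  let ev : AdjoinRoot G →+* T := AdjoinRoot.lift (RingHom.id T) 0 (by simp [G])
  let evj : ℕ → AdjoinRoot G →+* T := fun j =>
    AdjoinRoot.lift (RingHom.id T) (ω ^ j * (ϖ ^ i * ζ)) (by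
      have h1 : (ω ^ j * (ϖ ^ i * ζ)) ^ (n + 1) = ϖ ^ ((n + 1) * i) * φ α := by
        rw [mul_pow, mul_pow, hzeta, ← pow_mul, mul_comm j, pow_mul, hom, one_pow, one_mul,
          ← pow_mul, mul_comm i]
      simp only [G, eval₂_sub, eval₂_mul, eval₂_X_pow, eval₂_C, eval₂_X, RingHom.id_apply]
      rw [pow_succ, h1, sub_self])
  let N : AdjoinRoot G →* T := ev.toMonoidHom * ∏ j ∈ range (n + 1), (evj j).toMonoidHom
  have hN : ∀ y, N y = ev y * ∏ j ∈ range (n + 1), evj j y := fun y => by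
    simp only [N, RingHom.toMonoidHom_eq_coe, MonoidHom.mul_apply, MonoidHom.coe_coe, MonoidHom.finsetProd_apply]
  have hmk : ∀ P : T[X], P.eval₂ (AdjoinRoot.of G) (AdjoinRoot.root G) = AdjoinRoot.mk G P :=
    fun P => by rw [← AdjoinRoot.aeval_eq, aeval_def, AdjoinRoot.algebraMap_eq]
  refine ⟨AdjoinRoot G, inferInstance, AdjoinRoot.of G, Φ, AdjoinRoot.root G, ev, N,
    fun f => AdjoinRoot.lift_mk _ _, fun c => AdjoinRoot.lift_of _, AdjoinRoot.lift_root _,
    fun f => ?_, fun c => ?_, fun t y hy => ?_, ?_, ?_, fun y => ?_, fun P D A B hP => ?_⟩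
  · obtain ⟨f, rfl⟩ := AdjoinRoot.mk_surjective f
    rw [x.norm hp hA, hN, AdjoinRoot.lift_mk, hom_eval₂]
    congr 1
    · simp [ev, ← RingHom.comp_assoc, AdjoinRoot.lift_comp_of]
    · refine prod_congr rfl fun j _ => ?_
      rw [hom_eval₂]
      simp only [evj, ← RingHom.comp_assoc, AdjoinRoot.lift_comp_of, RingHom.id_comp, map_mul,
        map_pow, AdjoinRoot.lift_of, AdjoinRoot.lift_root, RingHom.id_apply]
      congr 1
      ring
  · rw [hN]
    simp only [ev, evj, AdjoinRoot.lift_of, RingHom.id_apply, prod_const, card_range]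
    ring
  · have h1 : ∀ l, ϖ ^ ((n + 2 - 1) * e - t) ∣ (bs hG hGd).equivFun y l := by
      intro l
      have h2 : ϖ ^ t * (bs hG hGd).equivFun y l = 0 := by
        have := congrFun (congrArg (bs hG hGd).equivFun hy) l
        rwa [← map_pow, ← AdjoinRoot.algebraMap_eq, ← Algebra.smul_def, map_smul, map_zero] at this
      obtain ⟨k, v, hk, hv, hkv⟩ := hc.exists_eq ((bs hG hGd).equivFun y l)
      rw [hkv, ← mul_assoc, ← pow_add, hv.mul_left_eq_zero, hc.pow_eq_zero_iff] at h2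
      rw [hkv]
      exact (pow_dvd_pow ϖ (by omega)).mul_right _
    choose c hc' using h1
    refine ⟨(bs hG hGd).equivFun.symm c, (bs hG hGd).equivFun.injective ?_⟩
    funext l
    rw [← map_pow, ← AdjoinRoot.algebraMap_eq, ← Algebra.smul_def, map_smul,
      LinearEquiv.apply_symm_apply]
    exact hc' l
  · rintro ⟨y, hy⟩
    have h1 := congrArg (fun y => (bs hG hGd).repr y ⟨n + 1, by omega⟩) hy
    have h2 := bs_apply hG hGd ⟨n + 1, by omega⟩
    simp only [← AdjoinRoot.algebraMap_eq, ← Algebra.smul_def, map_smul] at h1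
    rw [show n + 2 - 1 = n + 1 from rfl, ← h2, Module.Basis.repr_self, Finsupp.single_eq_same] at h1
    exact hc.not_isUnit (IsUnit.of_mul_eq_one _ h1.symm)
  · rw [hY, map_mul, map_pow, mul_assoc]
    exact (dvd_pow_self _ (Nat.mul_pos n.succ_pos hi).ne').mul_right _
  · obtain ⟨P, rfl⟩ := AdjoinRoot.mk_surjective y
    exact ⟨P, (hmk P).symm⟩
  · obtain ⟨z, hz⟩ := prod_eval_eq hom x.omu P (ϖ ^ i * ζ)
    obtain ⟨F, _, ρ, r⟩ := exists_res hc
    have h1 := coeff_prod_comp_top (ω := ρ ω) (n := n) (by rw [← map_pow, hom, map_one])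
      (fun k h0 hk => by simpa using (x.omu k h0 hk).map ρ) (P := P.map ρ) (D := D.map ρ)
      ⟨A.map ρ, by
        have := congrArg (Polynomial.map ρ) hP
        simpa only [derivative_map, Polynomial.map_sub, Polynomial.map_mul, Nat.add_one_sub_one, Polynomial.map_add, Polynomial.map_pow, map_X, map_C, r.map_self, map_zero, zero_mul, add_zero] using this⟩
    have h2 : ((n : F) + 1) ≠ 0 := by
      intro h0
      have h3 : ρ (φ ((n + 2 : ℕ) : S)) = 0 := by
        obtain ⟨c, hc⟩ := hγ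
        rw [hc, map_mul, map_mul, ← hpow, map_pow, r.map_self]
        simp
      rw [map_natCast, map_natCast] at h3
      push_cast at h3
      exact one_ne_zero (α := F) (by linear_combination h3 - h0)
    have h3 : ρ ((∏ j ∈ range (n + 1), P.comp (C (ω ^ j) * X)).coeff (n + 1)) =
        ρ (P.coeff 0 ^ (n + 1) * D.coeff n) := by
      rw [← coeff_map, Polynomial.map_prod, map_mul, map_pow, ← coeff_map, ← coeff_map,
        ← mul_right_cancel₀ h2 h1]
      simp only [map_pow, map_comp, Polynomial.map_mul, Polynomial.map_pow, map_C, map_X]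
    obtain ⟨y, hy⟩ := r.eq_iff.1 h3
    obtain ⟨m, rfl⟩ : ∃ m, i = m + 1 := ⟨i - 1, by omega⟩
    refine ⟨P.coeff 0 * (φ α * y + ϖ ^ m * ζ ^ (n + 2) * z), ?_⟩
    rw [hmk, hN]
    simp only [ev, evj, AdjoinRoot.lift_mk, eval₂_id, hz]
    rw [eq_add_of_sub_eq hy, ← coeff_zero_eq_eval_zero, ← hzeta]
    simp only [show n + 2 - 1 = n + 1 from rfl, show n + 2 - 2 = n from rfl]
    ring

variable {L : Type*} [CommRing L] {ι : T →+* L} {Φ : AdjoinRoot (LT S p) →+* L} {Y : L}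
  {ev : L →+* T} {N : L →* T}

theorem Sc.dvd_sub (c : Sc φ α e p θ i ϖ ι Φ Y ev N) {t : ℕ} (ht : t < (p - 1) * e) {y y' : L}
    (h : ι ϖ ^ t * y = ι ϖ ^ t * y') : ι ϖ ∣ y - y' :=
  (dvd_pow_self _ (by omega)).trans (c.cancel t _ (by rw [mul_sub, h, sub_self]))

theorem Sc.not_dvd (c : Sc φ α e p θ i ϖ ι Φ Y ev N) {k : ℕ} (hk : k < p) {U : L} (hU : IsUnit U) :
    ¬ ι ϖ ∣ Y ^ k * U := fun h =>
  c.notdvd ((hU.dvd_mul_right.1 h).trans (pow_dvd_pow Y (by omega)))

theorem Sc.nil (c : Sc φ α e p θ i ϖ ι Φ Y ev N) (x : Ext φ γ α e p ϖ ζ ω) (a b : L) :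
    IsNilpotent (Y * a + ι ϖ * b) := by
  have h1 : IsNilpotent (ι ϖ) := (isNilpotent_of_dvd x.chain.choose_spec dvd_rfl).map ι
  have h2 : IsNilpotent Y := by
    obtain ⟨y, hy⟩ := c.ypow
    exact IsNilpotent.of_pow (m := p) (hy ▸ (Commute.all _ _).isNilpotent_mul_right h1)
  exact (Commute.all _ _).isNilpotent_add ((Commute.all _ _).isNilpotent_mul_right h2)
    ((Commute.all _ _).isNilpotent_mul_right h1)

theorem Sc.unique (c : Sc φ α e p θ i ϖ ι Φ Y ev N) (x : Ext φ γ α e p ϖ ζ ω) {μ ν k : ℕ}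
    (hν : ν < (p - 1) * e) {U U' z : L} (hU' : IsUnit U')
    (h : ι ϖ ^ μ * (Y ^ k * U + ι ϖ * z) = ι ϖ ^ ν * U') :
    μ ≤ ν ∧ (IsUnit U → k < p → μ = ν ∧ k = 0) := by
  have hp : 0 < p := by
    rcases p with _ | p
    · simp at hν
    · omega
  have h1 : μ ≤ ν := by
    by_contra hc
    obtain ⟨d, rfl⟩ := Nat.exists_eq_add_of_lt (not_le.1 hc)
    have h2 := c.dvd_sub hν (y := U') (y' := ι ϖ * (ι ϖ ^ d * (Y ^ k * U + ι ϖ * z)))
      (by rw [← h]; ring)
    exact c.not_dvd hp hU' (by simpa only [pow_zero, one_mul] using (dvd_sub_left (dvd_mul_right _ _)).1 h2)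
  refine ⟨h1, fun hU hk => ?_⟩
  have h2 : μ = ν := by
    by_contra hc
    obtain ⟨d, rfl⟩ := Nat.exists_eq_add_of_lt (lt_of_le_of_ne h1 hc)
    have h2 := c.dvd_sub (t := μ) (by omega) (y := Y ^ k * U)
      (y' := ι ϖ * (ι ϖ ^ d * U' - z)) (by linear_combination h)
    exact c.not_dvd hk hU ((dvd_sub_left (dvd_mul_right _ _)).1 h2)
  refine ⟨h2, ?_⟩
  by_contra hk0
  obtain ⟨k, rfl⟩ := Nat.exists_eq_succ_of_ne_zero hk0
  subst h2
  obtain ⟨y, hy⟩ := c.dvd_sub hν h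
  have h3 := c.nil x (Y ^ k * U) (z - y)
  rw [show Y * (Y ^ k * U) + ι ϖ * (z - y) = U' by rw [pow_succ] at hy; linear_combination hy] at h3
  obtain ⟨n, hn⟩ := h3
  exact c.not_dvd hp (hU'.pow n) (by rw [hn, mul_zero]; exact dvd_zero _)

theorem Sc.lead (c : Sc φ α e p θ i ϖ ι Φ Y ev N) (x : Ext φ γ α e p ϖ ζ ω) (h : Chain γ e Q)
    (hp : 0 < p) {f : S[X]} (hf : f ∈ degreeLT S p) :
    ∃ k < p, (∀ l < p, (p - 1) * Chain.val γ e (f.coeff k) + θ * k ≤
        (p - 1) * Chain.val γ e (f.coeff l) + θ * l) ∧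
      (∀ l < k, (p - 1) * Chain.val γ e (f.coeff k) + θ * k <
        (p - 1) * Chain.val γ e (f.coeff l) + θ * l) ∧
      ∃ v z z', IsUnit v ∧ Φ (AdjoinRoot.mk _ f) =
        ι ϖ ^ ((p - 1) * Chain.val γ e (f.coeff k) + θ * k) *
          (Y ^ k * (ι (φ v) + Y * z') + ι ϖ * z) := by
  classical
  let w : ℕ → ℕ := fun l => (p - 1) * Chain.val γ e (f.coeff l) + θ * l
  have hex : ∃ k, k < p ∧ ∀ l < p, w k ≤ w l := by
    obtain ⟨k, hk, hk'⟩ := (range p).exists_min_image w ⟨0, mem_range.2 hp⟩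
    exact ⟨k, mem_range.1 hk, fun l hl => hk' l (mem_range.2 hl)⟩
  obtain ⟨k, ⟨hk, hk1⟩, hk2⟩ : ∃ k, (k < p ∧ ∀ l < p, w k ≤ w l) ∧ ∀ l < k, w k < w l := by
    refine ⟨Nat.find hex, Nat.find_spec hex, fun l hl => ?_⟩
    have h1 := Nat.find_min hex hl
    have h2 := Nat.find_spec hex
    by_contra hc
    exact h1 ⟨hl.trans h2.1, fun l' hl' => (not_lt.1 hc).trans (h2.2 l' hl')⟩
  choose u hu hu' using fun l => val_spec h (f.coeff l)
  have hterm : ∀ l, (ι.comp φ) (f.coeff l) * (ι ϖ ^ θ * Y) ^ l = ι ϖ ^ w l * (ι (φ (u l)) * Y ^ l) := by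
    intro l
    conv_lhs => rw [hu' l, RingHom.comp_apply, map_mul, map_pow, ← x.pow]
    simp only [w, map_mul, map_pow]
    ring
  have h1 : ∀ l, ∃ a b, l ∈ (range p).erase k →
      (ι.comp φ) (f.coeff l) * (ι ϖ ^ θ * Y) ^ l = ι ϖ ^ w k * (Y ^ (k + 1) * a + ι ϖ * b) := by
    intro l
    by_cases hl : l ∈ (range p).erase k
    · rcases lt_or_gt_of_ne (ne_of_mem_erase hl) with hlt | hlt
      · obtain ⟨d, hd⟩ := Nat.exists_eq_add_of_lt (hk2 l hlt)
        exact ⟨0, ι ϖ ^ d * (ι (φ (u l)) * Y ^ l), fun _ => by rw [hterm, hd]; ring⟩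
      · obtain ⟨d, hd⟩ := Nat.exists_eq_add_of_le (hk1 l (mem_range.1 (mem_of_mem_erase hl)))
        obtain ⟨d', rfl⟩ := Nat.exists_eq_add_of_lt hlt
        exact ⟨ι ϖ ^ d * ι (φ (u (k + d' + 1))) * Y ^ d', 0, fun _ => by rw [hterm, hd]; ring⟩
    · exact ⟨0, 0, fun hh => absurd hh hl⟩
  choose a b hab using h1
  refine ⟨k, hk, hk1, hk2, u k, ∑ l ∈ (range p).erase k, b l, ∑ l ∈ (range p).erase k, a l,
    hu k, ?_⟩
  have h2 : f.natDegree < p := by
    by_cases h0 : f = 0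
    · rw [h0, natDegree_zero]; exact hp
    · exact (natDegree_lt_iff_degree_lt h0).2 (mem_degreeLT.1 hf)
  rw [c.phi, eval₂_eq_sum_range' _ h2, ← add_sum_erase _ _ (mem_range.2 hk), hterm,
    sum_congr rfl hab, ← mul_sum, sum_add_distrib, ← mul_sum, ← mul_sum]
  ring

end Pool.Agent.MP_975ab8_al.H19

end

-- part MP_975ab8_al.H19.Tw2
section

namespace Pool.Agent.MP_975ab8_al.H19

open Finset Polynomial

universe u

theorem card_eq_of_classes {X : Type*} [Finite X] [AddGroup X] (r : Setoid X) (P1 P2 : X → Prop)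
    (h : ∀ f, ∃ h0, ∀ f', r f f' → r f (f' + h0) ∧ (P1 f' ↔ P2 (f' + h0))) :
    Nat.card {f // P1 f} = Nat.card {f // P2 f} := by
  choose h0 hh using h
  let τ : X → X := fun f => f + h0 (Quotient.mk r f).out
  have h1 : ∀ f, Quotient.mk r (τ f) = Quotient.mk r f := fun f =>
    (Quotient.sound (hh _ f (Quotient.mk_out f)).1).symm.trans (Quotient.out_eq _)
  have hinj : Function.Injective τ := by
    intro f f' hf
    have h2 : Quotient.mk r f = Quotient.mk r f' := by rw [← h1, hf, h1]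
    simp only [τ, h2] at hf
    exact add_right_cancel hf
  exact Nat.card_congr (Equiv.subtypeEquiv
    (Equiv.ofBijective τ (Finite.injective_iff_bijective.1 hinj))
    fun f => (hh _ f (Quotient.mk_out f)).2)

theorem val_mul_unit {A : Type*} [CommRing A] {δ : A} {e q : ℕ} (h : Chain δ e q) (y : A) {w : A}
    (hw : IsUnit w) : Chain.val δ e (y * w) = Chain.val δ e y := by
  have h4 := h.val_eq 0 hw
  rw [pow_zero, one_mul, Nat.zero_min] at h4
  rw [h.val_mul, h4, add_zero, min_eq_left (Chain.val_le _ _ _)]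

theorem isUnit_one_add_pow {A : Type*} [CommRing A] {δ : A} {e q : ℕ} (h : Chain δ e q) {i : ℕ}
    (hi : 0 < i) (y : A) : IsUnit (1 + δ ^ i * y) :=
  (isNilpotent_of_dvd h ((dvd_pow_self δ hi.ne').mul_right y)).isUnit_one_add

variable {S K : Type*} {T : Type u} [CommRing S] [CommRing T] [Field K] {φ : S →+* T}
  {π : S →+* K} {γ α : S} {e p Q θ i : ℕ} {ϖ ζ ω : T}
  {L : Type*} [CommRing L] {ι : T →+* L} {Φ : AdjoinRoot (LT S p) →+* L} {Y : L}
  {ev : L →+* T} {N : L →* T}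

theorem Ext.descend (x : Ext φ γ α e p ϖ ζ ω) (h : Chain γ e Q) (hp : p.Prime) {n : ℕ}
    {a v y : S} (hv : IsUnit v) {z : T}
    (hz : φ a = φ (γ ^ n * v * (1 + γ ^ i * y)) + ϖ ^ ((p - 1) * (n + i) + 1) * z) :
    ∃ y', a = γ ^ n * v * (1 + γ ^ i * (y + γ * y')) := by
  obtain ⟨c, hc⟩ := x.dvd h hp (n := n + i) (a := a - γ ^ n * v * (1 + γ ^ i * y))
    ⟨z, by rw [map_sub, hz]; ring⟩
  obtain ⟨v', hv'⟩ := hv.exists_right_inv
  exact ⟨v' * c, by linear_combination hc - γ ^ (n + i + 1) * c * hv'⟩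

theorem Sc.ev_phi (c : Sc φ α e p θ i ϖ ι Φ Y ev N) (F : S[X]) :
    ev (Φ (AdjoinRoot.mk _ F)) = φ (F.coeff 0) := by
  have : ev.comp (ι.comp φ) = φ := RingHom.ext fun a => c.ev_iota _
  rw [c.phi, hom_eval₂, map_mul, c.ev_Y, mul_zero, this, eval₂_at_zero]

theorem Sc.norm_rel (c : Sc φ α e p θ i ϖ ι Φ Y ev N) (x : Ext φ γ α e p ϖ ζ ω) (h : Chain γ e Q)
    (hp : p.Prime) (hA : (p : S) = -(γ ^ (θ + i) * α)) {f f' : AdjoinRoot (LT S p)} {a : S} {z : L}
    (hf : Φ f' = Φ f * (1 + (ι (φ a) * Y ^ (p - 1) + ι ϖ * z)))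
    (hs : Chain.val γ e (Algebra.norm S f) + i < e) :
    ∃ w y, IsUnit w ∧ Algebra.norm S f' =
      Algebra.norm S f * w ^ p * (1 + γ ^ i * (α * (p - 1 : ℕ) * a + γ * y)) := by
  have hc := x.chain.choose_spec
  have hp1 : 0 < p - 1 := by have := hp.two_le; omega
  obtain ⟨Z, rfl⟩ := c.surj z
  let P : T[X] := 1 + (C (φ a) * X ^ (p - 1) + C ϖ * Z)
  have hP : P.eval₂ ι Y = 1 + (ι (φ a) * Y ^ (p - 1) + ι ϖ * Z.eval₂ ι Y) := by
    simp only [P, eval₂_add, eval₂_mul, eval₂_one, eval₂_C, eval₂_X_pow]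
  obtain ⟨z1, hz1⟩ := c.formula P (C ((p - 1 : ℕ) * φ a) * X ^ (p - 2))
    (-(C ((p - 1 : ℕ) * φ a) * X ^ (p - 2) * C (φ a)))
    (derivative Z - C ((p - 1 : ℕ) * φ a) * X ^ (p - 2) * Z) (by
      simp only [P, derivative_add, derivative_one, derivative_C_mul, derivative_X_pow, map_mul,
        Nat.sub_sub]
      ring)
  rw [coeff_C_mul_X_pow, if_pos rfl] at hz1
  have hP0 : P.coeff 0 = 1 + ϖ * Z.coeff 0 := by
    simp only [P, coeff_add, coeff_one_zero, mul_coeff_zero, coeff_C_zero, coeff_X_pow, hp1.ne, ↓ reduceIte, mul_zero, zero_add]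
  have hP0u : IsUnit (P.coeff 0) := hP0 ▸ hc.isUnit_one_add _
  obtain ⟨F, rfl⟩ := AdjoinRoot.mk_surjective f
  obtain ⟨F', rfl⟩ := AdjoinRoot.mk_surjective f'
  have h1 : φ (F'.coeff 0) = φ (F.coeff 0) * P.coeff 0 := by
    have : ev.comp ι = RingHom.id T := RingHom.ext c.ev_iota
    rw [← c.ev_phi, ← c.ev_phi, hf, ← hP, map_mul, hom_eval₂, c.ev_Y, this, eval₂_at_zero]
    rfl
  have h2 : Chain.val γ e (F.coeff 0) ≤ Chain.val γ e (Algebra.norm S (AdjoinRoot.mk (LT S p) F)) := by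
    have h3 := x.val h (Algebra.norm S (AdjoinRoot.mk (LT S p) F))
    rw [x.norm hp hA, hc.val_mul, x.val h] at h3
    have h4 := Nat.mul_lt_mul_of_pos_left ((Nat.le_add_right _ i).trans_lt hs) hp1
    exact Nat.le_of_mul_le_mul_left (by omega) hp1
  obtain ⟨u, hu, hu'⟩ := val_spec h (F.coeff 0)
  obtain ⟨u1, hu1, hu1'⟩ := val_spec h (F'.coeff 0)
  have h3 : Chain.val γ e (F'.coeff 0) = Chain.val γ e (F.coeff 0) := by
    refine Nat.eq_of_mul_eq_mul_left hp1 ?_
    have h4 := hc.val_eq 0 hP0u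
    rw [pow_zero, one_mul, Nat.zero_min] at h4
    rw [← x.val h, h1, hc.val_mul, h4, add_zero, min_eq_left (Chain.val_le _ _ _), x.val h]
  obtain ⟨v, hv⟩ := hu.exists_right_inv
  have hw : IsUnit (u1 * v) := hu1.mul (IsUnit.of_mul_eq_one_right _ hv)
  generalize Chain.val γ e (F.coeff 0) = t at *
  have h4 : ϖ ^ ((p - 1) * i + 1) ∣ P.coeff 0 - φ (u1 * v) := by
    have h5 : ϖ ^ ((p - 1) * t) * (P.coeff 0 - φ (u1 * v)) = 0 := by
      have h6 := congrArg φ hv
      rw [hu', hu1', h3] at h1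
      simp only [map_mul, map_pow, map_one, ← x.pow, ← pow_mul] at h1 h6 ⊢
      linear_combination (-φ v) * h1 - ϖ ^ ((p - 1) * t) * P.coeff 0 * h6
    obtain ⟨k, v', -, hv', hk⟩ := hc.exists_eq (P.coeff 0 - φ (u1 * v))
    rw [hk, ← mul_assoc, ← pow_add, hv'.mul_left_eq_zero, hc.pow_eq_zero_iff] at h5
    have h6 := Nat.mul_lt_mul_of_pos_left ((Nat.add_le_add_right h2 i).trans_lt hs) hp1
    rw [hk]
    exact (pow_dvd_pow ϖ (by rw [mul_add] at h6; omega)).mul_right _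
  obtain ⟨y, hy⟩ := h4.trans (sub_dvd_pow_sub_pow _ _ p)
  obtain ⟨d, hd, hd'⟩ := val_spec h (Algebra.norm S (AdjoinRoot.mk (LT S p) F))
  generalize Chain.val γ e (Algebra.norm S (AdjoinRoot.mk (LT S p) F)) = s at *
  obtain ⟨y', hy'⟩ := x.descend h hp (i := i) (n := s)
    (a := Algebra.norm S (AdjoinRoot.mk (LT S p) F')) (hd.mul (hw.pow p))
    (y := α * (p - 1 : ℕ) * a)
    (z := φ d * (z1 + y * (1 + ϖ ^ ((p - 1) * i) * φ α * ((p - 1 : ℕ) * φ a)))) (by
      rw [c.norm, hf, map_mul, ← c.norm, ← hP, hz1, eq_add_of_sub_eq hy, hd']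
      simp only [map_mul, map_pow, map_add, map_one, map_natCast, ← x.pow]
      ring)
  exact ⟨u1 * v, y', hw, by rw [hy', hd']; ring⟩

theorem Sc.exists_shift (c : Sc φ α e p θ i ϖ ι Φ Y ev N) (x : Ext φ γ α e p ϖ ζ ω)
    (h : Chain γ e Q) (hp : p.Prime) {f : AdjoinRoot (LT S p)}
    (hf : ¬ ∃ ν U, ν < (p - 1) * e ∧ IsUnit U ∧ Φ f = ι ϖ ^ ν * U)
    (hs : 2 * Chain.val γ e (Algebra.norm S f) < e) (a : S) :
    ∃ h0 z, Φ h0 = Φ f * (ι (φ a) * Y ^ (p - 1) + ι ϖ * z) := by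
  have := h.nontrivial
  have hp1 : 0 < p - 1 := by have := hp.two_le; omega
  obtain ⟨g, hg⟩ := exists_adj (bs (monic_LT S hp) (natDegree_LT S hp)) f
  obtain ⟨F, rfl⟩ := (mk_bijective (monic_LT S hp) (natDegree_LT S hp)).2 f
  obtain ⟨G, rfl⟩ := (mk_bijective (monic_LT S hp) (natDegree_LT S hp)).2 g
  dsimp only at *
  obtain ⟨l, hl, -, -, v, z, z', hv, hF⟩ := c.lead x h hp.pos F.2
  obtain ⟨k, hk, -, -, v1, z1, z1', hv1, hG⟩ := c.lead x h hp.pos G.2
  obtain ⟨d, hd, hd'⟩ := val_spec h (Algebra.norm S (AdjoinRoot.mk (LT S p) F.1))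
  generalize Chain.val γ e (Algebra.norm S (AdjoinRoot.mk (LT S p) F.1)) = s at *
  generalize Chain.val γ e (F.1.coeff l) = n at *
  generalize Chain.val γ e (G.1.coeff k) = n1 at *
  have hΦ : ∀ b, Φ (algebraMap S _ b) = ι (φ b) := fun b => by
    rw [AdjoinRoot.algebraMap_eq, ← AdjoinRoot.mk_C, c.phi, eval₂_C]
    rfl
  have hu : ∀ v z', IsUnit v → IsUnit (ι (φ v) + Y * z') := fun v z' hv => by
    simpa using (c.nil x z' 0).isUnit_add_left_of_commute ((hv.map φ).map ι) (Commute.all _ _)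
  have h1 : Φ (AdjoinRoot.mk _ F.1) * Φ (AdjoinRoot.mk _ G.1) = ι ϖ ^ ((p - 1) * s) * ι (φ d) := by
    rw [← map_mul, hg, hΦ, hd']
    simp only [map_mul, map_pow, ← x.pow, ← pow_mul]
  have hlt : (p - 1) * (2 * s) < (p - 1) * e := Nat.mul_lt_mul_of_pos_left hs hp1
  have hlt' : (p - 1) * s < (p - 1) * e := Nat.mul_lt_mul_of_pos_left (by omega) hp1
  obtain ⟨h2, h3⟩ := c.unique x (μ := ((p - 1) * n + θ * l) + ((p - 1) * n1 + θ * k)) (k := l + k)
    hlt' (U := (ι (φ v) + Y * z') * (ι (φ v1) + Y * z1'))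
    (z := z * (Y ^ k * (ι (φ v1) + Y * z1') + ι ϖ * z1) + Y ^ l * (ι (φ v) + Y * z') * z1)
    ((hd.map φ).map ι) (by rw [← h1, hF, hG]; ring)
  have hl0 : l ≠ 0 := by
    rintro rfl
    refine hf ⟨_, _, by omega, ?_, hF⟩
    simpa only [pow_zero, one_mul, mul_zero, zero_add] using (c.nil x 0 z).isUnit_add_left_of_commute (hu v z' hv) (Commute.all _ _)
  have hkl : p ≤ l + k := by
    by_contra hc
    have := (h3 ((hu v z' hv).mul (hu v1 z1' hv1)) (not_le.1 hc)).2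
    omega
  obtain ⟨r, hr⟩ : ∃ r, s = θ + n1 + r := by
    refine Nat.exists_eq_add_of_le (Nat.le_of_mul_le_mul_left ?_ hp1)
    have h4 := Nat.mul_le_mul_left θ ((Nat.sub_le p 1).trans hkl)
    rw [mul_add] at h4 ⊢
    rw [mul_comm (p - 1) θ]
    omega
  obtain ⟨m, hm⟩ : ∃ m, p - 1 = m + k := ⟨p - 1 - k, by omega⟩
  obtain ⟨v2, hv2⟩ := hv1.exists_right_inv
  obtain ⟨d2, hd2⟩ := hd.exists_right_inv
  obtain ⟨y, hy⟩ := c.ypow
  have hv3 : ι (φ v1) * ι (φ v2) = 1 := by rw [← map_mul, ← map_mul, hv2, map_one, map_one]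
  have hd3 : ι (φ d) * ι (φ d2) = 1 := by rw [← map_mul, ← map_mul, hd2, map_one, map_one]
  have hy' : Y ^ (m + k) * Y = ι ϖ * y := by
    rw [← hy, ← pow_succ, ← hm, Nat.sub_add_cancel hp.one_le]
  let h0 : AdjoinRoot (LT S p) := algebraMap S _ (γ ^ r * (a * d * v2)) * AdjoinRoot.mk _ X ^ m
  have h4 : Φ h0 * Φ (AdjoinRoot.mk _ G.1) = ι ϖ ^ ((p - 1) * s) * ι (φ d) *
      (ι (φ a) * Y ^ (p - 1) + ι ϖ * (ι (φ a) * ι (φ v2) * (y * z1' + Y ^ m * z1))) := by
    simp only [h0, map_mul, map_pow, hΦ, c.phi X, eval₂_X, hG, ← x.pow]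
    rw [hr, hm]
    linear_combination (ι ϖ ^ ((m + k) * (θ + n1 + r)) * ι (φ d) * ι (φ a) * Y ^ (m + k)) * hv3 +
      (ι ϖ ^ ((m + k) * (θ + n1 + r)) * ι (φ d) * ι (φ a) * ι (φ v2) * z1') * hy'
  obtain ⟨y1, hy1⟩ := c.cancel ((p - 1) * s) (ι (φ d) * (Φ h0 - Φ (AdjoinRoot.mk _ F.1) *
    (ι (φ a) * Y ^ (p - 1) + ι ϖ * (ι (φ a) * ι (φ v2) * (y * z1' + Y ^ m * z1))))) (by
    linear_combination Φ (AdjoinRoot.mk _ F.1) * h4 - Φ h0 * h1)
  obtain ⟨j, hj⟩ : ∃ j, (p - 1) * e - (p - 1) * s = (p - 1) * s + j + 1 :=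
    Nat.exists_eq_add_of_lt (by rw [mul_left_comm] at hlt; omega)
  refine ⟨h0, ι (φ a) * ι (φ v2) * (y * z1' + Y ^ m * z1) +
    Φ (AdjoinRoot.mk _ G.1) * ι (φ d2) ^ 2 * ι ϖ ^ j * y1, ?_⟩
  rw [hj] at hy1
  linear_combination ι (φ d2) * hy1 - ι (φ d2) ^ 2 * ι ϖ ^ (j + 1) * y1 * h1 -
    (Φ h0 - Φ (AdjoinRoot.mk _ F.1) *
      (ι (φ a) * Y ^ (p - 1) + ι ϖ * (ι (φ a) * ι (φ v2) * (y * z1' + Y ^ m * z1))) +
      ι ϖ ^ ((p - 1) * s + j + 1) * y1 * ι (φ d2)) * hd3

theorem Sc.equidist [Finite S] (c : Sc φ α e p θ i ϖ ι Φ Y ev N) (x : Ext φ γ α e p ϖ ζ ω)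
    (h : Chain γ e Q) (hp : p.Prime) (hγ : γ ∣ (p : S)) (hα : IsUnit α) (hi : 0 < i)
    (hA : (p : S) = -(γ ^ (θ + i) * α)) {s : ℕ} (hs : 2 * s + i < e) (P : S → Prop)
    (hP1 : ∀ y, P y → Chain.val γ e y ≤ s)
    (hP2 : ∀ y w z, IsUnit w → (P (y * w ^ p * (1 + γ ^ (i + 1) * z)) ↔ P y)) (b : S) :
    Nat.card {f : AdjoinRoot (LT S p) // (¬ ∃ ν U, ν < (p - 1) * e ∧ IsUnit U ∧ Φ f = ι ϖ ^ ν * U) ∧
      P (Algebra.norm S f * (1 + γ ^ i * b))} =
    Nat.card {f : AdjoinRoot (LT S p) // (¬ ∃ ν U, ν < (p - 1) * e ∧ IsUnit U ∧ Φ f = ι ϖ ^ ν * U) ∧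
      P (Algebra.norm S f)} := by
  have := (monic_LT S hp).finite_adjoinRoot
  have : Finite (AdjoinRoot (LT S p)) := Module.finite_of_finite S
  have hc := x.chain.choose_spec
  obtain ⟨n, rfl⟩ : ∃ n, p = n + 2 := ⟨p - 2, by have := hp.two_le; omega⟩
  have hu : ∀ a z, IsUnit (1 + (Y ^ (n + 1) * a + ι ϖ * z)) := fun a z => by
    have := (c.nil x (Y ^ n * a) z).isUnit_one_add
    rwa [← mul_assoc, ← pow_succ'] at this
  let r : Setoid (AdjoinRoot (LT S (n + 2))) :=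
    { r := fun f f' => ∃ a z, Φ f' = Φ f * (1 + (Y ^ (n + 1) * a + ι ϖ * z))
      iseqv := ⟨fun f => ⟨0, 0, by simp⟩, fun {f f'} ⟨a, z, hf⟩ => by
        obtain ⟨g, hg⟩ := (hu a z).exists_right_inv
        exact ⟨-a * g, -z * g, by rw [hf]; linear_combination (Φ f *
          (Y ^ (n + 1) * a + ι ϖ * z)) * hg⟩,
        fun {f f' f''} ⟨a, z, hf⟩ ⟨a', z', hf'⟩ =>
          ⟨a + a' * (1 + (Y ^ (n + 1) * a + ι ϖ * z)), z + z' * (1 + (Y ^ (n + 1) * a + ι ϖ * z)),
            by rw [hf', hf]; ring⟩⟩ }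
  have hr1 : ∀ f f', r f f' → (∃ ν U, ν < (n + 2 - 1) * e ∧ IsUnit U ∧ Φ f = ι ϖ ^ ν * U) →
      ∃ ν U, ν < (n + 2 - 1) * e ∧ IsUnit U ∧ Φ f' = ι ϖ ^ ν * U := by
    rintro f f' ⟨a, z, hf⟩ ⟨ν, U, h1, h2, h3⟩
    exact ⟨ν, _, h1, h2.mul (hu a z), by rw [hf, h3, mul_assoc]⟩
  have hr2 : ∀ f f', r f f' →
      Chain.val γ e (Algebra.norm S f') = Chain.val γ e (Algebra.norm S f) := by
    rintro f f' ⟨a, z, hf⟩
    refine Nat.eq_of_mul_eq_mul_left (show 0 < n + 2 - 1 from n.succ_pos) ?_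
    rw [← x.val h, ← x.val h, c.norm, c.norm, hf, map_mul, val_mul_unit hc _ ((hu a z).map N)]
  refine card_eq_of_classes r _ _ fun f => ?_
  by_cases hf : (¬ ∃ ν U, ν < (n + 2 - 1) * e ∧ IsUnit U ∧ Φ f = ι ϖ ^ ν * U) ∧
    Chain.val γ e (Algebra.norm S f) ≤ s
  swap
  · refine ⟨0, fun f' hf' => ?_⟩
    rw [add_zero]
    refine ⟨hf', iff_of_false (fun hh => hf ⟨fun h1 => hh.1 (hr1 _ _ hf' h1), ?_⟩)
      (fun hh => hf ⟨fun h1 => hh.1 (hr1 _ _ hf' h1), hr2 _ _ hf' ▸ hP1 _ hh.2⟩)⟩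
    rw [← hr2 _ _ hf', ← val_mul_unit h _ (isUnit_one_add_pow h hi b)]
    exact hP1 _ hh.2
  have hp1 : IsUnit ((n + 2 - 1 : ℕ) : S) := by
    rw [Nat.cast_sub hp.one_le, Nat.cast_one]
    exact (isNilpotent_of_dvd h hγ).isUnit_sub_one
  obtain ⟨a0, ha0⟩ := (hα.mul hp1).exists_right_inv
  obtain ⟨h0, z0, hh0⟩ := c.exists_shift x h hp hf.1 (by omega) (a0 * b)
  refine ⟨h0, fun f' hf' => ?_⟩
  obtain ⟨a, z, hf''⟩ := r.symm hf'
  obtain ⟨y, hy⟩ := c.ypow
  have h1 : Φ (f' + h0) = Φ f' * (1 + (ι (φ (a0 * b)) * Y ^ (n + 2 - 1) + ι ϖ *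
      (z0 * (1 + (Y ^ (n + 1) * a + ι ϖ * z)) + ι (φ (a0 * b)) * (y * Y ^ n * a + Y ^ (n + 1) * z)))) := by
    rw [map_add, hh0, hf'', show n + 2 - 1 = n + 1 from rfl]
    linear_combination (Φ f' * ι (φ (a0 * b)) * Y ^ n * a) * hy
  have h2 : r f' (f' + h0) := ⟨_, _, by rw [h1, mul_comm (ι (φ (a0 * b)))]; rfl⟩
  refine ⟨r.trans hf' h2, and_congr (not_congr ⟨hr1 _ _ h2, hr1 _ _ (r.symm h2)⟩) ?_⟩
  obtain ⟨w, y', hw, h3⟩ := c.norm_rel x h hp hA h1 (by rw [hr2 _ _ hf']; omega)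
  obtain ⟨g, hg⟩ := (isUnit_one_add_pow h hi b).exists_right_inv
  rw [← hP2 _ w (g * y') hw, h3]
  refine iff_of_eq (congrArg P ?_)
  linear_combination (Algebra.norm S f' * w ^ (n + 2) * γ ^ (i + 1) * y') * hg -
    (Algebra.norm S f' * w ^ (n + 2) * γ ^ i * b) * ha0

end Pool.Agent.MP_975ab8_al.H19

end

-- part MP_975ab8_al.H19.Orb
section

namespace Pool.Agent.MP_975ab8_al.H19

open Finset Polynomial

/-- The classes modulo `p`-th powers of units and the `i`-th unit group. -/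
def Orb {R : Type*} [CommRing R] (γ : R) (p i : ℕ) (a y : R) : Prop :=
  ∃ w z, IsUnit w ∧ y = a * w ^ p * (1 + γ ^ i * z)

variable {R k : Type*} [CommRing R] [Field k] {π : R →+* k} {γ u : R} {e p q E i s : ℕ}

theorem Orb.refl (a : R) : Orb γ p i a a := ⟨1, 0, isUnit_one, by simp⟩

theorem Orb.trans {a b c : R} (h1 : Orb γ p i a b) (h2 : Orb γ p i b c) : Orb γ p i a c := by
  obtain ⟨w, z, hw, rfl⟩ := h1
  obtain ⟨w', z', hw', rfl⟩ := h2
  exact ⟨w * w', z + z' + γ ^ i * z * z', hw.mul hw', by ring⟩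

theorem Orb.symm (h : Chain γ e q) (hi : 0 < i) {a b : R} (h1 : Orb γ p i a b) :
    Orb γ p i b a := by
  obtain ⟨w, z, hw, rfl⟩ := h1
  obtain ⟨w', hw'⟩ := hw.exists_right_inv
  obtain ⟨g, hg⟩ := (isUnit_one_add_pow h hi z).exists_right_inv
  refine ⟨w', -z * g, IsUnit.of_mul_eq_one_right _ hw', ?_⟩
  have h2 : w ^ p * w' ^ p = 1 := by rw [← mul_pow, hw', one_pow]
  linear_combination (-a) * h2 + (a * w ^ p * w' ^ p * γ ^ i * z) * hg

theorem Orb.mono {j : ℕ} (hij : i ≤ j) {a b : R} (h1 : Orb γ p j a b) : Orb γ p i a b := by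
  obtain ⟨w, z, hw, rfl⟩ := h1
  obtain ⟨d, rfl⟩ := Nat.exists_eq_add_of_le hij
  exact ⟨w, γ ^ d * z, hw, by ring⟩

theorem Orb.mul {a b : R} (h1 : Orb γ p i a b) (c : R) : Orb γ p i (a * c) (b * c) := by
  obtain ⟨w, z, hw, rfl⟩ := h1
  exact ⟨w, z, hw, by ring⟩

theorem Orb.of_dvd (a : R) {U V : R} (hU : IsUnit U) (hd : γ ^ i ∣ V - U) :
    Orb γ p i (a * U) (a * V) := by
  obtain ⟨g, hg⟩ := hU.exists_right_inv
  obtain ⟨z, hz⟩ := hd
  exact ⟨1, g * z, isUnit_one, by linear_combination a * hz - a * γ ^ i * z * hg⟩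

theorem Orb.shift (h : Chain γ e q) (r : Res π γ) (hi : 0 < i) (a : R) {c c' : R}
    (hc : π c' = π c) : Orb γ p (i + 1) (a * (1 + γ ^ i * c)) (a * (1 + γ ^ i * c')) := by
  obtain ⟨z, hz⟩ := r.eq_iff.1 hc
  exact Orb.of_dvd a (isUnit_one_add_pow h hi c) ⟨z, by linear_combination γ ^ i * hz⟩

theorem Orb.val (h : Chain γ e q) (hi : 0 < i) {a b : R} (h1 : Orb γ p i a b) :
    Chain.val γ e b = Chain.val γ e a := by
  obtain ⟨w, z, hw, rfl⟩ := h1
  rw [val_mul_unit h _ (isUnit_one_add_pow h hi z), val_mul_unit h _ (hw.pow p)]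

theorem exists_pow_res [Finite R] (r : Res π γ) (hp : p.Prime) (hγ : γ ∣ (p : R)) (z : R) :
    ∃ t, γ ∣ z - t ^ p := by
  have : Fact p.Prime := ⟨hp⟩
  have : Finite k := Finite.of_surjective _ r.surj
  have hpk : (p : k) = 0 := by rw [← map_natCast π, r.ker]; exact hγ
  have : CharP k p := (CharP.charP_iff_prime_eq_zero hp).2 hpk
  obtain ⟨τ, hτ⟩ := surjective_frobenius k p (π z)
  obtain ⟨t, rfl⟩ := r.surj τ
  exact ⟨t, r.eq_iff.1 (by rw [← hτ, map_pow]; rfl)⟩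

theorem Orb.one [Finite R] (h : Chain γ e q) (r : Res π γ) (hp : p.Prime) (hγ : γ ∣ (p : R))
    (a : R) {b : R} (hb : IsUnit b) : Orb γ p 1 a (a * b) := by
  obtain ⟨t, ht⟩ := exists_pow_res r hp hγ b
  have h1 : IsUnit t := by
    rw [← isUnit_pow_iff hp.ne_zero, r.isUnit_iff h, ← r.eq_iff.2 ht, ← r.isUnit_iff h]
    exact hb
  exact Orb.trans ⟨t, 0, h1, by simp⟩ (Orb.of_dvd a (h1.pow p) (by rwa [pow_one]))

theorem Orb.succ [Finite R] (h : Chain γ e q) (r : Res π γ) (hp : p.Prime)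
    (hpu : (p : R) = γ ^ E * u) (hi : 0 < i) (hE : i < E) (hd : p ∣ i) {a b : R}
    (h1 : Orb γ p i a b) : Orb γ p (i + 1) a b := by
  obtain ⟨w, z, hw, rfl⟩ := h1
  obtain ⟨n, rfl⟩ := hd
  obtain ⟨t, y, hy⟩ := exists_pow_res r hp (hpu ▸ (dvd_pow_self γ (by omega)).mul_right u) z
  have h1 := isUnit_one_add_pow h (Nat.pos_of_mul_pos_left hi) t
  obtain ⟨c, hc⟩ := exists_add_pow_prime_eq hp 1 (γ ^ n * t)
  obtain ⟨d, rfl⟩ := Nat.exists_eq_add_of_lt hE
  refine Orb.trans (b := a * w ^ p * (1 + γ ^ n * t) ^ p)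
    ⟨w * (1 + γ ^ n * t), 0, hw.mul h1, by rw [mul_pow]; ring⟩
    (Orb.of_dvd _ (h1.pow p) ⟨y - γ ^ d * u * (γ ^ n * t) * c, ?_⟩)
  rw [hc, hpu]
  linear_combination γ ^ (p * n) * hy

theorem pow_sub_one_dvd (h : Chain γ e q) (hp : p.Prime) (hpu : (p : R) = γ ^ E * u) (hE : i < E)
    (hd : ¬ p ∣ i) {w : R} (hw : γ ^ i ∣ w ^ p - 1) : γ ^ (i + 1) ∣ w ^ p - 1 := by
  obtain ⟨c, hc⟩ := exists_add_pow_prime_eq hp 1 (w - 1)
  have h1 : w ^ p - 1 = (w - 1) ^ p + γ ^ E * (u * (w - 1) * c) := by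
    rw [add_sub_cancel, hpu] at hc
    linear_combination hc
  obtain ⟨n, v, -, hv, hn⟩ := h.exists_eq (w - 1)
  rw [h1] at hw ⊢
  rw [dvd_add_left ((pow_dvd_pow γ hE.le).mul_right _), hn, mul_pow, ← pow_mul,
    h.pow_dvd_iff (hv.pow p)] at hw
  refine dvd_add ?_ ((pow_dvd_pow γ hE).mul_right _)
  rw [hn, mul_pow, ← pow_mul, h.pow_dvd_iff (hv.pow p)]
  refine hw.imp_left fun h2 => lt_of_le_of_ne h2 fun h3 : i = n * p => hd (h3 ▸ dvd_mul_left p n)

theorem Orb.unique (h : Chain γ e q) (r : Res π γ) (hp : p.Prime) (hpu : (p : R) = γ ^ E * u)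
    (hE : i < E) (hd : ¬ p ∣ i) (hs : s + i < e) {b c c' : R} (hb : IsUnit b)
    (h1 : Orb γ p (i + 1) (γ ^ s * b * (1 + γ ^ i * c)) (γ ^ s * b * (1 + γ ^ i * c'))) :
    π c' = π c := by
  obtain ⟨w, z, -, hw⟩ := h1
  obtain ⟨n, v, -, hv, hn⟩ :=
    h.exists_eq ((1 + γ ^ i * c') - (1 + γ ^ i * c) * w ^ p * (1 + γ ^ (i + 1) * z))
  have h2 : γ ^ (s + n) * (b * v) = 0 := by linear_combination hw - γ ^ s * b * hn
  rw [(hb.mul hv).mul_left_eq_zero, h.pow_eq_zero_iff] at h2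
  obtain ⟨d, rfl⟩ : ∃ d, n = i + 1 + d := Nat.exists_eq_add_of_le (by omega)
  obtain ⟨y, hy⟩ := pow_sub_one_dvd h hp hpu hE hd (w := w)
    ⟨c' - c * w ^ p - γ * ((1 + γ ^ i * c) * w ^ p * z + γ ^ d * v), by linear_combination -hn⟩
  have h3 := dvd_of_pow_mul_eq h (n := i) (by omega) (x := c' - c)
    (y := γ * ((1 + γ ^ i * c) * (y + w ^ p * z) + γ ^ d * v))
    (by linear_combination hn + (1 + γ ^ i * c) * hy)
  exact r.eq_iff.2 ((dvd_sub_left (dvd_mul_right _ _)).1 h3)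

theorem exists_form [Finite R] (h : Chain γ e q) (r : Res π γ) (hp : p.Prime)
    (hpu : (p : R) = γ ^ E * u) (hE : 0 < E) {a : R} (ha : a ≠ 0) :
    ∃ (s j : ℕ) (w x : R), s < e ∧ IsUnit w ∧ (E ≤ j ∨ (¬ p ∣ j ∧ IsUnit x)) ∧
      a = γ ^ s * w ^ p * (1 + γ ^ j * x) := by
  obtain ⟨s, b, -, hb, rfl⟩ := h.exists_eq a
  have hs : s < e := by
    by_contra hc
    exact ha (by rw [h.pow_eq_zero_iff.2 (not_lt.1 hc), zero_mul])
  have key : ∀ n, n + 1 ≤ E → Orb γ p (n + 1) (γ ^ s) (γ ^ s * b) ∨ ∃ (j : ℕ) (w x : R),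
      IsUnit w ∧ (¬ p ∣ j ∧ IsUnit x) ∧ γ ^ s * b = γ ^ s * w ^ p * (1 + γ ^ j * x) := by
    intro n
    induction n with
    | zero =>
      exact fun _ => Or.inl (Orb.one h r hp (hpu ▸ (dvd_pow_self γ hE.ne').mul_right u) _ hb)
    | succ n ih =>
      intro hn
      rcases ih (by omega) with h1 | h1
      · by_cases hd : p ∣ n + 1
        · exact Or.inl (h1.succ h r hp hpu n.succ_pos hn hd)
        · obtain ⟨w, z, hw, h2⟩ := h1
          by_cases hz : γ ∣ z
          · obtain ⟨y, rfl⟩ := hz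
            exact Or.inl ⟨w, y, hw, by rw [h2]; ring⟩
          · exact Or.inr ⟨n + 1, w, z, hw, ⟨hd, h.isUnit_of_not_dvd hz⟩, h2⟩
      · exact Or.inr h1
  rcases key (E - 1) (by omega) with ⟨w, z, hw, h1⟩ | ⟨j, w, x, hw, h1, h2⟩
  · exact ⟨s, _, w, z, hs, hw, Or.inl (by omega), h1⟩
  · exact ⟨s, j, w, x, hs, hw, Or.inr h1, h2⟩

open Classical in
theorem orb_step [Fintype k] (h : Chain γ e q) (r : Res π γ) (hp : p.Prime)
    (hpu : (p : R) = γ ^ E * u) (hE : i < E) (hd : ¬ p ∣ i) (hs : s + i < e) {b : R}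
    (hb : IsUnit b) {X : Type*} [Fintype X] (ν : X → R) (A : X → Prop) (t : X → ℕ) (xx : X → k)
    (hA : ∀ f, A f → ∃ w y, IsUnit w ∧ π y = xx f ∧ ν f = γ ^ t f * w ^ p * (1 + γ ^ i * y))
    (hB : ∀ c, ∑ f, (if ¬ A f then (1 : ℂ) else 0) *
      ((if Orb γ p (i + 1) (γ ^ s * b * (1 + γ ^ i * c)) (ν f) then 1 else 0) -
        if Orb γ p (i + 1) (γ ^ s * b) (ν f) then 1 else 0) = 0)
    {ψ : AddChar k ℂ} (hψ : ψ ≠ 1) (ξ : k)
    (hξ : Orb γ p i (γ ^ s) (γ ^ s * b) →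
      ∃ x, π x = ξ ∧ Orb γ p (i + 1) (γ ^ s * (1 + γ ^ i * x)) (γ ^ s * b)) :
    (q : ℂ) * Nat.card {f // Orb γ p (i + 1) (γ ^ s * b) (ν f)} =
      Nat.card {f // Orb γ p i (γ ^ s * b) (ν f)} +
        if Orb γ p i (γ ^ s) (γ ^ s * b) then ∑ κ ∈ univ.erase (0 : k), ψ (-(κ * ξ)) *
          ∑ f, if A f ∧ t f = s then ψ (κ * xx f) else 0 else 0 := by
  have hi : 0 < i := Nat.pos_of_ne_zero fun h0 => hd (h0 ▸ dvd_zero p)
  have hq : (Fintype.card k : ℂ) = q := by rw [← r.card h, Nat.card_eq_fintype_card]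
  choose σ hσ using r.surj
  have h1 : ∀ y, ∑ κ : k, (if Orb γ p (i + 1) (γ ^ s * b * (1 + γ ^ i * σ κ)) y then (1 : ℂ)
      else 0) = if Orb γ p i (γ ^ s * b) y then 1 else 0 := by
    intro y
    split_ifs with hy
    · obtain ⟨w, z, hw, rfl⟩ := hy
      have h2 : Orb γ p (i + 1) (γ ^ s * b * (1 + γ ^ i * z))
          (γ ^ s * b * w ^ p * (1 + γ ^ i * z)) := ⟨w, 0, hw, by ring⟩
      rw [sum_eq_single (π z), if_pos ((Orb.shift h r hi _ (hσ _).symm).trans h2)]
      · intro κ _ hκ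
        refine if_neg fun h3 => hκ ?_
        rw [← hσ κ]
        exact (Orb.unique h r hp hpu hE hd hs hb (h3.trans (h2.symm h i.succ_pos))).symm
      · exact fun hh => absurd (mem_univ _) hh
    · refine sum_eq_zero fun κ _ => if_neg fun h3 => hy (Orb.trans ?_ (h3.mono i.le_succ))
      exact ⟨1, σ κ, isUnit_one, by ring⟩
  have h2 : ∑ f, (if ¬ A f then (1 : ℂ) else 0) *
      ((if Orb γ p i (γ ^ s * b) (ν f) then 1 else 0) -
        q * if Orb γ p (i + 1) (γ ^ s * b) (ν f) then 1 else 0) = 0 := by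
    have h3 := sum_eq_zero (s := univ) fun κ _ => hB (σ κ)
    rw [sum_comm] at h3
    refine Eq.trans (sum_congr rfl fun f _ => ?_) h3
    rw [← mul_sum, sum_sub_distrib, h1, sum_const, card_univ, nsmul_eq_mul, hq]
  have h3 : ∀ f, (if A f then (1 : ℂ) else 0) *
      (q * (if Orb γ p (i + 1) (γ ^ s * b) (ν f) then 1 else 0) -
        if Orb γ p i (γ ^ s * b) (ν f) then 1 else 0) =
      if Orb γ p i (γ ^ s) (γ ^ s * b) then ∑ κ ∈ univ.erase (0 : k), ψ (-(κ * ξ)) *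
        (if A f ∧ t f = s then ψ (κ * xx f) else 0) else 0 := by
    intro f
    by_cases hf : A f
    swap
    · simp only [hf, ↓ reduceIte, mul_ite, mul_one, mul_zero, zero_mul, false_and, sum_const_zero, ite_self]
    obtain ⟨w, y, hw, hy, hν⟩ := hA f hf
    have h4 : Orb γ p (i + 1) (γ ^ t f * (1 + γ ^ i * y)) (ν f) := ⟨w, 0, hw, by rw [hν]; ring⟩
    have h5 : Orb γ p i (γ ^ t f) (ν f) := ⟨w, y, hw, hν⟩
    by_cases hO : Orb γ p i (γ ^ s) (γ ^ s * b) ∧ t f = s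
    · obtain ⟨x, rfl, hx⟩ := hξ hO.1
      rw [hO.2] at h4 h5
      rw [if_pos hf, if_pos hO.1, if_pos ((hO.1.symm h hi).trans h5), one_mul]
      simp only [hf, hO.2, and_self, if_true, ← AddChar.map_add_eq_mul]
      rw [sum_erase_eq_sub (mem_univ _), sum_congr rfl (g := fun κ => ψ (κ * (xx f - π x)))
        (fun κ _ => by congr 1; ring), AddChar.sum_mulShift _ (AddChar.IsPrimitive.of_ne_one hψ)]
      simp only [zero_mul, neg_zero, add_zero, AddChar.map_zero_eq_one]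
      congr 1
      by_cases h6 : xx f - π x = 0
      · rw [if_pos h6, if_pos ((hx.symm h i.succ_pos).trans
          ((Orb.shift h r hi _ (hy.trans (sub_eq_zero.1 h6))).trans h4)), hq, mul_one]
      · rw [if_neg h6, if_neg fun h7 => h6 ?_, mul_zero, Nat.cast_zero]
        rw [sub_eq_zero, ← hy]
        refine Orb.unique h r hp hpu hE hd hs isUnit_one ?_
        simpa only [mul_one] using (hx.trans h7).trans (h4.symm h i.succ_pos)
    · have h6 : ¬ Orb γ p i (γ ^ s * b) (ν f) := fun h6 => hO (by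
        have h7 := (h5.val h hi).symm.trans (h6.val h hi)
        rw [h.val_eq s hb, ← mul_one (γ ^ t f), h.val_eq _ isUnit_one] at h7
        have h8 : t f = s := by omega
        exact ⟨(h8 ▸ h5).trans (h6.symm h hi), h8⟩)
      rw [if_neg h6, if_neg (c := Orb γ p (i + 1) _ _) fun h7 => h6 (h7.mono i.le_succ)]
      by_cases h7 : Orb γ p i (γ ^ s) (γ ^ s * b)
      · have h8 : ¬ t f = s := fun hh => hO ⟨h7, hh⟩
        simp only [mul_zero, sub_self, h8, and_false, ↓ reduceIte, sum_const_zero, ite_self]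
      · simp [h7]
  have h4 := sum_congr (rfl : (univ : Finset X) = univ) fun f _ => h3 f
  simp only [Nat.card_eq_fintype_card, Fintype.card_subtype, card_filter]
  push_cast
  have h5 : (if Orb γ p i (γ ^ s) (γ ^ s * b) then ∑ κ ∈ univ.erase (0 : k), ψ (-(κ * ξ)) *
      ∑ f, if A f ∧ t f = s then ψ (κ * xx f) else 0 else 0) = ∑ f,
      if Orb γ p i (γ ^ s) (γ ^ s * b) then ∑ κ ∈ univ.erase (0 : k), ψ (-(κ * ξ)) *
        (if A f ∧ t f = s then ψ (κ * xx f) else 0) else 0 := by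
    split_ifs
    · simp only [mul_sum]
      exact sum_comm
    · simp only [sum_const_zero]
  rw [h5, ← h4, mul_sum, ← sub_eq_iff_eq_add', ← sum_sub_distrib, ← sub_eq_zero, ← sum_sub_distrib,
    ← neg_eq_zero, ← sum_neg_distrib]
  refine Eq.trans (sum_congr rfl fun f _ => ?_) h2
  by_cases hf : A f <;> simp [hf]

end Pool.Agent.MP_975ab8_al.H19

end
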