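import Mathlib
import Pool.Agent.MP_975ab8_al.Mg.H19_Orb

attribute [-instance] DistribMulActionSemiHomClass.toAddMonoidHomClass
  MonTypeEquivalenceMon.monMonoid littleWedderburn AlgHom.instNonUnitalAlgHomClassOfAlgHomClass
  instCharZeroOfIsSemireal AdjoinRoot.instField RKHS.instFunLike IdemSemiring.toSemiring
  instNonemptyOfMonad ContinuousSemilinearMapClass.toSemilinearMapClass
  IsAffineAddMonoid.toIsCancelAdd FloorSemiring.instCharZero instCoeTCOfCoe NormedField.toField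
  instNonUnitalAlgHomClassOfNonUnitalAlgEquivClass CoalgHomClass.toSemilinearMapClass
  ConnectedSpace.toNonempty CommMonTypeEquivalenceCommMon.commMonCommMonoid
  SemilatticeInf.toPartialOrder AddTorsor.nonempty IdemCommSemiring.toCommSemiring
  BialgHomClass.toMonoidHomClass NumberField.to_charZero RCLike.charZero_rclike
  instIsPrincipalIdealRingOfIsSemisimpleRing NormedSpace.toModule DivisionRing.toDivisionSemiring
  Group.IsPerfect.subsingleton_of_isMulCommutative SemilinearIsometryClass.toSemilinearMapClass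
  RingHomClass.toLinearMapClassNNRat LieAdmissibleAlgebra.toModule Fintype.decidableExistsFintype
  NonUnitalAlgHomClass.instLinearMapClass NormedDivisionRing.toDivisionRing
  List.instDecidableMemOfLawfulBEq NonUnitalAlgSemiHomClass.toMulHomClass
  CompletePartialOrder.toPartialOrder BooleanRing.toRing

-- part MP_975ab8_al.H19.Val3
section

namespace Pool.Agent.MP_975ab8_al.H19

open Finset Polynomial

universe u

variable {S K : Type*} {T : Type u} [CommRing S] [CommRing T] [Field K] {φ : S →+* T}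
  {π : S →+* K} {γ α : S} {e p Q E : ℕ} {ϖ ζ ω : T}

theorem cop_eval (h : Chain γ e Q) (r : Res π γ) {f g : S[X]}
    (hc : IsCoprime (f.map π) (g.map π)) {z : T} (hf : IsNilpotent (f.eval₂ φ z)) :
    IsUnit (g.eval₂ φ z) := by
  obtain ⟨a, b, hab⟩ := hc
  obtain ⟨a, rfl⟩ := Polynomial.map_surjective π r.surj a
  obtain ⟨b, rfl⟩ := Polynomial.map_surjective π r.surj b
  obtain ⟨w, hw⟩ := r.map_eq_zero (f := a * f + b * g - 1) (by
    simp only [Polynomial.map_sub, Polynomial.map_add, Polynomial.map_mul, hab, Polynomial.map_one,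
      sub_self])
  have h1 := congrArg (eval₂ φ z) hw
  simp only [eval₂_sub, eval₂_add, eval₂_mul, eval₂_one, eval₂_C] at h1
  have h2 : IsNilpotent (φ γ * w.eval₂ φ z - a.eval₂ φ z * f.eval₂ φ z) :=
    (Commute.all _ _).isNilpotent_sub
      ((Commute.all _ _).isNilpotent_mul_right ((isNilpotent_of_dvd h dvd_rfl).map φ))
      ((Commute.all _ _).isNilpotent_mul_left hf)
  have h3 := h2.isUnit_one_add
  rw [show 1 + (φ γ * w.eval₂ φ z - a.eval₂ φ z * f.eval₂ φ z) = b.eval₂ φ z * g.eval₂ φ z by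
    linear_combination -h1] at h3
  exact isUnit_of_mul_isUnit_right h3

/-- The branches. -/
structure Br (φ : S →+* T) (π : S →+* K) (ζ ω : T) (p b o : ℕ) {ι : Type*} [DecidableEq ι]
    (H : ι → S[X]) (cls : ℕ → ι) : Prop where
  monic : ∀ j, (H j).Monic
  irr : ∀ j, Irreducible ((H j).map π)
  deg : ∀ j, (H j).natDegree = o
  cop : ∀ i j, i ≠ j → IsCoprime ((H i).map π) ((H j).map π)
  copX : ∀ j, IsCoprime X ((H j).map π)
  root : ∀ r, (H (cls r)).eval₂ φ ((ω ^ r * ζ) ^ b) = 0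
  card : ∀ j, ((range (p - 1)).filter fun r => cls r = j).card = b * o
  surj : Function.Surjective cls

theorem exists_br [Finite S] (x : Ext φ γ α e p ϖ ζ ω) (h : Chain γ e Q) (r : Res π γ)
    (hp : p.Prime) (hγ : γ ∣ (p : S)) (hα : IsUnit α) {g o : ℕ} (hg : g ∣ p - 1)
    (ho : o = orderOf (π α ^ ((Q - 1) / g))) :
    0 < o ∧ ∃ (H : Fin (g / o) → S[X]) (cls : ℕ → Fin (g / o)),
      Br φ π ζ ω p ((p - 1) / g) o H cls := by
  classical
  have := x.nontrivial
  have hp1 : 0 < p - 1 := by have := hp.two_le; omega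
  have hg0 : 0 < g := Nat.pos_of_dvd_of_pos hg hp1
  have : Finite K := Finite.of_surjective _ r.surj
  have : Fact p.Prime := ⟨hp⟩
  have hpK : (p : K) = 0 := by rw [← map_natCast π, r.ker]; exact hγ
  have : CharP K p := (CharP.charP_iff_prime_eq_zero hp).2 hpK
  have := Fintype.ofFinite K
  obtain ⟨n, -, hn⟩ := FiniteField.card K p
  have hα0 := (r.isUnit_iff h).1 hα
  obtain ⟨ho0, hog, H0, hm, hi, hd, hc, hprod⟩ := exists_kummer (K := K) (g := g)
    (by rw [Nat.card_eq_fintype_card, hn]; exact hg.trans (Nat.sub_one_dvd_pow_sub_one p n)) hα0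
    (by
      rw [Ne, CharP.cast_eq_zero_iff K p]
      exact Nat.not_dvd_of_pos_of_lt hg0 ((Nat.le_of_dvd hp1 hg).trans_lt (by omega)))
    (r.card h ▸ ho)
  obtain ⟨H, hHm, hHπ, hH⟩ := hensel h r univ H0 hm (fun i _ j _ => hc i j) (X ^ g - C α)
    (monic_X_pow_sub_C α hg0.ne') (by rw [hprod]; simp)
  have hz : ∀ k : ℕ, ∃ j, (H j).eval₂ φ ((ω ^ k * ζ) ^ ((p - 1) / g)) = 0 := by
    intro k
    have h1 : ∏ j, (H j).eval₂ φ ((ω ^ k * ζ) ^ ((p - 1) / g)) = 0 := by
      rw [← eval₂_finsetProd, ← hH, eval₂_sub, eval₂_X_pow, eval₂_C, ← pow_mul,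
        Nat.div_mul_cancel hg, mul_pow, x.zeta, ← pow_mul, mul_comm k, pow_mul, x.om, one_pow,
        one_mul, sub_self]
    obtain ⟨j, hj⟩ : ∃ j, ¬ IsUnit ((H j).eval₂ φ ((ω ^ k * ζ) ^ ((p - 1) / g))) := by
      by_contra hcon
      push Not at hcon
      exact (IsUnit.prod_univ_iff.2 hcon).ne_zero h1
    refine ⟨j, ?_⟩
    have hnil := isNilpotent_of_dvd x.chain.choose_spec
      (not_not.1 fun hh => hj (x.chain.choose_spec.isUnit_of_not_dvd hh))
    rw [← mul_prod_erase _ _ (mem_univ j), (IsUnit.prod_iff.2 fun i hi =>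
      cop_eval h r (by rw [hHπ, hHπ]; exact hc j i (ne_of_mem_erase hi).symm) hnil).mul_left_eq_zero]
      at h1
    exact h1
  choose cls hcls using hz
  have hdeg : ∀ j, (H j).natDegree = o := fun j => by
    have := h.nontrivial
    rw [← (hHm j).natDegree_map π, hHπ, hd]
  have hcard : ∀ j, ((range (p - 1)).filter fun r => cls r = j).card = (p - 1) / g * o := by
    obtain ⟨F, _, ρ, r'⟩ := exists_res x.chain.choose_spec
    have hle : ∀ j, ((range (p - 1)).filter fun r => cls r = j).card ≤ (p - 1) / g * o := by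
      intro j
      have hb0 : 0 < (p - 1) / g := Nat.div_pos (Nat.le_of_dvd hp1 hg) hg0
      have hG := ((hHm j).map (ρ.comp φ)).expand hb0
      have key : ∀ i k, i < k → k < p - 1 → ρ (ω ^ i * ζ) ≠ ρ (ω ^ k * ζ) := by
        intro i k hik hk heq
        obtain ⟨d, rfl⟩ := Nat.exists_eq_add_of_lt hik
        refine ((((x.isUnit_om hp).pow i).mul ((x.omu (d + 1) (by omega) (by omega)).mul
          (x.isUnit_zeta hp hα))).map ρ).ne_zero ?_
        rw [← sub_eq_zero, ← map_sub] at heq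
        rw [← neg_eq_zero, ← map_neg, ← heq]
        congr 1
        ring
      rw [← card_image_of_injOn (f := fun k => ρ (ω ^ k * ζ)) (fun i hi k hk hik => by
        rcases lt_trichotomy i k with hlt | hlt | hlt
        · exact absurd hik (key i k hlt (mem_range.1 (mem_filter.1 hk).1))
        · exact hlt
        · exact absurd hik.symm (key k i hlt (mem_range.1 (mem_filter.1 hi).1)))]
      refine (card_le_degree_of_subset_roots (p := expand F ((p - 1) / g)
        ((H j).map (ρ.comp φ))) fun y hy => ?_).trans ?_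
      · obtain ⟨k, hk, rfl⟩ := mem_image.1 (mem_def.2 hy)
        rw [mem_roots hG.ne_zero, IsRoot, expand_eval, eval_map, ← map_pow, ← hom_eval₂,
          ← (mem_filter.1 hk).2, hcls, map_zero]
      · rw [natDegree_expand, (hHm j).natDegree_map, hdeg, mul_comm]
    have hsum : ∑ j, ((range (p - 1)).filter fun r => cls r = j).card =
        ∑ _j : Fin (g / o), (p - 1) / g * o := by
      rw [← card_eq_sum_card_fiberwise (fun _ _ => mem_univ _), card_range, sum_const, card_univ,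
        Fintype.card_fin, smul_eq_mul, mul_left_comm, mul_comm (g / o), hog,
        Nat.div_mul_cancel hg]
    exact fun j => (sum_eq_sum_iff_of_le fun j _ => hle j).1 hsum j (mem_univ j)
  refine ⟨ho0, H, cls, hHm, fun j => hHπ j ▸ hi j, hdeg, fun i j hij => ?_, fun j => ?_, hcls,
    hcard, fun j => ?_⟩
  · rw [hHπ, hHπ]
    exact hc i j hij
  · rw [hHπ]
    refine irreducible_X.coprime_iff_not_dvd.2 fun hd => hα0 ?_
    have h1 := hd.trans (hprod ▸ dvd_prod_of_mem H0 (mem_univ j))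
    simpa only [X_dvd_iff, coeff_sub, coeff_X_pow, hg0.ne, ↓ reduceIte, coeff_C_zero, zero_sub, neg_eq_zero] using h1
  · have h1 : 0 < ((range (p - 1)).filter fun r => cls r = j).card := by
      rw [hcard]
      exact Nat.mul_pos (Nat.div_pos (Nat.le_of_dvd hp1 hg) hg0) ho0
    obtain ⟨k, hk⟩ := card_pos.1 h1
    exact ⟨k, (mem_filter.1 hk).2⟩

variable {ι : Type*} [DecidableEq ι] {H : ι → S[X]} {cls : ℕ → ι} {o : ℕ}

theorem Br.dvd_of (B : Br φ π ζ ω p ((p - 1) / Nat.gcd E (p - 1)) o H cls)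
    (x : Ext φ γ α e p ϖ ζ ω) (h : Chain γ e Q) (r : Res π γ) (hp : p.Prime) (hα : IsUnit α)
    {t : ℕ} (ht : t < (p - 1) * e) {k l : ℕ} {c : S[X]}
    (hd : ϖ ^ (t + 1) ∣ ϖ ^ t * (ω ^ k * ζ) ^ l *
      c.eval₂ φ ((ω ^ k * ζ) ^ ((p - 1) / Nat.gcd E (p - 1)))) :
    (H (cls k)).map π ∣ c.map π := by
  by_contra hc
  have h1 := cop_eval (φ := φ) h r ((B.irr _).coprime_iff_not_dvd.2 hc)
    (by rw [B.root k]; exact IsNilpotent.zero)
  rw [mul_assoc, x.chain.choose_spec.pow_dvd_iff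
    (((((x.isUnit_om hp).pow k).mul (x.isUnit_zeta hp hα)).pow l).mul h1)] at hd
  omega

theorem Br.reduce (B : Br φ π ζ ω p ((p - 1) / Nat.gcd E (p - 1)) o H cls)
    (x : Ext φ γ α e p ϖ ζ ω) (h : Chain γ e Q) (r : Res π γ) (hp : p.Prime) (hα : IsUnit α)
    {f : S[X]} (hf : f ∈ degreeLT S p) (k : ℕ) :
    ∀ t, t ≤ (p - 1) * e → ϖ ^ t ∣ f.eval₂ φ (ϖ ^ E * (ω ^ k * ζ)) →
      ∃ f' ∈ (degreeLT S p).toAddSubgroup ⊓ FF φ ϖ E t, ∀ k', cls k' = cls k →
        f'.eval₂ φ (ϖ ^ E * (ω ^ k' * ζ)) = f.eval₂ φ (ϖ ^ E * (ω ^ k' * ζ)) := by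
  have := h.nontrivial
  intro t
  induction t with
  | zero => exact fun _ _ => ⟨f, ⟨hf, fun l => by simp⟩, fun _ _ => rfl⟩
  | succ t ih =>
    intro ht hd
    obtain ⟨f', hf', he⟩ := ih (by omega) ((pow_dvd_pow ϖ (Nat.le_succ t)).trans hd)
    obtain ⟨Θ, l0, -, T2, T3, T4, -⟩ := exists_theta x h r hp E ht
    obtain ⟨c, hc, hc'⟩ := T2 f' hf'
    have h1 : (H (cls k)).map π ∣ c.map π := by
      refine B.dvd_of x h r hp hα ht (l := l0) ?_
      rw [← T4 c hc]
      have h2 := FF_eval hc'.2 (ω ^ k * ζ)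
      rw [eval₂_sub, he k rfl] at h2
      exact (dvd_sub_right hd).1 h2
    have h2 : c %ₘ H (cls k) ∈ degreeLT S (levelDim p E t) :=
      mem_degreeLT.2 ((degree_modByMonic_le_left).trans_lt (mem_degreeLT.1 hc))
    refine ⟨f' - Θ c + Θ (c %ₘ H (cls k)), add_mem hc' ((T3 _ h2).2 ?_), fun k' hk' => ?_⟩
    · rw [map_modByMonic _ (B.monic _), modByMonic_eq_zero_iff_dvd ((B.monic _).map π)]
      exact h1
    · rw [eval₂_add, eval₂_sub, he k' hk', T4 _ hc, T4 _ h2,
        eval₂_modByMonic_eq_self_of_root (by rw [← hk']; exact B.root k'), sub_add_cancel]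

theorem Br.val_eq (B : Br φ π ζ ω p ((p - 1) / Nat.gcd E (p - 1)) o H cls)
    (x : Ext φ γ α e p ϖ ζ ω) (h : Chain γ e Q) (r : Res π γ) (hp : p.Prime) (hα : IsUnit α)
    {f : S[X]} (hf : f ∈ degreeLT S p) {k k' : ℕ} (hk : cls k' = cls k) :
    Chain.val ϖ ((p - 1) * e) (f.eval₂ φ (ϖ ^ E * (ω ^ k' * ζ))) =
      Chain.val ϖ ((p - 1) * e) (f.eval₂ φ (ϖ ^ E * (ω ^ k * ζ))) := by
  have key : ∀ k k', cls k' = cls k →
      Chain.val ϖ ((p - 1) * e) (f.eval₂ φ (ϖ ^ E * (ω ^ k * ζ))) ≤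
        Chain.val ϖ ((p - 1) * e) (f.eval₂ φ (ϖ ^ E * (ω ^ k' * ζ))) := by
    intro k k' hk
    obtain ⟨f', hf', he⟩ := B.reduce x h r hp hα hf k _ (Chain.val_le _ _ _)
      ((x.chain.choose_spec.le_val_iff (Chain.val_le _ _ _)).1 le_rfl)
    rw [x.chain.choose_spec.le_val_iff (Chain.val_le _ _ _), ← he k' hk]
    exact FF_eval hf'.2 _
  exact le_antisymm (key k' k hk.symm) (key k k' hk)

theorem Br.dvd_val (B : Br φ π ζ ω p ((p - 1) / Nat.gcd E (p - 1)) o H cls)
    (x : Ext φ γ α e p ϖ ζ ω) (h : Chain γ e Q) (r : Res π γ) (hp : p.Prime) (hα : IsUnit α)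
    {f : S[X]} (hf : f ∈ degreeLT S p) (k : ℕ) :
    Nat.gcd E (p - 1) ∣ Chain.val ϖ ((p - 1) * e) (f.eval₂ φ (ϖ ^ E * (ω ^ k * ζ))) := by
  set t := Chain.val ϖ ((p - 1) * e) (f.eval₂ φ (ϖ ^ E * (ω ^ k * ζ))) with htd
  rcases (Chain.val_le ϖ ((p - 1) * e) _ : t ≤ _).lt_or_eq with ht | ht
  swap
  · rw [htd, ht]
    exact (Nat.gcd_dvd_right _ _).mul_right _
  by_contra hc
  obtain ⟨f', hf', he⟩ := B.reduce x h r hp hα hf k t ht.le
    ((x.chain.choose_spec.le_val_iff ht.le).1 le_rfl)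
  obtain ⟨Θ, l0, -, T2, -, -, -⟩ := exists_theta x h r hp E ht
  obtain ⟨c, hc1, hc2⟩ := T2 f' hf'
  have hN : levelDim p E t = 0 := by
    rw [levelDim, card_eq_zero, filter_eq_empty_iff]
    rintro l - ⟨h1, h2⟩
    exact hc ((Nat.dvd_sub_iff_left h1 ((Nat.gcd_dvd_left _ _).mul_left l)).1
      ((Nat.gcd_dvd_right _ _).trans h2))
  rw [hN, mem_degreeLT, Nat.cast_zero, Nat.WithBot.lt_zero_iff, degree_eq_bot] at hc1
  rw [hc1, map_zero, sub_zero] at hc2
  have h3 := FF_eval hc2.2 (ω ^ k * ζ)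
  rw [he k rfl, ← x.chain.choose_spec.le_val_iff ht] at h3
  omega

theorem index_D [Finite S] {o : ℕ} {H : Fin (Nat.gcd E (p - 1) / o) → S[X]}
    {cls : ℕ → Fin (Nat.gcd E (p - 1) / o)}
    (B : Br φ π ζ ω p ((p - 1) / Nat.gcd E (p - 1)) o H cls)
    (x : Ext φ γ α e p ϖ ζ ω) (h : Chain γ e Q) (r : Res π γ) (hp : p.Prime) (hα : IsUnit α)
    (w : Option (Fin (Nat.gcd E (p - 1) / o)) → ℕ) (hw : ∀ j, w j ≤ e) :
    Nat.card {f : degreeLT S p // γ ^ w none ∣ f.1.coeff 0 ∧ ∀ k,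
      ϖ ^ (Nat.gcd E (p - 1) * w (some (cls k))) ∣ f.1.eval₂ φ (ϖ ^ E * (ω ^ k * ζ))} *
      Q ^ ellP p E o w = Q ^ (e * p) := by
  classical
  have := h.nontrivial
  have hp1 : 0 < p - 1 := by have := hp.two_le; omega
  have hgle : Nat.gcd E (p - 1) ≤ p - 1 := Nat.gcd_le_right _ hp1
  let D : (Option (Fin (Nat.gcd E (p - 1) / o)) → ℕ) → AddSubgroup S[X] := fun w =>
    { carrier := {f | γ ^ w none ∣ f.coeff 0 ∧ ∀ k,
        ϖ ^ (Nat.gcd E (p - 1) * w (some (cls k))) ∣ f.eval₂ φ (ϖ ^ E * (ω ^ k * ζ))}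
      add_mem' := fun {a b} ha hb => ⟨by rw [coeff_add]; exact dvd_add ha.1 hb.1,
        fun k => by rw [eval₂_add]; exact dvd_add (ha.2 k) (hb.2 k)⟩
      zero_mem' := ⟨by simp, fun k => by simp only [eval₂_zero, dvd_zero]⟩
      neg_mem' := fun {a} ha => ⟨by rw [coeff_neg]; exact dvd_neg.2 ha.1,
        fun k => by rw [eval₂_neg]; exact dvd_neg.2 (ha.2 k)⟩ }
  let A : ℕ → AddSubgroup S[X] := fun t => (degreeLT S p).toAddSubgroup ⊓ FF φ ϖ E t
  let d : (Option (Fin (Nat.gcd E (p - 1) / o)) → ℕ) → ℕ → ℕ := fun w t =>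
    o * (univ.filter fun j => t < Nat.gcd E (p - 1) * w (some j)).card +
      if (p - 1) ∣ t ∧ t < (p - 1) * w none then 1 else 0
  have step : ∀ w t, t < (p - 1) * e → Nat.card (A t ⊓ D w :) =
      Nat.card (A (t + 1) ⊓ D w :) * Q ^ (levelDim p E t - d w t) := by
    intro w t ht
    obtain ⟨Θ, l0, T1, T2, T3, T4, T5⟩ := exists_theta x h r hp E ht
    let s := univ.filter fun j => t < Nat.gcd E (p - 1) * w (some j)
    let P : S[X] := (∏ j ∈ s, H j) * X ^ (if (p - 1) ∣ t ∧ t < (p - 1) * w none then 1 else 0)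
    have hm : (∏ j ∈ s, H j).Monic := monic_prod_of_monic _ _ fun j _ => B.monic j
    have hP : P.Monic := hm.mul (monic_X_pow _)
    have hd : P.natDegree = d w t := by
      rw [hm.natDegree_mul (monic_X_pow _), natDegree_X_pow,
        natDegree_prod_of_monic _ _ fun j _ => B.monic j, sum_congr rfl fun j _ => B.deg j,
        sum_const, smul_eq_mul, mul_comm]
    rw [← hd, ← r.card h]
    refine card_step r.surj Θ (inf_le_inf_left _ (FF_succ_le t)) T1 T2 T3 hP
      (fun c hc f hf hD => ?_) (fun σ hσ => ⟨?_, fun k => ?_⟩)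
    · rw [Polynomial.map_mul, Polynomial.map_prod, Polynomial.map_pow, map_X]
      refine IsCoprime.mul_dvd (IsCoprime.prod_left fun j _ => (B.copX j).symm.pow_right)
        (Finset.prod_dvd_of_coprime (fun i _ j _ hij => B.cop i j hij) fun j hj => ?_) ?_
      · obtain ⟨k, rfl⟩ := B.surj j
        refine B.dvd_of x h r hp hα ht (l := l0) ?_
        rw [← T4 c hc]
        have h1 := (pow_dvd_pow ϖ (mem_filter.1 hj).2).trans (hD.2 k)
        rw [eval₂_add] at h1
        exact (dvd_add_left (FF_eval hf.2 _)).1 h1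
      · split_ifs with hc0
        · obtain ⟨⟨n, rfl⟩, hn⟩ := hc0
          have hn1 : n < w none := Nat.lt_of_mul_lt_mul_left hn
          have hn2 : n < e := Nat.lt_of_mul_lt_mul_left ht
          have h1 := (pow_dvd_pow γ hn1).trans hD.1
          rw [coeff_add, T5, if_pos (dvd_mul_right _ _), Nat.mul_div_cancel_left _ hp1] at h1
          obtain ⟨y, hy⟩ := (dvd_add_left (x.dvd h hp (by simpa only [zero_mul, pow_zero, mul_one] using hf.2 0))).1 h1
          have := dvd_of_pow_mul_eq h hn2 (x := c.coeff 0) (y := γ * y)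
            (by rw [hy, pow_succ, mul_assoc])
          rw [pow_one, X_dvd_iff, coeff_map, r.ker]
          exact (dvd_sub_left (dvd_mul_right γ y)).1 this
        · simp
    · rw [T5]
      split_ifs with h1
      · by_cases h2 : t < (p - 1) * w none
        · simp only [P, h1, h2, and_self, ↓ reduceIte, pow_one, mul_coeff_zero, coeff_X_zero, mul_zero, zero_mul, dvd_zero]
        · obtain ⟨n, rfl⟩ := h1
          rw [Nat.mul_div_cancel_left _ hp1]
          exact (pow_dvd_pow γ (Nat.le_of_mul_le_mul_left (not_lt.1 h2) hp1)).mul_right _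
      · exact dvd_zero _
    · rw [T4 _ hσ]
      by_cases hk : cls k ∈ s
      · rw [eval₂_mul, eval₂_mul, eval₂_finsetProd, prod_eq_zero hk (B.root k)]
        simp only [pow_ite, pow_one, pow_zero, zero_mul, mul_zero, dvd_zero]
      · rw [mul_assoc]
        exact (pow_dvd_pow ϖ (not_lt.1 fun hh => hk (mem_filter.2 ⟨mem_univ _, hh⟩))).mul_right _
  have iter : ∀ w n, n ≤ (p - 1) * e → Nat.card (A 0 ⊓ D w :) =
      Nat.card (A n ⊓ D w :) * Q ^ ∑ t ∈ range n, (levelDim p E t - d w t) := by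
    intro w n
    induction n with
    | zero => simp only [zero_le, AddSubgroup.mem_inf, range_zero, sum_empty, pow_zero, mul_one, imp_self]
    | succ n ih =>
      intro hn
      rw [ih (by omega), step w n hn, sum_range_succ, pow_add]
      ring
  have hM : ∀ w : Option (Fin (Nat.gcd E (p - 1) / o)) → ℕ, (∀ j, w j ≤ e) →
      A ((p - 1) * e) ⊓ D w = A ((p - 1) * e) := by
    intro w hw
    refine inf_eq_left.2 fun f hf => ⟨?_, fun k => ?_⟩
    · have h1 := (x.dvd_iff h le_rfl _ _).1 (hf.2 0)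
      rw [← h.le_val_iff (hw none)]
      exact (hw none).trans (Nat.le_of_mul_le_mul_left (by omega) hp1)
    · exact (pow_dvd_pow ϖ (Nat.mul_le_mul hgle (hw _))).trans (FF_eval hf.2 _)
  have h1 := iter w _ le_rfl
  have h2 := iter 0 _ le_rfl
  rw [hM w hw] at h1
  rw [hM 0 (fun _ => Nat.zero_le _)] at h2
  have h3 : Nat.card (A 0 ⊓ D 0 :) = Q ^ (e * p) := by
    rw [pow_mul, ← h.card_eq, ← card_degreeLT]
    refine Nat.card_congr (Equiv.subtypeEquivRight fun f => ⟨fun hf => hf.1.1, fun hf =>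
      ⟨⟨hf, fun l => by simp⟩, by simp, fun k => by simp only [Pi.zero_apply, mul_zero, pow_zero, isUnit_one, IsUnit.dvd]⟩⟩)
  have h4 : Nat.card {f : degreeLT S p // γ ^ w none ∣ f.1.coeff 0 ∧ ∀ k,
      ϖ ^ (Nat.gcd E (p - 1) * w (some (cls k))) ∣ f.1.eval₂ φ (ϖ ^ E * (ω ^ k * ζ))} =
      Nat.card (A 0 ⊓ D w :) :=
    Nat.card_congr ⟨fun f => ⟨f.1.1, ⟨f.1.2, fun l => by simp⟩, f.2⟩,
      fun f => ⟨⟨f.1, f.2.1.1⟩, f.2.2⟩, fun _ => rfl, fun _ => rfl⟩
  have h5 : ellP p E o w = ∑ t ∈ range ((p - 1) * e), min (levelDim p E t) (d w t) := by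
    have hz : ∀ t, (∀ j, (p - 1) * w j ≤ t) → min (levelDim p E t) (d w t) = 0 := by
      intro t ht
      have h6 : (univ.filter fun j => t < Nat.gcd E (p - 1) * w (some j)) = ∅ :=
        filter_eq_empty_iff.2 fun j _ =>
          not_lt.2 ((Nat.mul_le_mul_right _ hgle).trans (ht (some j)))
      simp only [d]
      rw [h6, if_neg fun hh => absurd hh.2 (not_lt.2 (ht none))]
      simp
    refine (sum_subset (range_subset_range.2 (le_max_left _ ((p - 1) * e))) fun t _ ht =>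
      hz t fun j => ?_).trans (sum_subset (range_subset_range.2 (le_max_right _ _)) fun t _ ht =>
      hz t fun j => ?_).symm
    · exact (Nat.mul_le_mul_left _ (single_le_sum (f := w) (fun _ _ => Nat.zero_le _)
        (mem_univ j))).trans (not_lt.1 fun hh => ht (mem_range.2 hh))
    · exact (Nat.mul_le_mul_left _ (hw j)).trans (not_lt.1 fun hh => ht (mem_range.2 hh))
  rw [h4, h1, ← h3, h2, h5, mul_assoc, ← pow_add, ← sum_add_distrib]
  congr 2
  refine sum_congr rfl fun t _ => ?_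
  have : d 0 t = 0 := by simp only [d, Pi.zero_apply, mul_zero, not_lt_zero, filter_false, card_empty, and_false, ↓ reduceIte, add_zero]
  omega

theorem val_prod {A : Type*} [CommRing A] {δ : A} {n q : ℕ} (h : Chain δ n q) {ι : Type*}
    (s : Finset ι) (y : ι → A) :
    Chain.val δ n (∏ j ∈ s, y j) = min (∑ j ∈ s, Chain.val δ n (y j)) n := by
  choose u hu hy using fun j => val_spec h (y j)
  conv_lhs => rw [prod_congr rfl fun j _ => hy j, prod_mul_distrib, prod_pow_eq_pow_sum,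
    h.val_eq _ (IsUnit.prod_iff.2 fun j _ => hu j)]

theorem local_val {S : Type u} [CommRing S] [Finite S] {π : S →+* K} {γ α : S}
    (h : Chain γ e Q) (r : Res π γ) (hp : p.Prime) (hγ : γ ∣ (p : S)) (hα : IsUnit α)
    (hA : (p : S) = -(γ ^ E * α)) {s : ℕ} (hs : s < e) :
    (Nat.card {f : AdjoinRoot (LT S p) // Chain.val γ e (Algebra.norm S f) = s} : ℚ) =
      (Q : ℚ) ^ (e * p) * zP p E (orderOf (π α ^ ((Q - 1) / Nat.gcd E (p - 1)))) Q s := by
  classical
  have := h.nontrivial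
  have hp1 : 0 < p - 1 := by have := hp.two_le; omega
  have hg0 : 0 < Nat.gcd E (p - 1) := Nat.gcd_pos_of_pos_right _ hp1
  have hgle : Nat.gcd E (p - 1) ≤ p - 1 := Nat.gcd_le_right _ hp1
  obtain ⟨T, _, _, φ, ϖ, ζ, ω, x⟩ := exists_ext h hp hγ hα
  set o := orderOf (π α ^ ((Q - 1) / Nat.gcd E (p - 1))) with ho
  obtain ⟨ho0, H, cls, B⟩ := exists_br x h r hp hγ hα (Nat.gcd_dvd_right E _) ho
  choose rep hrep using B.surj
  let v : degreeLT S p → Option (Fin (Nat.gcd E (p - 1) / o)) → ℕ := fun f j =>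
    j.elim (Chain.val γ e (f.1.coeff 0)) fun j =>
      Chain.val ϖ ((p - 1) * e) (f.1.eval₂ φ (ϖ ^ E * (ω ^ rep j * ζ))) / Nat.gcd E (p - 1)
  have hv : ∀ f k, Chain.val ϖ ((p - 1) * e) (f.1.eval₂ φ (ϖ ^ E * (ω ^ k * ζ))) =
      Nat.gcd E (p - 1) * v f (some (cls k)) := by
    intro f k
    rw [← B.val_eq x h r hp hα f.2 (hrep (cls k))]
    exact (Nat.mul_div_cancel' (B.dvd_val x h r hp hα f.2 _)).symm
  have hval : ∀ f : degreeLT S p, Chain.val γ e (Algebra.norm S (AdjoinRoot.mk (LT S p) f.1)) =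
      min (v f none + o * ∑ j, v f (some j)) e := by
    intro f
    refine Nat.eq_of_mul_eq_mul_left hp1 ?_
    have hc := x.chain.choose_spec
    rw [← x.val h, x.norm hp hA, hc.val_mul, val_prod hc, x.val h,
      sum_congr rfl (g := fun k => Nat.gcd E (p - 1) * v f (some (cls k))) fun k _ => by
        rw [← hv, mul_left_comm],
      ← sum_fiberwise_of_maps_to (g := cls) (t := univ) fun _ _ => mem_univ _,
      sum_congr rfl (g := fun j => (p - 1) * (o * v f (some j))) fun j _ => by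
        rw [sum_congr rfl (g := fun _ => Nat.gcd E (p - 1) * v f (some j)) fun k hk => by
          rw [(mem_filter.1 hk).2], sum_const, B.card, smul_eq_mul]
        rw [mul_mul_mul_comm, Nat.div_mul_cancel (Nat.gcd_dvd_right E (p - 1))],
      ← mul_sum, ← mul_sum, mul_min, mul_add]
    change min ((p - 1) * v f none + _) _ = _
    omega
  have : Finite (degreeLT S p) := Finite.of_equiv _ (degreeLTEquiv S p).toEquiv.symm
  have := Fintype.ofFinite (degreeLT S p)
  have hcard : Nat.card {f : AdjoinRoot (LT S p) // Chain.val γ e (Algebra.norm S f) = s} =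
      ∑ w ∈ (Fintype.piFinset fun _ : Option (Fin (Nat.gcd E (p - 1) / o)) =>
        range (s + 1)).filter (fun w => w none + o * ∑ j, w (some j) = s),
        Nat.card {f : degreeLT S p // v f = w} := by
    rw [← Nat.card_congr (Equiv.subtypeEquiv (Equiv.ofBijective _
      (mk_bijective (monic_LT S hp) (natDegree_LT S hp))) (fun f => Iff.rfl))]
    simp only [Nat.card_eq_fintype_card, Fintype.card_subtype, Equiv.ofBijective_apply, hval]
    rw [card_eq_sum_card_fiberwise (f := v) (fun f hf => ?_)]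
    · refine sum_congr rfl fun w hw => ?_
      have hw' := (mem_filter.1 hw).2
      congr 1
      ext f
      simp only [mem_filter, mem_univ, true_and]
      refine ⟨fun hh => hh.2, fun hh => ⟨?_, hh⟩⟩
      rw [hh, hw']
      omega
    · have h1 := (mem_filter.1 hf).2
      refine mem_filter.2 ⟨Fintype.mem_piFinset.2 fun j => mem_range.2 ?_, by omega⟩
      rcases j with _ | j
      · omega
      · have h2 := single_le_sum (f := fun j => v f (some j)) (fun _ _ => Nat.zero_le _)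
          (mem_univ j)
        have h3 := Nat.le_mul_of_pos_left (∑ j, v f (some j)) ho0
        omega
  rw [hcard, zP, mul_sum]
  push_cast
  refine sum_congr rfl fun w hw => ?_
  rw [incl_excl, mul_sum]
  refine sum_congr rfl fun I _ => ?_
  have hw' : ∀ j, (w j + if j ∈ I then 1 else 0) ≤ e := fun j => by
    have := mem_range.1 (Fintype.mem_piFinset.1 (mem_filter.1 hw).1 j)
    split_ifs <;> omega
  have h1 := index_D B x h r hp hα _ hw'
  have h2 : Nat.card {f : degreeLT S p // ∀ j, (w j + if j ∈ I then 1 else 0) ≤ v f j} =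
      Nat.card {f : degreeLT S p // γ ^ (w none + if none ∈ I then 1 else 0) ∣ f.1.coeff 0 ∧ ∀ k,
      ϖ ^ (Nat.gcd E (p - 1) * (w (some (cls k)) + if some (cls k) ∈ I then 1 else 0)) ∣
        f.1.eval₂ φ (ϖ ^ E * (ω ^ k * ζ))} := by
    refine Nat.card_congr (Equiv.subtypeEquivRight fun f => ?_)
    rw [Option.forall, ← h.le_val_iff (hw' none), B.surj.forall]
    refine and_congr Iff.rfl (forall_congr' fun k => ?_)
    rw [← x.chain.choose_spec.le_val_iff (Nat.mul_le_mul hgle (hw' _)), hv,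
      Nat.mul_le_mul_left_iff hg0]
  have hQ : (Q : ℚ) ≠ 0 := by have := h.two_le_q; positivity
  have h3 := congrArg (Nat.cast : ℕ → ℚ) h1
  rw [← h2] at h3
  push_cast at h3
  rw [← h3]
  field_simp

end Pool.Agent.MP_975ab8_al.H19

end

-- part MP_975ab8_al.H19.Tw3
section

namespace Pool.Agent.MP_975ab8_al.H19

open Finset Polynomial

universe u

/-- The number of `n` with `(p - 1) n + θ l ≤ (p - 1) s`. -/
def ee (p θ s l : ℕ) : ℕ := if θ * l ≤ (p - 1) * s then ((p - 1) * s - θ * l) / (p - 1) + 1 else 0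

theorem lt_ee {p θ s l n : ℕ} (hp : 0 < p - 1) :
    n < ee p θ s l ↔ (p - 1) * n + θ * l ≤ (p - 1) * s := by
  unfold ee
  split_ifs with h
  · rw [Nat.lt_succ_iff, Nat.le_div_iff_mul_le hp, mul_comm n]
    omega
  · omega

theorem ee_le {p θ s l : ℕ} (hp : 0 < p - 1) : ee p θ s l ≤ s + 1 := by
  by_contra hc
  have h1 := (lt_ee hp).1 (not_le.1 hc)
  rw [mul_add] at h1
  omega

theorem latt_eq {p θ s : ℕ} (hp : 0 < p - 1) : latt p θ s = ∑ l : Fin p, ee p θ s l := by
  rw [latt, card_filter, sum_product_right, Fin.sum_univ_eq_sum_range (fun l => ee p θ s l)]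
  refine sum_congr rfl fun l _ => ?_
  rw [← card_filter, ← card_range (ee p θ s l)]
  congr 1
  ext n
  rw [mem_filter, mem_range, mem_range, lt_ee hp]
  exact ⟨fun hh => hh.2, fun hh => ⟨((lt_ee hp).2 hh).trans_le (ee_le hp), hh⟩⟩

theorem ee_adm {p θ s l : ℕ} (h : (p - 1) ∣ θ * l ∧ θ * l ≤ (p - 1) * s) :
    ∃ n, ee p θ s l = n + 1 ∧ (p - 1) * n + θ * l = (p - 1) * s := by
  refine ⟨_, if_pos h.2, ?_⟩
  rw [Nat.mul_div_cancel' (Nat.dvd_sub (dvd_mul_right _ _) h.1)]
  omega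

theorem logCoeff_eq {K : Type*} [Field K] {p : ℕ} (hp : 1 < p) (b : Fin p → K) {F D : K[X]}
    (hF : F = ∑ l, C (b l) * X ^ (l : ℕ)) (h0 : F.coeff 0 ≠ 0)
    (h : X ^ (p - 1) ∣ derivative F - D * F) : logCoeff b = D.coeff (p - 2) := by
  have h1 : (∑ l, PowerSeries.C (b l) * PowerSeries.X ^ (l : ℕ) : PowerSeries K) = F := by
    rw [hF, ← coeToPowerSeries.ringHom_apply, map_sum]
    simp only [coeToPowerSeries.ringHom_apply, Polynomial.coe_mul, coe_C, Polynomial.coe_pow, coe_X]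
  obtain ⟨A, hA⟩ := h
  have h2 := congrArg (coeToPowerSeries.ringHom : K[X] →+* PowerSeries K) hA
  simp only [map_sub, map_mul, map_pow, coeToPowerSeries.ringHom_apply, coe_X] at h2
  have h3 := PowerSeries.mul_inv_cancel (F : PowerSeries K) (by simpa using h0)
  have h4 : ((derivative F : K[X]) : PowerSeries K) * (F : PowerSeries K)⁻¹ =
      (D : PowerSeries K) + PowerSeries.X ^ (p - 1) *
        ((A : PowerSeries K) * (F : PowerSeries K)⁻¹) := by
    linear_combination (F : PowerSeries K)⁻¹ * h2 + (D : PowerSeries K) * h3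
  rw [logCoeff, h1, PowerSeries.derivative_coe, h4, map_add, PowerSeries.coeff_X_pow_mul',
    if_neg (by omega), add_zero, coeff_coe]

theorem coeff_sum_fin {A : Type*} [CommRing A] {p : ℕ} (y : Fin p → A) (l : Fin p) :
    (∑ l, C (y l) * X ^ (l : ℕ) : A[X]).coeff l = y l := by
  simp only [finsetSum_coeff, coeff_C_mul, coeff_X_pow, Fin.val_inj, mul_ite, mul_one, mul_zero, sum_ite_eq, mem_univ, ↓ reduceIte]

theorem sum_fin_mem {A : Type*} [CommRing A] {p : ℕ} (y : Fin p → A) :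
    (∑ l, C (y l) * X ^ (l : ℕ) : A[X]) ∈ degreeLT A p :=
  Submodule.sum_mem _ fun l _ =>
    mem_degreeLT.2 ((degree_C_mul_X_pow_le _ _).trans_lt (by exact_mod_cast l.2))

variable {S K : Type*} {T : Type u} [CommRing S] [CommRing T] [Field K] {φ : S →+* T}
  {π : S →+* K} {γ α : S} {e p Q θ i : ℕ} {ϖ ζ ω : T}
  {L : Type*} [CommRing L] {ι : T →+* L} {Φ : AdjoinRoot (LT S p) →+* L} {Y : L}
  {ev : L →+* T} {N : L →* T}

theorem Sc.unit_iff (c : Sc φ α e p θ i ϖ ι Φ Y ev N) (x : Ext φ γ α e p ϖ ζ ω) (h : Chain γ e Q)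
    (hp : p.Prime) {F : S[X]} (hF : F ∈ degreeLT S p) :
    (∃ ν U, ν < (p - 1) * e ∧ IsUnit U ∧ Φ (AdjoinRoot.mk _ F) = ι ϖ ^ ν * U) ↔
      Chain.val γ e (F.coeff 0) < e ∧ ∀ l < p, (p - 1) * Chain.val γ e (F.coeff 0) ≤
        (p - 1) * Chain.val γ e (F.coeff l) + θ * l := by
  have hp1 : 0 < p - 1 := by have := hp.two_le; omega
  obtain ⟨k, hk, h1, h2, v, z, z', hv, hF'⟩ := c.lead x h hp.pos hF
  have hu : IsUnit (ι (φ v) + Y * z') := by
    simpa using (c.nil x z' 0).isUnit_add_left_of_commute ((hv.map φ).map ι) (Commute.all _ _)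
  constructor
  · rintro ⟨ν, U, h3, h4, h5⟩
    obtain ⟨h6, rfl⟩ := (c.unique x h3 h4 (hF'.symm.trans h5)).2 hu hk
    exact ⟨Nat.lt_of_mul_lt_mul_left (a := p - 1) (by omega), h1⟩
  · rintro ⟨h3, h4⟩
    obtain rfl : k = 0 := by
      by_contra hc
      have h5 := h2 0 (Nat.pos_of_ne_zero hc)
      have h6 := h4 k hk
      omega
    refine ⟨_, _, Nat.mul_lt_mul_of_pos_left h3 hp1, ?_, hF'⟩
    simpa only [pow_zero, one_mul, mul_zero, zero_add] using (c.nil x 0 z).isUnit_add_left_of_commute hu (Commute.all _ _)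

theorem Sc.norm_A (c : Sc φ α e p θ i ϖ ι Φ Y ev N) (x : Ext φ γ α e p ϖ ζ ω) (h : Chain γ e Q)
    (r : Res π γ) (hp : p.Prime) (σ : K → S) (hσ : ∀ b, π (σ b) = b) (hσ0 : σ 0 = 0) {s : ℕ}
    {a : Fin p → S} {b : Fin p → K}
    (hb : ∀ l : Fin p, ((l : ℕ) = 0 → b l ≠ 0) ∧
      (b l ≠ 0 → (p - 1) ∣ θ * l ∧ θ * l ≤ (p - 1) * s))
    (ha : ∀ l : Fin p, γ ^ ee p θ s l ∣ a l - γ ^ (ee p θ s l - 1) * σ (b l)) :
    ∃ w y, IsUnit w ∧ π y = π α * logCoeff b ∧
      Algebra.norm S (AdjoinRoot.mk (LT S p) (∑ l, C (a l) * X ^ (l : ℕ))) =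
        (γ ^ s * w) ^ p * (1 + γ ^ i * y) := by
  have hp1 : 0 < p - 1 := by have := hp.two_le; omega
  let l0 : Fin p := ⟨0, hp.pos⟩
  have h1 : ∀ l : Fin p, ∃ z, φ (a l) * ϖ ^ (θ * l) = ϖ ^ ((p - 1) * s) * (φ (σ (b l)) + ϖ * z) := by
    intro l
    obtain ⟨y, hy⟩ := ha l
    have h2 : (p - 1) * s < (p - 1) * ee p θ s l + θ * l :=
      not_le.1 fun hh => lt_irrefl _ ((lt_ee hp1).2 hh)
    obtain ⟨d, hd⟩ := Nat.exists_eq_add_of_lt h2
    refine ⟨ϖ ^ d * φ y, ?_⟩
    have h3 : φ (γ ^ ee p θ s l) * ϖ ^ (θ * l) = ϖ ^ ((p - 1) * s + d + 1) := by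
      rw [map_pow, ← x.pow, ← pow_mul, ← pow_add, hd]
    rw [eq_add_of_sub_eq hy, map_add, map_mul, map_mul, add_mul, mul_right_comm, h3]
    by_cases h0 : b l = 0
    · rw [h0, hσ0, map_zero]
      ring
    · obtain ⟨n, hn, hn'⟩ := ee_adm ((hb l).2 h0)
      rw [hn, Nat.add_sub_cancel, map_pow, ← x.pow, ← pow_mul, ← hn']
      ring
  choose z hz using h1
  have he0 : ee p θ s l0 = s + 1 := by
    obtain ⟨n, hn, hn'⟩ := ee_adm (p := p) (θ := θ) (s := s) (l := l0) (by simp only [mul_zero, dvd_zero, zero_le, and_self, l0])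
    rw [hn, Nat.eq_of_mul_eq_mul_left hp1 (show (p - 1) * n = (p - 1) * s by simpa only [mul_eq_mul_left_iff, mul_zero, add_zero, l0] using hn')]
  obtain ⟨y0, hy0⟩ := ha l0
  rw [he0, Nat.add_sub_cancel] at hy0
  let z' : Fin p → T := Function.update z l0 (ϖ ^ (p - 2) * φ y0)
  have hϖ : ϖ * ϖ ^ (p - 2) = φ γ := by
    rw [← pow_succ', ← x.pow]
    congr 1
    omega
  have hz' : ∀ l : Fin p,
      φ (a l) * ϖ ^ (θ * l) = ϖ ^ ((p - 1) * s) * (φ (σ (b l)) + ϖ * z' l) := by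
    intro l
    by_cases hl : l = l0
    · rw [hl, eq_add_of_sub_eq hy0]
      simp only [z', Function.update_self, ← mul_assoc, hϖ, l0, mul_zero, pow_zero, mul_one,
        map_add, map_mul, map_pow, pow_mul, x.pow]
      ring
    · simp only [z', Function.update_of_ne hl, hz]
  let F : S[X] := ∑ l, C (σ (b l)) * X ^ (l : ℕ)
  let Z : T[X] := ∑ l, C (z' l) * X ^ (l : ℕ)
  have hF0 : F.coeff 0 = σ (b l0) := coeff_sum_fin _ l0
  have hb0 : b l0 ≠ 0 := (hb l0).1 rfl
  have hw : IsUnit (σ (b l0) + γ * y0) := by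
    rw [r.isUnit_iff h, map_add, map_mul, r.map_self, zero_mul, add_zero, hσ]
    exact hb0
  obtain ⟨v, hv⟩ := ((r.isUnit_iff h).2 (by rw [hσ]; exact hb0) :
    IsUnit (σ (b l0))).exists_right_inv
  obtain ⟨A, G, hAG⟩ := (show IsCoprime X F from ⟨-(C v * F.divX), C v, by
    have h2 := X_mul_divX_add F
    rw [hF0] at h2
    have h3 := congrArg C hv
    rw [C_mul, C_1] at h3
    linear_combination (-C v) * h2 + h3⟩).pow_left (m := p - 1)
  have hD : derivative F - derivative F * G * F = X ^ (p - 1) * (derivative F * A) := by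
    linear_combination (-derivative F) * hAG
  obtain ⟨z1, hz1⟩ := c.formula (F.map φ + C ϖ * Z) ((derivative F * G).map φ)
    ((derivative F * A).map φ) (derivative Z - (derivative F * G).map φ * Z) (by
      have h2 := congrArg (Polynomial.map φ) hD
      rw [Polynomial.map_sub, Polynomial.map_mul, Polynomial.map_mul φ (p := X ^ (p - 1)),
        Polynomial.map_pow, map_X, ← derivative_map] at h2
      rw [derivative_add, derivative_C_mul]
      linear_combination h2)
  have hP0 : (F.map φ + C ϖ * Z).coeff 0 = φ (σ (b l0) + γ * y0) := by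
    have h2 : Z.coeff 0 = z' l0 := coeff_sum_fin _ l0
    rw [coeff_add, coeff_map, coeff_C_mul, hF0, h2, map_add, map_mul, ← hϖ]
    simp only [z', Function.update_self, mul_assoc]
  have hΦ : Φ (AdjoinRoot.mk (LT S p) (∑ l, C (a l) * X ^ (l : ℕ))) =
      ι (ϖ ^ ((p - 1) * s)) * (F.map φ + C ϖ * Z).eval₂ ι Y := by
    simp only [c.phi, F, Z, eval₂_add, eval₂_mul, eval₂_C, eval₂_map, eval₂_finsetSum, eval₂_X_pow,
      mul_sum, ← sum_add_distrib, RingHom.comp_apply]
    refine sum_congr rfl fun l _ => ?_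
    have h2 := congrArg ι (hz' l)
    simp only [map_mul, map_add, map_pow] at h2 ⊢
    linear_combination Y ^ (l : ℕ) * h2
  obtain ⟨y', hy'⟩ := x.descend h hp (i := i) (n := s * p)
    (a := Algebra.norm S (AdjoinRoot.mk (LT S p) (∑ l, C (a l) * X ^ (l : ℕ)))) (hw.pow p)
    (y := α * (derivative F * G).coeff (p - 2)) (z := z1) (by
      rw [c.norm, hΦ, map_mul, c.N_iota, hz1, hP0, coeff_map]
      simp only [map_mul, map_pow, map_add, map_one, ← x.pow]
      ring)
  refine ⟨_, _, hw, ?_, by rw [hy', mul_pow, ← pow_mul]⟩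
  rw [map_add, map_mul, map_mul, r.map_self, zero_mul, add_zero, ← coeff_map,
    logCoeff_eq hp.one_lt b (F := F.map π) (D := (derivative F * G).map π)]
  · simp only [F, Polynomial.map_sum, Polynomial.map_mul, map_C, hσ, Polynomial.map_pow, map_X]
  · rw [coeff_map, hF0, hσ]
    exact hb0
  · refine ⟨(derivative F * A).map π, ?_⟩
    have h2 := congrArg (Polynomial.map π) hD
    rwa [Polynomial.map_sub, Polynomial.map_mul, Polynomial.map_mul π (p := X ^ (p - 1)),
      Polynomial.map_pow, map_X, ← derivative_map] at h2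

theorem data_iff (h : Chain γ e Q) (r : Res π γ) (hp : p.Prime) (σ : K → S)
    (hσ : ∀ b, π (σ b) = b) (hσ0 : σ 0 = 0) {s : ℕ} (hs : s < e) (a : Fin p → S) :
    (Chain.val γ e (a ⟨0, hp.pos⟩) = s ∧
      ∀ l : Fin p, (p - 1) * s ≤ (p - 1) * Chain.val γ e (a l) + θ * l) ↔
    ∃ b : Fin p → K, (∀ l : Fin p, ((l : ℕ) = 0 → b l ≠ 0) ∧
      (b l ≠ 0 → (p - 1) ∣ θ * l ∧ θ * l ≤ (p - 1) * s)) ∧
      ∀ l : Fin p, γ ^ ee p θ s l ∣ a l - γ ^ (ee p θ s l - 1) * σ (b l) := by
  have hp1 : 0 < p - 1 := by have := hp.two_le; omega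
  have hle : ∀ l, ee p θ s l ≤ e := fun l => (ee_le hp1).trans hs
  have he0 : ee p θ s 0 = s + 1 := by
    obtain ⟨n, hn, hn'⟩ := ee_adm (p := p) (θ := θ) (s := s) (l := 0) (by simp only [mul_zero, dvd_zero, zero_le, and_self])
    rw [hn, Nat.eq_of_mul_eq_mul_left hp1 (show (p - 1) * n = (p - 1) * s by simpa only [mul_eq_mul_left_iff, mul_zero, add_zero] using hn')]
  constructor
  · rintro ⟨h1, h2⟩
    have h3 : ∀ l : Fin p, ∃ b : K, (b ≠ 0 → (p - 1) ∣ θ * l ∧ θ * l ≤ (p - 1) * s) ∧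
        γ ^ ee p θ s l ∣ a l - γ ^ (ee p θ s l - 1) * σ b := by
      intro l
      by_cases hl : (p - 1) ∣ θ * l ∧ θ * l ≤ (p - 1) * s
      · obtain ⟨n, hn, hn'⟩ := ee_adm hl
        obtain ⟨y, hy⟩ := (h.le_val_iff (s := n) (by have := hle l; omega)).1
          (Nat.le_of_mul_le_mul_left (by have := h2 l; omega) hp1 : n ≤ Chain.val γ e (a l))
        refine ⟨π y, fun _ => hl, ?_⟩
        rw [hn, Nat.add_sub_cancel, hy, ← mul_sub, pow_succ]
        exact mul_dvd_mul_left _ (r.eq_iff.1 (hσ _).symm)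
      · refine ⟨0, fun hh => absurd rfl hh, ?_⟩
        rw [hσ0, mul_zero, sub_zero, ← h.le_val_iff (hle l)]
        by_contra hc
        have h4 := (lt_ee hp1).1 (not_le.1 hc)
        have h5 := h2 l
        exact hl ⟨(Nat.dvd_add_right (dvd_mul_right (p - 1) (Chain.val γ e (a l)))).1
          ⟨s, by omega⟩, by omega⟩
    choose b hb hb' using h3
    refine ⟨b, fun l => ⟨fun hl h0 => ?_, hb l⟩, hb'⟩
    obtain rfl : l = ⟨0, hp.pos⟩ := Fin.ext hl
    have h4 := hb' ⟨0, hp.pos⟩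
    rw [h0, hσ0, mul_zero, sub_zero, he0, ← h.le_val_iff hs] at h4
    omega
  · rintro ⟨b, hb, ha⟩
    constructor
    · obtain ⟨y, hy⟩ := ha ⟨0, hp.pos⟩
      rw [he0, Nat.add_sub_cancel] at hy
      refine (h.val_eq_iff hs).2 ⟨σ (b ⟨0, hp.pos⟩) + γ * y, ?_, by linear_combination hy⟩
      rw [r.isUnit_iff h, map_add, map_mul, r.map_self, zero_mul, add_zero, hσ]
      exact (hb _).1 rfl
    · intro l
      by_cases h0 : b l = 0
      · have h1 := ha l
        rw [h0, hσ0, mul_zero, sub_zero, ← h.le_val_iff (hle l)] at h1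
        by_contra hc
        exact absurd ((lt_ee hp1).2 (not_le.1 hc).le) (not_lt.2 h1)
      · obtain ⟨n, hn, hn'⟩ := ee_adm ((hb l).2 h0)
        have h1 := ha l
        rw [hn, Nat.add_sub_cancel] at h1
        have h2 := (h.le_val_iff (s := n) (by have := hle l; omega)).2
          ((dvd_sub_left (dvd_mul_right _ _)).1 ((pow_dvd_pow γ n.le_succ).trans h1))
        have := Nat.mul_le_mul_left (p - 1) h2
        omega

theorem data_unique (h : Chain γ e Q) (r : Res π γ) (hp : p.Prime) (σ : K → S)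
    (hσ : ∀ b, π (σ b) = b) {s : ℕ} (hs : s < e) {a : Fin p → S} {b b' : Fin p → K}
    (hb : ∀ l : Fin p, b l ≠ 0 → (p - 1) ∣ θ * l ∧ θ * l ≤ (p - 1) * s)
    (hb' : ∀ l : Fin p, b' l ≠ 0 → (p - 1) ∣ θ * l ∧ θ * l ≤ (p - 1) * s)
    (ha : ∀ l : Fin p, γ ^ ee p θ s l ∣ a l - γ ^ (ee p θ s l - 1) * σ (b l))
    (ha' : ∀ l : Fin p, γ ^ ee p θ s l ∣ a l - γ ^ (ee p θ s l - 1) * σ (b' l)) : b = b' := by
  have hp1 : 0 < p - 1 := by have := hp.two_le; omega
  funext l
  by_cases hl : (p - 1) ∣ θ * l ∧ θ * l ≤ (p - 1) * s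
  · obtain ⟨n, hn, -⟩ := ee_adm hl
    obtain ⟨y, hy⟩ := dvd_sub (ha' l) (ha l)
    have hne : n < e := by have := (ee_le (θ := θ) (l := l) hp1).trans hs; omega
    rw [hn, Nat.add_sub_cancel] at hy
    have h1 := dvd_of_pow_mul_eq h hne (x := σ (b l) - σ (b' l)) (y := γ * y)
      (by linear_combination hy)
    rw [← hσ (b l), ← hσ (b' l), r.eq_iff]
    exact (dvd_sub_left (dvd_mul_right _ _)).1 h1
  · rw [not_not.1 fun hh => hl (hb l hh), not_not.1 fun hh => hl (hb' l hh)]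

theorem card_data [Finite S] (h : Chain γ e Q) (hp : p.Prime) {s : ℕ} (hs : s < e)
    (c : Fin p → S) :
    (Nat.card {a : Fin p → S // ∀ l : Fin p, γ ^ ee p θ s l ∣ a l - c l} : ℂ) =
      (Q : ℂ) ^ (e * p) / (Q : ℂ) ^ latt p θ s := by
  have hp1 : 0 < p - 1 := by have := hp.two_le; omega
  have hle : ∀ l, ee p θ s l ≤ e := fun l => (ee_le hp1).trans hs
  have hQ : (Q : ℂ) ≠ 0 := Nat.cast_ne_zero.2 (by have := h.two_le_q; omega)
  have h1 : ∀ l : Fin p, Nat.card {y : S // γ ^ ee p θ s l ∣ y - c l} = Q ^ (e - ee p θ s l) :=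
    fun l => by
      rw [← h.card_dvd (hle l)]
      exact Nat.card_congr (Equiv.subtypeEquiv (Equiv.subRight (c l)) fun y => Iff.rfl)
  rw [Nat.card_congr (Equiv.subtypePiEquivPi (β := fun _ : Fin p => S)
    (p := fun l y => γ ^ ee p θ s l ∣ y - c l)), Nat.card_pi, prod_congr rfl fun l _ => h1 l,
    prod_pow_eq_pow_sum, eq_div_iff (pow_ne_zero _ hQ), latt_eq hp1]
  push_cast
  rw [← pow_add, ← sum_add_distrib, sum_congr rfl fun (l : Fin p) _ => Nat.sub_add_cancel (hle l)]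
  simp only [sum_const, card_univ, Fintype.card_fin, smul_eq_mul, mul_comm]

open Classical in
theorem local_tw {S : Type u} [CommRing S] [Finite S] {π : S →+* K} {γ α : S}
    [Fintype (AdjoinRoot (LT S p))] [Fintype K]
    (h : Chain γ e Q) (r : Res π γ) (hp : p.Prime) (hγ : γ ∣ (p : S)) (hα : IsUnit α)
    (hi : 0 < i) (hA : (p : S) = -(γ ^ (θ + i) * α)) :
    ∃ (A : AdjoinRoot (LT S p) → Prop) (sv : AdjoinRoot (LT S p) → ℕ)
      (xx : AdjoinRoot (LT S p) → K),
      (∀ f, A f → sv f < e ∧ ∃ w y, IsUnit w ∧ π y = π α * xx f ∧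
        Algebra.norm S f = (γ ^ sv f * w) ^ p * (1 + γ ^ i * y)) ∧
      (∀ (χ : K → ℂ) (s : ℕ), s < e → ∑ f, (if A f ∧ sv f = s then χ (xx f) else 0) =
        (Q : ℂ) ^ (e * p) * ((∑ b : Fin p → K, if ∀ l : Fin p, ((l : ℕ) = 0 → b l ≠ 0) ∧
          (b l ≠ 0 → (p - 1) ∣ θ * l ∧ θ * l ≤ (p - 1) * s) then χ (logCoeff b) else 0) /
            (Q : ℂ) ^ latt p θ s)) ∧
      ∀ s, 2 * s + i < e → ∀ P : S → Prop, (∀ y, P y → Chain.val γ e y ≤ s) →
        (∀ y w z, IsUnit w → (P (y * w ^ p * (1 + γ ^ (i + 1) * z)) ↔ P y)) → ∀ b : S,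
        Nat.card {f // ¬ A f ∧ P (Algebra.norm S f * (1 + γ ^ i * b))} =
          Nat.card {f // ¬ A f ∧ P (Algebra.norm S f)} := by
  have := h.nontrivial
  obtain ⟨T, _, _, φ, ϖ, ζ, ω, x⟩ := exists_ext h hp hγ hα
  obtain ⟨L, _, ι, Φ, Y, ev, N, c⟩ := exists_sc x hp hγ hi hA
  obtain ⟨σ, hσ, hσ0⟩ : ∃ σ : K → S, (∀ b, π (σ b) = b) ∧ σ 0 = 0 := by
    choose σ hσ using r.surj
    refine ⟨fun b => σ b - σ 0, fun b => by rw [map_sub, hσ, hσ, sub_zero], sub_self _⟩
  have hbij : Function.Bijective fun a : Fin p → S =>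
      AdjoinRoot.mk (LT S p) (∑ l, C (a l) * X ^ (l : ℕ)) := by
    refine (mk_bijective (monic_LT S hp) (natDegree_LT S hp)).comp
      (f := fun a : Fin p → S => (⟨_, sum_fin_mem a⟩ : degreeLT S p))
      ⟨fun a a' hh => _root_.funext fun l => ?_, fun F => ?_⟩
    · rw [← coeff_sum_fin a, ← coeff_sum_fin a', Subtype.mk_eq_mk.1 hh]
    · refine ⟨fun l => F.1.coeff l, Subtype.ext (Polynomial.ext fun l => ?_)⟩
      by_cases hl : l < p
      · exact coeff_sum_fin _ ⟨l, hl⟩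
      · have h1 : ∀ G ∈ degreeLT S p, G.coeff l = 0 := fun G hG => coeff_eq_zero_of_degree_lt
          ((mem_degreeLT.1 hG).trans_le (by exact_mod_cast not_lt.1 hl))
        rw [h1 _ (sum_fin_mem _), h1 _ F.2]
  let ε := Equiv.ofBijective _ hbij
  let adm : ℕ → (Fin p → K) → Prop := fun s b => ∀ l : Fin p, ((l : ℕ) = 0 → b l ≠ 0) ∧
    (b l ≠ 0 → (p - 1) ∣ θ * l ∧ θ * l ≤ (p - 1) * s)
  let dat : ℕ → (Fin p → S) → (Fin p → K) → Prop := fun s a b =>
    ∀ l : Fin p, γ ^ ee p θ s l ∣ a l - γ ^ (ee p θ s l - 1) * σ (b l)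
  let A : AdjoinRoot (LT S p) → Prop := fun f =>
    ∃ ν U, ν < (p - 1) * e ∧ IsUnit U ∧ Φ f = ι ϖ ^ ν * U
  let sv : AdjoinRoot (LT S p) → ℕ := fun f => Chain.val γ e (ε.symm f ⟨0, hp.pos⟩)
  have hA' : ∀ a s, s < e → ((A (ε a) ∧ sv (ε a) = s) ↔ ∃ b, adm s b ∧ dat s a b) := by
    intro a s hs
    rw [← data_iff h r hp σ hσ hσ0 hs]
    have h1 := c.unit_iff x h hp (sum_fin_mem a)
    rw [show (∑ l, C (a l) * X ^ (l : ℕ) : S[X]).coeff 0 = a ⟨0, hp.pos⟩ from
      coeff_sum_fin a ⟨0, hp.pos⟩] at h1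
    simp only [sv, Equiv.symm_apply_apply]
    constructor
    · rintro ⟨h2, rfl⟩
      exact ⟨rfl, fun l => coeff_sum_fin a l ▸ (h1.1 h2).2 l l.2⟩
    · rintro ⟨rfl, h2⟩
      exact ⟨h1.2 ⟨hs, fun l hl => (coeff_sum_fin a ⟨l, hl⟩).symm ▸ h2 ⟨l, hl⟩⟩, rfl⟩
  have hlt : ∀ a, A (ε a) → sv (ε a) < e := by
    intro a ha
    have h1 := ((c.unit_iff x h hp (sum_fin_mem a)).1 ha).1
    rw [show (∑ l, C (a l) * X ^ (l : ℕ) : S[X]).coeff 0 = a ⟨0, hp.pos⟩ from
      coeff_sum_fin a ⟨0, hp.pos⟩] at h1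
    simpa only [sv, Equiv.symm_apply_apply] using h1
  have hex : ∀ f, ∃ b, A f → adm (sv f) b ∧ dat (sv f) (ε.symm f) b := by
    intro f
    obtain ⟨a, rfl⟩ := ε.surjective f
    by_cases ha : A (ε a)
    · obtain ⟨b, hb⟩ := (hA' a _ (hlt a ha)).1 ⟨ha, rfl⟩
      exact ⟨b, fun _ => by rwa [Equiv.symm_apply_apply]⟩
    · exact ⟨0, fun hh => absurd hh ha⟩
  choose bb hbb using hex
  refine ⟨A, sv, fun f => logCoeff (bb f), fun f hf => ?_, fun χ s hs => ?_,
    fun s hs P h1 h2 b => c.equidist x h hp hγ hα hi hA hs P h1 h2 b⟩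
  · obtain ⟨a, rfl⟩ := ε.surjective f
    obtain ⟨h1, h2⟩ := hbb _ hf
    rw [Equiv.symm_apply_apply] at h2
    exact ⟨hlt a hf, c.norm_A x h r hp σ hσ hσ0 h1 h2⟩
  · have := Fintype.ofFinite S
    have h1 : ∀ a, (if A (ε a) ∧ sv (ε a) = s then χ (logCoeff (bb (ε a))) else 0) =
        ∑ b : Fin p → K, (if adm s b then χ (logCoeff b) else 0) * if dat s a b then 1 else 0 := by
      intro a
      split_ifs with ha
      · obtain ⟨h2, h3⟩ := hbb _ ha.1
        rw [Equiv.symm_apply_apply, ha.2] at h3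
        rw [ha.2] at h2
        rw [sum_eq_single (bb (ε a)), if_pos h2, if_pos h3, mul_one]
        · intro b _ hb
          by_cases h4 : adm s b
          · rw [if_neg fun h5 => hb (data_unique h r hp σ hσ hs (fun l => (h4 l).2)
              (fun l => (h2 l).2) h5 h3), mul_zero]
          · rw [if_neg h4, zero_mul]
        · exact fun hh => absurd (mem_univ _) hh
      · refine (sum_eq_zero fun b _ => ?_).symm
        by_cases h4 : adm s b
        · rw [if_neg fun h5 => ha ((hA' a s hs).2 ⟨b, h4, h5⟩), mul_zero]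
        · rw [if_neg h4, zero_mul]
    rw [← ε.sum_comp, sum_congr rfl fun a _ => h1 a, sum_comm, sum_div, mul_sum]
    refine sum_congr rfl fun b _ => ?_
    rw [← mul_sum, sum_boole, ← Fintype.card_subtype, ← Nat.card_eq_fintype_card,
      card_data h hp hs]
    ring

end Pool.Agent.MP_975ab8_al.H19

end

-- part MP_975ab8_al.H19.Glob
section

namespace Pool.Agent.MP_975ab8_al.H19

open Finset Polynomial

universe u

variable {R : Type u} {k : Type*} [CommRing R] [Field k] {π : R →+* k} {γ α u : R}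
  {e p q m E θ i s : ℕ}

theorem addChar_sum (ψ : AddChar k ℂ) {ι : Type*} (t : Finset ι) (y : ι → k) :
    ψ (∑ j ∈ t, y j) = ∏ j ∈ t, ψ (y j) := by
  classical
  induction t using Finset.induction_on with
  | empty => simp
  | insert a t ha ih => rw [sum_insert ha, prod_insert ha, AddChar.map_add_eq_mul, ih]

theorem global_val [Finite R] (h : Chain γ e q) (r : Res π γ) (hp : p.Prime) (hγ : γ ∣ (p : R))
    (hm : ¬ p ∣ m) (hα : IsUnit α) (hA : (p : R) = -(γ ^ E * α))
    (K : ℕ → Type*) [∀ n, Field (K n)] [∀ n, Algebra k (K n)]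
    (hK : ∀ n, 0 < n → Module.finrank k (K n) = n) (hs : s < e) :
    (Nat.card {f : AdjoinRoot (X ^ (p * m) - 1 : R[X]) // Chain.val γ e (Algebra.norm R f) = s} : ℚ)
      = (q : ℚ) ^ (e * (p * m)) * coeffV p E (π α) m q s := by
  classical
  have := h.nontrivial
  obtain ⟨N, P, d, ρ, ε, hPm, hPd, hd0, hch, hres, hρ, -, hε, hsum, hprod⟩ :=
    exists_comp h r hp hγ hm K hK
  have hfin : ∀ j, Finite (AdjoinRoot (P j)) := fun j => by
    have := (hPm j).finite_adjoinRoot
    exact Module.finite_of_finite R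
  have : ∀ j, Fintype (AdjoinRoot (LT (AdjoinRoot (P j)) p)) := fun j => by
    have := (monic_LT (AdjoinRoot (P j)) hp).finite_adjoinRoot
    have : Finite (AdjoinRoot (LT (AdjoinRoot (P j)) p)) := Module.finite_of_finite (AdjoinRoot (P j))
    exact Fintype.ofFinite _
  have h1 := euler (A := ℚ) (X := fun j => AdjoinRoot (LT (AdjoinRoot (P j)) p)) (fun _ _ => 1)
    (fun j x => Chain.val (AdjoinRoot.of (P j) γ) e (Algebra.norm (AdjoinRoot (P j)) x))
    (fun j => 1 * d j) (fun j => by simpa using hd0 j) (fun j => ((q : ℚ) ^ d j) ^ (e * p))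
    (fun j t => zP p E (orderOf (π α ^ ((q ^ d j - 1) / Nat.gcd E (p - 1)))) ((q : ℚ) ^ d j) t)
    (s := s) (fun j t ht => by
      have h2 := local_val (E := E) (hch j) (hres j) hp
        (by rw [← map_natCast (AdjoinRoot.of (P j))]; exact map_dvd _ hγ) (hα.map _)
        (by rw [← map_natCast (AdjoinRoot.of (P j)), hA, map_neg, map_mul, map_pow]) (ht.trans_lt hs)
      have h3 := orderOf_injective (algebraMap k (K (d j))).toMonoidHom (algebraMap k _).injective
        (π α ^ ((q ^ d j - 1) / Nat.gcd E (p - 1)))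
      rw [hρ, ← map_pow] at h2
      erw [h3] at h2
      rw [sum_boole, ← Fintype.card_subtype, ← Nat.card_eq_fintype_card, h2]
      push_cast
      rfl)
  rw [hprod _ fun n => PowerSeries.mk fun t => if 1 * n ∣ t then
    zP p E (orderOf (π α ^ ((q ^ n - 1) / Nat.gcd E (p - 1)))) ((q : ℚ) ^ n) (t / (1 * n)) else 0,
    prod_pow, prod_pow_eq_pow_sum, hsum, ← pow_mul, mul_left_comm, mul_comm m] at h1
  rw [coeffV, eulerCoeff, ← h1, ← Nat.card_congr (Equiv.subtypeEquiv ε fun f => Iff.rfl),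
    Nat.card_eq_fintype_card, Fintype.card_subtype, card_filter]
  push_cast
  refine sum_congr rfl fun f _ => ?_
  choose v hv hv' using fun j => val_spec (hch j) (Algebra.norm (AdjoinRoot (P j)) (f j))
  rw [hε, prod_congr rfl fun j _ => by
    rw [hv' j, map_mul, map_pow, norm_of (hPm j), hPd, ← pow_mul], prod_mul_distrib,
    prod_pow_eq_pow_sum, h.val_eq _ (IsUnit.prod_univ_iff.2 fun j => (hv j).map _), prod_const_one]
  simp only [one_mul]
  refine ite_congr (propext ?_) (fun _ => rfl) (fun _ => rfl)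
  omega

open Classical in
theorem global_tw [Finite R] (h : Chain γ e q) (r : Res π γ) (hp : p.Prime) (hγ : γ ∣ (p : R))
    (hm : ¬ p ∣ m) (hα : IsUnit α) (hi : 0 < i) (hA : (p : R) = -(γ ^ (θ + i) * α))
    (K : ℕ → Type*) [∀ n, Field (K n)] [∀ n, Algebra k (K n)]
    (hK : ∀ n, 0 < n → Module.finrank k (K n) = n) :
    ∃ (Z : Type u) (_ : Fintype Z) (ε : Z ≃ AdjoinRoot (X ^ (p * m) - 1 : R[X])) (A : Z → Prop)
      (t : Z → ℕ) (xx : Z → k),
      (∀ f, A f → ∃ w y, IsUnit w ∧ π y = xx f ∧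
        Algebra.norm R (ε f) = γ ^ t f * w ^ p * (1 + γ ^ i * y)) ∧
      (∀ a, 2 * Chain.val γ e a + i < e → ∀ c, ∑ f, (if ¬ A f then (1 : ℂ) else 0) *
        ((if Orb γ p (i + 1) (a * (1 + γ ^ i * c)) (Algebra.norm R (ε f)) then 1 else 0) -
          if Orb γ p (i + 1) a (Algebra.norm R (ε f)) then 1 else 0) = 0) ∧
      ∀ (ψ : AddChar k ℂ) (κ : k) (s : ℕ), s < e →
        ∑ f, (if A f ∧ t f = s then ψ (κ * xx f) else 0) = (q : ℂ) ^ (e * (p * m)) *
          eulerCoeff m q p (fun n => twist p θ (K n) fun y => ψ (κ * (π α * y))) s := by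
  have := h.nontrivial
  obtain ⟨N, P, d, ρ, ε, hPm, hPd, hd0, hch, hres, hρ, htr, hε, hsum, hprod⟩ :=
    exists_comp h r hp hγ hm K hK
  have hfin : ∀ j, Finite (AdjoinRoot (P j)) := fun j => by
    have := (hPm j).finite_adjoinRoot
    exact Module.finite_of_finite R
  have : ∀ j, Fintype (AdjoinRoot (LT (AdjoinRoot (P j)) p)) := fun j => by
    have := (monic_LT (AdjoinRoot (P j)) hp).finite_adjoinRoot
    have : Finite (AdjoinRoot (LT (AdjoinRoot (P j)) p)) := Module.finite_of_finite (AdjoinRoot (P j))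
    exact Fintype.ofFinite _
  have hfK : ∀ j, Finite (K (d j)) := fun j => Finite.of_surjective _ (hres j).surj
  have : ∀ j, Fintype (K (d j)) := fun j => Fintype.ofFinite _
  choose A sv xx h1 h2 h3 using fun j => local_tw (θ := θ) (hch j) (hres j) hp
    (by rw [← map_natCast (AdjoinRoot.of (P j))]; exact map_dvd _ hγ) (hα.map _) hi
    (by rw [← map_natCast (AdjoinRoot.of (P j)), hA, map_neg, map_mul, map_pow])
  have hone : ∀ j n y, ∃ z, Algebra.norm R (1 + AdjoinRoot.of (P j) γ ^ n * y) =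
      1 + γ ^ n * (Algebra.trace R _ y + γ ^ n * z) := fun j n y => by
    rw [← map_pow]
    exact norm_one_add (hPm j) _ y
  have hπ : ∀ y z, π (y + γ ^ i * z) = π y := fun y z => by
    rw [map_add, map_mul, map_pow, r.map_self, zero_pow hi.ne', zero_mul, add_zero]
  refine ⟨_, inferInstance, ε, fun f => ∀ j, A j (f j), fun f => ∑ j, p * d j * sv j (f j),
    fun f => ∑ j, π α * Algebra.trace k _ (xx j (f j)), fun f hf => ?_, fun a ha c => ?_,
    fun ψ κ s hs => ?_⟩
  · choose w y hw hy hN using fun j => (h1 j _ (hf j)).2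
    choose z hz using fun j => hone j i (y j)
    obtain ⟨y', h4, h5⟩ := prod_one_add r hi univ fun j => Algebra.trace R _ (y j) + γ ^ i * z j
    refine ⟨∏ j, Algebra.norm R (w j), y', IsUnit.prod_univ_iff.2 fun j => (hw j).map _, ?_, ?_⟩
    · rw [h4]
      refine sum_congr rfl fun j _ => ?_
      rw [hπ, htr, hy, hρ, ← Algebra.smul_def, map_smul, smul_eq_mul]
    · rw [hε, ← h5, ← prod_pow_eq_pow_sum, ← prod_pow, ← prod_mul_distrib, ← prod_mul_distrib]
      refine prod_congr rfl fun j _ => ?_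
      rw [hN, map_mul, hz, map_pow, map_mul, map_pow, norm_of (hPm j), hPd]
      ring
  · refine Eq.trans (sum_congr rfl fun f _ => ?_) (sum_not_all A (fun f =>
      (if Orb γ p (i + 1) (a * (1 + γ ^ i * c)) (Algebra.norm R (ε f)) then 1 else 0) -
        if Orb γ p (i + 1) a (Algebra.norm R (ε f)) then 1 else 0) fun j f => ?_)
    · congr
    have : Module.Finite k (K (d j)) := Module.Finite.of_finite
    have : Finite k := Finite.of_surjective _ r.surj
    obtain ⟨b, hb⟩ := Algebra.trace_surjective k (K (d j)) (π c)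
    obtain ⟨b, rfl⟩ := (hres j).surj b
    obtain ⟨z, hz⟩ := hone j i b
    let y0 := ∏ l ∈ univ.erase j, Algebra.norm R (Algebra.norm (AdjoinRoot (P l)) (f l))
    have h4 : ∀ x, Algebra.norm R (ε (Function.update f j x)) =
        Algebra.norm R (Algebra.norm (AdjoinRoot (P j)) x) * y0 := by
      intro x
      rw [hε, ← mul_prod_erase _ _ (mem_univ j), Function.update_self]
      congr 1
      exact prod_congr rfl fun l hl => by rw [Function.update_of_ne (ne_of_mem_erase hl)]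
    have hu := isUnit_one_add_pow h hi c
    have h5 := h3 j _ ha (fun y => Orb γ p (i + 1) (a * (1 + γ ^ i * c)) (Algebra.norm R y * y0))
      (fun y hy => ?_) (fun y w z hw => ?_) b
    · simp only [h4, mul_sub, sum_sub_distrib, ite_zero_mul_ite_zero, mul_one, sum_boole,
        ← Fintype.card_subtype, ← Nat.card_eq_fintype_card]
      rw [← h5, sub_eq_zero]
      congr 1
      refine Nat.card_congr (Equiv.subtypeEquivRight fun x => and_congr Iff.rfl ?_)
      have h6 := Orb.shift (p := p) h r hi (Algebra.norm R (Algebra.norm (AdjoinRoot (P j)) x) * y0)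
        (c' := c) (c := Algebra.trace R _ b + γ ^ i * z) (by rw [hπ, htr, hb])
      rw [map_mul, hz, mul_right_comm]
      refine ⟨fun h7 => ?_, fun h7 => (h7.mul _).trans (h6.symm h i.succ_pos)⟩
      obtain ⟨g, hg⟩ := hu.exists_right_inv
      have h8 := (h7.trans h6).mul g
      rwa [mul_assoc, mul_assoc _ _ g, hg, mul_one, mul_one] at h8
    · have h6 := hy.val h i.succ_pos
      obtain ⟨v, -, hv⟩ := val_spec (hch j) y
      rw [val_mul_unit h _ hu] at h6
      rw [← h6, h.le_val_iff (Chain.val_le _ _ _)]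
      conv_rhs => rw [hv, map_mul, map_pow, norm_of (hPm j), hPd, mul_assoc]
      exact (pow_dvd_pow_of_dvd (dvd_pow_self γ (hd0 j).ne') _).mul_right _
    · obtain ⟨z', hz'⟩ := hone j (i + 1) z
      have h6 : Orb γ p (i + 1) (Algebra.norm R y * y0) (Algebra.norm R
          (y * w ^ p * (1 + AdjoinRoot.of (P j) γ ^ (i + 1) * z)) * y0) :=
        ⟨_, Algebra.trace R _ z + γ ^ (i + 1) * z', hw.map (Algebra.norm R),
          by rw [map_mul, map_mul, map_pow, hz']; ring⟩
      exact ⟨fun h7 => h7.trans (h6.symm h i.succ_pos), fun h7 => h7.trans h6⟩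
  · have h4 := euler (A := ℂ) (X := fun j => AdjoinRoot (LT (AdjoinRoot (P j)) p))
      (fun j x => if A j x then ψ (κ * (π α * Algebra.trace k _ (xx j x))) else 0) sv
      (fun j => p * d j) (fun j => Nat.mul_pos hp.pos (hd0 j)) (fun j => ((q : ℂ) ^ d j) ^ (e * p))
      (fun j => twist p θ (K (d j)) fun y => ψ (κ * (π α * y))) (s := s) (fun j t ht => by
        have h5 := h2 j (fun y => ψ (κ * (π α * Algebra.trace k _ y))) t (ht.trans_lt hs)
        rw [twist, finsum_eq_sum_of_fintype, (hres j).card (hch j)]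
        push_cast at h5 ⊢
        rw [← h5]
        refine sum_congr rfl fun x _ => ?_
        by_cases h6 : A j x <;> simp only [h6, ↓ reduceIte, true_and, ite_self, false_and])
    rw [hprod _ fun n => PowerSeries.mk fun t => if p * n ∣ t then
      twist p θ (K n) (fun y => ψ (κ * (π α * y))) (t / (p * n)) else 0,
      prod_pow, prod_pow_eq_pow_sum, hsum, ← pow_mul, mul_left_comm, mul_comm m] at h4
    rw [eulerCoeff, ← h4]
    refine sum_congr rfl fun f _ => ?_
    rw [prod_ite_zero, mul_sum, addChar_sum]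
    by_cases h5 : ∀ j, A j (f j) <;> simp only [h5, implies_true, true_and, mem_univ, imp_self, ↓ reduceIte, false_and, forall_const, ite_self]

/-- The number of `i' < i` prime to `p`. -/
def cc (p i : ℕ) : ℕ := ((range i).filter fun i' => ¬ p ∣ i').card

theorem cc_succ (p i : ℕ) : cc p (i + 1) = if p ∣ i then cc p i else cc p i + 1 := by
  unfold cc
  rw [range_add_one, filter_insert]
  by_cases h : p ∣ i
  · simp [h]
  · rw [if_pos h, if_neg h, card_insert_of_notMem (by simp)]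

theorem orb_one_iff [Finite R] (h : Chain γ e q) (r : Res π γ) (hp : p.Prime) (hγ : γ ∣ (p : R))
    (hs : s < e) {b : R} (hb : IsUnit b) (y : R) :
    Orb γ p 1 (γ ^ s * b) y ↔ Chain.val γ e y = s := by
  constructor
  · intro hy
    rw [hy.val h one_pos, h.val_eq s hb, min_eq_left hs.le]
  · intro hy
    obtain ⟨v, hv, rfl⟩ := (h.val_eq_iff hs).1 hy
    exact ((Orb.one h r hp hγ _ hb).symm h one_pos).trans (Orb.one h r hp hγ _ hv)

theorem card_orb [Finite R] (h : Chain γ e q) (r : Res π γ) (hp : p.Prime)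
    (hpu : (p : R) = γ ^ E * u) {ψ : AddChar k ℂ} (hψ : ψ ≠ 1) {b : R} (hb : IsUnit b) :
    ∀ n, n + 1 ≤ E → s + (n + 1) ≤ e →
      (Nat.card {y // Orb γ p (n + 1) (γ ^ s * b) y} : ℂ) * q ^ cc p (n + 1) =
        (q - 1) * q ^ (e - s - 1) := by
  classical
  have := Fintype.ofFinite R
  have : Finite k := Finite.of_surjective _ r.surj
  have := Fintype.ofFinite k
  intro n
  induction n with
  | zero =>
    intro hE hs
    have h1 := congrArg (fun x : ℚ => (x : ℂ)) (card_val h (s := s) (by omega))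
    simp only [zero_add, orb_one_iff h r hp (hpu ▸ (dvd_pow_self γ (by omega)).mul_right u)
      (show s < e by omega) hb]
    rw [Nat.card_eq_fintype_card, Fintype.card_subtype]
    simpa only [cc, range_one, filter_singleton, dvd_zero, not_true_eq_false, ↓ reduceIte, card_empty, pow_zero, mul_one, Rat.cast_natCast, Rat.cast_mul, Rat.cast_sub, Rat.cast_one, Rat.cast_pow] using h1
  | succ n ih =>
    intro hE hs
    rw [← ih (by omega) (by omega), cc_succ p (n + 1)]
    split_ifs with hd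
    · congr 2
      exact Nat.card_congr (Equiv.subtypeEquivRight fun y =>
        ⟨fun hy => hy.mono (Nat.le_succ _), fun hy => hy.succ h r hp hpu n.succ_pos hE hd⟩)
    · obtain ⟨ξ, hξ⟩ : ∃ ξ, Orb γ p (n + 1) (γ ^ s) (γ ^ s * b) → ∃ x, π x = ξ ∧
          Orb γ p (n + 1 + 1) (γ ^ s * (1 + γ ^ (n + 1) * x)) (γ ^ s * b) := by
        by_cases hO : Orb γ p (n + 1) (γ ^ s) (γ ^ s * b)
        · obtain ⟨w, z, hw, hz⟩ := hO
          exact ⟨π z, fun _ => ⟨z, rfl, w, 0, hw, by rw [hz]; ring⟩⟩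
        · exact ⟨0, fun hh => absurd hh hO⟩
      have h1 := orb_step h r hp hpu hE hd hs hb (fun y : R => y) (fun _ => False) (fun _ => 0)
        (fun _ => 0) (fun _ hf => hf.elim) (fun c => ?_) hψ ξ hξ
      · simp only [false_and, if_false, sum_const_zero, mul_zero, ite_self, add_zero] at h1
        rw [← h1]
        ring
      · have hu := isUnit_one_add_pow h n.succ_pos c
        obtain ⟨g, hg⟩ := hu.exists_right_inv
        simp only [not_false_eq_true, if_true, one_mul, sum_sub_distrib, sub_eq_zero]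
        refine (Fintype.sum_equiv (Units.mulRight hu.unit) _ _ fun y => ?_).symm
        refine ite_congr (propext ⟨fun hy => hy.mul _, fun hy => ?_⟩) (fun _ => rfl) (fun _ => rfl)
        have h8 := hy.mul g
        rwa [Units.mulRight_apply, IsUnit.unit_spec, mul_assoc, mul_assoc _ _ g, hg, mul_one,
          mul_one] at h8

open Classical in
theorem long_count [Finite R] [Fintype k] (h : Chain γ e q) (r : Res π γ) (hp : p.Prime)
    (hm : ¬ p ∣ m) (hu : IsUnit u) (hpu : (p : R) = γ ^ E * u)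
    (K : ℕ → Type*) [∀ n, Field (K n)] [∀ n, Algebra k (K n)]
    (hK : ∀ n, 0 < n → Module.finrank k (K n) = n) {ψ : AddChar k ℂ} (hψ : ψ ≠ 1)
    (hs : 2 * s + E < e) {j : ℕ} {w x : R} (hw : IsUnit w) (hj : E ≤ j ∨ (¬ p ∣ j ∧ π x ≠ 0))
    (hE : 0 < E) :
    ∀ n, n + 1 ≤ E → (Nat.card {f : AdjoinRoot (X ^ (p * m) - 1 : R[X]) //
        Orb γ p (n + 1) (γ ^ s * (w ^ p * (1 + γ ^ j * x))) (Algebra.norm R f)} : ℂ) *
        q ^ cc p (n + 1) = (q : ℂ) ^ (e * (p * m)) * ((coeffV p E (-π u) m q s : ℚ) +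
      ∑ i ∈ (range (n + 1)).filter (fun i => ¬ p ∣ i ∧ i ≤ j), (q : ℂ) ^ cc p i *
        ∑ κ ∈ univ.erase (0 : k), ψ (-(κ * if i = j then π x else 0)) *
          eulerCoeff m q p (fun n => twist p (E - i) (K n) fun y => ψ (κ * (-π u * y))) s) := by
  have hγ : γ ∣ (p : R) := hpu ▸ (dvd_pow_self γ hE.ne').mul_right u
  have hj0 : 0 < j := hj.elim hE.trans_le fun hh =>
    Nat.pos_of_ne_zero fun h0 => hh.1 (h0 ▸ dvd_zero p)
  have hb : IsUnit (w ^ p * (1 + γ ^ j * x)) := (hw.pow p).mul (isUnit_one_add_pow h hj0 x)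
  have hA : (p : R) = -(γ ^ E * -u) := by rw [hpu]; ring
  intro n
  induction n with
  | zero =>
    intro _
    have h1 := congrArg (fun x : ℚ => (x : ℂ))
      (global_val h r hp hγ hm hu.neg hA K hK (s := s) (by omega))
    simp only [zero_add, orb_one_iff h r hp hγ (show s < e by omega) hb]
    simpa only [cc, range_one, filter_singleton, dvd_zero, not_true_eq_false, ↓ reduceIte, card_empty, pow_zero, mul_one, zero_le, and_true, mul_ite, mul_zero, neg_mul, mul_neg, mem_univ, sum_erase_eq_sub, zero_mul, ite_self, neg_zero, AddChar.map_zero_eq_one, one_mul, sum_empty, add_zero, Rat.cast_natCast, map_neg, Rat.cast_mul, Rat.cast_pow] using h1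
  | succ n ih =>
    intro hn
    have ih := ih (by omega)
    rw [cc_succ p (n + 1), range_add_one (n := n + 1), filter_insert]
    by_cases hd : p ∣ n + 1
    · rw [if_pos hd, if_neg fun hh => hh.1 hd, ← ih]
      congr 2
      exact Nat.card_congr (Equiv.subtypeEquivRight fun y =>
        ⟨fun hy => hy.mono (Nat.le_succ _), fun hy => hy.succ h r hp hpu n.succ_pos hn hd⟩)
    obtain ⟨Z, _, ε, A, t, xx, h1, h2, h3⟩ := global_tw (θ := E - (n + 1)) h r hp hγ hm hu.neg
      n.succ_pos (by rwa [Nat.sub_add_cancel (by omega)]) K hK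
    have hO : Orb γ p (n + 1) (γ ^ s) (γ ^ s * (w ^ p * (1 + γ ^ j * x))) ↔ n + 1 ≤ j := by
      have h4 : Orb γ p (j + 1) (γ ^ s * 1 * (1 + γ ^ j * x)) (γ ^ s * (w ^ p * (1 + γ ^ j * x))) :=
        ⟨w, 0, hw, by ring⟩
      refine ⟨fun hO => ?_, fun hle => Orb.mono hle ⟨w, x, hw, by ring⟩⟩
      by_contra hc
      obtain ⟨h5, h6⟩ := hj.resolve_left (by omega)
      refine h6 ((Orb.unique (s := s) (c := 0) h r hp hpu (by omega) h5 (by omega) isUnit_one
        ?_).trans (map_zero π))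
      simpa only [mul_one, mul_zero, add_zero] using
        (hO.mono (by omega)).trans (h4.symm h j.succ_pos)
    have h4 := orb_step h r hp hpu hn hd (s := s) (by omega) hb (fun f => Algebra.norm R (ε f))
      A t xx h1 (h2 _ (by rw [h.val_eq s hb]; omega)) hψ (if n + 1 = j then π x else 0) (fun hh => by
        split_ifs with h5
        · exact ⟨x, rfl, w, 0, hw, by rw [h5]; ring⟩
        · refine ⟨0, map_zero π, Orb.mono (j := j) (by have := hO.1 hh; omega) ⟨w, x, hw, by ring⟩⟩)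
    have h6 : ∀ i a, Nat.card {f // Orb γ p i a (Algebra.norm R (ε f))} =
        Nat.card {f : AdjoinRoot (X ^ (p * m) - 1 : R[X]) // Orb γ p i a (Algebra.norm R f)} :=
      fun i a => Nat.card_congr (Equiv.subtypeEquiv ε fun f => Iff.rfl)
    rw [h6, h6] at h4
    simp only [h3 ψ _ s (by omega), hO, map_neg] at h4
    rw [if_neg hd, pow_succ, mul_comm _ (q : ℂ), ← mul_assoc, mul_comm _ (q : ℂ), h4, add_mul, ih]
    by_cases h5 : n + 1 ≤ j
    · rw [if_pos h5, if_pos (c := ¬ p ∣ n + 1 ∧ n + 1 ≤ j) ⟨hd, h5⟩, sum_insert (by simp only [mem_filter, mem_range, lt_self_iff_false, Order.add_one_le_iff, false_and, not_false_eq_true])]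
      simp only [mul_add, mul_sum, sum_mul]
      rw [add_assoc, add_comm (∑ _ ∈ _, _)]
      congr 2
      exact sum_congr rfl fun κ _ => by ring
    · rw [if_neg h5, if_neg (c := ¬ p ∣ n + 1 ∧ n + 1 ≤ j) fun hh => h5 hh.2, zero_mul, add_zero]

theorem card_norm_eq [Nontrivial R] {n : ℕ} (hn : 0 < n) (P : R → Prop) :
    Nat.card {f : AdjoinRoot (X ^ n - 1 : R[X]) // P (Algebra.norm R f)} =
      Nat.card {a : Fin n → R // P (cir a).det} :=
  (Nat.card_congr (Equiv.subtypeEquiv (cycBasis R hn).equivFun.symm.toEquiv fun a => by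
    rw [← norm_eq_det_cir hn]; rfl)).symm

theorem cnt_orb [Finite R] (h : Chain γ e q) (hp : p.Prime) (hpq : p ∣ q) (hm : ¬ p ∣ m)
    (hu : IsUnit u) (hpu : (p : R) = γ ^ E * u) (hE : 0 < E) {a y : R} (hy : Orb γ p E a y) :
    cnt (p * m) y = cnt (p * m) a := by
  have := h.nontrivial
  have hm0 : 0 < m := Nat.pos_of_ne_zero (fun h => hm (h ▸ dvd_zero p))
  have hn := Nat.mul_pos hp.pos hm0
  obtain ⟨w, z, hw, rfl⟩ := hy
  have hmu := isUnit_natCast h hp hpq hm
  have h1 : InH R (p * m) (w ^ p) := by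
    obtain ⟨E', hE'⟩ := exists_coords (R := R) hp.pos hm0 (hp.coprime_iff_not_dvd.2 hm)
    have := nontrivial_cyc (R := R) hm0
    obtain ⟨v, -, hv⟩ := exists_unit_norm hm0 hmu hw
    obtain ⟨a, ha⟩ := (inH_iff hp.pos).1 (inH_pow_self hp.pos v)
    exact ⟨E' a, by rw [hE', ha, map_pow, hv]⟩
  have h2 : InH R (p * m) (1 + γ ^ E * z) := by
    obtain ⟨v, hv⟩ := (hu.mul hmu).exists_right_inv
    have : NeZero (p * m) := ⟨hn.ne'⟩
    refine (inH_iff hn).2 ⟨fun i => (if i = 0 then 1 else 0) + v * z, ?_⟩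
    have : cir (fun i : Fin (p * m) => (if i = 0 then 1 else 0) + v * z) =
        1 + Matrix.replicateCol Unit (fun _ => v * z) * Matrix.replicateRow Unit (fun _ => (1 : R)) := by
      ext i j
      simp [cir, Matrix.one_apply, Matrix.mul_apply, sub_eq_zero, eq_comm]
    rw [this, Matrix.det_one_add_replicateCol_mul_replicateRow]
    simp only [dotProduct, one_mul, Finset.sum_const, Finset.card_univ, Fintype.card_fin,
      nsmul_eq_mul, Nat.cast_mul, hpu]
    linear_combination (γ ^ E * z) * hv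
  rw [cnt_mul_of_inH hn (isUnit_one_add_pow h hE z) h2, cnt_mul_of_inH hn (hw.pow p) h1]

open Classical in
theorem count_main [Finite R] [Fintype k] (h : Chain γ e q) (r : Res π γ) (hp : p.Prime)
    (hpq : p ∣ q) (hm : ¬ p ∣ m) (hu : IsUnit u) (hpu : (p : R) = γ ^ E * u) (hEe : E < e)
    (K : ℕ → Type*) [∀ n, Field (K n)] [∀ n, Algebra k (K n)]
    (hK : ∀ n, 0 < n → Module.finrank k (K n) = n) {ψ : AddChar k ℂ} (hψ : ψ ≠ 1)
    (hs : s < e) {j : ℕ} {w x : R} (hw : IsUnit w) (hj : E ≤ j ∨ (¬ p ∣ j ∧ IsUnit x)) :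
    (cnt (p * m) (γ ^ s * w ^ p * (1 + γ ^ j * x)) : ℂ) =
      (q : ℂ) ^ (e * (p * m)) * ((coeffV p E (-π u) m q s : ℚ) +
      ∑ i ∈ (range E).filter (fun i => ¬ p ∣ i ∧ i ≤ j ∧ s + i < e), (q : ℂ) ^ cc p i *
        ∑ κ ∈ univ.erase (0 : k), ψ (-(κ * if i = j then π x else 0)) *
          eulerCoeff m q p (fun n => twist p (E - i) (K n) fun y => ψ (κ * (-π u * y))) s) /
        ((q - 1) * q ^ (e - s - 1)) := by
  have := h.nontrivial
  have hm0 : 0 < m := Nat.pos_of_ne_zero (fun h => hm (h ▸ dvd_zero p))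
  have hn := Nat.mul_pos hp.pos hm0
  have hE : 0 < E := Nat.pos_of_ne_zero fun h0 => h.not_isUnit (isUnit_of_dvd_unit
    (dvd_natCast h hp hpq) (by rw [hpu, h0, pow_zero, one_mul]; exact hu))
  have hj0 : 0 < j := hj.elim hE.trans_le fun hh =>
    Nat.pos_of_ne_zero fun h0 => hh.1 (h0 ▸ dvd_zero p)
  have hb : IsUnit (w ^ p * (1 + γ ^ j * x)) := (hw.pow p).mul (isUnit_one_add_pow h hj0 x)
  obtain ⟨B, _, _, θ, δ, v, e', he', hB, hθ, rfl, hv, hpv, hvu⟩ :=
    exists_lift h hp hu hpu hE hEe (2 * s + E + 1)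
  have := hB.nontrivial
  have hun : ∀ y, IsUnit (θ y) → IsUnit y := fun y hy =>
    hB.isUnit_of_not_dvd fun hd => h.not_isUnit (isUnit_of_dvd_unit (map_dvd θ hd) hy)
  have r' : Res (π.comp θ) δ := by
    refine ⟨r.surj.comp hθ, fun y => ⟨fun hy => ?_, fun hy => (r.ker _).2 (map_dvd θ hy)⟩⟩
    by_contra hc
    exact ((hB.isUnit_of_not_dvd hc).map (π.comp θ)).ne_zero hy
  obtain ⟨w, rfl⟩ := hθ w
  obtain ⟨x, rfl⟩ := hθ x
  obtain ⟨n, hn1, hn2, hn3⟩ : ∃ n, n + 1 ≤ E ∧ s + (n + 1) ≤ e ∧ (n + 1 = E ∨ s + (n + 1) = e) :=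
    ⟨min E (e - s) - 1, by omega, by omega, by omega⟩
  have h1 := long_count hB r' hp hm hv hpv K hK hψ (s := s) he' (x := x) (hun w hw)
    (hj.imp_right fun hh => ⟨hh.1, (r.isUnit_iff h).1 hh.2⟩) hE n hn1
  have h2 := card_orb h r hp hpu hψ hb n hn1 hn2
  have h3 : ∀ y, Orb δ p (n + 1) (δ ^ s * (w ^ p * (1 + δ ^ j * x))) y ↔
      Orb (θ δ) p (n + 1) (θ δ ^ s * (θ w ^ p * (1 + θ δ ^ j * θ x))) (θ y) := by
    intro y
    constructor
    · rintro ⟨w', z, hw', rfl⟩
      exact ⟨θ w', θ z, hw'.map θ, by simp⟩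
    · rintro ⟨w', z, hw', hy⟩
      obtain ⟨w', rfl⟩ := hθ w'
      obtain ⟨z, rfl⟩ := hθ z
      obtain ⟨t, c, -, hc, ht⟩ := hB.exists_eq
        (y - δ ^ s * (w ^ p * (1 + δ ^ j * x)) * w' ^ p * (1 + δ ^ (n + 1) * z))
      have h4 := congrArg θ ht
      simp only [map_sub, map_mul, map_pow, map_add, map_one, hy, sub_self] at h4
      rw [eq_comm, (hc.map θ).mul_left_eq_zero, h.pow_eq_zero_iff] at h4
      obtain ⟨d, rfl⟩ := Nat.exists_eq_add_of_le (hn2.trans h4)
      have hb' := ((hun w hw).pow p).mul (isUnit_one_add_pow hB hj0 x)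
      have h5 := Orb.of_dvd (γ := δ) (p := p) (i := n + 1) (δ ^ s)
        ((hb'.mul ((hun w' hw').pow p)).mul (isUnit_one_add_pow hB (i := n + 1) n.succ_pos z))
        (V := w ^ p * (1 + δ ^ j * x) * w' ^ p * (1 + δ ^ (n + 1) * z) + δ ^ (n + 1) * (δ ^ d * c))
        ⟨_, add_sub_cancel_left _ _⟩
      refine Orb.trans ⟨w', z, hun w' hw', rfl⟩ ?_
      convert h5 using 1
      · ring
      · linear_combination ht
  have h4 := card_preimage (AddMonoidHom.compLeft θ.toAddMonoidHom (Fin (p * m)))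
    (Function.Surjective.comp_left hθ) fun a =>
      Orb (θ δ) p (n + 1) (θ δ ^ s * (θ w ^ p * (1 + θ δ ^ j * θ x))) (cir a).det
  have := Fintype.ofFinite R
  have := (monic_cyc (R := R) hn).finite_adjoinRoot
  have : Finite (AdjoinRoot (X ^ (p * m) - 1 : R[X])) := Module.finite_of_finite R
  have h5 : Nat.card {a : Fin (p * m) → R // Orb (θ δ) p (n + 1)
      (θ δ ^ s * (θ w ^ p * (1 + θ δ ^ j * θ x))) (cir a).det} =
      Nat.card {y // Orb (θ δ) p (n + 1) (θ δ ^ s * (θ w ^ p * (1 + θ δ ^ j * θ x))) y} *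
        cnt (p * m) (θ δ ^ s * (θ w ^ p * (1 + θ δ ^ j * θ x))) := by
    rw [← card_norm_eq hn, card_fiberwise (Algebra.norm R), Nat.card_eq_fintype_card,
      Fintype.card_subtype]
    refine sum_const_nat fun y hy => ?_
    rw [← cnt_eq hn]
    refine cnt_orb h hp hpq hm hu hpu hE ?_
    rcases hn3 with hn3 | hn3
    · exact hn3 ▸ (mem_filter.1 hy).2
    · obtain ⟨w', z, hw', rfl⟩ := (mem_filter.1 hy).2
      refine ⟨w', 0, hw', ?_⟩
      have h6 : θ δ ^ (s + (n + 1)) = 0 := hn3 ▸ h.pow_eq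
      linear_combination (θ w ^ p * (1 + θ δ ^ j * θ x) * w' ^ p * z) * h6
  rw [card_norm_eq hn] at h1
  simp only [h3, det_cir_map, RingHom.comp_apply, r.eq_iff.2 hvu] at h1
  rw [h5, Nat.card_pi, Nat.card_pi, h.card_eq, hB.card_eq] at h4
  have h6 := congrArg (Nat.cast : ℕ → ℂ) h4
  simp only [prod_const, card_univ, Fintype.card_fin, Nat.cast_mul, Nat.cast_pow, ← pow_mul] at h6
  have hq : (q : ℂ) ≠ 0 := Nat.cast_ne_zero.2 (by have := h.two_le_q; omega)
  have hq1 : (q : ℂ) - 1 ≠ 0 := sub_ne_zero.2 (by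
    exact_mod_cast (by have := h.two_le_q; omega : q ≠ 1))
  have h7 : (range E).filter (fun i => ¬ p ∣ i ∧ i ≤ j ∧ s + i < e) =
      (range (n + 1)).filter (fun i => ¬ p ∣ i ∧ i ≤ j) := by
    ext i
    simp only [mem_filter, mem_range]
    exact ⟨fun hh => ⟨by omega, hh.2.1, hh.2.2.1⟩, fun hh => ⟨by omega, hh.2.1, hh.2.2, by omega⟩⟩
  rw [h7, eq_div_iff (mul_ne_zero hq1 (pow_ne_zero _ hq)), mul_assoc (θ δ ^ s)]
  refine mul_left_cancel₀ (pow_ne_zero (e' * (p * m)) hq) ?_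
  rw [mul_left_comm _ ((q : ℂ) ^ (e * (p * m))), ← h1, ← h2]
  erw [mul_comm ((q : ℂ) ^ (e * (p * m))), mul_right_comm, h6]
  ring

theorem count_zero [Finite R] (h : Chain γ e q) (r : Res π γ) (hp : p.Prime)
    (hpq : p ∣ q) (hm : ¬ p ∣ m) (hu : IsUnit u) (hpu : (p : R) = γ ^ E * u)
    (K : ℕ → Type*) [∀ n, Field (K n)] [∀ n, Algebra k (K n)]
    (hK : ∀ n, 0 < n → Module.finrank k (K n) = n) :
    (cnt (p * m) (0 : R) : ℚ) =
      (q : ℚ) ^ (e * (p * m)) * (1 - ∑ s ∈ range e, coeffV p E (-π u) m q s) := by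
  classical
  have := h.nontrivial
  have hm0 : 0 < m := Nat.pos_of_ne_zero (fun h => hm (h ▸ dvd_zero p))
  have hn0 := Nat.mul_pos hp.pos hm0
  have := (monic_cyc (R := R) hn0).finite_adjoinRoot
  have : Finite (AdjoinRoot (X ^ (p * m) - 1 : R[X])) := Module.finite_of_finite R
  have := Fintype.ofFinite (AdjoinRoot (X ^ (p * m) - 1 : R[X]))
  have h1 := card_eq_sum_card_fiberwise (s := univ) (t := range (e + 1))
    (f := fun f : AdjoinRoot (X ^ (p * m) - 1 : R[X]) => Chain.val γ e (Algebra.norm R f))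
    (fun f _ => mem_range.2 (Nat.lt_succ_of_le (Chain.val_le _ _ _)))
  rw [card_univ, ← Nat.card_eq_fintype_card, card_cyc h hn0, sum_range_succ] at h1
  have h2 : (univ.filter fun f : AdjoinRoot (X ^ (p * m) - 1 : R[X]) =>
      Chain.val γ e (Algebra.norm R f) = e).card = cnt (p * m) (0 : R) := by
    rw [cnt_eq hn0, Nat.card_eq_fintype_card, Fintype.card_subtype]
    congr 1
    ext f
    simp only [mem_filter, mem_univ, true_and]
    rw [← zero_dvd_iff, ← h.pow_eq, ← h.le_val_iff le_rfl]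
    exact ⟨fun hh => hh.ge, fun hh => le_antisymm (Chain.val_le _ _ _) hh⟩
  have h3 := congrArg (Nat.cast : ℕ → ℚ) h1
  rw [h2] at h3
  push_cast at h3
  rw [sum_congr rfl (g := fun s => (q : ℚ) ^ (e * (p * m)) * coeffV p E (-π u) m q s)
    (fun s hs => by
      rw [← map_neg, ← global_val (E := E) h r hp (dvd_natCast h hp hpq) hm hu.neg
        (by rw [hpu]; ring) K hK (mem_range.1 hs), Nat.card_eq_fintype_card,
        Fintype.card_subtype]), ← mul_sum] at h3
  linear_combination -h3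

end Pool.Agent.MP_975ab8_al.H19

end
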